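import Pool.Agent.Lib.MP_48b749_nt.LocalGood

set_option autoImplicit false

open Polynomial WithZero Multiplicative IsDiscreteValuationRing IsDedekindDomain.HeightOneSpectrum

namespace Pool.Agent.BSDFF

section places

variable {k : Type} [Field k]

lemma Place.ext' {K : Type} [Field K] [Algebra k K] {v w : Place k K} (h : v.ring = w.ring) :
    v = w := by
  cases v; cases w
  simp only at h
  subst h
  rfl

/-- the prime ideal of `k[t]` generated by an irreducible polynomial -/
noncomputable def primeOf (π : k[X]) (h : Irreducible π) :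
    IsDedekindDomain.HeightOneSpectrum k[X] where
  asIdeal := Ideal.span {π}
  isPrime := (Ideal.span_singleton_prime h.ne_zero).mpr h.prime
  ne_bot := by simpa using h.ne_zero

/-- the closed point of the affine line given by an irreducible polynomial -/
noncomputable def placeOf (π : k[X]) (h : Irreducible π) : Place k (RatFunc k) where
  ring := ((primeOf π h).valuation (RatFunc k)).valuationSubring
  const_mem := fun c => by
    rw [Valuation.mem_valuationSubring_iff, IsScalarTower.algebraMap_apply k k[X] (RatFunc k)]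
    exact IsDedekindDomain.HeightOneSpectrum.valuation_le_one _ _
  dvr := inferInstance

lemma poly_mem (v : Place k (RatFunc k)) (hX : RatFunc.X ∈ v.ring) (f : k[X]) :
    algebraMap k[X] (RatFunc k) f ∈ v.ring := by
  induction f using Polynomial.induction_on with
  | C a =>
    have : algebraMap k[X] (RatFunc k) (C a) = algebraMap k (RatFunc k) a := by
      rw [IsScalarTower.algebraMap_apply k k[X] (RatFunc k)]; rfl
    rw [this]
    exact v.const_mem a
  | add p q hp hq => rw [map_add]; exact add_mem hp hq
  | monomial n a h =>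
    rw [pow_succ, ← mul_assoc, map_mul, RatFunc.algebraMap_X]
    exact mul_mem h hX

/-- `k[t]` maps to the valuation ring -/
noncomputable def polyHom (v : Place k (RatFunc k)) (hX : RatFunc.X ∈ v.ring) : k[X] →+* v.ring :=
  (algebraMap k[X] (RatFunc k)).codRestrict v.ring.toSubring (poly_mem v hX)

lemma coe_polyHom (v : Place k (RatFunc k)) (hX : RatFunc.X ∈ v.ring) (f : k[X]) :
    ((polyHom v hX f : v.ring) : RatFunc k) = algebraMap k[X] (RatFunc k) f := rfl

lemma algebraMap_polyHom (v : Place k (RatFunc k)) (hX : RatFunc.X ∈ v.ring) (f : k[X]) :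
    algebraMap v.ring (RatFunc k) (polyHom v hX f) = algebraMap k[X] (RatFunc k) f := rfl

lemma polyHom_ne_zero (v : Place k (RatFunc k)) (hX : RatFunc.X ∈ v.ring) {f : k[X]} (hf : f ≠ 0) :
    polyHom v hX f ≠ 0 := by
  intro h
  have := congrArg (fun x : v.ring => (x : RatFunc k)) h
  simp only [coe_polyHom] at this
  exact hf (by simpa using this)

lemma exists_irreducible_nonunit (v : Place k (RatFunc k)) (hX : RatFunc.X ∈ v.ring) :
    ∃ π : k[X], π.Monic ∧ Irreducible π ∧ ¬ IsUnit (polyHom v hX π) := by
  classical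
  set P : Ideal k[X] := Ideal.comap (polyHom v hX) (IsLocalRing.maximalIdeal v.ring) with hP
  have hPp : P.IsPrime := Ideal.comap_isPrime _ _
  have hPne : P ≠ ⊥ := by
    intro hbot
    have hunit : ∀ f : k[X], f ≠ 0 → IsUnit (polyHom v hX f) := by
      intro f hf
      by_contra h
      have : f ∈ P := by
        rw [hP, Ideal.mem_comap]
        exact (IsLocalRing.mem_maximalIdeal _).mpr h
      rw [hbot] at this
      exact hf (by simpa using this)
    apply IsDiscreteValuationRing.not_isField v.ring
    refine ⟨⟨0, 1, zero_ne_one⟩, mul_comm, fun {x} hx => ?_⟩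
    have hx0 : (x : RatFunc k) ≠ 0 := by
      intro h; apply hx; exact Subtype.ext h
    have h1 := hunit _ (RatFunc.num_ne_zero hx0)
    have h2 := hunit _ (RatFunc.denom_ne_zero (x : RatFunc k))
    have h3 : x * polyHom v hX (RatFunc.denom (x : RatFunc k)) =
        polyHom v hX (RatFunc.num (x : RatFunc k)) := by
      apply Subtype.ext
      change (x : RatFunc k) * algebraMap _ _ _ = algebraMap _ _ _
      have h4 := RatFunc.num_div_denom (x : RatFunc k)
      have h5 : algebraMap k[X] (RatFunc k) (RatFunc.denom (x : RatFunc k)) ≠ 0 := by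
        simpa using RatFunc.denom_ne_zero (x : RatFunc k)
      exact (eq_div_iff h5).mp h4.symm
    have h6 : IsUnit x := isUnit_of_mul_isUnit_left (by rw [h3]; exact h1)
    exact h6.exists_right_inv
  have hpr : Prime (Submodule.IsPrincipal.generator P) :=
    Submodule.IsPrincipal.prime_generator_of_isPrime P hPne
  refine ⟨normalize (Submodule.IsPrincipal.generator P), ?_, ?_, ?_⟩
  · exact Polynomial.monic_normalize hpr.ne_zero
  · exact (associated_normalize _).irreducible_iff.mp hpr.irreducible
  · have h1 : Submodule.IsPrincipal.generator P ∈ P := Submodule.IsPrincipal.generator_mem P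
    have h2 : normalize (Submodule.IsPrincipal.generator P) ∈ P := by
      rw [← Ideal.span_singleton_le_iff_mem] at h1 ⊢
      rwa [← Ideal.span_singleton_eq_span_singleton.mpr (associated_normalize _)]
    rw [hP, Ideal.mem_comap] at h2
    exact (IsLocalRing.mem_maximalIdeal _).mp h2

lemma polyHom_unit_iff (v : Place k (RatFunc k)) (hX : RatFunc.X ∈ v.ring) {π : k[X]}
    (hπ : Irreducible π) (hn : ¬ IsUnit (polyHom v hX π)) (f : k[X]) :
    IsUnit (polyHom v hX f) ↔ ¬ π ∣ f := by
  constructor
  · rintro h ⟨g, rfl⟩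
    rw [map_mul] at h
    exact hn (isUnit_of_mul_isUnit_left h)
  · intro h
    have hc : IsCoprime π f := (hπ.coprime_iff_not_dvd).mpr h
    obtain ⟨a, b, hab⟩ := hc
    have h1 : polyHom v hX b * polyHom v hX f = 1 - polyHom v hX a * polyHom v hX π := by
      rw [← map_mul, ← map_mul, ← map_one (polyHom v hX), ← map_sub]
      congr 1
      linear_combination hab
    have h2 : IsUnit (1 - polyHom v hX a * polyHom v hX π) := by
      apply IsLocalRing.isUnit_one_sub_self_of_mem_nonunits
      intro h3
      exact hn (isUnit_of_mul_isUnit_right h3)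
    rw [← h1] at h2
    exact isUnit_of_mul_isUnit_right h2

lemma ring_mem_iff (v : Place k (RatFunc k)) (hX : RatFunc.X ∈ v.ring) {π : k[X]}
    (hπ : Irreducible π) (hn : ¬ IsUnit (polyHom v hX π)) (x : RatFunc k) :
    x ∈ v.ring ↔ ¬ π ∣ x.denom := by
  have hd0 : algebraMap k[X] (RatFunc k) x.denom ≠ 0 := by
    simpa using RatFunc.denom_ne_zero x
  have hx : x * algebraMap k[X] (RatFunc k) x.denom = algebraMap k[X] (RatFunc k) x.num :=
    (eq_div_iff hd0).mp (RatFunc.num_div_denom x).symm
  constructor
  · intro hmem hdvd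
    have hnum : ¬ π ∣ x.num := by
      intro h
      exact hπ.not_isUnit ((RatFunc.isCoprime_num_denom x).isUnit_of_dvd' h hdvd)
    have h1 : IsUnit (polyHom v hX x.num) := (polyHom_unit_iff v hX hπ hn _).mpr hnum
    have h2 : (⟨x, hmem⟩ : v.ring) * polyHom v hX x.denom = polyHom v hX x.num := by
      apply Subtype.ext
      exact hx
    rw [← h2] at h1
    exact (polyHom_unit_iff v hX hπ hn _).mp (isUnit_of_mul_isUnit_right h1) hdvd
  · intro h
    obtain ⟨y, hy⟩ := ((polyHom_unit_iff v hX hπ hn _).mpr h).exists_right_inv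
    have hy' : algebraMap k[X] (RatFunc k) x.denom * (y : RatFunc k) = 1 := by
      have := congrArg (fun z : v.ring => (z : RatFunc k)) hy
      simpa [coe_polyHom] using this
    have h3 : x = ((polyHom v hX x.num * y : v.ring) : RatFunc k) := by
      change x = algebraMap k[X] (RatFunc k) x.num * (y : RatFunc k)
      rw [← hx, mul_assoc, hy', mul_one]
    rw [h3]
    exact (polyHom v hX x.num * y).2

lemma X_mem_placeOf (π : k[X]) (h : Irreducible π) : RatFunc.X ∈ (placeOf π h).ring := by
  change RatFunc.X ∈ ((primeOf π h).valuation (RatFunc k)).valuationSubring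
  rw [Valuation.mem_valuationSubring_iff, ← RatFunc.algebraMap_X]
  exact IsDedekindDomain.HeightOneSpectrum.valuation_le_one _ _

lemma nonunit_placeOf (π : k[X]) (h : Irreducible π) :
    ¬ IsUnit (polyHom (placeOf π h) (X_mem_placeOf π h) π) := by
  intro hu
  obtain ⟨y, hy⟩ := hu.exists_right_inv
  have h1 : (primeOf π h).valuation (RatFunc k) (algebraMap k[X] (RatFunc k) π) < 1 := by
    rw [IsDedekindDomain.HeightOneSpectrum.valuation_lt_one_iff_mem]
    exact Ideal.mem_span_singleton_self π
  have h2 : (primeOf π h).valuation (RatFunc k) (y : RatFunc k) ≤ 1 := y.2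
  have h3 : (primeOf π h).valuation (RatFunc k) (algebraMap k[X] (RatFunc k) π) *
      (primeOf π h).valuation (RatFunc k) (y : RatFunc k) = 1 := by
    rw [← map_mul]
    have := congrArg (fun z : (placeOf π h).ring => (z : RatFunc k)) hy
    change algebraMap k[X] (RatFunc k) π * (y : RatFunc k) = 1 at this
    rw [this, map_one]
  exact absurd h3 (ne_of_lt (mul_lt_one_of_lt_of_le h1 h2))

lemma eq_placeOf (v : Place k (RatFunc k)) (hX : RatFunc.X ∈ v.ring) {π : k[X]}
    (hπ : Irreducible π) (hn : ¬ IsUnit (polyHom v hX π)) : v = placeOf π hπ := by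
  apply Place.ext'
  ext x
  rw [ring_mem_iff v hX hπ hn, ring_mem_iff _ (X_mem_placeOf π hπ) hπ (nonunit_placeOf π hπ)]

lemma nonunit_congr {v w : Place k (RatFunc k)} (h : v = w) (hX : RatFunc.X ∈ v.ring)
    (hX' : RatFunc.X ∈ w.ring) (π : k[X]) (hn : ¬ IsUnit (polyHom v hX π)) :
    ¬ IsUnit (polyHom w hX' π) := by
  subst h
  exact hn

lemma placeOf_injective {π π' : k[X]} (h : Irreducible π) (h' : Irreducible π') (hm : π.Monic)
    (hm' : π'.Monic) (he : placeOf π h = placeOf π' h') : π = π' := by
  have h1 := nonunit_congr he (X_mem_placeOf π h) (X_mem_placeOf π' h') π (nonunit_placeOf π h)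
  have h2 : π' ∣ π := by
    by_contra hcon
    exact h1 ((polyHom_unit_iff (placeOf π' h') (X_mem_placeOf π' h') h' (nonunit_placeOf π' h')
      π).mpr hcon)
  have h3 : Associated π' π := h'.associated_of_dvd h h2
  exact (Polynomial.eq_of_monic_of_associated hm' hm h3).symm

/-- the residue field at a finite place is `k[t]/(π)` -/
lemma residue_equiv (v : Place k (RatFunc k)) (hX : RatFunc.X ∈ v.ring) {π : k[X]}
    (hπ : Irreducible π) (hn : ¬ IsUnit (polyHom v hX π)) :
    ∃ e : AdjoinRoot π ≃+* IsLocalRing.ResidueField v.ring,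
      ∀ f : k[X], e (AdjoinRoot.mk π f) = IsLocalRing.residue v.ring (polyHom v hX f) := by
  classical
  set φ : k[X] →+* IsLocalRing.ResidueField v.ring :=
    (IsLocalRing.residue v.ring).comp (polyHom v hX) with hφ
  have hker : RingHom.ker φ = Ideal.span {π} := by
    ext f
    rw [RingHom.mem_ker, Ideal.mem_span_singleton, hφ, RingHom.comp_apply,
      IsLocalRing.residue_eq_zero_iff, IsLocalRing.mem_maximalIdeal, mem_nonunits_iff,
      polyHom_unit_iff v hX hπ hn, not_not]
  have hsurj : Function.Surjective φ := by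
    intro y
    obtain ⟨x, rfl⟩ := IsLocalRing.residue_surjective y
    have hd : ¬ π ∣ (x : RatFunc k).denom := (ring_mem_iff v hX hπ hn _).mp x.2
    have hc : IsCoprime π (x : RatFunc k).denom := (hπ.coprime_iff_not_dvd).mpr hd
    obtain ⟨a, b, hab⟩ := hc
    refine ⟨(x : RatFunc k).num * b, ?_⟩
    have hd0 : algebraMap k[X] (RatFunc k) (x : RatFunc k).denom ≠ 0 := by
      simpa using RatFunc.denom_ne_zero (x : RatFunc k)
    have hx : x * polyHom v hX (x : RatFunc k).denom = polyHom v hX (x : RatFunc k).num := by
      apply Subtype.ext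
      exact (eq_div_iff hd0).mp (RatFunc.num_div_denom (x : RatFunc k)).symm
    have h1 : φ (b * (x : RatFunc k).denom) = 1 := by
      have h2 : b * (x : RatFunc k).denom = 1 - a * π := by linear_combination hab
      have h3 : φ (a * π) = 0 := by
        rw [← RingHom.mem_ker, hker]
        exact Ideal.mem_span_singleton.mpr (Dvd.intro_left _ rfl)
      rw [h2, map_sub, h3, map_one, sub_zero]
    have h4 : φ (x : RatFunc k).num = IsLocalRing.residue v.ring x * φ (x : RatFunc k).denom := by
      rw [hφ, RingHom.comp_apply, RingHom.comp_apply, ← map_mul, hx]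
    rw [map_mul, h4, mul_assoc, ← map_mul, mul_comm _ b, h1, mul_one]
  refine ⟨(Ideal.quotEquivOfEq hker.symm).trans (RingHom.quotientKerEquivOfSurjective hsurj), ?_⟩
  intro f
  rfl

lemma residue_finite [Finite k] (v : Place k (RatFunc k)) (hX : RatFunc.X ∈ v.ring) {π : k[X]}
    (hπ : Irreducible π) (hn : ¬ IsUnit (polyHom v hX π)) :
    Finite (IsLocalRing.ResidueField v.ring) := by
  obtain ⟨e, -⟩ := residue_equiv v hX hπ hn
  have : Module.Finite k (AdjoinRoot π) := by
    have := (AdjoinRoot.powerBasis hπ.ne_zero).finite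
    exact this
  have : Finite (AdjoinRoot π) := Module.finite_of_finite k
  exact Finite.of_equiv _ e.toEquiv

lemma constMap_eq (v : Place k (RatFunc k)) (hX : RatFunc.X ∈ v.ring) (c : k) :
    v.constMap c = IsLocalRing.residue v.ring (polyHom v hX (C c)) := by
  unfold Place.constMap
  rw [RingHom.comp_apply]
  congr 1

lemma degree_eq (v : Place k (RatFunc k)) (hX : RatFunc.X ∈ v.ring) {π : k[X]}
    (hπ : Irreducible π) (hn : ¬ IsUnit (polyHom v hX π)) : v.degree = π.natDegree := by
  obtain ⟨e, he⟩ := residue_equiv v hX hπ hn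
  unfold Place.degree
  letI : Algebra k (IsLocalRing.ResidueField v.ring) := v.constMap.toAlgebra
  have h1 : Module.finrank k (AdjoinRoot π) = π.natDegree := by
    rw [(AdjoinRoot.powerBasis hπ.ne_zero).finrank, AdjoinRoot.powerBasis_dim]
  rw [← h1]
  let e' : AdjoinRoot π ≃ₗ[k] IsLocalRing.ResidueField v.ring :=
    { e with
      map_smul' := fun c x => by
        change e (c • x) = c • e x
        rw [Algebra.smul_def, Algebra.smul_def, map_mul]
        congr 1
        change e (AdjoinRoot.mk π (C c)) = v.constMap c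
        rw [he, constMap_eq v hX] }
  exact e'.finrank_eq.symm

end places

end Pool.Agent.BSDFF
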