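import Pool.Agent.Lib.MP_48b749_nt.Places

set_option autoImplicit false

open Polynomial WithZero Multiplicative IsDiscreteValuationRing IsDedekindDomain.HeightOneSpectrum

namespace Pool.Agent.BSDFF

section places

variable (k : Type) [Field k]

open Classical in
/-- the point at infinity of the projective line -/
noncomputable def placeInfty : Place k (RatFunc k) where
  ring := (RatFunc.inftyValuation k).valuationSubring
  const_mem := fun c => by
    rw [Valuation.mem_valuationSubring_iff]
    rcases eq_or_ne c 0 with rfl | hc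
    · simp
    · exact le_of_eq (Valuation.IsTrivialOn.eq_one c hc)
  dvr := inferInstance

open Classical in
lemma mem_placeInfty_iff (x : RatFunc k) :
    x ∈ (placeInfty k).ring ↔ x = 0 ∨ x.intDegree ≤ 0 := by
  change x ∈ (RatFunc.inftyValuation k).valuationSubring ↔ _
  rw [Valuation.mem_valuationSubring_iff]
  rcases eq_or_ne x 0 with rfl | hx
  · simp
  · rw [RatFunc.inftyValuation_apply, RatFunc.inftyValuation_of_nonzero k hx, ← exp_zero, exp_le_exp]
    simp [hx]

lemma X_not_mem_placeInfty : RatFunc.X ∉ (placeInfty k).ring := by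
  rw [mem_placeInfty_iff]
  simp [RatFunc.X_ne_zero]

variable {k}

open Classical in
lemma eq_placeInfty (v : Place k (RatFunc k)) (hX : RatFunc.X ∉ v.ring) : v = placeInfty k := by
  apply Place.ext'
  have h1 : 1 < v.ring.valuation RatFunc.X := by
    rw [← not_le, ValuationSubring.valuation_le_one_iff]
    exact hX
  have htriv : v.ring.valuation.IsTrivialOn k := ⟨fun c hc => by
    apply le_antisymm
    · exact (ValuationSubring.valuation_le_one_iff _ _).mpr (v.const_mem c)
    · have h2 : v.ring.valuation (algebraMap k (RatFunc k) c) *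
          v.ring.valuation (algebraMap k (RatFunc k) c⁻¹) = 1 := by
        rw [← map_mul, ← map_mul, mul_inv_cancel₀ hc, map_one, map_one]
      have h3 : v.ring.valuation (algebraMap k (RatFunc k) c⁻¹) ≤ 1 :=
        (ValuationSubring.valuation_le_one_iff _ _).mpr (v.const_mem _)
      calc (1 : v.ring.ValueGroup) = v.ring.valuation (algebraMap k (RatFunc k) c) *
          v.ring.valuation (algebraMap k (RatFunc k) c⁻¹) := h2.symm
        _ ≤ v.ring.valuation (algebraMap k (RatFunc k) c) * 1 := by gcongr
        _ = _ := mul_one _⟩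
  have h4 := RatFunc.valuation_isEquiv_inftyValuation_of_one_lt_valuation_X (v := v.ring.valuation) h1
  have h5 := (Valuation.isEquiv_iff_valuationSubring _ _).mp h4
  rw [ValuationSubring.valuationSubring_valuation] at h5
  exact h5

variable (k) in
/-- the uniformizer at infinity -/
noncomputable def sInf : (placeInfty k).ring :=
  ⟨RatFunc.X⁻¹, by rw [mem_placeInfty_iff]; right; simp⟩

lemma isUnit_infty_iff (x : (placeInfty k).ring) :
    IsUnit x ↔ (x : RatFunc k) ≠ 0 ∧ (x : RatFunc k).intDegree = 0 := by
  constructor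
  · intro h
    obtain ⟨y, hy⟩ := h.exists_right_inv
    have hy' : (x : RatFunc k) * (y : RatFunc k) = 1 := by
      have := congrArg (fun z : (placeInfty k).ring => (z : RatFunc k)) hy
      exact this
    have hx0 : (x : RatFunc k) ≠ 0 := left_ne_zero_of_mul_eq_one hy'
    have hy0 : (y : RatFunc k) ≠ 0 := right_ne_zero_of_mul_eq_one hy'
    refine ⟨hx0, ?_⟩
    have h1 := RatFunc.intDegree_mul hx0 hy0
    rw [hy', RatFunc.intDegree_one] at h1
    have h2 := ((mem_placeInfty_iff k _).mp x.2).resolve_left hx0
    have h3 := ((mem_placeInfty_iff k _).mp y.2).resolve_left hy0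
    omega
  · rintro ⟨hx0, hx⟩
    have hmem : (x : RatFunc k)⁻¹ ∈ (placeInfty k).ring := by
      rw [mem_placeInfty_iff]
      right
      rw [RatFunc.intDegree_inv, hx, neg_zero]
    refine IsUnit.of_mul_eq_one ⟨(x : RatFunc k)⁻¹, hmem⟩ ?_
    apply Subtype.ext
    exact mul_inv_cancel₀ hx0

lemma maximalIdeal_infty : IsLocalRing.maximalIdeal (placeInfty k).ring = Ideal.span {sInf k} := by
  ext x
  rw [IsLocalRing.mem_maximalIdeal, mem_nonunits_iff, isUnit_infty_iff, Ideal.mem_span_singleton]
  constructor
  · intro h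
    rcases eq_or_ne (x : RatFunc k) 0 with hx0 | hx0
    · have : x = 0 := Subtype.ext hx0
      rw [this]; exact dvd_zero _
    · have h1 := ((mem_placeInfty_iff k _).mp x.2).resolve_left hx0
      have h2 : (x : RatFunc k).intDegree ≠ 0 := fun h3 => h ⟨hx0, h3⟩
      have hmem : (x : RatFunc k) * RatFunc.X ∈ (placeInfty k).ring := by
        rw [mem_placeInfty_iff]
        right
        rw [RatFunc.intDegree_mul hx0 RatFunc.X_ne_zero, RatFunc.intDegree_X]
        omega
      refine ⟨⟨(x : RatFunc k) * RatFunc.X, hmem⟩, ?_⟩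
      apply Subtype.ext
      change (x : RatFunc k) = RatFunc.X⁻¹ * ((x : RatFunc k) * RatFunc.X)
      field_simp [RatFunc.X_ne_zero]
  · rintro ⟨y, rfl⟩ ⟨h1, h2⟩
    have hy0 : (y : RatFunc k) ≠ 0 := by
      intro h; apply h1
      change RatFunc.X⁻¹ * (y : RatFunc k) = 0
      rw [h, mul_zero]
    have h3 := ((mem_placeInfty_iff k _).mp y.2).resolve_left hy0
    have h4 : ((sInf k * y : (placeInfty k).ring) : RatFunc k).intDegree = -1 + (y : RatFunc k).intDegree := by
      change (RatFunc.X⁻¹ * (y : RatFunc k)).intDegree = _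
      rw [RatFunc.intDegree_mul (inv_ne_zero RatFunc.X_ne_zero) hy0, RatFunc.intDegree_inv,
        RatFunc.intDegree_X]
    omega

lemma vv_sInf : vv (placeInfty k).ring (RatFunc.X⁻¹ : RatFunc k) = exp (-1 : ℤ) := by
  have h1 : (RatFunc.X⁻¹ : RatFunc k) = algebraMap (placeInfty k).ring (RatFunc k) (sInf k) := rfl
  rw [h1, vv, IsDedekindDomain.HeightOneSpectrum.valuation_of_algebraMap]
  apply IsDedekindDomain.HeightOneSpectrum.intValuation_singleton
  · intro h
    have := congrArg (fun z : (placeInfty k).ring => (z : RatFunc k)) h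
    exact inv_ne_zero RatFunc.X_ne_zero this
  · exact maximalIdeal_infty

lemma vv_X : vv (placeInfty k).ring (RatFunc.X : RatFunc k) = exp (1 : ℤ) := by
  have h := vv_sInf (k := k)
  rw [map_inv₀] at h
  rw [← inv_inv (vv (placeInfty k).ring (RatFunc.X : RatFunc k)), h, ← exp_neg]
  norm_num

lemma vv_infty (x : RatFunc k) (hx : x ≠ 0) :
    vv (placeInfty k).ring x = exp (x.intDegree) := by
  have h0 : x * RatFunc.X ^ (-x.intDegree) ≠ 0 :=
    mul_ne_zero hx (zpow_ne_zero _ RatFunc.X_ne_zero)
  have hpow : ∀ m : ℤ, (RatFunc.X ^ m : RatFunc k).intDegree = m := by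
    intro m
    induction m using Int.induction_on with
    | zero => simp
    | succ n ih =>
      rw [zpow_add₀ RatFunc.X_ne_zero, zpow_one,
        RatFunc.intDegree_mul (zpow_ne_zero _ RatFunc.X_ne_zero) RatFunc.X_ne_zero, ih,
        RatFunc.intDegree_X]
    | pred n ih =>
      rw [sub_eq_add_neg, zpow_add₀ RatFunc.X_ne_zero, zpow_neg_one,
        RatFunc.intDegree_mul (zpow_ne_zero _ RatFunc.X_ne_zero)
          (inv_ne_zero RatFunc.X_ne_zero), ih, RatFunc.intDegree_inv, RatFunc.intDegree_X]
  have h1 : (x * RatFunc.X ^ (-x.intDegree)).intDegree = 0 := by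
    rw [RatFunc.intDegree_mul hx (zpow_ne_zero _ RatFunc.X_ne_zero), hpow]
    ring
  have hmem : x * RatFunc.X ^ (-x.intDegree) ∈ (placeInfty k).ring := by
    rw [mem_placeInfty_iff]; right; rw [h1]
  have h2 : IsUnit (⟨x * RatFunc.X ^ (-x.intDegree), hmem⟩ : (placeInfty k).ring) :=
    (isUnit_infty_iff _).mpr ⟨h0, h1⟩
  have h3 : vv (placeInfty k).ring (x * RatFunc.X ^ (-x.intDegree)) = 1 :=
    val_unit (K := RatFunc k) (placeInfty k).ring h2
  rw [map_mul, map_zpow₀, vv_X, ← exp_zsmul, smul_eq_mul, mul_one] at h3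
  have h4 : vv (placeInfty k).ring x = (exp (-x.intDegree))⁻¹ := eq_inv_of_mul_eq_one_left h3
  rw [h4, ← exp_neg, neg_neg]

lemma constMap_infty_surjective : Function.Surjective (placeInfty k).constMap := by
  intro y
  obtain ⟨x, rfl⟩ := IsLocalRing.residue_surjective y
  suffices h : ∃ c : k, (x : RatFunc k) - algebraMap k (RatFunc k) c = 0 ∨
      ((x : RatFunc k) - algebraMap k (RatFunc k) c).intDegree < 0 by
    obtain ⟨c, hc⟩ := h
    refine ⟨c, ?_⟩
    unfold Place.constMap
    rw [RingHom.comp_apply, eq_comm, ← sub_eq_zero, ← map_sub, IsLocalRing.residue_eq_zero_iff,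
      IsLocalRing.mem_maximalIdeal, mem_nonunits_iff, isUnit_infty_iff]
    rintro ⟨h1, h2⟩
    change (x : RatFunc k) - algebraMap k (RatFunc k) c ≠ 0 at h1
    change ((x : RatFunc k) - algebraMap k (RatFunc k) c).intDegree = 0 at h2
    rcases hc with hc | hc
    · exact h1 hc
    · omega
  rcases eq_or_ne (x : RatFunc k) 0 with hx0 | hx0
  · exact ⟨0, by left; rw [hx0, map_zero, sub_zero]⟩
  · have h1 := ((mem_placeInfty_iff k _).mp x.2).resolve_left hx0
    set f := (x : RatFunc k).num with hf
    set g := (x : RatFunc k).denom with hg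
    have hg0 : g ≠ 0 := RatFunc.denom_ne_zero _
    have hgm : g.Monic := RatFunc.monic_denom _
    have hd0 : algebraMap k[X] (RatFunc k) g ≠ 0 := by simpa using hg0
    have hxfg : (x : RatFunc k) = algebraMap k[X] (RatFunc k) f / algebraMap k[X] (RatFunc k) g :=
      (RatFunc.num_div_denom (x : RatFunc k)).symm
    have hle : f.natDegree ≤ g.natDegree := by
      rw [RatFunc.intDegree, ← hf, ← hg] at h1
      omega
    refine ⟨f.coeff g.natDegree, ?_⟩
    have h2 : (x : RatFunc k) - algebraMap k (RatFunc k) (f.coeff g.natDegree) =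
        algebraMap k[X] (RatFunc k) (f - C (f.coeff g.natDegree) * g) /
          algebraMap k[X] (RatFunc k) g := by
      rw [hxfg, IsScalarTower.algebraMap_apply k k[X] (RatFunc k), map_sub, map_mul,
        eq_div_iff hd0, sub_mul, div_mul_cancel₀ _ hd0]
      rfl
    rcases eq_or_ne (f - C (f.coeff g.natDegree) * g) 0 with h3 | h3
    · left; rw [h2, h3, map_zero, zero_div]
    · right
      have h3' : algebraMap k[X] (RatFunc k) (f - C (f.coeff g.natDegree) * g) ≠ 0 := by
        intro h
        exact h3 ((FaithfulSMul.algebraMap_eq_zero_iff _ _).mp h)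
      rw [h2, RatFunc.intDegree_div h3' hd0, RatFunc.intDegree_polynomial,
        RatFunc.intDegree_polynomial]
      have h4 : (f - C (f.coeff g.natDegree) * g).natDegree ≤ g.natDegree := by
        refine (natDegree_sub_le _ _).trans (max_le hle ?_)
        exact (natDegree_C_mul_le _ _)
      have h5 : (f - C (f.coeff g.natDegree) * g).coeff g.natDegree = 0 := by
        rw [coeff_sub, coeff_C_mul, hgm.coeff_natDegree, mul_one, sub_self]
      have h6 : (f - C (f.coeff g.natDegree) * g).natDegree < g.natDegree := by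
        rcases h4.lt_or_eq with h | h
        · exact h
        · exfalso
          apply h3
          rw [← leadingCoeff_eq_zero, leadingCoeff, h]
          exact h5
      omega

lemma degree_placeInfty : (placeInfty k).degree = 1 := by
  unfold Place.degree
  let _ : Algebra k (IsLocalRing.ResidueField (placeInfty k).ring) := (placeInfty k).constMap.toAlgebra
  have h1 : Function.Bijective (algebraMap k (IsLocalRing.ResidueField (placeInfty k).ring)) :=
    ⟨RingHom.injective _, constMap_infty_surjective⟩
  have e : k ≃ₗ[k] IsLocalRing.ResidueField (placeInfty k).ring :=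
    LinearEquiv.ofBijective (Algebra.linearMap k _) h1
  rw [← e.finrank_eq, Module.finrank_self]

end places

end Pool.Agent.BSDFF
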