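import Pool.Agent.Lib.MP_48b749_nt.Defs
import Pool.Agent.Lib.MP_48b749_nt.MW.Par
import Pool.Agent.Lib.MP_48b749_nt.MW.Abs
import Pool.Agent.Lib.MP_48b749_nt.MW.Grp

/-!
Mordell-Weil by descent over `k(t)`, `k` finite: if `E(K) / n E(K)` is finite for some `n ≥ 2` then
`E(K)` is finitely generated, and the index of `n E(K)` is `n ^ rank * #E(K)[n]`.
-/

set_option autoImplicit false

open Polynomial Height

namespace Pool.Agent.BSDFF.MW

/-- `algebraicRank` does not depend on the choice of `DecidableEq`. -/
theorem algebraicRank_eq {K : Type} [Field K] [inst : DecidableEq K] (W : WeierstrassCurve K) :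
    algebraicRank W = Module.finrank ℤ W.toAffine.Point := by
  have : inst = fun a b => Classical.propDecidable (a = b) := Subsingleton.elim _ _
  subst this
  rfl

section
variable {k : Type} [Field k] [Finite k] [DecidableEq (RatFunc k)]
variable (W : WeierstrassCurve (RatFunc k)) [W.IsElliptic]

/-- **Descent**: finite generation of `E(K)` from the finiteness of `E(K) / n E(K)`. -/
theorem fg_of_index {n : ℕ} (hn : 2 ≤ n) (H : (nG W.toAffine.Point n).index ≠ 0) :
    AddGroup.FG W.toAffine.Point :=
  fg_of_finiteIndex W hn ⟨H⟩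

theorem module_finite {n : ℕ} (hn : 2 ≤ n) (H : (nG W.toAffine.Point n).index ≠ 0) :
    Module.Finite ℤ W.toAffine.Point :=
  Module.Finite.iff_addGroup_fg.mpr (fg_of_index W hn H)

/-- The index of `n E(K)` (if finite) is `n ^ rank * #E(K)[n]`. -/
theorem index_eq {n : ℕ} (hn : 2 ≤ n) (H : (nG W.toAffine.Point n).index ≠ 0) :
    (nG W.toAffine.Point n).index =
      n ^ (algebraicRank W) * Nat.card (Gn W.toAffine.Point n) := by
  rw [algebraicRank_eq]
  exact index_nG _ (fg_of_index W hn H) n (by omega)

/-- Upper bound: a homomorphism-free form. If `n E(K)` has finite index at most `N` and `E(K)[n]`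
has at least `m` elements, then `n ^ rank * m ≤ N`. -/
theorem pow_rank_mul_le {n N m : ℕ} (hn : 2 ≤ n) (H : (nG W.toAffine.Point n).index ≠ 0)
    (hN : (nG W.toAffine.Point n).index ≤ N) (hm : m ≤ Nat.card (Gn W.toAffine.Point n)) :
    n ^ (algebraicRank W) * m ≤ N := by
  rw [index_eq W hn H] at hN
  exact (Nat.mul_le_mul_left _ hm).trans hN

end

end Pool.Agent.BSDFF.MW
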