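import Pool.Agent.Lib.MP_48b749_nt.Cubic

set_option autoImplicit false

open Polynomial

namespace Pool.Agent.BSDFF

section assembly

variable {k : Type} [Field k]

/-- the prime of `k[t]` below a prime of `k[x]` -/
lemma exists_below [Finite k] (a : k) {q : k[X]} (hq : Irreducible q) (hm : q.Monic) :
    ∃ π : k[X], π.Monic ∧ Irreducible π ∧ q ∈ primesOver a π ∧ π.natDegree ≤ q.natDegree := by
  have : Fact (Irreducible q) := ⟨hq⟩
  have hfin : Module.Finite k (AdjoinRoot q) := (AdjoinRoot.powerBasis hq.ne_zero).finite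
  set y := aeval (AdjoinRoot.root q) (ff a) with hy
  have hint : IsIntegral k y := IsIntegral.of_finite k y
  have hmon := minpoly.monic hint
  have hirr := minpoly.irreducible hint
  have h1 : aeval (AdjoinRoot.root q) ((minpoly k y).comp (ff a)) = 0 := by
    rw [aeval_comp, ← hy, minpoly.aeval]
  have h2 : q ∣ (minpoly k y).comp (ff a) := by
    rw [AdjoinRoot.aeval_eq, AdjoinRoot.mk_eq_zero] at h1
    exact h1
  refine ⟨minpoly k y, hmon, hirr, ?_, ?_⟩
  · rw [mem_primesOver_iff a hmon]
    exact ⟨hm, hq, h2⟩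
  · exact Nat.le_of_dvd hq.natDegree_pos (natDegree_dvd a hirr hmon hq h2)

lemma below_unique [Finite k] (a : k) {q π π' : k[X]} (hπ : Irreducible π) (hm : π.Monic)
    (hπ' : Irreducible π') (hm' : π'.Monic) (h : q ∈ primesOver a π) (h' : q ∈ primesOver a π') :
    π = π' := by
  obtain ⟨hqm, hq, h1⟩ := (mem_primesOver_iff a hm q).mp h
  obtain ⟨-, -, h2⟩ := (mem_primesOver_iff a hm' q).mp h'
  have : Fact (Irreducible q) := ⟨hq⟩
  have key : ∀ p : k[X], q ∣ p.comp (ff a) → aeval (aeval (AdjoinRoot.root q) (ff a)) p = 0 := by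
    intro p hp
    rw [← aeval_comp, AdjoinRoot.aeval_eq, AdjoinRoot.mk_eq_zero]
    exact hp
  rw [minpoly.eq_of_irreducible_of_monic hπ (key π h1) hm,
    minpoly.eq_of_irreducible_of_monic hπ' (key π' h2) hm']

lemma nRoots_zero_of_irreducible [Finite k] (a : k) {π : k[X]} (hπ : Irreducible π) (hm : π.Monic)
    (h : Irreducible (π.comp (ff a))) : nRoots a π = 0 := by
  classical
  rw [nRoots_eq_card a hπ hm, Finset.card_eq_zero, Finset.filter_eq_empty_iff]
  intro q hq hd
  obtain ⟨hqm, hqi, hqd⟩ := (mem_primesOver_iff a hm q).mp hq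
  have h1 : Associated q (π.comp (ff a)) := hqi.associated_of_dvd h hqd
  have h2 := Polynomial.eq_of_monic_of_associated hqm (comp_monic a π hm) h1
  have h3 := comp_natDegree a π
  rw [← h2, hd] at h3
  have := hπ.natDegree_pos
  omega

/-- the extra Euler factor at the primes dividing `D` -/
noncomputable def EE (π : k[X]) : (ZMod 2)[X] := 1 + X ^ π.natDegree + X ^ (2 * π.natDegree)

lemma two_eq_zero : (2 : (ZMod 2)[X]) = 0 := by
  have h : (2 : (ZMod 2)[X]) = C 2 := by rw [C_ofNat]
  rw [h]
  have : (2 : ZMod 2) = 0 := by decide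
  rw [this, C_0]

lemma not_two_of_zero {a : k} (h2 : (2 : k) ≠ 0) (h3 : (3 : k) ≠ 0) (ha : a ≠ 0) {π : k[X]}
    (hπ : Irreducible π) (h : nRoots a π = 0) : ¬ π ∣ C (4 * a ^ 3) + 27 * X ^ 2 := by
  intro hd
  rw [← nRoots_two_iff h2 h3 a ha hπ] at hd
  omega

lemma disc_ne_zero (h3 : (3 : k) ≠ 0) (a : k) : C (4 * a ^ 3) + 27 * X ^ 2 ≠ (0 : k[X]) := by
  intro h
  have h27 : (27 : k) ≠ 0 := by
    have : (27 : k) = 3 ^ 3 := by norm_num
    rw [this]; exact pow_ne_zero _ h3
  have h1 := congrArg (fun p => Polynomial.coeff p 2) h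
  have h2 : (27 : k[X]) = C 27 := by rw [C_ofNat]
  simp only [h2, coeff_add, coeff_C, coeff_C_mul, coeff_X_pow, coeff_zero] at h1
  norm_num at h1
  exact h27 h1

open Classical in
/-- the mod 2 local factor at a finite place -/
noncomputable def LB (a : k) (D π : k[X]) : (ZMod 2)[X] :=
  if h : Irreducible π then
    (localFactor (twist a D) (placeOf π h)).map (Int.castRingHom (ZMod 2)) else 1

open Classical in
/-- comparison of the local factors of `E_D` and of the primes of `k[x]` -/
theorem local_compare [Finite k] (h2 : (2 : k) ≠ 0) (h3 : (3 : k) ≠ 0) (a : k) (ha : a ≠ 0)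
    (D : k[X]) (hsq : Squarefree D)
    (hin : ∀ π : k[X], π.Monic → Irreducible π → π ∣ D → Irreducible (π.comp (ff a)))
    {π : k[X]} (hπ : Irreducible π) (hm : π.Monic) :
    ∏ q ∈ primesOver a π, (1 + (X : (ZMod 2)[X]) ^ q.natDegree) =
      (1 + X ^ π.natDegree) * LB a D π * (if π ∣ D then EE π else 1) := by
  have hX := X_mem_placeOf π hπ
  have hn := nonunit_placeOf π hπ
  have hdeg := degree_eq (placeOf π hπ) hX hπ hn
  have htwo := two_eq_zero
  have hLB : LB a D π = (((twist a D).localPolynomial (placeOf π hπ).ring).map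
      (Int.castRingHom (ZMod 2))).comp (X ^ π.natDegree) := by
    unfold LB
    rw [dif_pos hπ]
    unfold localFactor
    rw [hdeg, Polynomial.map_comp, Polynomial.map_pow, Polynomial.map_X]
  by_cases hD : π ∣ D
  · -- additive
    have h0 := nRoots_zero_of_irreducible a hπ hm (hin π hm hπ hD)
    have hdisc := not_two_of_zero h2 h3 ha hπ h0
    rw [hLB, local_add_twist h2 h3 (placeOf π hπ) hX hπ hn a D hsq hD hdisc, if_pos hD,
      Polynomial.map_one, one_comp, mul_one]
    rcases prod_primesOver h2 h3 a ha hπ hm with h | h | h | h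
    · rw [h.2.1]
      unfold EE
      rw [mul_comm 3, mul_comm 2, pow_mul, pow_mul]
      linear_combination (-((X : (ZMod 2)[X]) ^ π.natDegree + (X ^ π.natDegree) ^ 2)) * htwo
    · omega
    · omega
    · omega
  · rw [if_neg hD, mul_one]
    by_cases hdisc : π ∣ C (4 * a ^ 3) + 27 * X ^ 2
    · -- multiplicative
      have hn2 := (nRoots_two_iff h2 h3 a ha hπ).mpr hdisc
      have hLB' : LB a D π = 1 + X ^ π.natDegree := by
        rw [hLB]
        have hneg : ∀ p : (ZMod 2)[X], -p = p := by
          intro p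
          linear_combination (-p) * htwo
        rcases local_mult_twist h2 h3 (placeOf π hπ) hX hπ hn a ha D hD hdisc
          (disc_ne_zero h3 a) with h | h
        · rw [h, Polynomial.map_sub, Polynomial.map_one, Polynomial.map_X, sub_comp, one_comp,
            X_comp, sub_eq_add_neg, hneg]
        · rw [h, Polynomial.map_add, Polynomial.map_one, Polynomial.map_X, add_comp, one_comp,
            X_comp]
      rw [hLB']
      rcases prod_primesOver h2 h3 a ha hπ hm with h | h | h | h
      · omega
      · omega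
      · rw [h.2]; ring
      · omega
    · -- good
      have hn2 : nRoots a π ≠ 2 := fun h => hdisc ((nRoots_two_iff h2 h3 a ha hπ).mp h)
      have hLB' : LB a D π = 1 + C (1 + (nRoots a π : ZMod 2)) * X ^ π.natDegree +
          X ^ (2 * π.natDegree) := by
        rw [hLB, local_good_twist h2 h3 (placeOf π hπ) hX hπ hn a D hD hdisc]
        rw [add_comp, add_comp, one_comp, mul_comp, C_comp, X_comp, pow_comp, X_comp, ← pow_mul,
          mul_comm π.natDegree 2]
      rw [hLB']
      rcases prod_primesOver h2 h3 a ha hπ hm with h | h | h | h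
      · rw [h.2.1, h.1]
        have : (1 + ((0 : ℕ) : ZMod 2)) = 1 := by decide
        rw [this, C_1, one_mul, mul_comm 3, mul_comm 2, pow_mul, pow_mul]
        linear_combination (-((X : (ZMod 2)[X]) ^ π.natDegree + (X ^ π.natDegree) ^ 2)) * htwo
      · rw [h.2, h.1]
        have : (1 + ((1 : ℕ) : ZMod 2)) = 0 := by decide
        rw [this, C_0, zero_mul, add_zero, mul_comm 2, pow_mul]
        linear_combination ((X : (ZMod 2)[X]) ^ π.natDegree + (X ^ π.natDegree) ^ 2) * htwo
      · exact absurd h.1 hn2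
      · rw [h.2, h.1]
        have : (1 + ((3 : ℕ) : ZMod 2)) = 0 := by decide
        rw [this, C_0, zero_mul, add_zero, mul_comm 2, pow_mul]
        linear_combination ((X : (ZMod 2)[X]) ^ π.natDegree + (X ^ π.natDegree) ^ 2) * htwo

end assembly

end Pool.Agent.BSDFF
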