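import Pool.Agent.Lib.MP_48b749_nt.Points

set_option autoImplicit false

open Polynomial

namespace Pool.Agent.BSDFF

section count

variable {F : Type} [Field F] [Fintype F] [DecidableEq F]

/-- points of the conic `x^2 + x y + y^2 + a = 0` off the diagonal -/
lemma conic_card (h2 : (2 : F) ≠ 0) (h3 : (3 : F) ≠ 0) (a : F) (ha : a ≠ 0) :
    Fintype.card F ≤ (Finset.univ.filter (fun z : F × F => z.1 ≠ z.2 ∧
      z.1 ^ 2 + z.1 * z.2 + z.2 ^ 2 + a = 0)).card + 5 := by
  have hodd : Fintype.card F % 2 = 1 := by
    rw [← Nat.odd_iff]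
    have h := FiniteField.odd_card_of_char_ne_two (F := F) (by
      intro hc
      have : CharP F 2 := by rw [← hc]; exact ringChar.charP F
      exact h2 (by exact_mod_cast CharP.cast_eq_zero F 2))
    exact Nat.odd_iff.mpr h
  obtain ⟨u0, v0, huv⟩ := FiniteField.exists_root_sum_quadratic (f := C 3 * X ^ 2)
    (g := (X ^ 2 + C a : F[X])) (by rw [degree_C_mul h3, degree_X_pow]; rfl)
    (by rw [degree_add_C (by rw [degree_X_pow]; decide), degree_X_pow]; rfl) hodd
  simp only [eval_mul, eval_C, eval_pow, eval_X, eval_add] at huv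
  have h0 : ¬ (u0 = 0 ∧ v0 = 0) := by
    rintro ⟨rfl, rfl⟩
    apply ha
    linear_combination huv
  have h6 : (6 : F) ≠ 0 := by
    have : (6 : F) = 2 * 3 := by norm_num
    rw [this]; exact mul_ne_zero h2 h3
  set P : F[X] := (C 3 + X ^ 2) * (C (6 * u0) + C (2 * v0) * X) *
    (C (3 * v0) - C (6 * u0) * X - C v0 * X ^ 2) with hP
  have hP0 : P ≠ 0 := by
    rw [hP]
    refine mul_ne_zero (mul_ne_zero ?_ ?_) ?_
    · intro h
      have := congrArg (fun p => coeff p 2) h
      simp [coeff_C] at this
    · intro h
      have e0 := congrArg (fun p => coeff p 0) h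
      have e1 := congrArg (fun p => coeff p 1) h
      simp [coeff_C] at e0 e1
      apply h0
      constructor
      · rcases e0 with h | h
        · exact absurd h h6
        · exact h
      · rcases e1 with h | h
        · exact absurd h h2
        · exact h
    · intro h
      have e0 := congrArg (fun p => coeff p 0) h
      have e1 := congrArg (fun p => coeff p 1) h
      simp [coeff_C, coeff_X_pow] at e0 e1
      apply h0
      constructor
      · rcases e1 with h | h
        · exact absurd h h6
        · exact h
      · rcases e0 with h | h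
        · exact absurd h h3
        · exact h
  have hPd : P.natDegree ≤ 5 := by
    rw [hP]
    compute_degree
  have hroots : P.roots.toFinset.card ≤ 5 :=
    (Multiset.toFinset_card_le _).trans ((card_roots' P).trans hPd)
  -- the parametrization
  let s : F → F := fun m => -(6 * u0 + 2 * v0 * m) / (3 + m ^ 2)
  let g : F → F × F := fun m => (u0 + s m - (v0 + m * s m), u0 + s m + (v0 + m * s m))
  have hM : Fintype.card F ≤ (Finset.univ \ P.roots.toFinset).card + 5 := by
    rw [Finset.card_sdiff_of_subset (Finset.subset_univ _), Finset.card_univ]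
    omega
  refine hM.trans ?_
  apply Nat.add_le_add_right
  have hmem : ∀ m ∈ Finset.univ \ P.roots.toFinset, (3 + m ^ 2 ≠ 0 ∧ 6 * u0 + 2 * v0 * m ≠ 0) ∧
      3 * v0 - 6 * u0 * m - v0 * m ^ 2 ≠ 0 := by
    intro m hm
    rw [Finset.mem_sdiff, Multiset.mem_toFinset, mem_roots hP0, IsRoot.def, hP] at hm
    have h1 := hm.2
    simp only [eval_mul, eval_add, eval_sub, eval_C, eval_pow, eval_X] at h1
    rw [mul_eq_zero, mul_eq_zero, not_or, not_or] at h1
    exact h1
  apply Finset.card_le_card_of_injOn g
  · intro m hm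
    rw [Finset.mem_coe] at hm
    obtain ⟨⟨m1, m2⟩, m3⟩ := hmem m hm
    rw [Finset.mem_coe, Finset.mem_filter]
    refine ⟨Finset.mem_univ _, ?_, ?_⟩
    · change u0 + s m - (v0 + m * s m) ≠ u0 + s m + (v0 + m * s m)
      intro h
      have h1 : 2 * (v0 + m * s m) = 0 := by linear_combination -h
      have h4 := (mul_eq_zero.mp h1).resolve_left h2
      apply m3
      simp only [s] at h4
      field_simp at h4
      linear_combination h4
    · change (u0 + s m - (v0 + m * s m)) ^ 2 + (u0 + s m - (v0 + m * s m)) *
        (u0 + s m + (v0 + m * s m)) + (u0 + s m + (v0 + m * s m)) ^ 2 + a = 0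
      have h4 : s m * (3 + m ^ 2) = -(6 * u0 + 2 * v0 * m) := by
        simp only [s]; field_simp
      linear_combination huv + s m * h4
  · intro m hm m' hm' h
    rw [Finset.mem_coe] at hm hm'
    obtain ⟨⟨m1, m2⟩, -⟩ := hmem m hm
    have e1 := congrArg Prod.fst h
    have e2 := congrArg Prod.snd h
    change u0 + s m - (v0 + m * s m) = u0 + s m' - (v0 + m' * s m') at e1
    change u0 + s m + (v0 + m * s m) = u0 + s m' + (v0 + m' * s m') at e2
    have e3 : 2 * (s m - s m') = 0 := by linear_combination e1 + e2
    have e4 := (mul_eq_zero.mp e3).resolve_left h2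
    have e5 : s m ≠ 0 := by
      simp only [s]
      exact div_ne_zero (neg_ne_zero.mpr m2) m1
    have e6 : s m * (m - m') = 0 := by
      have e7 : 2 * (m * s m - m' * s m') = 0 := by linear_combination e2 - e1
      have e8 := (mul_eq_zero.mp e7).resolve_left h2
      linear_combination e8 - m' * e4
    have e9 := (mul_eq_zero.mp e6).resolve_left e5
    linear_combination e9

/-- the number of values not taken by `x^3 + a x` is at least `(Q - 5)/3` -/
lemma card_not_image (h2 : (2 : F) ≠ 0) (h3 : (3 : F) ≠ 0) (a : F) (ha : a ≠ 0) :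
    Fintype.card F ≤ 3 * (Finset.univ.filter (fun t : F => ∀ x : F, x ^ 3 + a * x ≠ t)).card + 5 := by
  have hS := conic_card h2 h3 a ha
  set S := Finset.univ.filter (fun z : F × F => z.1 ≠ z.2 ∧
      z.1 ^ 2 + z.1 * z.2 + z.2 ^ 2 + a = 0) with hSdef
  let fib : F → Finset F := fun t => Finset.univ.filter (fun x : F => x ^ 3 + a * x = t)
  have hr : ∀ t, (fib t).card ≤ 3 := by
    intro t
    have hp0 : (X ^ 3 + C a * X - C t : F[X]) ≠ 0 := by
      intro h
      have := congrArg (fun p => coeff p 3) h
      simp [coeff_X, coeff_C] at this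
    have h1 : fib t ⊆ (X ^ 3 + C a * X - C t : F[X]).roots.toFinset := by
      intro x hx
      rw [Finset.mem_filter] at hx
      rw [Multiset.mem_toFinset, mem_roots hp0, IsRoot.def]
      simp only [eval_sub, eval_add, eval_mul, eval_pow, eval_X, eval_C]
      linear_combination hx.2
    refine (Finset.card_le_card h1).trans ((Multiset.toFinset_card_le _).trans
      ((card_roots' _).trans ?_))
    compute_degree
  have hsum1 : ∑ t : F, (fib t).card = Fintype.card F := by
    rw [← Finset.card_univ, Finset.card_eq_sum_card_fiberwise (f := fun x : F => x ^ 3 + a * x)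
      (t := Finset.univ) (fun _ _ => Finset.mem_coe.mpr (Finset.mem_univ _))]
  have hsum2 : S.card ≤ ∑ t : F, ((fib t).card * (fib t).card - (fib t).card) := by
    rw [Finset.card_eq_sum_card_fiberwise (f := fun z : F × F => z.1 ^ 3 + a * z.1)
      (t := Finset.univ) (fun _ _ => Finset.mem_coe.mpr (Finset.mem_univ _))]
    apply Finset.sum_le_sum
    intro t _
    rw [← Finset.offDiag_card]
    apply Finset.card_le_card
    intro z hz
    rw [Finset.mem_filter, hSdef, Finset.mem_filter] at hz
    obtain ⟨⟨-, hz1, hz2⟩, hz3⟩ := hz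
    rw [Finset.mem_offDiag]
    refine ⟨?_, ?_, hz1⟩
    · rw [Finset.mem_filter]; exact ⟨Finset.mem_univ _, hz3⟩
    · rw [Finset.mem_filter]
      refine ⟨Finset.mem_univ _, ?_⟩
      linear_combination hz3 - (z.1 - z.2) * hz2
  have hN : (Finset.univ.filter (fun t : F => ∀ x : F, x ^ 3 + a * x ≠ t)).card =
      ∑ t : F, if (fib t).card = 0 then 1 else 0 := by
    rw [Finset.card_filter]
    apply Finset.sum_congr rfl
    intro t _
    congr 1
    rw [Finset.card_eq_zero, Finset.filter_eq_empty_iff]
    simp
  have hterm : ∀ t : F, ((fib t).card * (fib t).card - (fib t).card) + 3 ≤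
      3 * (if (fib t).card = 0 then 1 else 0) + 3 * (fib t).card := by
    intro t
    have := hr t
    interval_cases (fib t).card <;> simp
  have hfin := Finset.sum_le_sum (fun t (_ : t ∈ (Finset.univ : Finset F)) => hterm t)
  rw [Finset.sum_add_distrib, Finset.sum_add_distrib, ← Finset.mul_sum, ← Finset.mul_sum, hsum1,
    Finset.sum_const, Finset.card_univ, smul_eq_mul, ← hN] at hfin
  omega

end count

end Pool.Agent.BSDFF
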