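import Pool.Agent.Lib.MP_48b749_nt.Count

set_option autoImplicit false

open Polynomial

namespace Pool.Agent.BSDFF

section count2

variable {k : Type} [Field k] [Finite k]

/-- monic primes of degree `n` of `k[t]` which stay prime in `k[x]`, `t = x^3 + a x` -/
def inertPrimes (a : k) (n : ℕ) : Set k[X] :=
  {π : k[X] | π.Monic ∧ π.natDegree = n ∧ Irreducible π ∧ Irreducible (π.comp (X ^ 3 + C a * X))}

lemma inertPrimes_finite (a : k) (n : ℕ) : (inertPrimes a n).Finite :=
  (finite_monic n).subset (fun _ h => ⟨h.1, h.2.1⟩)

lemma sum_pow_le (q : ℕ) (hq : 2 ≤ q) (m : ℕ) : ∑ d ∈ Finset.Icc 1 m, q ^ d ≤ 2 * q ^ m := by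
  induction m with
  | zero => simp
  | succ m ih =>
    rw [Finset.sum_Icc_succ_top (by omega)]
    have : 2 * q ^ m ≤ q ^ (m + 1) := by
      rw [pow_succ, mul_comm]
      exact Nat.mul_le_mul_left _ hq
    omega

/-- the number of inert primes of degree `n` -/
theorem card_inertPrimes (h2 : (2 : k) ≠ 0) (h3 : (3 : k) ≠ 0) (a : k) (ha : a ≠ 0) (n : ℕ)
    (hn : 0 < n) : Nat.card k ^ n ≤
      3 * n * (inertPrimes a n).ncard + 6 * Nat.card k ^ (n / 2) + 5 := by
  classical
  have : NeZero n := ⟨hn.ne'⟩
  obtain ⟨p, hp⟩ := CharP.exists k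
  have : Fact (Nat.Prime p) := ⟨CharP.char_is_prime k p⟩
  set F := FiniteField.Extension k p n with hF
  have : Fintype F := Fintype.ofFinite F
  have hcard : Fintype.card F = Nat.card k ^ n := by
    rw [← Nat.card_eq_fintype_card]
    exact FiniteField.natCard_extension k p n
  have hinj := (algebraMap k F).injective
  have h2F : (2 : F) ≠ 0 := by
    rw [← map_ofNat (algebraMap k F) 2]
    exact (map_ne_zero_iff _ hinj).mpr h2
  have h3F : (3 : F) ≠ 0 := by
    rw [← map_ofNat (algebraMap k F) 3]
    exact (map_ne_zero_iff _ hinj).mpr h3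
  have haF : algebraMap k F a ≠ 0 := (map_ne_zero_iff _ hinj).mpr ha
  have hmain := card_not_image h2F h3F (algebraMap k F a) haF
  rw [hcard] at hmain
  set T := Finset.univ.filter (fun t : F => ∀ x : F, x ^ 3 + algebraMap k F a * x ≠ t) with hT
  have hq : 2 ≤ Nat.card k := Finite.one_lt_card
  -- elements of smaller degree
  let small : Finset F := (Finset.Icc 1 (n / 2)).biUnion
    (fun d => Finset.univ.filter (fun t : F => t ^ (Nat.card k ^ d) = t))
  have hsmall : small.card ≤ 2 * Nat.card k ^ (n / 2) := by
    refine Finset.card_biUnion_le.trans (le_trans ?_ (sum_pow_le _ hq _))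
    apply Finset.sum_le_sum
    intro d hd
    rw [Finset.mem_Icc] at hd
    have hlt : 1 < Nat.card k ^ d := Nat.one_lt_pow (by omega) (by omega)
    have hp0 : (X ^ (Nat.card k ^ d) - X : F[X]) ≠ 0 := FiniteField.X_pow_card_sub_X_ne_zero F hlt
    have h1 : Finset.univ.filter (fun t : F => t ^ (Nat.card k ^ d) = t) ⊆
        (X ^ (Nat.card k ^ d) - X : F[X]).roots.toFinset := by
      intro x hx
      rw [Finset.mem_filter] at hx
      rw [Multiset.mem_toFinset, mem_roots hp0, IsRoot.def]
      simp only [eval_sub, eval_pow, eval_X]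
      rw [hx.2, sub_self]
    refine (Finset.card_le_card h1).trans ((Multiset.toFinset_card_le _).trans
      ((card_roots' _).trans ?_))
    rw [FiniteField.X_pow_card_sub_X_natDegree_eq F hlt]
  -- elements of degree `n`
  let good : Finset F := T.filter (fun t => (minpoly k t).natDegree = n)
  have hfr : Module.finrank k F = n := FiniteField.finrank_extension k p n
  have hint : ∀ t : F, IsIntegral k t := fun t => IsIntegral.of_finite k t
  have hcover : T ⊆ small ∪ good := by
    intro t ht
    rw [Finset.mem_union]
    by_cases hd : (minpoly k t).natDegree = n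
    · right
      exact Finset.mem_filter.mpr ⟨ht, hd⟩
    · left
      have hdvd : (minpoly k t).natDegree ∣ n :=
        (minpoly.degree_dvd (hint t)).trans (dvd_of_eq hfr)
      have hpos := minpoly.natDegree_pos (hint t)
      obtain ⟨e, he⟩ := hdvd
      have he2 : 2 ≤ e := by
        rcases e with _ | _ | e
        · omega
        · rw [zero_add, mul_one] at he
          exact absurd he.symm hd
        · omega
      have hle : (minpoly k t).natDegree ≤ n / 2 := by
        rw [Nat.le_div_iff_mul_le (by norm_num)]
        conv_rhs => rw [he]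
        exact Nat.mul_le_mul_left _ he2
      rw [Finset.mem_biUnion]
      refine ⟨(minpoly k t).natDegree, Finset.mem_Icc.mpr ⟨hpos, hle⟩, ?_⟩
      rw [Finset.mem_filter]
      refine ⟨Finset.mem_univ _, ?_⟩
      have h5 := ((minpoly.irreducible (hint t)).natDegree_dvd_iff_dvd_X_pow_card_pow_sub_X
        (n := (minpoly k t).natDegree)).mp dvd_rfl
      obtain ⟨g, hg⟩ := h5
      have h6 := congrArg (aeval t) hg
      rw [map_mul, minpoly.aeval, zero_mul, map_sub, map_pow, aeval_X] at h6
      linear_combination h6
  have hgood : good.card ≤ n * (inertPrimes a n).ncard := by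
    have hfin := inertPrimes_finite a n
    have h5 : good.card ≤ n * (good.image (minpoly k)).card := by
      apply Finset.card_le_mul_card_image
      intro π hπ
      obtain ⟨t0, ht0, rfl⟩ := Finset.mem_image.mp hπ
      have hd0 := (Finset.mem_filter.mp ht0).2
      have hp0 : (minpoly k t0).map (algebraMap k F) ≠ 0 :=
        Polynomial.map_ne_zero (minpoly.ne_zero (hint t0))
      have h6 : good.filter (fun t => minpoly k t = minpoly k t0) ⊆
          ((minpoly k t0).map (algebraMap k F)).roots.toFinset := by
        intro t ht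
        rw [Finset.mem_filter] at ht
        rw [Multiset.mem_toFinset, mem_roots hp0, IsRoot.def, eval_map, ← aeval_def, ← ht.2]
        exact minpoly.aeval k t
      refine (Finset.card_le_card h6).trans ((Multiset.toFinset_card_le _).trans
        ((card_roots' _).trans ?_))
      rw [natDegree_map, hd0]
    refine h5.trans (Nat.mul_le_mul_left _ ?_)
    rw [← Set.ncard_coe_finset]
    apply Set.ncard_le_ncard _ hfin
    intro π hπ
    rw [Finset.mem_coe, Finset.mem_image] at hπ
    obtain ⟨t, ht, rfl⟩ := hπ
    obtain ⟨htT, htd⟩ := Finset.mem_filter.mp ht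
    have hirr := minpoly.irreducible (hint t)
    have hmon := minpoly.monic (hint t)
    refine ⟨hmon, htd, hirr, ?_⟩
    have h0 : nRoots a (minpoly k t) = 0 := by
      unfold nRoots
      rw [Nat.card_eq_zero]
      left
      constructor
      rintro ⟨r, hr⟩
      rw [hT, Finset.mem_filter] at htT
      let φ : AdjoinRoot (minpoly k t) →+* F := AdjoinRoot.lift (algebraMap k F) t (by
        rw [← aeval_def]; exact minpoly.aeval k t)
      apply htT.2 (φ r)
      have h7 := congrArg φ hr
      rw [map_add, map_pow, map_mul, AdjoinRoot.lift_of, AdjoinRoot.lift_root] at h7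
      exact h7
    rcases prod_primesOver h2 h3 a ha hirr hmon with h | h | h | h
    · exact h.2.2
    · omega
    · omega
    · omega
  have hTcard : T.card ≤ 2 * Nat.card k ^ (n / 2) + n * (inertPrimes a n).ncard :=
    (Finset.card_le_card hcover).trans ((Finset.card_union_le _ _).trans
      (Nat.add_le_add hsmall hgood))
  have h9 : 3 * n * (inertPrimes a n).ncard = 3 * (n * (inertPrimes a n).ncard) := by ring
  rw [h9]
  omega

end count2

end Pool.Agent.BSDFF
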