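import Pool.Agent.Lib.MP_48b749_nt.Count2

set_option autoImplicit false

open Polynomial

namespace Pool.Agent.BSDFF

section count3

variable {k : Type} [Field k] [Finite k] (Q : k[X] → Prop)

/-- monic primes of degree `d` with the property `Q` -/
def PP (d : ℕ) : Set k[X] := {π : k[X] | π.Monic ∧ π.natDegree = d ∧ Irreducible π ∧ Q π}

/-- squarefree monic polynomials all of whose prime divisors have the property `Q` -/
def Adm : Set k[X] :=
  {D : k[X] | D.Monic ∧ Squarefree D ∧ ∀ π : k[X], π.Monic → Irreducible π → π ∣ D → Q π}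

lemma finite_monic_le (N : ℕ) : {f : k[X] | f.Monic ∧ f.natDegree ≤ N}.Finite := by
  have : {f : k[X] | f.Monic ∧ f.natDegree ≤ N} ⊆
      ⋃ m ∈ Finset.range (N + 1), {f : k[X] | f.Monic ∧ f.natDegree = m} := by
    intro f hf
    simp only [Set.mem_iUnion, Finset.mem_range]
    exact ⟨f.natDegree, Nat.lt_succ_of_le hf.2, hf.1, rfl⟩
  refine Set.Finite.subset ?_ this
  exact Set.Finite.biUnion (Finset.finite_toSet _) (fun m _ => finite_monic m)

lemma DD_finite (N : ℕ) : {D : k[X] | D ∈ Adm Q ∧ D.natDegree ≤ N}.Finite :=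
  (finite_monic_le N).subset (fun _ h => ⟨h.1.1, h.2⟩)

lemma II_finite (N : ℕ) : {π : k[X] | π.Monic ∧ Irreducible π ∧ Q π ∧ π.natDegree ≤ N}.Finite :=
  (finite_monic_le N).subset (fun _ h => ⟨h.1, h.2.2.2⟩)

/-- the admissible polynomials of degree at most `N` -/
noncomputable def DD (N : ℕ) : Finset k[X] := (DD_finite Q N).toFinset

/-- the admissible primes of degree at most `N` -/
noncomputable def II (N : ℕ) : Finset k[X] := (II_finite Q N).toFinset

lemma mem_DD (N : ℕ) (D : k[X]) : D ∈ DD Q N ↔ D ∈ Adm Q ∧ D.natDegree ≤ N := by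
  unfold DD
  rw [Set.Finite.mem_toFinset]; rfl

lemma mem_II (N : ℕ) (π : k[X]) : π ∈ II Q N ↔ π.Monic ∧ Irreducible π ∧ Q π ∧ π.natDegree ≤ N := by
  unfold II
  rw [Set.Finite.mem_toFinset]; rfl

/-- the weight `q ^ (- deg D)` -/
noncomputable def ww (D : k[X]) : ℚ := ((Nat.card k : ℚ) ^ D.natDegree)⁻¹

lemma qpos : (0 : ℚ) < Nat.card k := by
  exact_mod_cast Finite.card_pos

lemma ww_pos (D : k[X]) : 0 < ww D := inv_pos.mpr (pow_pos qpos _)

lemma ww_mul {D E : k[X]} (hD : D.Monic) (hE : E.Monic) : ww (D * E) = ww D * ww E := by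
  unfold ww
  rw [hD.natDegree_mul hE, pow_add, mul_inv]

/-- the partial sums -/
noncomputable def SS (N : ℕ) : ℚ := ∑ D ∈ DD Q N, ww D

lemma mul_mem_DD {π D : k[X]} (hm : π.Monic) (hi : Irreducible π) (hQ : Q π) (N : ℕ)
    (hd : π.natDegree ≤ N) (hDm : D.Monic) :
    π * D ∈ DD Q N ↔ D ∈ DD Q (N - π.natDegree) ∧ ¬ π ∣ D := by
  rw [mem_DD, mem_DD, hm.natDegree_mul hDm]
  constructor
  · rintro ⟨⟨h1, h2, h3⟩, h4⟩
    have h5 := squarefree_mul_iff.mp h2
    refine ⟨⟨⟨hDm, h5.2.2, fun ρ hρm hρi hρ => h3 ρ hρm hρi (hρ.mul_left _)⟩, by omega⟩, ?_⟩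
    intro hdvd
    exact hi.not_isUnit (h5.1 dvd_rfl hdvd)
  · rintro ⟨⟨⟨h1, h2, h3⟩, h4⟩, h5⟩
    refine ⟨⟨hm.mul hDm, ?_, ?_⟩, by omega⟩
    · rw [squarefree_mul_iff]
      exact ⟨(hi.coprime_iff_not_dvd.mpr h5).isRelPrime, hi.squarefree, h2⟩
    · intro ρ hρm hρi hρ
      rcases hρi.prime.dvd_or_dvd hρ with h | h
      · rwa [Polynomial.eq_of_monic_of_associated hρm hm (hρi.associated_of_dvd hi h)]
      · exact h3 ρ hρm hρi h

open Classical in
lemma sum_dvd {π : k[X]} (hm : π.Monic) (hi : Irreducible π) (hQ : Q π) (N : ℕ)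
    (hd : π.natDegree ≤ N) :
    ∑ D ∈ (DD Q N).filter (fun D => π ∣ D), ww D =
      ww π * ∑ D ∈ (DD Q (N - π.natDegree)).filter (fun D => ¬ π ∣ D), ww D := by
  have h1 : (DD Q N).filter (fun D => π ∣ D) =
      ((DD Q (N - π.natDegree)).filter (fun D => ¬ π ∣ D)).image (fun D => π * D) := by
    ext D
    rw [Finset.mem_filter, Finset.mem_image]
    constructor
    · rintro ⟨h2, E, rfl⟩
      have hE : E.Monic := hm.of_mul_monic_left ((mem_DD Q N _).mp h2).1.1
      refine ⟨E, ?_, rfl⟩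
      rw [Finset.mem_filter]
      exact (mul_mem_DD Q hm hi hQ N hd hE).mp h2
    · rintro ⟨E, hE, rfl⟩
      rw [Finset.mem_filter] at hE
      exact ⟨(mul_mem_DD Q hm hi hQ N hd ((mem_DD Q _ _).mp hE.1).1.1).mpr hE, dvd_mul_right _ _⟩
  rw [h1, Finset.sum_image (fun x _ y _ h => mul_left_cancel₀ hi.ne_zero h), Finset.mul_sum]
  apply Finset.sum_congr rfl
  intro D hD
  rw [Finset.mem_filter, mem_DD] at hD
  exact ww_mul hm hD.1.1.1

lemma DD_mono {M N : ℕ} (h : M ≤ N) : DD Q M ⊆ DD Q N := by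
  intro D hD
  rw [mem_DD] at hD ⊢
  exact ⟨hD.1, hD.2.trans h⟩

lemma SS_mono {M N : ℕ} (h : M ≤ N) : SS Q M ≤ SS Q N :=
  Finset.sum_le_sum_of_subset_of_nonneg (DD_mono Q h) (fun _ _ _ => (ww_pos _).le)

lemma SS_nonneg (N : ℕ) : 0 ≤ SS Q N := Finset.sum_nonneg (fun _ _ => (ww_pos _).le)

open Classical in
lemma sum_not_dvd {π : k[X]} (hm : π.Monic) (hi : Irreducible π) (hQ : Q π) (M : ℕ) :
    (1 - ww π) * SS Q M ≤ ∑ D ∈ (DD Q M).filter (fun D => ¬ π ∣ D), ww D := by
  have h1 : SS Q M = ∑ D ∈ (DD Q M).filter (fun D => π ∣ D), ww D +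
      ∑ D ∈ (DD Q M).filter (fun D => ¬ π ∣ D), ww D :=
    (Finset.sum_filter_add_sum_filter_not _ _ _).symm
  have h2 : ∑ D ∈ (DD Q M).filter (fun D => π ∣ D), ww D ≤ ww π * SS Q M := by
    by_cases hd : π.natDegree ≤ M
    · rw [sum_dvd Q hm hi hQ M hd]
      apply mul_le_mul_of_nonneg_left _ (ww_pos π).le
      refine le_trans ?_ (SS_mono Q (Nat.sub_le M π.natDegree))
      exact Finset.sum_le_sum_of_subset_of_nonneg (Finset.filter_subset _ _)
        (fun _ _ _ => (ww_pos _).le)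
    · have h3 : (DD Q M).filter (fun D => π ∣ D) = ∅ := by
        rw [Finset.filter_eq_empty_iff]
        intro D hD hdvd
        rw [mem_DD] at hD
        have := natDegree_le_of_dvd hdvd hD.1.1.ne_zero
        omega
      rw [h3, Finset.sum_empty]
      exact mul_nonneg (ww_pos π).le (SS_nonneg Q M)
  linarith

open Classical in
/-- the degree of a polynomial is at least the sum of those of its prime divisors -/
lemma sum_degree_le {D : k[X]} (hD : D.Monic) (N : ℕ) :
    ∑ π ∈ (II Q N).filter (fun π => π ∣ D), π.natDegree ≤ D.natDegree := by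
  have h1 : ∏ π ∈ (II Q N).filter (fun π => π ∣ D), π ∣ D := by
    apply Finset.prod_dvd_of_coprime
    · intro π hπ ρ hρ hne
      rw [Finset.mem_coe, Finset.mem_filter, mem_II] at hπ hρ
      apply (hπ.1.2.1.coprime_iff_not_dvd).mpr
      intro h
      exact hne (Polynomial.eq_of_monic_of_associated hπ.1.1 hρ.1.1
        (hπ.1.2.1.associated_of_dvd hρ.1.2.1 h))
    · intro π hπ
      exact (Finset.mem_filter.mp hπ).2
  have h2 := natDegree_le_of_dvd h1 hD.ne_zero
  rwa [natDegree_prod_of_monic _ _ (fun π hπ => by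
    rw [Finset.mem_filter, mem_II] at hπ
    exact hπ.1.1)] at h2

open Classical in
/-- the weighted sum of the degrees -/
lemma weighted (N : ℕ) :
    ∑ π ∈ II Q N, (π.natDegree : ℚ) * ww π * ((1 - ww π) * SS Q (N - π.natDegree)) ≤
      ∑ D ∈ DD Q N, (D.natDegree : ℚ) * ww D := by
  calc ∑ π ∈ II Q N, (π.natDegree : ℚ) * ww π * ((1 - ww π) * SS Q (N - π.natDegree))
      ≤ ∑ π ∈ II Q N, (π.natDegree : ℚ) * ∑ D ∈ (DD Q N).filter (fun D => π ∣ D), ww D := by
        apply Finset.sum_le_sum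
        intro π hπ
        rw [mem_II] at hπ
        rw [sum_dvd Q hπ.1 hπ.2.1 hπ.2.2.1 N hπ.2.2.2, mul_assoc]
        apply mul_le_mul_of_nonneg_left _ (Nat.cast_nonneg _)
        apply mul_le_mul_of_nonneg_left _ (ww_pos π).le
        exact sum_not_dvd Q hπ.1 hπ.2.1 hπ.2.2.1 _
    _ = ∑ D ∈ DD Q N, (∑ π ∈ (II Q N).filter (fun π => π ∣ D), (π.natDegree : ℚ)) * ww D := by
        simp_rw [Finset.mul_sum, Finset.sum_mul, Finset.sum_filter]
        rw [Finset.sum_comm]
    _ ≤ _ := by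
        apply Finset.sum_le_sum
        intro D hD
        rw [mem_DD] at hD
        apply mul_le_mul_of_nonneg_right _ (ww_pos D).le
        have := sum_degree_le Q hD.1.1 N
        exact_mod_cast this

end count3

end Pool.Agent.BSDFF
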