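import Pool.Agent.Lib.MP_48b749_nt.Count3

set_option autoImplicit false

open Polynomial

namespace Pool.Agent.BSDFF

section count4

variable {k : Type} [Field k] [Finite k] (Q : k[X] → Prop)

/-- the sums of the partial sums -/
noncomputable def UU (N : ℕ) : ℚ := ∑ M ∈ Finset.range N, SS Q M

open Classical in
lemma TT_eq (N : ℕ) : ∑ D ∈ DD Q N, (D.natDegree : ℚ) * ww D + UU Q N = N * SS Q N := by
  have h1 : ∀ M ∈ Finset.range N, SS Q M = ∑ D ∈ DD Q N, if D.natDegree ≤ M then ww D else 0 := by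
    intro M hM
    rw [Finset.mem_range] at hM
    rw [← Finset.sum_filter]
    unfold SS
    apply Finset.sum_congr _ (fun _ _ => rfl)
    ext D
    rw [Finset.mem_filter, mem_DD, mem_DD]
    constructor
    · rintro ⟨h2, h3⟩
      exact ⟨⟨h2, by omega⟩, h3⟩
    · rintro ⟨⟨h2, -⟩, h3⟩
      exact ⟨h2, h3⟩
  unfold UU
  rw [Finset.sum_congr rfl h1, Finset.sum_comm, ← Finset.sum_add_distrib]
  unfold SS
  rw [Finset.mul_sum]
  apply Finset.sum_congr rfl
  intro D hD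
  rw [mem_DD] at hD
  have h2 : ∑ M ∈ Finset.range N, (if D.natDegree ≤ M then ww D else 0) =
      ((N - D.natDegree : ℕ) : ℚ) * ww D := by
    rw [← Finset.sum_filter, Finset.sum_const, nsmul_eq_mul]
    congr 2
    have : (Finset.range N).filter (fun M => D.natDegree ≤ M) = Finset.Ico D.natDegree N := by
      ext M
      rw [Finset.mem_filter, Finset.mem_range, Finset.mem_Ico]
      omega
    rw [this, Nat.card_Ico]
  rw [h2, Nat.cast_sub hD.2]
  ring

open Classical in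
lemma sum_II (N : ℕ) (g : ℕ → ℚ) :
    ∑ π ∈ II Q N, g π.natDegree = ∑ d ∈ Finset.Icc 1 N, ((PP Q d).ncard : ℚ) * g d := by
  rw [← Finset.sum_fiberwise_of_maps_to (s := II Q N) (t := Finset.Icc 1 N)
    (g := fun π => π.natDegree)]
  · apply Finset.sum_congr rfl
    intro d hd
    rw [Finset.mem_Icc] at hd
    have h1 : (PP Q d).ncard = ((II Q N).filter (fun π => π.natDegree = d)).card := by
      rw [← Set.ncard_coe_finset]
      congr 1
      ext π
      rw [Finset.coe_filter, Set.mem_setOf_eq, mem_II]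
      constructor
      · rintro ⟨h2, h3, h4, h5⟩
        exact ⟨⟨h2, h4, h5, by omega⟩, h3⟩
      · rintro ⟨⟨h2, h3, h4, -⟩, h5⟩
        exact ⟨h2, h5, h3, h4⟩
    rw [h1, ← nsmul_eq_mul, ← Finset.sum_const]
    apply Finset.sum_congr rfl
    intro π hπ
    rw [(Finset.mem_filter.mp hπ).2]
  · intro π hπ
    rw [mem_II] at hπ
    rw [Finset.mem_Icc]
    exact ⟨hπ.2.1.natDegree_pos, hπ.2.2.2⟩

/-- the error terms -/
lemma sum_err (N : ℕ) : ∑ d ∈ Finset.Icc 1 N, ((1 : ℚ) / 5) ^ (d - d / 2) ≤ 1 / 2 := by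
  have h1 : ∀ M : ℕ, ∑ d ∈ Finset.Icc 1 (2 * M), ((1 : ℚ) / 5) ^ (d - d / 2) =
      1 / 2 - 1 / 2 * (1 / 5) ^ M := by
    intro M
    induction M with
    | zero => simp
    | succ M ih =>
      have e1 : 2 * (M + 1) = 2 * M + 1 + 1 := by ring
      rw [e1, Finset.sum_Icc_succ_top (by omega), Finset.sum_Icc_succ_top (by omega), ih]
      have e2 : 2 * M + 1 - (2 * M + 1) / 2 = M + 1 := by omega
      have e3 : 2 * M + 1 + 1 - (2 * M + 1 + 1) / 2 = M + 1 := by omega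
      rw [e2, e3, pow_succ]
      ring
  calc ∑ d ∈ Finset.Icc 1 N, ((1 : ℚ) / 5) ^ (d - d / 2)
      ≤ ∑ d ∈ Finset.Icc 1 (2 * N), ((1 : ℚ) / 5) ^ (d - d / 2) := by
        apply Finset.sum_le_sum_of_subset_of_nonneg
        · exact Finset.Icc_subset_Icc_right (by omega)
        · intro _ _ _; positivity
    _ ≤ 1 / 2 := by
        rw [h1]
        have : (0 : ℚ) ≤ 1 / 2 * (1 / 5) ^ N := by positivity
        linarith

variable (hP : ∀ d : ℕ, 0 < d →
  Nat.card k ^ d ≤ 3 * d * (PP Q d).ncard + 6 * Nat.card k ^ (d / 2) + 5)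
  (hq : 5 ≤ Nat.card k)

include hP hq in
/-- density of the primes of degree `d` -/
lemma density (d : ℕ) (hd : 0 < d) :
    1 / 3 - 11 / 3 * (1 / 5 : ℚ) ^ (d - d / 2) ≤
      ((PP Q d).ncard : ℚ) * (d * ((Nat.card k : ℚ) ^ d)⁻¹) := by
  have h1 : ((Nat.card k : ℚ)) ^ d ≤ 3 * d * (PP Q d).ncard + 6 * (Nat.card k : ℚ) ^ (d / 2) + 5 := by
    exact_mod_cast hP d hd
  have hq' : (5 : ℚ) ≤ Nat.card k := by exact_mod_cast hq
  have hqd : (0 : ℚ) < (Nat.card k : ℚ) ^ d := pow_pos (by linarith) _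
  have h2 : (Nat.card k : ℚ) ^ (d / 2) * ((Nat.card k : ℚ) ^ d)⁻¹ ≤ (1 / 5 : ℚ) ^ (d - d / 2) := by
    have e1 : (Nat.card k : ℚ) ^ d = (Nat.card k : ℚ) ^ (d / 2) * (Nat.card k : ℚ) ^ (d - d / 2) := by
      rw [← pow_add]; congr 1; omega
    rw [e1, mul_inv, ← mul_assoc, mul_inv_cancel₀ (pow_pos (by linarith) _).ne', one_mul, ← inv_pow]
    apply pow_le_pow_left₀ (inv_nonneg.mpr (by linarith))
    rw [one_div]
    exact inv_anti₀ (by norm_num) hq'
  have h3 : ((Nat.card k : ℚ) ^ d)⁻¹ ≤ (1 / 5 : ℚ) ^ (d - d / 2) := by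
    refine le_trans ?_ h2
    have : (1 : ℚ) ≤ (Nat.card k : ℚ) ^ (d / 2) := one_le_pow₀ (by linarith)
    have h4 : (0 : ℚ) < ((Nat.card k : ℚ) ^ d)⁻¹ := inv_pos.mpr hqd
    nlinarith
  have h5 : 1 ≤ (3 * d * (PP Q d).ncard + 6 * (Nat.card k : ℚ) ^ (d / 2) + 5) *
      ((Nat.card k : ℚ) ^ d)⁻¹ := by
    rw [← div_eq_mul_inv, le_div_iff₀ hqd, one_mul]
    exact h1
  have h6 : ((PP Q d).ncard : ℚ) * (d * ((Nat.card k : ℚ) ^ d)⁻¹) = 1 / 3 *
      ((3 * d * (PP Q d).ncard + 6 * (Nat.card k : ℚ) ^ (d / 2) + 5) * ((Nat.card k : ℚ) ^ d)⁻¹)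
      - 2 * ((Nat.card k : ℚ) ^ (d / 2) * ((Nat.card k : ℚ) ^ d)⁻¹)
      - 5 / 3 * ((Nat.card k : ℚ) ^ d)⁻¹ := by ring
  rw [h6]
  linarith

include hP hq in
/-- the recursive inequality -/
lemma recursion (N : ℕ) : 4 / 3 * UU Q N ≤ (N + 2) * SS Q N := by
  have h1 := weighted Q N
  have h2 := TT_eq Q N
  have h3 := sum_II Q N (fun d => (d : ℚ) * ((Nat.card k : ℚ) ^ d)⁻¹ *
    ((1 - ((Nat.card k : ℚ) ^ d)⁻¹) * SS Q (N - d)))
  have h3' : ∑ π ∈ II Q N, (π.natDegree : ℚ) * ww π * ((1 - ww π) * SS Q (N - π.natDegree)) =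
      ∑ d ∈ Finset.Icc 1 N, ((PP Q d).ncard : ℚ) * ((d : ℚ) * ((Nat.card k : ℚ) ^ d)⁻¹ *
    ((1 - ((Nat.card k : ℚ) ^ d)⁻¹) * SS Q (N - d))) := h3
  rw [h3'] at h1
  have hq' : (5 : ℚ) ≤ Nat.card k := by exact_mod_cast hq
  have h4 : ∀ d ∈ Finset.Icc 1 N, (1 / 3 - 4 * (1 / 5 : ℚ) ^ (d - d / 2)) * SS Q (N - d) ≤
      ((PP Q d).ncard : ℚ) * ((d : ℚ) * ((Nat.card k : ℚ) ^ d)⁻¹ *
    ((1 - ((Nat.card k : ℚ) ^ d)⁻¹) * SS Q (N - d))) := by
    intro d hd
    rw [Finset.mem_Icc] at hd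
    have h5 := density Q hP hq d hd.1
    have hS := SS_nonneg Q (N - d)
    have hw1 : (0 : ℚ) < ((Nat.card k : ℚ) ^ d)⁻¹ := inv_pos.mpr (pow_pos (by linarith) _)
    have hw2 : ((Nat.card k : ℚ) ^ d)⁻¹ ≤ (1 / 5 : ℚ) ^ (d - d / 2) := by
      rw [one_div, inv_pow]
      apply inv_anti₀ (by positivity)
      calc (5 : ℚ) ^ (d - d / 2) ≤ 5 ^ d := pow_le_pow_right₀ (by norm_num) (by omega)
        _ ≤ (Nat.card k : ℚ) ^ d := pow_le_pow_left₀ (by norm_num) hq' _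
    have hw3 : (1 / 5 : ℚ) ^ (d - d / 2) ≤ 1 := pow_le_one₀ (by norm_num) (by norm_num)
    generalize ((Nat.card k : ℚ) ^ d)⁻¹ = w at *
    generalize (1 / 5 : ℚ) ^ (d - d / 2) = e at *
    have h6 : (1 / 3 - 4 * e) ≤ ((PP Q d).ncard : ℚ) * (d * w) * (1 - w) := by
      have h7 : (1 / 3 - 11 / 3 * e) * (1 - w) ≤ ((PP Q d).ncard : ℚ) * (d * w) * (1 - w) :=
        mul_le_mul_of_nonneg_right h5 (by linarith)
      nlinarith
    have h8 := mul_le_mul_of_nonneg_right h6 hS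
    linarith
  have h9 := Finset.sum_le_sum h4
  have h10 : ∑ d ∈ Finset.Icc 1 N, SS Q (N - d) = UU Q N := by
    unfold UU
    apply Finset.sum_bij' (fun d _ => N - d) (fun M _ => N - M)
    · intro d hd; rw [Finset.mem_Icc] at hd; rw [Finset.mem_range]; omega
    · intro M hM; rw [Finset.mem_range] at hM; rw [Finset.mem_Icc]; omega
    · intro d hd; rw [Finset.mem_Icc] at hd; omega
    · intro M hM; rw [Finset.mem_range] at hM; omega
    · intro d hd; rfl
  have h11 : ∑ d ∈ Finset.Icc 1 N, (1 / 5 : ℚ) ^ (d - d / 2) * SS Q (N - d) ≤ 1 / 2 * SS Q N := by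
    calc ∑ d ∈ Finset.Icc 1 N, (1 / 5 : ℚ) ^ (d - d / 2) * SS Q (N - d)
        ≤ ∑ d ∈ Finset.Icc 1 N, (1 / 5 : ℚ) ^ (d - d / 2) * SS Q N := by
          apply Finset.sum_le_sum
          intro d _
          exact mul_le_mul_of_nonneg_left (SS_mono Q (Nat.sub_le _ _)) (by positivity)
      _ = (∑ d ∈ Finset.Icc 1 N, (1 / 5 : ℚ) ^ (d - d / 2)) * SS Q N := by rw [Finset.sum_mul]
      _ ≤ _ := mul_le_mul_of_nonneg_right (sum_err N) (SS_nonneg Q N)
  have h12 : ∑ d ∈ Finset.Icc 1 N, (1 / 3 - 4 * (1 / 5 : ℚ) ^ (d - d / 2)) * SS Q (N - d) =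
      1 / 3 * UU Q N - 4 * ∑ d ∈ Finset.Icc 1 N, (1 / 5 : ℚ) ^ (d - d / 2) * SS Q (N - d) := by
    rw [← h10, Finset.mul_sum, Finset.mul_sum, ← Finset.sum_sub_distrib]
    apply Finset.sum_congr rfl
    intro d _; ring
  rw [h12] at h9
  linarith

lemma SS_zero : SS Q 0 = 1 := by
  unfold SS
  have : DD Q 0 = {1} := by
    ext D
    rw [mem_DD, Finset.mem_singleton]
    constructor
    · rintro ⟨⟨h1, -, -⟩, h2⟩
      exact h1.natDegree_eq_zero.mp (by omega)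
    · rintro rfl
      refine ⟨⟨monic_one, squarefree_one, ?_⟩, by simp⟩
      intro π _ hπ h
      exact absurd (isUnit_of_dvd_one h) hπ.not_isUnit
  rw [this, Finset.sum_singleton]
  unfold ww
  simp

lemma aux_poly (M : ℚ) (hM : 1 ≤ M) :
    (M + 1) ^ 4 * (M - 1) ^ 3 ≤ (M + 1 / 3) ^ 3 * M ^ 4 := by
  obtain ⟨m, rfl⟩ : ∃ m, M = m + 1 := ⟨M - 1, by ring⟩
  have hm : 0 ≤ m := by linarith
  have h2 : (m + 1 + 1 / 3) ^ 3 * (m + 1) ^ 4 - (m + 1 + 1) ^ 4 * (m + 1 - 1) ^ 3 =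
      10 / 3 * m ^ 5 + (532 / 27) * m ^ 4 + (1147 / 27) * m ^ 3 + (356 / 9) * m ^ 2
        + (400 / 27) * m + 64 / 27 := by ring
  have h3 : 0 ≤ 10 / 3 * m ^ 5 + (532 / 27) * m ^ 4 + (1147 / 27) * m ^ 3 + (356 / 9) * m ^ 2
        + (400 / 27) * m + 64 / 27 := by positivity
  linarith

include hP hq in
lemma UU_lower (N : ℕ) (hN : 1 ≤ N) : ((N : ℚ) + 3) ^ 4 / 256 ≤ UU Q N ^ 3 := by
  induction N, hN using Nat.le_induction with
  | base =>
    have : UU Q 1 = 1 := by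
      unfold UU
      rw [Finset.sum_range_one, SS_zero]
    rw [this]
    norm_num
  | succ N hN ih =>
    have hU0 : 0 ≤ UU Q N := Finset.sum_nonneg (fun _ _ => SS_nonneg Q _)
    have hNq : (1 : ℚ) ≤ N := by exact_mod_cast hN
    have h1 : UU Q (N + 1) = UU Q N + SS Q N := by
      unfold UU
      rw [Finset.sum_range_succ]
    have h2 := recursion Q hP hq N
    have h3 : UU Q N * ((N + 3 + 1 / 3) / (N + 2)) ≤ UU Q (N + 1) := by
      rw [h1]
      have h4 : 4 / 3 * UU Q N / (N + 2) ≤ SS Q N := by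
        rw [div_le_iff₀ (by linarith)]
        linarith
      have h5 : UU Q N * (((N : ℚ) + 3 + 1 / 3) / (N + 2)) = UU Q N + 4 / 3 * UU Q N / (N + 2) := by
        field_simp
        ring
      rw [h5]
      linarith
    have h6 : (UU Q N * (((N : ℚ) + 3 + 1 / 3) / (N + 2))) ^ 3 ≤ UU Q (N + 1) ^ 3 := by
      apply pow_le_pow_left₀ _ h3
      positivity
    refine le_trans ?_ h6
    rw [mul_pow]
    have h7 : ((N : ℚ) + 3) ^ 4 / 256 * (((N : ℚ) + 3 + 1 / 3) / (N + 2)) ^ 3 ≤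
        UU Q N ^ 3 * (((N : ℚ) + 3 + 1 / 3) / (N + 2)) ^ 3 :=
      mul_le_mul_of_nonneg_right ih (by positivity)
    refine le_trans ?_ h7
    have h8 := aux_poly ((N : ℚ) + 3) (by linarith)
    rw [div_pow, div_mul_div_comm, div_le_div_iff₀ (by norm_num) (by positivity)]
    push_cast
    have h9 : ((N : ℚ) + 1 + 3) ^ 4 * (256 * (N + 2) ^ 3) =
        256 * ((N + 3 + 1) ^ 4 * (N + 3 - 1) ^ 3) := by ring
    have h10 : ((N : ℚ) + 3) ^ 4 * (N + 3 + 1 / 3) ^ 3 * 256 =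
        256 * ((N + 3 + 1 / 3) ^ 3 * (N + 3) ^ 4) := by ring
    rw [h9, h10]
    linarith

include hP hq in
lemma SS_lower (N : ℕ) : ((N : ℚ) + 3) / 108 ≤ SS Q N ^ 3 := by
  rcases Nat.eq_zero_or_pos N with rfl | hN
  · rw [SS_zero]; norm_num
  have hU0 : 0 ≤ UU Q N := Finset.sum_nonneg (fun _ _ => SS_nonneg Q _)
  have hNq : (1 : ℚ) ≤ N := by exact_mod_cast hN
  have h2 := recursion Q hP hq N
  have h4 : 4 / 3 * UU Q N / (N + 2) ≤ SS Q N := by
    rw [div_le_iff₀ (by linarith)]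
    linarith
  have h5 : (4 / 3 * UU Q N / (N + 2)) ^ 3 ≤ SS Q N ^ 3 :=
    pow_le_pow_left₀ (by positivity) h4 3
  refine le_trans ?_ h5
  have h6 := UU_lower Q hP hq N hN
  have h7 : (4 / 3 * UU Q N / (N + 2)) ^ 3 = 64 / 27 * UU Q N ^ 3 / (N + 2) ^ 3 := by
    field_simp
    ring
  rw [h7, le_div_iff₀ (by positivity)]
  have h8 : ((N : ℚ) + 2) ^ 3 ≤ (N + 3) ^ 3 := pow_le_pow_left₀ (by linarith) (by linarith) 3
  have h9 : ((N : ℚ) + 3) / 108 * (N + 2) ^ 3 ≤ (N + 3) / 108 * (N + 3) ^ 3 :=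
    mul_le_mul_of_nonneg_left h8 (by positivity)
  have h10 : ((N : ℚ) + 3) / 108 * (N + 3) ^ 3 = 64 / 27 * ((N + 3) ^ 4 / 256) := by ring
  rw [h10] at h9
  linarith

/-- the admissible polynomials of degree `n` -/
def AA (n : ℕ) : Set k[X] := {D : k[X] | D ∈ Adm Q ∧ D.natDegree = n}

lemma AA_finite (n : ℕ) : (AA Q n).Finite :=
  (finite_monic n).subset (fun _ h => ⟨h.1.1, h.2⟩)

lemma PP_finite (n : ℕ) : (PP Q n).Finite :=
  (finite_monic n).subset (fun _ h => ⟨h.1, h.2.1⟩)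

open Classical in
lemma SS_eq (N : ℕ) : SS Q N = ∑ m ∈ Finset.range (N + 1),
    ((AA Q m).ncard : ℚ) * ((Nat.card k : ℚ) ^ m)⁻¹ := by
  unfold SS
  rw [← Finset.sum_fiberwise_of_maps_to (s := DD Q N) (t := Finset.range (N + 1))
    (g := fun D => D.natDegree)]
  · apply Finset.sum_congr rfl
    intro m hm
    rw [Finset.mem_range] at hm
    have h1 : (AA Q m).ncard = ((DD Q N).filter (fun D => D.natDegree = m)).card := by
      rw [← Set.ncard_coe_finset]
      congr 1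
      ext D
      rw [Finset.mem_coe, Finset.mem_filter, mem_DD]
      constructor
      · rintro ⟨h2, h3⟩
        exact ⟨⟨h2, by omega⟩, h3⟩
      · rintro ⟨⟨h2, -⟩, h5⟩
        exact ⟨h2, h5⟩
    rw [h1, ← nsmul_eq_mul, ← Finset.sum_const]
    apply Finset.sum_congr rfl
    intro D hD
    unfold ww
    rw [(Finset.mem_filter.mp hD).2]
  · intro D hD
    rw [mem_DD] at hD
    rw [Finset.mem_range]
    omega

open Classical in
/-- polynomials with a prime divisor of large degree -/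
lemma large_prime (n : ℕ) (hn : 0 < n) : ∑ m ∈ Finset.range ((n - 1) / 2 + 1),
    (PP Q (n - m)).ncard * (AA Q m).ncard ≤ (AA Q n).ncard := by
  have hP : ∀ m, (PP Q (n - m)).ncard = (PP_finite Q (n - m)).toFinset.card := fun m =>
    Set.ncard_eq_toFinset_card _ _
  have hA : ∀ m, (AA Q m).ncard = (AA_finite Q m).toFinset.card := fun m =>
    Set.ncard_eq_toFinset_card _ _
  simp_rw [hP, hA, ← Finset.card_product]
  rw [← Finset.card_sigma]
  apply Finset.card_le_card_of_injOn (fun z => z.2.1 * z.2.2)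
  · rintro ⟨m, π, D⟩ hz
    rw [Finset.mem_coe, Finset.mem_sigma, Finset.mem_range, Finset.mem_product,
      Set.Finite.mem_toFinset, Set.Finite.mem_toFinset] at hz
    obtain ⟨hm, ⟨h1, h2, h3, h4⟩, ⟨⟨h5, h6, h7⟩, h8⟩⟩ := hz
    change m < _ at hm
    change π.Monic at h1
    change π.natDegree = n - m at h2
    change D.natDegree = m at h8
    change Irreducible π at h3
    change Squarefree D at h6
    rw [Finset.mem_coe, Set.Finite.mem_toFinset]
    change π * D ∈ AA Q n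
    refine ⟨⟨h1.mul h5, ?_, ?_⟩, ?_⟩
    · rw [squarefree_mul_iff]
      refine ⟨(h3.coprime_iff_not_dvd.mpr ?_).isRelPrime, h3.squarefree, h6⟩
      intro hd
      have := natDegree_le_of_dvd hd (Monic.ne_zero h5)
      omega
    · intro ρ hρm hρi hρ
      rcases hρi.prime.dvd_or_dvd hρ with h | h
      · rwa [Polynomial.eq_of_monic_of_associated hρm h1 (hρi.associated_of_dvd h3 h)]
      · exact h7 ρ hρm hρi h
    · rw [h1.natDegree_mul h5, h2, h8]
      omega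
  · rintro ⟨m, π, D⟩ hz ⟨m', π', D'⟩ hz' heq
    rw [Finset.mem_coe, Finset.mem_sigma, Finset.mem_range, Finset.mem_product,
      Set.Finite.mem_toFinset, Set.Finite.mem_toFinset] at hz hz'
    obtain ⟨hm, ⟨h1, h2, h3, h4⟩, ⟨⟨h5, h6, h7⟩, h8⟩⟩ := hz
    obtain ⟨hm', ⟨h1', h2', h3', h4'⟩, ⟨⟨h5', h6', h7'⟩, h8'⟩⟩ := hz'
    change m < _ at hm
    change m' < _ at hm'
    change π.Monic at h1
    change π'.Monic at h1'
    change π.natDegree = n - m at h2
    change π'.natDegree = n - m' at h2'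
    change D.natDegree = m at h8
    change D'.natDegree = m' at h8'
    change Irreducible π at h3
    change Irreducible π' at h3'
    change π * D = π' * D' at heq
    have hdvd : π ∣ π' * D' := ⟨D, heq.symm⟩
    have hππ : π = π' := by
      rcases h3.prime.dvd_or_dvd hdvd with h | h
      · exact Polynomial.eq_of_monic_of_associated h1 h1' (h3.associated_of_dvd h3' h)
      · have := natDegree_le_of_dvd h (Monic.ne_zero h5')
        omega
    subst hππ
    have hDD : D = D' := mul_left_cancel₀ h3.ne_zero heq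
    subst hDD
    have : m = m' := by omega
    subst this
    rfl

include hP hq in
/-- **lower bound for the number of admissible polynomials of degree `n`** -/
theorem card_AA (n : ℕ) (hn : 3 ≤ n) :
    Nat.card k ^ (3 * n) ≤ 33 ^ 3 * n ^ 2 * (AA Q n).ncard ^ 3 := by
  have hq' : (5 : ℚ) ≤ Nat.card k := by exact_mod_cast hq
  have hL := large_prime Q n (by omega)
  have hLq : ∑ m ∈ Finset.range ((n - 1) / 2 + 1),
    ((PP Q (n - m)).ncard : ℚ) * (AA Q m).ncard ≤ (AA Q n).ncard := by exact_mod_cast hL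
  have hnq : (3 : ℚ) ≤ n := by exact_mod_cast hn
  have hqn : (0 : ℚ) < (Nat.card k : ℚ) ^ n := pow_pos (by linarith) _
  -- the terms
  have hterm : ∀ m : ℕ, m < n → 3 ≤ n - m → (14 / 75 / n : ℚ) * (((AA Q m).ncard : ℚ) *
      ((Nat.card k : ℚ) ^ m)⁻¹) ≤
      ((PP Q (n - m)).ncard : ℚ) * (AA Q m).ncard * ((Nat.card k : ℚ) ^ n)⁻¹ := by
    intro m hm hm3
    have h1 := density Q hP hq (n - m) (by omega)
    have h2 : (1 / 5 : ℚ) ^ (n - m - (n - m) / 2) ≤ (1 / 5) ^ 2 :=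
      pow_le_pow_of_le_one (by norm_num) (by norm_num) (by omega)
    have h3 : (14 / 75 : ℚ) ≤ ((PP Q (n - m)).ncard : ℚ) *
        (((n - m : ℕ) : ℚ) * ((Nat.card k : ℚ) ^ (n - m))⁻¹) := by
      refine le_trans ?_ h1
      norm_num at h2 ⊢
      linarith
    have h4 : ((Nat.card k : ℚ) ^ n)⁻¹ = ((Nat.card k : ℚ) ^ (n - m))⁻¹ *
        ((Nat.card k : ℚ) ^ m)⁻¹ := by
      rw [← mul_inv, ← pow_add]; congr 2; omega
    rw [h4]
    have h5 : (14 / 75 / n : ℚ) ≤ ((PP Q (n - m)).ncard : ℚ) * ((Nat.card k : ℚ) ^ (n - m))⁻¹ := by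
      rw [div_le_iff₀ (by linarith)]
      refine h3.trans ?_
      have h6 : ((n - m : ℕ) : ℚ) ≤ n := by exact_mod_cast Nat.sub_le n m
      have h7 : (0 : ℚ) ≤ ((PP Q (n - m)).ncard : ℚ) * ((Nat.card k : ℚ) ^ (n - m))⁻¹ := by
        positivity
      have h8 := mul_le_mul_of_nonneg_left h6 h7
      linarith
    have h9 : (0 : ℚ) ≤ ((AA Q m).ncard : ℚ) * ((Nat.card k : ℚ) ^ m)⁻¹ := by positivity
    have h10 := mul_le_mul_of_nonneg_right h5 h9
    refine h10.trans (le_of_eq ?_)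
    ring
  have hgoal : (1 : ℚ) ≤ 33 ^ 3 * n ^ 2 * (((AA Q n).ncard : ℚ) * ((Nat.card k : ℚ) ^ n)⁻¹) ^ 3 := by
    have hA0 : (0 : ℚ) ≤ ((AA Q n).ncard : ℚ) * ((Nat.card k : ℚ) ^ n)⁻¹ := by positivity
    have hLq' : ∑ m ∈ Finset.range ((n - 1) / 2 + 1), ((PP Q (n - m)).ncard : ℚ) *
        (AA Q m).ncard * ((Nat.card k : ℚ) ^ n)⁻¹ ≤
        ((AA Q n).ncard : ℚ) * ((Nat.card k : ℚ) ^ n)⁻¹ := by
      rw [← Finset.sum_mul]
      exact mul_le_mul_of_nonneg_right hLq (by positivity)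
    rcases Nat.lt_or_ge n 4 with h4 | h4
    · -- n = 3
      have hn3 : n = 3 := by omega
      subst hn3
      have h5 : (14 / 75 / 3 : ℚ) ≤ ((AA Q 3).ncard : ℚ) * ((Nat.card k : ℚ) ^ 3)⁻¹ := by
        refine le_trans ?_ hLq'
        refine le_trans ?_ (Finset.single_le_sum (f := fun m => ((PP Q (3 - m)).ncard : ℚ) *
          (AA Q m).ncard * ((Nat.card k : ℚ) ^ 3)⁻¹) (fun m _ => by positivity)
          (Finset.mem_range.mpr (by norm_num : 0 < (3 - 1) / 2 + 1)))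
        have h6 := hterm 0 (by norm_num) (by norm_num)
        have h7 : (AA Q 0).ncard = 1 := by
          rw [Set.ncard_eq_one]
          refine ⟨1, ?_⟩
          ext D
          rw [Set.mem_singleton_iff]
          constructor
          · rintro ⟨⟨h1, -, -⟩, h2⟩
            exact h1.natDegree_eq_zero.mp h2
          · rintro rfl
            refine ⟨⟨monic_one, squarefree_one, ?_⟩, by simp⟩
            intro π _ hπ h
            exact absurd (isUnit_of_dvd_one h) hπ.not_isUnit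
        rw [h7] at h6 ⊢
        refine le_trans ?_ h6
        norm_num
      have h6 := pow_le_pow_left₀ (by norm_num) h5 3
      have h7 : (1 : ℚ) ≤ 33 ^ 3 * (3 : ℕ) ^ 2 * (14 / 75 / 3) ^ 3 := by norm_num
      refine h7.trans ?_
      exact mul_le_mul_of_nonneg_left h6 (by positivity)
    · have h5 : (14 / 75 / n : ℚ) * SS Q ((n - 1) / 2) ≤
          ((AA Q n).ncard : ℚ) * ((Nat.card k : ℚ) ^ n)⁻¹ := by
        refine le_trans ?_ hLq'
        rw [SS_eq, Finset.mul_sum]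
        apply Finset.sum_le_sum
        intro m hm
        rw [Finset.mem_range] at hm
        exact hterm m (by omega) (by omega)
      have h6 := SS_lower Q hP hq ((n - 1) / 2)
      have h7 : (n : ℚ) / 2 ≤ (((n - 1) / 2 : ℕ) : ℚ) + 3 := by
        have : n ≤ 2 * ((n - 1) / 2) + 6 := by omega
        have h8 : (n : ℚ) ≤ 2 * (((n - 1) / 2 : ℕ) : ℚ) + 6 := by exact_mod_cast this
        linarith
      have h8 : (n : ℚ) / 216 ≤ SS Q ((n - 1) / 2) ^ 3 := by linarith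
      have h9 : ((14 / 75 / n : ℚ) * SS Q ((n - 1) / 2)) ^ 3 ≤
          (((AA Q n).ncard : ℚ) * ((Nat.card k : ℚ) ^ n)⁻¹) ^ 3 :=
        pow_le_pow_left₀ (mul_nonneg (by positivity) (SS_nonneg Q _)) h5 3
      have h10 : (14 / 75 / n : ℚ) ^ 3 * (n / 216) ≤
          ((14 / 75 / n : ℚ) * SS Q ((n - 1) / 2)) ^ 3 := by
        rw [mul_pow]
        exact mul_le_mul_of_nonneg_left h8 (by positivity)
      have h11 : (33 : ℚ) ^ 3 * n ^ 2 * ((14 / 75 / n : ℚ) ^ 3 * (n / 216)) =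
          33 ^ 3 * (14 / 75) ^ 3 / 216 := by
        field_simp
      have h12 : (1 : ℚ) ≤ 33 ^ 3 * (14 / 75) ^ 3 / 216 := by norm_num
      rw [← h11] at h12
      refine h12.trans ?_
      exact mul_le_mul_of_nonneg_left (h10.trans h9) (by positivity)
  have h13 : ((Nat.card k : ℚ) ^ (3 * n)) ≤ 33 ^ 3 * n ^ 2 * ((AA Q n).ncard : ℚ) ^ 3 := by
    rw [mul_pow, inv_pow, ← mul_assoc, ← div_eq_mul_inv, le_div_iff₀ (pow_pos hqn 3), one_mul,
      ← pow_mul, mul_comm n 3] at hgoal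
    exact hgoal
  exact_mod_cast h13

end count4

end Pool.Agent.BSDFF
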