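import Pool.Agent.Lib.MP_48b749_nt.Sieve

set_option autoImplicit false

open Polynomial

namespace Pool.Agent.BSDFF

lemma cubic_two_roots {F : Type} [Field F] (h2 : (2 : F) ≠ 0) (h3 : (3 : F) ≠ 0) (A t : F)
    (hA : A ≠ 0) : Nat.card {r : F // r ^ 3 + A * r = t} = 2 ↔ 4 * A ^ 3 + 27 * t ^ 2 = 0 := by
  constructor
  · intro h
    rw [Nat.card_eq_two_iff] at h
    obtain ⟨⟨r, hr⟩, ⟨s, hs⟩, hne, hall⟩ := h
    have hrs : r ≠ s := fun h => hne (Subtype.ext h)
    have h4 : r ^ 2 + r * s + s ^ 2 + A = 0 := by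
      have : (r - s) * (r ^ 2 + r * s + s ^ 2 + A) = 0 := by linear_combination hr - hs
      exact (mul_eq_zero.mp this).resolve_left (sub_ne_zero.mpr hrs)
    have h5 : (-r - s) ^ 3 + A * (-r - s) = t := by
      linear_combination hr - (2 * r + s) * h4
    have h6 : (⟨-r - s, h5⟩ : {r : F // r ^ 3 + A * r = t}) ∈
        ({⟨r, hr⟩, ⟨s, hs⟩} : Set {r : F // r ^ 3 + A * r = t}) := by
      rw [hall]; trivial
    have h7 : -r - s = r ∨ -r - s = s := by
      rcases h6 with h6 | h6
      · left; exact congrArg Subtype.val h6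
      · right; exact congrArg Subtype.val h6
    rcases h7 with h7 | h7
    · have hs' : s = -2 * r := by linear_combination -h7
      have hA' : A = -3 * r ^ 2 := by rw [hs'] at h4; linear_combination h4
      rw [← hr, hA']; ring
    · have hr' : r = -2 * s := by linear_combination -h7
      have hA' : A = -3 * s ^ 2 := by rw [hr'] at h4; linear_combination h4
      rw [← hs, hA']; ring
  · intro h
    have ht : t ≠ 0 := by
      rintro rfl
      have : (4 : F) * A ^ 3 = 0 := by linear_combination h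
      have h4 : (4 : F) ≠ 0 := by
        have : (4 : F) = 2 * 2 := by norm_num
        rw [this]; exact mul_ne_zero h2 h2
      exact mul_ne_zero h4 (pow_ne_zero _ hA) this
    set α := 3 * t / (2 * A) with hα
    have h2A : (2 * A) ≠ 0 := mul_ne_zero h2 hA
    have hαne : α ≠ 0 := div_ne_zero (mul_ne_zero h3 ht) h2A
    have hα2 : 3 * α ^ 2 + A = 0 := by
      have : (2 * A) ^ 2 * (3 * α ^ 2 + A) = 0 := by
        have h5 : 2 * A * α = 3 * t := by rw [hα]; field_simp
        linear_combination (3 * (2 * A * α + 3 * t)) * h5 + h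
      exact (mul_eq_zero.mp this).resolve_left (pow_ne_zero _ h2A)
    have hαt : 2 * A * α = 3 * t := by rw [hα]; field_simp
    have hα3 : α ^ 3 + A * α = t := by
      have : (3 : F) * (α ^ 3 + A * α - t) = 0 := by
        linear_combination α * hα2 + hαt
      exact sub_eq_zero.mp ((mul_eq_zero.mp this).resolve_left h3)
    have hβ3 : (-2 * α) ^ 3 + A * (-2 * α) = t := by
      linear_combination hα3 - (3 * α) * hα2
    have hne : α ≠ -2 * α := by
      intro h5
      have : (3 : F) * α = 0 := by linear_combination h5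
      exact mul_ne_zero h3 hαne this
    rw [Nat.card_eq_two_iff]
    refine ⟨⟨α, hα3⟩, ⟨-2 * α, hβ3⟩, fun h5 => hne (congrArg Subtype.val h5), ?_⟩
    ext ⟨r, hr⟩
    simp only [Set.mem_insert_iff, Set.mem_singleton_iff, Subtype.mk.injEq, Set.mem_univ, iff_true]
    have h5 : (r - α) ^ 2 * (r + 2 * α) = 0 := by
      linear_combination hr - hα3 + (α - r) * hα2
    rcases mul_eq_zero.mp h5 with h6 | h6
    · left
      exact sub_eq_zero.mp (pow_eq_zero_iff (two_ne_zero) |>.mp h6)
    · right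
      linear_combination h6

lemma nRoots_two_iff {k : Type} [Field k] (h2 : (2 : k) ≠ 0) (h3 : (3 : k) ≠ 0) (a : k)
    (ha : a ≠ 0) {π : k[X]} (hπ : Irreducible π) :
    nRoots a π = 2 ↔ π ∣ C (4 * a ^ 3) + 27 * X ^ 2 := by
  have : Fact (Irreducible π) := ⟨hπ⟩
  have hinj : Function.Injective (AdjoinRoot.of π) := (AdjoinRoot.of π).injective
  have h2' : (2 : AdjoinRoot π) ≠ 0 := by
    have h : (2 : AdjoinRoot π) = AdjoinRoot.of π 2 := by rw [map_ofNat]
    rw [h]
    exact (map_ne_zero_iff _ hinj).mpr h2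
  have h3' : (3 : AdjoinRoot π) ≠ 0 := by
    have h : (3 : AdjoinRoot π) = AdjoinRoot.of π 3 := by rw [map_ofNat]
    rw [h]
    exact (map_ne_zero_iff _ hinj).mpr h3
  unfold nRoots
  rw [cubic_two_roots h2' h3' (AdjoinRoot.of π a) (AdjoinRoot.root π)
    ((map_ne_zero_iff _ hinj).mpr ha), ← AdjoinRoot.mk_eq_zero]
  have : AdjoinRoot.mk π (C (4 * a ^ 3) + 27 * X ^ 2) =
      4 * (AdjoinRoot.of π a) ^ 3 + 27 * (AdjoinRoot.root π) ^ 2 := by
    simp only [map_add, map_mul, map_pow, C_ofNat, map_ofNat, AdjoinRoot.mk_X, AdjoinRoot.mk_C]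
  rw [this]

end Pool.Agent.BSDFF
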