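import Pool.Agent.Lib.MP_48b749_nt.Infty

set_option autoImplicit false

open Polynomial WithZero Multiplicative IsDiscreteValuationRing IsDedekindDomain.HeightOneSpectrum

namespace Pool.Agent.BSDFF

section curve

variable {k : Type} [Field k]

/-- The quadratic twist by `D` of `y^2 = x^3 + a x - t` over `k(t)`, that is, the curve
`y^2 = x^3 + a D^2 x - t D^3`, isomorphic to `D y^2 = x^3 + a x - t`. -/
noncomputable def twist (a : k) (D : k[X]) : WeierstrassCurve (RatFunc k) :=
  ⟨0, 0, 0, algebraMap k[X] (RatFunc k) (C a * D ^ 2), algebraMap k[X] (RatFunc k) (-(X * D ^ 3))⟩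

lemma short_Δ {R : Type} [CommRing R] (A B : R) :
    (⟨0, 0, 0, A, B⟩ : WeierstrassCurve R).Δ = -16 * (4 * A ^ 3 + 27 * B ^ 2) := by
  simp only [WeierstrassCurve.Δ, WeierstrassCurve.b₂, WeierstrassCurve.b₄, WeierstrassCurve.b₆,
    WeierstrassCurve.b₈]
  ring

lemma short_c4 {R : Type} [CommRing R] (A B : R) :
    (⟨0, 0, 0, A, B⟩ : WeierstrassCurve R).c₄ = -48 * A := by
  simp only [WeierstrassCurve.c₄, WeierstrassCurve.b₂, WeierstrassCurve.b₄]
  ring

lemma twist_Δ (a : k) (D : k[X]) : (twist a D).Δ =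
    algebraMap k[X] (RatFunc k) (-16 * (D ^ 6 * (C (4 * a ^ 3) + 27 * X ^ 2))) := by
  rw [twist, short_Δ, ← map_ofNat (algebraMap k[X] (RatFunc k)) 4,
    ← map_ofNat (algebraMap k[X] (RatFunc k)) 27, ← map_ofNat (algebraMap k[X] (RatFunc k)) 16]
  rw [← map_pow, ← map_pow, ← map_mul, ← map_mul, ← map_add, ← map_neg, ← map_mul]
  congr 1
  simp only [map_mul, map_pow, C_ofNat]
  ring

lemma twist_c4 (a : k) (D : k[X]) : (twist a D).c₄ =
    algebraMap k[X] (RatFunc k) (-48 * (C a * D ^ 2)) := by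
  rw [twist, short_c4, ← map_ofNat (algebraMap k[X] (RatFunc k)) 48, ← map_neg, ← map_mul]

variable (h2 : (2 : k) ≠ 0) (h3 : (3 : k) ≠ 0)

/-- the integral model at a finite place -/
noncomputable def intModel (v : Place k (RatFunc k)) (hX : RatFunc.X ∈ v.ring) (a : k) (D : k[X]) :
    WeierstrassCurve v.ring :=
  ⟨0, 0, 0, polyHom v hX (C a * D ^ 2), polyHom v hX (-(X * D ^ 3))⟩

lemma intModel_map (v : Place k (RatFunc k)) (hX : RatFunc.X ∈ v.ring) (a : k) (D : k[X]) :
    (1 : WeierstrassCurve.VariableChange (RatFunc k)) • twist a D =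
      (intModel v hX a D).map (algebraMap v.ring (RatFunc k)) := by
  rw [one_smul]
  ext
  · exact (map_zero (algebraMap v.ring (RatFunc k))).symm
  · exact (map_zero (algebraMap v.ring (RatFunc k))).symm
  · exact (map_zero (algebraMap v.ring (RatFunc k))).symm
  · rfl
  · rfl

include h2 in
lemma isUnit_two (v : Place k (RatFunc k)) (hX : RatFunc.X ∈ v.ring) : IsUnit (2 : v.ring) := by
  have h : (2 : v.ring) = polyHom v hX (C 2) := by rw [C_ofNat, map_ofNat]
  rw [h]
  exact (Polynomial.isUnit_C.mpr (isUnit_iff_ne_zero.mpr h2)).map _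

include h3 in
lemma isUnit_three (v : Place k (RatFunc k)) (hX : RatFunc.X ∈ v.ring) : IsUnit (3 : v.ring) := by
  have h : (3 : v.ring) = polyHom v hX (C 3) := by rw [C_ofNat, map_ofNat]
  rw [h]
  exact (Polynomial.isUnit_C.mpr (isUnit_iff_ne_zero.mpr h3)).map _

/-- vv at a finite place of the generator -/
lemma vv_pi (v : Place k (RatFunc k)) (hX : RatFunc.X ∈ v.ring) {π : k[X]}
    (hπ : Irreducible π) (hn : ¬ IsUnit (polyHom v hX π)) :
    vv v.ring (algebraMap k[X] (RatFunc k) π) = exp (-1 : ℤ) := by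
  rw [← algebraMap_polyHom v hX, vv, IsDedekindDomain.HeightOneSpectrum.valuation_of_algebraMap]
  apply IsDedekindDomain.HeightOneSpectrum.intValuation_singleton
  · exact polyHom_ne_zero v hX hπ.ne_zero
  · change IsLocalRing.maximalIdeal v.ring = _
    ext x
    rw [IsLocalRing.mem_maximalIdeal, mem_nonunits_iff, Ideal.mem_span_singleton]
    constructor
    · intro h
      have hd : ¬ π ∣ (x : RatFunc k).denom := (ring_mem_iff v hX hπ hn _).mp x.2
      have hd0 : algebraMap k[X] (RatFunc k) (x : RatFunc k).denom ≠ 0 := by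
        simpa using RatFunc.denom_ne_zero (x : RatFunc k)
      have hx : x * polyHom v hX (x : RatFunc k).denom = polyHom v hX (x : RatFunc k).num := by
        apply Subtype.ext
        exact (eq_div_iff hd0).mp (RatFunc.num_div_denom (x : RatFunc k)).symm
      have hnum : π ∣ (x : RatFunc k).num := by
        by_contra hcon
        have h4 := (polyHom_unit_iff v hX hπ hn _).mpr hcon
        rw [← hx] at h4
        exact h (isUnit_of_mul_isUnit_left h4)
      obtain ⟨y, hy⟩ := ((polyHom_unit_iff v hX hπ hn _).mpr hd).exists_right_inv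
      obtain ⟨g, hg⟩ := hnum
      refine ⟨polyHom v hX g * y, ?_⟩
      calc x = x * (polyHom v hX (x : RatFunc k).denom * y) := by rw [hy, mul_one]
        _ = polyHom v hX (x : RatFunc k).num * y := by rw [← mul_assoc, hx]
        _ = polyHom v hX π * (polyHom v hX g * y) := by rw [hg, map_mul, mul_assoc]
    · rintro ⟨y, rfl⟩ h
      exact hn (isUnit_of_mul_isUnit_left h)

lemma vv_unit_of_not_dvd (v : Place k (RatFunc k)) (hX : RatFunc.X ∈ v.ring) {π : k[X]}
    (hπ : Irreducible π) (hn : ¬ IsUnit (polyHom v hX π)) {f : k[X]} (hf : ¬ π ∣ f) :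
    vv v.ring (algebraMap k[X] (RatFunc k) f) = 1 := by
  rw [← algebraMap_polyHom v hX]
  exact val_unit (K := RatFunc k) v.ring ((polyHom_unit_iff v hX hπ hn f).mpr hf)

lemma vv_lt_one_of_dvd (v : Place k (RatFunc k)) (hX : RatFunc.X ∈ v.ring) {π : k[X]}
    (hπ : Irreducible π) (hn : ¬ IsUnit (polyHom v hX π)) {f : k[X]} (hf : π ∣ f) :
    vv v.ring (algebraMap k[X] (RatFunc k) f) < 1 := by
  obtain ⟨g, rfl⟩ := hf
  rw [map_mul, map_mul, vv_pi v hX hπ hn]
  have h1 : vv v.ring (algebraMap k[X] (RatFunc k) g) ≤ 1 := by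
    rw [← algebraMap_polyHom v hX]
    exact IsDedekindDomain.HeightOneSpectrum.valuation_le_one _ _
  refine mul_lt_one_of_lt_of_le ?_ h1
  rw [← exp_zero, exp_lt_exp]
  norm_num

include h2 h3 in
lemma not_dvd_const {π : k[X]} (hπ : Irreducible π) : ¬ π ∣ (48 : k[X]) := by
  intro h
  have h48 : (48 : k[X]) = C 48 := by rw [C_ofNat]
  rw [h48] at h
  have hu : IsUnit (C (48 : k)) := by
    rw [Polynomial.isUnit_C, isUnit_iff_ne_zero]
    have : (48 : k) = 2 ^ 4 * 3 := by norm_num
    rw [this]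
    exact mul_ne_zero (pow_ne_zero _ h2) h3
  exact hπ.not_isUnit (isUnit_of_dvd_unit h hu)

include h2 h3 in
/-- multiplicative reduction at the zeros of `4 a^3 + 27 t^2` -/
lemma local_mult_twist (v : Place k (RatFunc k)) (hX : RatFunc.X ∈ v.ring) {π : k[X]}
    (hπ : Irreducible π) (hn : ¬ IsUnit (polyHom v hX π)) (a : k) (ha : a ≠ 0) (D : k[X])
    (hD : ¬ π ∣ D) (hdisc : π ∣ C (4 * a ^ 3) + 27 * X ^ 2) (hdisc0 : C (4 * a ^ 3) + 27 * X ^ 2 ≠ (0 : k[X])) :
    (twist a D).localPolynomial v.ring = 1 - X ∨ (twist a D).localPolynomial v.ring = 1 + X := by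
  have hD0 : D ≠ 0 := fun h => hD (h ▸ dvd_zero π)
  apply local_multiplicative v.ring (twist a D) 1
  · exact ⟨⟨_, intModel_map v hX a D⟩⟩
  · rw [one_smul, twist_Δ]
    intro h
    rw [FaithfulSMul.algebraMap_eq_zero_iff] at h
    have h16 : (-16 : k[X]) ≠ 0 := by
      have h5 : (-16 : k[X]) = -(C 2) ^ 4 := by rw [C_ofNat]; norm_num
      rw [h5]
      refine neg_ne_zero.mpr (pow_ne_zero _ ?_)
      rw [ne_eq, C_eq_zero]
      exact h2
    exact mul_ne_zero h16 (mul_ne_zero (pow_ne_zero _ hD0) hdisc0) h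
  · rw [one_smul, twist_Δ]
    exact vv_lt_one_of_dvd v hX hπ hn (Dvd.dvd.mul_left (Dvd.dvd.mul_left hdisc _) _)
  · rw [one_smul, twist_c4]
    apply vv_unit_of_not_dvd v hX hπ hn
    intro h
    rw [neg_mul, dvd_neg] at h
    rcases hπ.prime.dvd_or_dvd h with h | h
    · exact not_dvd_const h2 h3 hπ h
    rcases hπ.prime.dvd_or_dvd h with h | h
    · exact hπ.not_isUnit (isUnit_of_dvd_unit h (Polynomial.isUnit_C.mpr (isUnit_iff_ne_zero.mpr ha)))
    · exact hD (hπ.prime.dvd_of_dvd_pow h)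

include h2 h3 in
/-- additive reduction at the primes dividing `D` -/
lemma local_add_twist (v : Place k (RatFunc k)) (hX : RatFunc.X ∈ v.ring) {π : k[X]}
    (hπ : Irreducible π) (hn : ¬ IsUnit (polyHom v hX π)) (a : k) (D : k[X])
    (hsq : Squarefree D) (hD : π ∣ D) (hdisc : ¬ π ∣ C (4 * a ^ 3) + 27 * X ^ 2) :
    (twist a D).localPolynomial v.ring = 1 := by
  obtain ⟨D', hD'⟩ := hD
  have hD'n : ¬ π ∣ D' := by
    intro h
    obtain ⟨D'', rfl⟩ := h
    exact hπ.not_isUnit (hsq π ⟨D'', by rw [hD']; ring⟩)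
  have h16 : ¬ π ∣ (-16 : k[X]) := by
    intro h
    apply not_dvd_const h2 h3 hπ
    have : (48 : k[X]) = (-16) * (-3) := by norm_num
    rw [this]
    exact Dvd.dvd.mul_right h _
  have hΔ : vv v.ring ((1 : WeierstrassCurve.VariableChange (RatFunc k)) • twist a D).Δ =
      exp (-6 : ℤ) := by
    rw [one_smul, twist_Δ, map_mul, map_mul, vv_unit_of_not_dvd v hX hπ hn h16, one_mul, map_mul,
      map_mul, vv_unit_of_not_dvd v hX hπ hn hdisc, mul_one, map_pow, map_pow, hD', map_mul,
      map_mul, vv_pi v hX hπ hn, vv_unit_of_not_dvd v hX hπ hn hD'n, mul_one, ← exp_nsmul]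
    norm_num
  apply local_additive v.ring (twist a D) 1
  · exact ⟨⟨_, intModel_map v hX a D⟩⟩
  · rw [hΔ, exp_lt_exp]; norm_num
  · rw [hΔ, ← exp_zero, exp_lt_exp]; norm_num
  · rw [one_smul, twist_c4]
    apply vv_lt_one_of_dvd v hX hπ hn
    rw [hD']
    exact ⟨-48 * (C a * (D' * (π * D'))), by ring⟩

/-- the number of roots of `r^3 + a r = t` in `k[t]/(π)` -/
noncomputable def nRoots (a : k) (π : k[X]) : ℕ :=
  Nat.card {r : AdjoinRoot π // r ^ 3 + AdjoinRoot.of π a * r = AdjoinRoot.root π}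

include h2 h3 in
/-- good reduction at the other finite places -/
lemma local_good_twist [Finite k] (v : Place k (RatFunc k)) (hX : RatFunc.X ∈ v.ring) {π : k[X]}
    (hπ : Irreducible π) (hn : ¬ IsUnit (polyHom v hX π)) (a : k) (D : k[X])
    (hD : ¬ π ∣ D) (hdisc : ¬ π ∣ C (4 * a ^ 3) + 27 * X ^ 2) :
    ((twist a D).localPolynomial v.ring).map (Int.castRingHom (ZMod 2)) =
      1 + C (1 + (nRoots a π : ZMod 2)) * X + X ^ 2 := by
  have := residue_finite v hX hπ hn
  have hgood := local_good v.ring (twist a D) 1 (polyHom v hX (C a * D ^ 2))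
    (polyHom v hX (-(X * D ^ 3))) (intModel_map v hX a D) (by
      have h : 4 * polyHom v hX (C a * D ^ 2) ^ 3 + 27 * polyHom v hX (-(X * D ^ 3)) ^ 2 =
          polyHom v hX (D ^ 6 * (C (4 * a ^ 3) + 27 * X ^ 2)) := by
        rw [← map_ofNat (polyHom v hX) 4, ← map_ofNat (polyHom v hX) 27, ← map_pow, ← map_pow,
          ← map_mul, ← map_mul, ← map_add]
        congr 1
        simp only [map_mul, map_pow, C_ofNat]
        ring
      rw [h, polyHom_unit_iff v hX hπ hn]
      intro h5
      rcases hπ.prime.dvd_or_dvd h5 with h6 | h6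
      · exact hD (hπ.prime.dvd_of_dvd_pow h6)
      · exact hdisc h6) (isUnit_two h2 v hX) (isUnit_three h3 v hX)
  rw [hgood]
  obtain ⟨e, he⟩ := residue_equiv v hX hπ hn
  have hfact : Fact (Irreducible π) := ⟨hπ⟩
  have hδ : AdjoinRoot.mk π D ≠ 0 := by
    intro h
    exact hD (AdjoinRoot.mk_eq_zero.mp h)
  have hA : IsLocalRing.residue v.ring (polyHom v hX (C a * D ^ 2)) =
      e (AdjoinRoot.of π a * AdjoinRoot.mk π D ^ 2) := by
    rw [← he, map_mul, map_pow]; rfl
  have hB : IsLocalRing.residue v.ring (polyHom v hX (-(X * D ^ 3))) =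
      e (-(AdjoinRoot.root π * AdjoinRoot.mk π D ^ 3)) := by
    rw [← he, map_neg, map_mul, map_pow]; rfl
  have hcard : Nat.card {x : IsLocalRing.ResidueField v.ring //
      x ^ 3 + IsLocalRing.residue v.ring (polyHom v hX (C a * D ^ 2)) * x +
        IsLocalRing.residue v.ring (polyHom v hX (-(X * D ^ 3))) = 0} = nRoots a π := by
    rw [hA, hB]
    have key : ∀ x : IsLocalRing.ResidueField v.ring,
        x ^ 3 + e (AdjoinRoot.of π a * AdjoinRoot.mk π D ^ 2) * x +
          e (-(AdjoinRoot.root π * AdjoinRoot.mk π D ^ 3)) = 0 →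
        (e.symm x) ^ 3 + AdjoinRoot.of π a * AdjoinRoot.mk π D ^ 2 * e.symm x +
              -(AdjoinRoot.root π * AdjoinRoot.mk π D ^ 3) = 0 := by
      intro x hx
      apply e.injective
      rw [map_add, map_add, map_mul e _ (e.symm x), map_pow, e.apply_symm_apply, map_zero]
      exact hx
    unfold nRoots
    symm
    apply Nat.card_congr
    exact
      { toFun := fun r => ⟨e (AdjoinRoot.mk π D * r.1), by
          rw [← map_pow, ← map_mul, ← map_add, ← map_add]
          rw [map_eq_zero_iff e e.injective]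
          linear_combination (AdjoinRoot.mk π D ^ 3) * r.2⟩
        invFun := fun x => ⟨e.symm x.1 / AdjoinRoot.mk π D, by
          have hx2 := key x.1 x.2
          field_simp
          linear_combination hx2⟩
        left_inv := fun r => by
          apply Subtype.ext
          change e.symm (e (AdjoinRoot.mk π D * r.1)) / AdjoinRoot.mk π D = r.1
          rw [e.symm_apply_apply, mul_div_cancel_left₀ _ hδ]
        right_inv := fun x => by
          apply Subtype.ext
          change e (AdjoinRoot.mk π D * (e.symm x.1 / AdjoinRoot.mk π D)) = x.1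
          rw [mul_div_cancel₀ _ hδ, e.apply_symm_apply] }
  rw [hcard]

end curve

end Pool.Agent.BSDFF
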