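import Pool.Agent.Lib.MP_48b749_nt.Curve

set_option autoImplicit false

open Polynomial WithZero Multiplicative IsDiscreteValuationRing IsDedekindDomain.HeightOneSpectrum

namespace Pool.Agent.BSDFF

section curve

variable {k : Type} [Field k] (h2 : (2 : k) ≠ 0) (h3 : (3 : k) ≠ 0)

lemma natDegree_ofNat_mul {n : ℕ} [n.AtLeastTwo] (hn : (OfNat.ofNat n : k) ≠ 0) (f : k[X]) :
    ((OfNat.ofNat n : k[X]) * f).natDegree = f.natDegree := by
  have h : (OfNat.ofNat n : k[X]) = C (OfNat.ofNat n : k) := by rw [C_ofNat]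
  rw [h, natDegree_C_mul hn]

include h2 h3 in
/-- additive reduction at infinity -/
lemma local_infty_twist (a : k) (ha : a ≠ 0) (D : k[X]) (hD : D ≠ 0) :
    (twist a D).localPolynomial (placeInfty k).ring = 1 := by
  set δ := D.natDegree with hδ
  set m := δ / 2 + 1 with hm
  have hXm : (RatFunc.X : RatFunc k) ^ m ≠ 0 := pow_ne_zero _ RatFunc.X_ne_zero
  have hXinv : ∀ j : ℕ, ((RatFunc.X : RatFunc k) ^ m)⁻¹ ^ j ≠ 0 := fun j =>
    pow_ne_zero _ (inv_ne_zero hXm)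
  have hdX : ∀ j : ℕ, (((RatFunc.X : RatFunc k) ^ m)⁻¹ ^ j).intDegree = -((j * m : ℕ) : ℤ) := by
    intro j
    rw [inv_pow, ← pow_mul, RatFunc.intDegree_inv, ← RatFunc.algebraMap_X, ← map_pow,
      RatFunc.intDegree_polynomial, natDegree_X_pow, mul_comm m j]
  let C0 : WeierstrassCurve.VariableChange (RatFunc k) := ⟨Units.mk0 (RatFunc.X ^ m) hXm, 0, 0, 0⟩
  have hu : ((C0.u⁻¹ : (RatFunc k)ˣ) : RatFunc k) = (RatFunc.X ^ m)⁻¹ := by
    simp [C0]
  have hA0 : C a * D ^ 2 ≠ 0 := mul_ne_zero (by simpa using ha) (pow_ne_zero _ hD)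
  have hB0 : -(X * D ^ 3) ≠ 0 := neg_ne_zero.mpr (mul_ne_zero X_ne_zero (pow_ne_zero _ hD))
  have hA0' : algebraMap k[X] (RatFunc k) (C a * D ^ 2) ≠ 0 := fun h =>
    hA0 ((FaithfulSMul.algebraMap_eq_zero_iff _ _).mp h)
  have hB0' : algebraMap k[X] (RatFunc k) (-(X * D ^ 3)) ≠ 0 := fun h =>
    hB0 ((FaithfulSMul.algebraMap_eq_zero_iff _ _).mp h)
  have hdA : (C a * D ^ 2).natDegree = 2 * δ := by
    rw [natDegree_C_mul ha, natDegree_pow]
  have hdB : (-(X * D ^ 3)).natDegree = 3 * δ + 1 := by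
    rw [natDegree_neg, natDegree_mul X_ne_zero (pow_ne_zero _ hD), natDegree_X, natDegree_pow]
    ring
  have ha4 : (C0 • twist a D).a₄ = (RatFunc.X ^ m)⁻¹ ^ 4 * algebraMap k[X] (RatFunc k) (C a * D ^ 2) := by
    rw [WeierstrassCurve.variableChange_a₄, hu]
    simp [C0, twist]
  have ha6 : (C0 • twist a D).a₆ = (RatFunc.X ^ m)⁻¹ ^ 6 * algebraMap k[X] (RatFunc k) (-(X * D ^ 3)) := by
    rw [WeierstrassCurve.variableChange_a₆, hu]
    simp [C0, twist]
  have ha1 : (C0 • twist a D).a₁ = 0 := by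
    rw [WeierstrassCurve.variableChange_a₁]; simp [C0, twist]
  have ha2 : (C0 • twist a D).a₂ = 0 := by
    rw [WeierstrassCurve.variableChange_a₂]; simp [C0, twist]
  have ha3 : (C0 • twist a D).a₃ = 0 := by
    rw [WeierstrassCurve.variableChange_a₃]; simp [C0, twist]
  have hint : WeierstrassCurve.IsIntegral (placeInfty k).ring (C0 • twist a D) := by
    apply WeierstrassCurve.isIntegral_of_exists_lift
    · exact ⟨0, by rw [map_zero, ha1]⟩
    · exact ⟨0, by rw [map_zero, ha2]⟩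
    · exact ⟨0, by rw [map_zero, ha3]⟩
    · rw [ha4]
      refine ⟨⟨(RatFunc.X ^ m)⁻¹ ^ 4 * algebraMap k[X] (RatFunc k) (C a * D ^ 2),
        (mem_placeInfty_iff k _).mpr (Or.inr ?_)⟩, rfl⟩
      rw [RatFunc.intDegree_mul (hXinv 4) hA0', hdX, RatFunc.intDegree_polynomial, hdA]
      push_cast
      omega
    · rw [ha6]
      refine ⟨⟨(RatFunc.X ^ m)⁻¹ ^ 6 * algebraMap k[X] (RatFunc k) (-(X * D ^ 3)),
        (mem_placeInfty_iff k _).mpr (Or.inr ?_)⟩, rfl⟩
      rw [RatFunc.intDegree_mul (hXinv 6) hB0', hdX, RatFunc.intDegree_polynomial, hdB]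
      push_cast
      omega
  have h27 : (27 : k) ≠ 0 := by
    have : (27 : k) = 3 ^ 3 := by norm_num
    rw [this]; exact pow_ne_zero _ h3
  have h16 : (16 : k) ≠ 0 := by
    have : (16 : k) = 2 ^ 4 := by norm_num
    rw [this]; exact pow_ne_zero _ h2
  have h48 : (48 : k) ≠ 0 := by
    have : (48 : k) = 2 ^ 4 * 3 := by norm_num
    rw [this]; exact mul_ne_zero (pow_ne_zero _ h2) h3
  have hq : (C (4 * a ^ 3) + 27 * X ^ 2 : k[X]).natDegree = 2 := by
    rw [add_comm, natDegree_add_C, natDegree_ofNat_mul h27, natDegree_X_pow]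
  have hq0 : (C (4 * a ^ 3) + 27 * X ^ 2 : k[X]) ≠ 0 := by
    intro h; rw [h] at hq; simp at hq
  have hDq0 : D ^ 6 * (C (4 * a ^ 3) + 27 * X ^ 2) ≠ 0 := mul_ne_zero (pow_ne_zero _ hD) hq0
  have hP : (-16 * (D ^ 6 * (C (4 * a ^ 3) + 27 * X ^ 2)) : k[X]).natDegree = 6 * δ + 2 := by
    rw [neg_mul, natDegree_neg, natDegree_ofNat_mul h16, natDegree_mul (pow_ne_zero _ hD) hq0,
      natDegree_pow, hq]
  have hP0 : (-16 * (D ^ 6 * (C (4 * a ^ 3) + 27 * X ^ 2)) : k[X]) ≠ 0 := by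
    intro h; rw [h] at hP; simp at hP
  have hP0' : algebraMap k[X] (RatFunc k) (-16 * (D ^ 6 * (C (4 * a ^ 3) + 27 * X ^ 2))) ≠ 0 :=
    fun h => hP0 ((FaithfulSMul.algebraMap_eq_zero_iff _ _).mp h)
  have hΔ : vv (placeInfty k).ring (C0 • twist a D).Δ = exp (6 * δ + 2 - 12 * m : ℤ) := by
    rw [WeierstrassCurve.variableChange_Δ, hu, twist_Δ, vv_infty _ (mul_ne_zero (hXinv 12) hP0'),
      RatFunc.intDegree_mul (hXinv 12) hP0', hdX, RatFunc.intDegree_polynomial, hP]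
    rw [exp_inj]
    push_cast
    ring
  apply local_additive (placeInfty k).ring (twist a D) C0 hint
  · rw [hΔ, exp_lt_exp]
    omega
  · rw [hΔ, ← exp_zero, exp_lt_exp]
    omega
  · rw [WeierstrassCurve.variableChange_c₄, hu, twist_c4]
    have hc : (-48 * (C a * D ^ 2) : k[X]).natDegree = 2 * δ := by
      rw [neg_mul, natDegree_neg, natDegree_ofNat_mul h48, hdA]
    have hc0 : (-48 * (C a * D ^ 2) : k[X]) ≠ 0 := by
      have : (-48 : k[X]) = -C 48 := by rw [C_ofNat]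
      rw [this]
      exact mul_ne_zero (neg_ne_zero.mpr (by simpa using h48)) hA0
    have hc0' : algebraMap k[X] (RatFunc k) (-48 * (C a * D ^ 2)) ≠ 0 :=
      fun h => hc0 ((FaithfulSMul.algebraMap_eq_zero_iff _ _).mp h)
    rw [vv_infty _ (mul_ne_zero (hXinv 4) hc0'), RatFunc.intDegree_mul (hXinv 4) hc0', hdX,
      RatFunc.intDegree_polynomial, hc, ← exp_zero, exp_lt_exp]
    push_cast
    omega

end curve

end Pool.Agent.BSDFF
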