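import Mathlib

/-!
Elliptic curves over function fields: closed points, the L-function as a formal power series,
its order of vanishing at `T = 1/q`, and the Mordell-Weil rank.

The local polynomials are those of Mathlib (`WeierstrassCurve.localPolynomial`): for a discrete
valuation ring `R` with residue field of `Q` elements, `1 - a T + Q T ^ 2` with
`a = Q + 1 - #(reduction)(residue field)` in the case of good reduction (of a minimal equation),
`1 - T` for split multiplicative, `1 + T` for nonsplit multiplicative, `1` for additive reduction.
-/

set_option autoImplicit false

open Polynomial

namespace Pool.Agent.BSDFF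

/-- A closed point of the smooth projective curve over `k` with function field `K`: a discrete
valuation ring of `K` (that is, with field of fractions `K`) which contains the constants `k`. -/
structure Place (k K : Type) [Field k] [Field K] [Algebra k K] where
  /-- the valuation ring -/
  ring : ValuationSubring K
  /-- it contains the constants -/
  const_mem : ∀ c : k, algebraMap k K c ∈ ring
  /-- it is a discrete valuation ring -/
  dvr : IsDiscreteValuationRing ring

variable (k : Type) {K : Type} [Field k] [Field K] [Algebra k K]

instance (v : Place k K) : IsDiscreteValuationRing v.ring := v.dvr

/-- The inclusion of the constants `k` in the residue field at `v`. -/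
noncomputable def Place.constMap {k K : Type} [Field k] [Field K] [Algebra k K] (v : Place k K) :
    k →+* IsLocalRing.ResidueField v.ring :=
  (IsLocalRing.residue v.ring).comp ((algebraMap k K).codRestrict v.ring.toSubring v.const_mem)

/-- The degree of the closed point `v`: the degree over `k` of its residue field. -/
noncomputable def Place.degree {k K : Type} [Field k] [Field K] [Algebra k K] (v : Place k K) : ℕ :=
  letI := v.constMap.toAlgebra
  Module.finrank k (IsLocalRing.ResidueField v.ring)

/-- The local factor `L_v(T)`: the local polynomial of Mathlib evaluated at `T ^ deg v`. -/
noncomputable def localFactor {k K : Type} [Field k] [Field K] [Algebra k K]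
    (W : WeierstrassCurve K) (v : Place k K) : ℤ[X] :=
  (W.localPolynomial v.ring).comp (X ^ v.degree)

/-- The L-function `L(T, W) = ∏_v L_v(T)⁻¹` of `W`, a formal power series with integer
coefficients: its coefficient of `T ^ n` is that of the product over the closed points `v` with
`deg v ≤ n` (the other factors are `1` modulo `T ^ (n + 1)`). -/
noncomputable def LSeries (W : WeierstrassCurve K) : PowerSeries ℤ :=
  PowerSeries.mk fun n => PowerSeries.coeff n
    (∏ᶠ (v : Place k K) (_ : v.degree ≤ n),
      PowerSeries.invOfUnit (localFactor W v : PowerSeries ℤ) 1)

/-- The analytic rank of `W`: the multiplicity of `1/q`, `q` the number of elements of `k`, as a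
root of the polynomial `L(T, W)`, that is, the largest `n` such that
`L(T, W) = (1 - q T) ^ n g(T)` with `g` a polynomial with integer coefficients. -/
noncomputable def analyticRank (W : WeierstrassCurve K) : ℕ :=
  sSup {n : ℕ | ∃ g : ℤ[X],
    (((1 - C (Nat.card k : ℤ) * X) ^ n * g : ℤ[X]) : PowerSeries ℤ) = LSeries k W}

open Classical in
/-- The rank of the group `W(K)` of `K`-rational points. -/
noncomputable def algebraicRank (W : WeierstrassCurve K) : ℕ :=
  Module.finrank ℤ W.toAffine.Point

end Pool.Agent.BSDFF
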