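import Pool.Agent.Lib.MP_48b749_nt.Global

set_option autoImplicit false

open Polynomial

namespace Pool.Agent.BSDFF

section descent

variable {k : Type} [Field k]

/-- the binary form `U^3 + a U V^2 - t V^3` -/
noncomputable def FF (a : k) (U V : k[X]) : k[X] := U ^ 3 + C a * U * V ^ 2 - X * V ^ 3

/-- expansion of a polynomial in `x` in the basis `1, x, x^2` over `k[x^3+ax]` -/
lemma expand (a : k) (p : k[X]) : ∃ α β γ : k[X],
    p = α.comp (ff a) + X * β.comp (ff a) + X ^ 2 * γ.comp (ff a) := by
  induction hn : p.natDegree using Nat.strong_induction_on generalizing p with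
  | _ n ih =>
    by_cases hp : p.natDegree < 3
    · refine ⟨C (p.coeff 0), C (p.coeff 1), C (p.coeff 2), ?_⟩
      rw [C_comp, C_comp, C_comp]
      conv_lhs => rw [p.as_sum_range' 3 hp]
      simp only [Finset.sum_range_succ, Finset.sum_range_zero, zero_add, ← C_mul_X_pow_eq_monomial,
        pow_zero, mul_one, pow_one]
      ring
    · have hm := ff_monic a
      have hd : (p /ₘ ff a).natDegree < n := by
        rw [natDegree_divByMonic p hm, ff_natDegree]
        omega
      obtain ⟨α, β, γ, h⟩ := ih _ hd (p /ₘ ff a) rfl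
      have hr : (p %ₘ ff a).natDegree < 3 := by
        have := natDegree_modByMonic_lt p hm (by
          intro h1
          have := ff_natDegree a
          rw [h1] at this
          simp at this)
        rwa [ff_natDegree] at this
      set r := p %ₘ ff a with hrdef
      refine ⟨X * α + C (r.coeff 0), X * β + C (r.coeff 1), X * γ + C (r.coeff 2), ?_⟩
      have h1 : r = C (r.coeff 0) + C (r.coeff 1) * X + C (r.coeff 2) * X ^ 2 := by
        conv_lhs => rw [r.as_sum_range' 3 hr]
        simp only [Finset.sum_range_succ, Finset.sum_range_zero, zero_add,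
          ← C_mul_X_pow_eq_monomial, pow_zero, mul_one, pow_one]
      have h2 : p = r + ff a * (p /ₘ ff a) := (modByMonic_add_div p (ff a)).symm
      simp only [add_comp, mul_comp, X_comp, C_comp]
      rw [h2, h]
      linear_combination h1

lemma degree_add_max {P Q : k[X]} (h : P.degree = Q.degree → P = 0) :
    (P + Q).degree = max P.degree Q.degree := by
  rcases lt_trichotomy P.degree Q.degree with h1 | h1 | h1
  · rw [degree_add_eq_right_of_degree_lt h1, max_eq_right h1.le]
  · have hP := h h1
    rw [hP, zero_add, degree_zero, max_eq_right bot_le]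
  · rw [degree_add_eq_left_of_degree_lt h1, max_eq_left h1.le]

/-- degrees in the expansion -/
lemma expand_degree (a : k) (α β γ : k[X]) :
    (α ≠ 0 → 3 * α.natDegree ≤ (α.comp (ff a) + X * β.comp (ff a) + X ^ 2 * γ.comp (ff a)).natDegree)
    ∧ (β ≠ 0 → 3 * β.natDegree + 1 ≤
      (α.comp (ff a) + X * β.comp (ff a) + X ^ 2 * γ.comp (ff a)).natDegree)
    ∧ (γ ≠ 0 → 3 * γ.natDegree + 2 ≤
      (α.comp (ff a) + X * β.comp (ff a) + X ^ 2 * γ.comp (ff a)).natDegree) := by
  have hcomp : ∀ p : k[X], p ≠ 0 → p.comp (ff a) ≠ 0 := by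
    intro p hp h
    have h1 := congrArg leadingCoeff h
    rw [leadingCoeff_comp (by rw [ff_natDegree]; norm_num), (ff_monic a).leadingCoeff, one_pow,
      mul_one, leadingCoeff_zero, leadingCoeff_eq_zero] at h1
    exact hp h1
  have hA : ∀ p : k[X], p ≠ 0 → (p.comp (ff a)).degree = ((3 * p.natDegree : ℕ) : WithBot ℕ) := by
    intro p hp
    rw [degree_eq_natDegree (hcomp p hp), comp_natDegree]
  have hB : ∀ p : k[X], p ≠ 0 → (X * p.comp (ff a)).degree =
      ((3 * p.natDegree + 1 : ℕ) : WithBot ℕ) := by
    intro p hp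
    rw [degree_eq_natDegree (mul_ne_zero X_ne_zero (hcomp p hp)),
      natDegree_mul X_ne_zero (hcomp p hp), natDegree_X, comp_natDegree, add_comm]
  have hC : ∀ p : k[X], p ≠ 0 → (X ^ 2 * p.comp (ff a)).degree =
      ((3 * p.natDegree + 2 : ℕ) : WithBot ℕ) := by
    intro p hp
    rw [degree_eq_natDegree (mul_ne_zero (pow_ne_zero _ X_ne_zero) (hcomp p hp)),
      natDegree_mul (pow_ne_zero _ X_ne_zero) (hcomp p hp), natDegree_X_pow, comp_natDegree,
      add_comm]
  have hAB : (α.comp (ff a) + X * β.comp (ff a)).degree =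
      max (α.comp (ff a)).degree (X * β.comp (ff a)).degree := by
    apply degree_add_max
    intro h
    by_cases h1 : α = 0
    · rw [h1, zero_comp]
    · exfalso
      rw [hA α h1] at h
      by_cases h2 : β = 0
      · rw [h2, zero_comp, mul_zero, degree_zero] at h
        exact WithBot.coe_ne_bot h
      · rw [hB β h2] at h
        have h5 : 3 * α.natDegree = 3 * β.natDegree + 1 := by exact_mod_cast h
        omega
  have hABC : (α.comp (ff a) + X * β.comp (ff a) + X ^ 2 * γ.comp (ff a)).degree =
      max (max (α.comp (ff a)).degree (X * β.comp (ff a)).degree)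
        (X ^ 2 * γ.comp (ff a)).degree := by
    rw [← hAB]
    apply degree_add_max
    intro h
    rw [hAB] at h
    by_cases h3 : γ = 0
    · rw [h3, zero_comp, mul_zero, degree_zero, max_eq_bot, degree_eq_bot, degree_eq_bot] at h
      rw [h.1, h.2, add_zero]
    · exfalso
      rw [hC γ h3] at h
      by_cases h1 : α = 0
      · by_cases h2 : β = 0
        · rw [h1, h2, zero_comp, mul_zero, degree_zero, max_self] at h
          exact WithBot.coe_ne_bot h.symm
        · rw [h1, zero_comp, degree_zero, max_eq_right bot_le, hB β h2] at h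
          have h5 : 3 * β.natDegree + 1 = 3 * γ.natDegree + 2 := by exact_mod_cast h
          omega
      · by_cases h2 : β = 0
        · rw [h2, zero_comp, mul_zero, degree_zero, max_eq_left bot_le, hA α h1] at h
          have h5 : 3 * α.natDegree = 3 * γ.natDegree + 2 := by exact_mod_cast h
          omega
        · rw [hA α h1, hB β h2] at h
          rcases max_choice ((3 * α.natDegree : ℕ) : WithBot ℕ) ((3 * β.natDegree + 1 : ℕ) : WithBot ℕ)
            with h4 | h4
          · rw [h4] at h
            have h5 : 3 * α.natDegree = 3 * γ.natDegree + 2 := by exact_mod_cast h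
            omega
          · rw [h4] at h
            have h5 : 3 * β.natDegree + 1 = 3 * γ.natDegree + 2 := by exact_mod_cast h
            omega
  refine ⟨fun h => ?_, fun h => ?_, fun h => ?_⟩
  · apply le_natDegree_of_coe_le_degree
    rw [hABC, ← hA α h]
    exact (le_max_left _ _).trans (le_max_left _ _)
  · apply le_natDegree_of_coe_le_degree
    rw [hABC, ← hB β h]
    exact (le_max_right _ _).trans (le_max_left _ _)
  · apply le_natDegree_of_coe_le_degree
    rw [hABC, ← hC γ h]
    exact le_max_right _ _

lemma expand_unique (a : k) (α β γ : k[X])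
    (h : α.comp (ff a) + X * β.comp (ff a) + X ^ 2 * γ.comp (ff a) = 0) :
    α = 0 ∧ β = 0 ∧ γ = 0 := by
  have h1 := expand_degree a α β γ
  rw [h, natDegree_zero] at h1
  have hβ : β = 0 := by
    by_contra hb
    have := h1.2.1 hb
    omega
  have hγ : γ = 0 := by
    by_contra hb
    have := h1.2.2 hb
    omega
  refine ⟨?_, hβ, hγ⟩
  rw [hβ, hγ, zero_comp, mul_zero, mul_zero, add_zero, add_zero] at h
  have h2 := congrArg leadingCoeff h
  rw [leadingCoeff_comp (by rw [ff_natDegree]; norm_num), (ff_monic a).leadingCoeff, one_pow,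
    mul_one, leadingCoeff_zero, leadingCoeff_eq_zero] at h2
  exact h2

/-- `U - x V` -/
noncomputable def Th (a : k) (U V : k[X]) : k[X] := U.comp (ff a) - X * V.comp (ff a)

/-- the cofactor -/
noncomputable def Ph (a : k) (U V : k[X]) : k[X] :=
  U.comp (ff a) ^ 2 + X * U.comp (ff a) * V.comp (ff a) + (X ^ 2 + C a) * V.comp (ff a) ^ 2

lemma Th_mul_Ph (a : k) (U V : k[X]) : Th a U V * Ph a U V = (FF a U V).comp (ff a) := by
  unfold Th Ph FF
  simp only [sub_comp, add_comp, mul_comp, pow_comp, C_comp, X_comp]
  generalize U.comp (ff a) = u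
  generalize V.comp (ff a) = v
  unfold ff
  ring

/-- `FF` and `Th` have related leading coefficients, and the degree of `Th` -/
lemma leading (a : k) (U V : k[X]) (hV : V ≠ 0) :
    (FF a U V).leadingCoeff = (Th a U V).leadingCoeff ^ 3 ∧
      (Th a U V).natDegree ≤ max (3 * U.natDegree) (3 * V.natDegree + 1) ∧ Th a U V ≠ 0 := by
  have hcomp : ∀ p : k[X], (p.comp (ff a)).leadingCoeff = p.leadingCoeff := by
    intro p
    rw [leadingCoeff_comp (by rw [ff_natDegree]; norm_num), (ff_monic a).leadingCoeff, one_pow,
      mul_one]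
  have hcV : V.comp (ff a) ≠ 0 := by
    intro h
    have := hcomp V
    rw [h, leadingCoeff_zero] at this
    exact hV (leadingCoeff_eq_zero.mp this.symm)
  have hdU : (U.comp (ff a)).natDegree = 3 * U.natDegree := comp_natDegree a U
  have hdV : (X * V.comp (ff a)).natDegree = 3 * V.natDegree + 1 := by
    rw [natDegree_mul X_ne_zero hcV, natDegree_X, comp_natDegree, add_comm]
  have hle : (Th a U V).natDegree ≤ max (3 * U.natDegree) (3 * V.natDegree + 1) := by
    unfold Th
    refine (natDegree_sub_le _ _).trans ?_
    rw [hdU, hdV]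
  by_cases hcase : V.natDegree < U.natDegree
  · have hU0 : U ≠ 0 := by
      rintro rfl
      simp at hcase
    have h1 : (Th a U V).leadingCoeff = U.leadingCoeff := by
      unfold Th
      rw [leadingCoeff_sub_of_degree_lt, hcomp]
      apply degree_lt_degree
      rw [hdU, hdV]
      omega
    have h2 : (FF a U V).leadingCoeff = U.leadingCoeff ^ 3 := by
      unfold FF
      rw [add_sub_assoc, leadingCoeff_add_of_degree_lt', leadingCoeff_pow]
      refine lt_of_le_of_lt (degree_sub_le _ _) ?_
      rw [max_lt_iff]
      constructor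
      · apply degree_lt_degree
        rw [natDegree_pow]
        refine lt_of_le_of_lt natDegree_mul_le ?_
        refine lt_of_le_of_lt (add_le_add natDegree_mul_le le_rfl) ?_
        rw [natDegree_pow, natDegree_C]
        omega
      · apply degree_lt_degree
        rw [natDegree_pow, natDegree_mul X_ne_zero (pow_ne_zero _ hV), natDegree_X, natDegree_pow]
        omega
    refine ⟨by rw [h1, h2], hle, ?_⟩
    intro h
    rw [h, leadingCoeff_zero] at h1
    exact hU0 (leadingCoeff_eq_zero.mp h1.symm)
  · have h1 : (Th a U V).leadingCoeff = -V.leadingCoeff := by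
      unfold Th
      rw [leadingCoeff_sub_of_degree_lt', leadingCoeff_mul, leadingCoeff_X, one_mul, hcomp]
      apply degree_lt_degree
      rw [hdU, hdV]
      omega
    have h2 : (FF a U V).leadingCoeff = -V.leadingCoeff ^ 3 := by
      unfold FF
      rw [leadingCoeff_sub_of_degree_lt', leadingCoeff_mul, leadingCoeff_X, one_mul,
        leadingCoeff_pow]
      refine lt_of_le_of_lt (degree_add_le _ _) ?_
      rw [max_lt_iff]
      constructor
      · apply degree_lt_degree
        rw [natDegree_pow, natDegree_mul X_ne_zero (pow_ne_zero _ hV), natDegree_X, natDegree_pow]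
        omega
      · apply degree_lt_degree
        rw [natDegree_mul X_ne_zero (pow_ne_zero _ hV), natDegree_X, natDegree_pow]
        refine lt_of_le_of_lt natDegree_mul_le ?_
        refine lt_of_le_of_lt (add_le_add natDegree_mul_le le_rfl) ?_
        rw [natDegree_pow, natDegree_C]
        omega
    refine ⟨by rw [h1, h2]; ring, hle, ?_⟩
    intro h
    rw [h, leadingCoeff_zero] at h1
    exact hV (leadingCoeff_eq_zero.mp (neg_eq_zero.mp h1.symm))

/-- the form `FF` vanishing at a prime forces a root of the cubic -/
lemma root_of_dvd (a : k) {U V π : k[X]} (hπ : Irreducible π) (hUV : IsCoprime U V)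
    (h : π ∣ FF a U V) : ∃ r : AdjoinRoot π, r ^ 3 + AdjoinRoot.of π a * r = AdjoinRoot.root π := by
  have : Fact (Irreducible π) := ⟨hπ⟩
  have h1 : AdjoinRoot.mk π (FF a U V) = 0 := AdjoinRoot.mk_eq_zero.mpr h
  unfold FF at h1
  simp only [map_add, map_sub, map_mul, map_pow, AdjoinRoot.mk_X, AdjoinRoot.mk_C] at h1
  obtain ⟨p, q, hpq⟩ := hUV
  have h2 := congrArg (AdjoinRoot.mk π) hpq
  simp only [map_add, map_mul, map_one] at h2
  set u := AdjoinRoot.mk π U
  set v := AdjoinRoot.mk π V
  have hv : v ≠ 0 := by
    intro hv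
    rw [hv] at h1 h2
    have hu : u ^ 3 = 0 := by linear_combination h1
    have hu' : u = 0 := pow_eq_zero_iff (by norm_num) |>.mp hu
    rw [hu', mul_zero, mul_zero, add_zero] at h2
    exact zero_ne_one h2
  refine ⟨u / v, ?_⟩
  field_simp
  linear_combination h1

end descent

end Pool.Agent.BSDFF
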