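import Pool.Agent.Lib.MP_48b749_nt.Descent

set_option autoImplicit false

open Polynomial

namespace Pool.Agent.BSDFF

section descent

variable {k : Type} [Field k]

lemma isCoprime_C_right (c : k) (hc : c ≠ 0) (P : k[X]) : IsCoprime P (C c) :=
  ⟨0, C c⁻¹, by rw [zero_mul, zero_add, ← C_mul, inv_mul_cancel₀ hc, C_1]⟩

lemma eq_C_mul_of_associated {P Q : k[X]} (h : Associated P Q) : ∃ c : k, c ≠ 0 ∧ Q = C c * P := by
  obtain ⟨u, hu⟩ := h
  obtain ⟨c, hc, hcu⟩ := Polynomial.isUnit_iff.mp u.isUnit
  exact ⟨c, hc.ne_zero, by rw [hcu, mul_comm, hu]⟩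

/-- coprimality of the two factors -/
lemma coprime_Th_Ph (a : k) {U V Z : k[X]} {c : k} (hUV : IsCoprime U V)
    (hF : FF a U V = C c * Z ^ 2) : IsCoprime (Th a U V) (Ph a U V) := by
  apply isCoprime_of_irreducible_dvd
  · rintro ⟨h1, h2⟩
    -- both zero: U = x V and so on; impossible as U, V coprime
    have hU : U.comp (ff a) = X * V.comp (ff a) := by
      unfold Th at h1
      linear_combination h1
    have h3 : U.comp (ff a) + X * (-V).comp (ff a) + X ^ 2 * (0 : k[X]).comp (ff a) = 0 := by
      rw [neg_comp, zero_comp, hU]; ring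
    obtain ⟨g1, g2, -⟩ := expand_unique a _ _ _ h3
    rw [g1, neg_eq_zero.mp g2] at hUV
    exact not_isCoprime_zero_zero hUV
  · intro q hq h1 h2
    have : Fact (Irreducible q) := ⟨hq⟩
    set x := AdjoinRoot.root q with hx
    set y := aeval x (ff a) with hy
    have e1 : aeval x (Th a U V) = 0 := by rw [AdjoinRoot.aeval_eq]; exact AdjoinRoot.mk_eq_zero.mpr h1
    have e2 : aeval x (Ph a U V) = 0 := by rw [AdjoinRoot.aeval_eq]; exact AdjoinRoot.mk_eq_zero.mpr h2
    have hyx : y = x ^ 3 + algebraMap k _ a * x := by rw [hy, aeval_ff]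
    set u := aeval y U with hu
    set v := aeval y V with hv
    have f1 : u = x * v := by
      unfold Th at e1
      rw [map_sub, map_mul, aeval_comp, aeval_comp, aeval_X, ← hy, ← hu, ← hv] at e1
      linear_combination e1
    have hv0 : v ≠ 0 := by
      intro h0
      rw [h0, mul_zero] at f1
      obtain ⟨p, r, hpr⟩ := hUV
      have := congrArg (aeval y) hpr
      rw [map_add, map_mul, map_mul, ← hu, ← hv, f1, h0, mul_zero, mul_zero, add_zero, map_one]
        at this
      exact zero_ne_one this
    have f2 : 3 * x ^ 2 + algebraMap k _ a = 0 := by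
      unfold Ph at e2
      simp only [map_add, map_mul, map_pow, aeval_comp, aeval_X, aeval_C] at e2
      rw [← hy, ← hu, ← hv, f1] at e2
      have : v ^ 2 * (3 * x ^ 2 + algebraMap k _ a) = 0 := by linear_combination e2
      exact (mul_eq_zero.mp this).resolve_left (pow_ne_zero _ hv0)
    have f3 : aeval y (FF a U V) = 0 := by
      have := congrArg (aeval x) (Th_mul_Ph a U V)
      rw [map_mul, e1, zero_mul, aeval_comp, ← hy] at this
      exact this.symm
    have hc : c ≠ 0 ∨ c = 0 := em' _
    have f4 : aeval y (derivative (FF a U V)) = 0 := by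
      rw [hF] at f3 ⊢
      rw [map_mul, aeval_C, map_pow] at f3
      rw [derivative_C_mul, derivative_pow, map_mul, aeval_C]
      rcases mul_eq_zero.mp f3 with h5 | h5
      · rw [h5, zero_mul]
      · have h6 : aeval y Z = 0 := pow_eq_zero_iff (two_ne_zero) |>.mp h5
        simp [h6]
    have f5 : aeval y (derivative (FF a U V)) = - v ^ 3 := by
      have hder : derivative (FF a U V) = 3 * U ^ 2 * derivative U
          + C a * (derivative U * V ^ 2 + 2 * U * V * derivative V)
          - (V ^ 3 + 3 * X * V ^ 2 * derivative V) := by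
        unfold FF
        simp only [derivative_sub, derivative_add, derivative_mul, derivative_pow, derivative_C,
          derivative_X, Nat.cast_ofNat, map_ofNat]
        ring
      rw [hder]
      simp only [map_sub, map_add, map_mul, map_pow, aeval_X, aeval_C, map_ofNat]
      rw [← hu, ← hv, f1]
      generalize (aeval y) (derivative U) = u'
      generalize (aeval y) (derivative V) = v'
      linear_combination (v ^ 2 * u' - x * v ^ 2 * v') * f2 - 3 * v ^ 2 * v' * hyx
    rw [f5] at f4
    exact hv0 (pow_eq_zero_iff (by norm_num) |>.mp (neg_eq_zero.mp f4))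

end descent

end Pool.Agent.BSDFF
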