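import Pool.Agent.Lib.MP_48b749_nt.Descent2

set_option autoImplicit false

open Polynomial

namespace Pool.Agent.BSDFF

section descent

variable {k : Type} [Field k]

lemma FF_ne_zero (a : k) {U V : k[X]} (hV : V ≠ 0) : FF a U V ≠ 0 := by
  obtain ⟨h1, -, h3⟩ := leading a U V hV
  intro h
  rw [h, leadingCoeff_zero] at h1
  exact h3 (leadingCoeff_eq_zero.mp (pow_eq_zero_iff (by norm_num) |>.mp h1.symm))

/-- one step of the descent -/
lemma descent_step (a : k) {D U V : k[X]} (hD : D ≠ 0)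
    (hin : ∀ π : k[X], Irreducible π → π ∣ D →
      ∀ r : AdjoinRoot π, r ^ 3 + AdjoinRoot.of π a * r ≠ AdjoinRoot.root π)
    (hUV : IsCoprime U V) (hV : V ≠ 0) (hsq : IsSquare (V * FF a U V * D)) :
    ∃ β γ : k[X], γ ≠ 0 ∧ IsSquare (γ * FF a β γ * D) ∧
      β.natDegree < max U.natDegree V.natDegree ∧ γ.natDegree < max U.natDegree V.natDegree := by
  obtain ⟨S, hS⟩ := hsq
  have hF0 := FF_ne_zero a (U := U) hV
  have hcop : IsCoprime (FF a U V) (V * D) := by
    apply isCoprime_of_irreducible_dvd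
    · rintro ⟨h1, -⟩
      exact hF0 h1
    · intro q hq h1 h2
      rcases hq.prime.dvd_or_dvd h2 with h3 | h3
      · have h4 : q ∣ U := by
          have h5 : q ∣ U ^ 3 := by
            have h6 : U ^ 3 = FF a U V - V * (C a * U * V - X * V ^ 2) := by
              unfold FF; ring
            rw [h6]
            exact dvd_sub h1 (h3.mul_right _)
          exact hq.prime.dvd_of_dvd_pow h5
        exact hq.not_isUnit (hUV.isUnit_of_dvd' h4 h3)
      · obtain ⟨r, hr⟩ := root_of_dvd a hq hUV h1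
        exact hin q hq h3 r hr
  have hS2 : FF a U V * (V * D) = S ^ 2 := by rw [pow_two, ← hS]; ring
  obtain ⟨Z, hZ⟩ := exists_associated_pow_of_mul_eq_pow' hcop hS2
  have hS3 : (V * D) * FF a U V = S ^ 2 := by rw [← hS2]; ring
  obtain ⟨W, hW⟩ := exists_associated_pow_of_mul_eq_pow' hcop.symm hS3
  obtain ⟨c, hc, hcZ⟩ := eq_C_mul_of_associated hZ
  obtain ⟨c', hc', hcW⟩ := eq_C_mul_of_associated hW
  have hcop2 := coprime_Th_Ph a hUV hcZ
  have hprod : Th a U V * (C c⁻¹ * Ph a U V) = (Z.comp (ff a)) ^ 2 := by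
    have h1 := Th_mul_Ph a U V
    rw [hcZ, mul_comp, C_comp, pow_comp] at h1
    have h2 : (C c⁻¹ : k[X]) * C c = 1 := by rw [← C_mul, inv_mul_cancel₀ hc, C_1]
    linear_combination C c⁻¹ * h1 + (Z.comp (ff a)) ^ 2 * h2
  have hcop3 : IsCoprime (Th a U V) (C c⁻¹ * Ph a U V) :=
    (isCoprime_C_right _ (inv_ne_zero hc) _).mul_right hcop2
  obtain ⟨p, hp⟩ := exists_associated_pow_of_mul_eq_pow' hcop3 hprod
  obtain ⟨c1, hc1, hcp⟩ := eq_C_mul_of_associated hp
  obtain ⟨α, β, γ, hexp⟩ := expand a p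
  obtain ⟨hlead, hdeg, hTh0⟩ := leading a U V hV
  have hp0 : p ≠ 0 := by
    rintro rfl
    rw [hcp] at hTh0
    simp at hTh0
  -- comparison of coefficients
  have hcmp : (U - C c1 * (α ^ 2 + 2 * X * β * γ)).comp (ff a)
      + X * (-V - C c1 * (2 * α * β - 2 * C a * β * γ + X * γ ^ 2)).comp (ff a)
      + X ^ 2 * (-(C c1 * (β ^ 2 + 2 * α * γ - C a * γ ^ 2))).comp (ff a) = 0 := by
    have h1 : Th a U V - C c1 * p ^ 2 = 0 := by rw [← hcp, sub_self]
    rw [hexp] at h1
    unfold Th at h1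
    rw [← h1]
    simp only [sub_comp, add_comp, mul_comp, pow_comp, C_comp, X_comp, neg_comp, ofNat_comp]
    generalize U.comp (ff a) = u
    generalize V.comp (ff a) = v
    generalize α.comp (ff a) = α'
    generalize β.comp (ff a) = β'
    generalize γ.comp (ff a) = γ'
    unfold ff
    ring
  obtain ⟨e1, e2, e3⟩ := expand_unique a _ _ _ hcmp
  have hC1 : (C c1 : k[X]) ≠ 0 := C_ne_zero.mpr hc1
  have e3' : β ^ 2 + 2 * α * γ - C a * γ ^ 2 = 0 := by
    rcases mul_eq_zero.mp (neg_eq_zero.mp e3) with h | h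
    · exact absurd h hC1
    · exact h
  have hγ : γ ≠ 0 := by
    rintro rfl
    have hβ : β = 0 := by
      have : β ^ 2 = 0 := by linear_combination e3'
      exact pow_eq_zero_iff (by norm_num) |>.mp this
    rw [hβ] at e2
    apply hV
    linear_combination -e2
  have key : γ * V = C c1 * FF a β γ := by
    unfold FF
    linear_combination -γ * e2 - C c1 * β * e3'
  have hS0 : S ≠ 0 := by
    rintro rfl
    rw [zero_pow two_ne_zero] at hS2
    exact mul_ne_zero hF0 (mul_ne_zero hV hD) hS2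
  have hW0 : W ≠ 0 := by
    rintro rfl
    rw [zero_pow two_ne_zero, mul_zero] at hcW
    exact mul_ne_zero hV hD hcW
  have hlp : p.leadingCoeff ≠ 0 := leadingCoeff_ne_zero.mpr hp0
  have hlW : W.leadingCoeff ≠ 0 := leadingCoeff_ne_zero.mpr hW0
  have hlTh : (Th a U V).leadingCoeff = c1 * p.leadingCoeff ^ 2 := by
    rw [hcp, leadingCoeff_mul, leadingCoeff_C, leadingCoeff_pow]
  have hlVD : (V * D).leadingCoeff = c' * W.leadingCoeff ^ 2 := by
    rw [hcW, leadingCoeff_mul, leadingCoeff_C, leadingCoeff_pow]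
  have hlS : S.leadingCoeff ^ 2 = (c1 * p.leadingCoeff ^ 2) ^ 3 * (c' * W.leadingCoeff ^ 2) := by
    rw [← leadingCoeff_pow, ← hS2, leadingCoeff_mul, hlead, hlTh, hlVD]
  refine ⟨β, γ, hγ, ?_, ?_⟩
  · -- the square
    have hc2 : c' / c1 = (S.leadingCoeff / (c1 ^ 2 * p.leadingCoeff ^ 3 * W.leadingCoeff)) ^ 2 := by
      rw [div_pow, hlS]
      field_simp
    have h1 : γ * FF a β γ * D = C (c' / c1) * (γ * W) ^ 2 := by
      have h2 : C c1 * (γ * FF a β γ * D) = C c1 * (C (c' / c1) * (γ * W) ^ 2) := by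
        rw [← mul_assoc (C c1) (C (c' / c1)), ← C_mul, mul_div_cancel₀ _ hc1]
        linear_combination -(γ * D) * key + γ ^ 2 * hcW
      exact mul_left_cancel₀ hC1 h2
    rw [h1, hc2, C_pow, ← mul_pow]
    exact ⟨_, pow_two _⟩
  · -- degrees
    have hd1 : (Th a U V).natDegree = 2 * p.natDegree := by
      rw [hcp, natDegree_C_mul hc1, natDegree_pow]
    obtain ⟨-, d2, d3⟩ := expand_degree a α β γ
    rw [← hexp] at d2 d3
    have d3' := d3 hγ
    by_cases hβ : β = 0
    · rw [hβ, natDegree_zero]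
      constructor <;> omega
    · have d2' := d2 hβ
      constructor <;> omega

/-- no solutions -/
theorem no_solution (a : k) {D : k[X]} (hD : D ≠ 0)
    (hin : ∀ π : k[X], Irreducible π → π ∣ D →
      ∀ r : AdjoinRoot π, r ^ 3 + AdjoinRoot.of π a * r ≠ AdjoinRoot.root π)
    (n : ℕ) : ∀ U V : k[X], max U.natDegree V.natDegree = n → IsCoprime U V → V ≠ 0 →
      ¬ IsSquare (V * FF a U V * D) := by
  induction n using Nat.strong_induction_on with
  | _ n ih =>
    intro U V hn hUV hV hsq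
    obtain ⟨β, γ, hγ, hsq2, hdβ, hdγ⟩ := descent_step a hD hin hUV hV hsq
    classical
    set g := EuclideanDomain.gcd β γ with hg
    have hg0 : g ≠ 0 := by
      intro h
      exact hγ (EuclideanDomain.gcd_eq_zero_iff.mp h).2
    obtain ⟨β', hβ'⟩ := EuclideanDomain.gcd_dvd_left β γ
    obtain ⟨γ', hγ'⟩ := EuclideanDomain.gcd_dvd_right β γ
    rw [← hg] at hβ' hγ'
    have hcop : IsCoprime β' γ' := by
      have h1 := EuclideanDomain.gcd_eq_gcd_ab β γ
      rw [← hg] at h1
      refine ⟨EuclideanDomain.gcdA β γ, EuclideanDomain.gcdB β γ, ?_⟩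
      have h2 : g * (EuclideanDomain.gcdA β γ * β' + EuclideanDomain.gcdB β γ * γ') = g * 1 := by
        rw [mul_one]
        conv_rhs => rw [h1]
        linear_combination -EuclideanDomain.gcdA β γ * hβ' - EuclideanDomain.gcdB β γ * hγ'
      exact mul_left_cancel₀ hg0 h2
    have hγ0 : γ' ≠ 0 := by
      rintro rfl
      rw [mul_zero] at hγ'
      exact hγ hγ'
    have hsq3 : IsSquare (γ' * FF a β' γ' * D) := by
      obtain ⟨s, hs⟩ := hsq2
      have h1 : s ^ 2 = (g ^ 2) ^ 2 * (γ' * FF a β' γ' * D) := by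
        rw [pow_two s, ← hs, hβ', hγ']
        unfold FF
        ring
      have h2 : g ^ 2 ∣ s := by
        rw [← UniqueFactorizationMonoid.pow_dvd_pow_iff_dvd (two_ne_zero)]
        exact ⟨_, h1⟩
      obtain ⟨s', hs'⟩ := h2
      refine ⟨s', ?_⟩
      have h3 : (g ^ 2) ^ 2 * (γ' * FF a β' γ' * D) = (g ^ 2) ^ 2 * (s' * s') := by
        rw [← h1, hs']; ring
      exact mul_left_cancel₀ (pow_ne_zero _ (pow_ne_zero _ hg0)) h3
    have hle1 : β'.natDegree ≤ β.natDegree := by
      by_cases h : β' = 0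
      · rw [h]; simp
      · conv_rhs => rw [hβ']
        rw [natDegree_mul hg0 h]; omega
    have hle2 : γ'.natDegree ≤ γ.natDegree := by
      conv_rhs => rw [hγ']
      rw [natDegree_mul hg0 hγ0]; omega
    exact ih (max β'.natDegree γ'.natDegree) (by omega) β' γ' rfl hcop hγ0 hsq3

end descent

end Pool.Agent.BSDFF
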