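import Pool.Agent.Lib.MP_48b749_nt.Count4

set_option autoImplicit false

open Polynomial

namespace Pool.Agent.BSDFF

section final

variable {k : Type} [Field k]

/-- `D` is squarefree, and each of its prime divisors `π` stays prime in the extension
`k[x]` of `k[t]`, `t = x^3 + a x` (that is, `π(x^3 + a x)` is irreducible). -/
def Inert (a : k) (D : k[X]) : Prop :=
  Squarefree D ∧ ∀ π : k[X], π.Monic → Irreducible π → π ∣ D →
    Irreducible (π.comp (X ^ 3 + C a * X))

lemma twist_Δ_ne_zero (h2 : (2 : k) ≠ 0) (h3 : (3 : k) ≠ 0) (a : k) {D : k[X]} (hD : D ≠ 0) :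
    (twist a D).Δ ≠ 0 := by
  rw [twist_Δ]
  intro h
  have h1 := RatFunc.algebraMap_injective k (h.trans (map_zero _).symm)
  have h16 : (-16 : k[X]) ≠ 0 := by
    have : (-16 : k[X]) = C (-(2 ^ 4)) := by
      simp only [C_neg, C_pow, C_ofNat]; norm_num
    rw [this, Ne, C_eq_zero]
    exact neg_ne_zero.mpr (pow_ne_zero _ h2)
  have hd : (C (4 * a ^ 3) + 27 * X ^ 2 : k[X]) ≠ 0 := disc_ne_zero h3 a
  exact mul_ne_zero h16 (mul_ne_zero (pow_ne_zero _ hD) hd) h1

lemma twist_j (h2 : (2 : k) ≠ 0) (h3 : (3 : k) ≠ 0) (a : k) (ha : a ≠ 0) {D : k[X]} (hD : D ≠ 0)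
    (c : k) : (twist a D).c₄ ^ 3 ≠ algebraMap k (RatFunc k) c * (twist a D).Δ := by
  rw [twist_Δ, twist_c4]
  have e : algebraMap k (RatFunc k) c = algebraMap k[X] (RatFunc k) (C c) := by
    rw [RatFunc.algebraMap_C, RatFunc.algebraMap_eq_C]
  rw [e, ← map_pow, ← map_mul]
  intro h
  have h1 := RatFunc.algebraMap_injective k h
  have h4 : D ^ 6 * (C (48 ^ 3 * a ^ 3)) =
      D ^ 6 * (C (16 * c * (4 * a ^ 3)) + C (16 * c * 27) * X ^ 2) := by
    simp only [C_mul, C_pow, C_ofNat]
    simp only [C_mul, C_pow, C_ofNat] at h1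
    linear_combination -h1
  have h5 := mul_left_cancel₀ (pow_ne_zero 6 hD) h4
  have e2 := congrArg (fun p => coeff p 2) h5
  have e0 := congrArg (fun p => coeff p 0) h5
  simp only [coeff_add, coeff_C_mul, coeff_X_pow, coeff_C] at e2 e0
  norm_num at e2 e0
  have h16 : (16 : k) ≠ 0 := by
    have : (16 : k) = 2 ^ 4 := by norm_num
    rw [this]; exact pow_ne_zero _ h2
  have h27 : (27 : k) ≠ 0 := by
    have : (27 : k) = 3 ^ 3 := by norm_num
    rw [this]; exact pow_ne_zero _ h3
  have h48 : (110592 : k) ≠ 0 := by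
    have : (110592 : k) = (2 ^ 4 * 3) ^ 3 := by norm_num
    rw [this]; exact pow_ne_zero _ (mul_ne_zero (pow_ne_zero _ h2) h3)
  have hc : c = 0 := by
    by_contra hc
    simp [hc, h16, h27] at e2
  rw [hc, mul_zero, zero_mul] at e0
  rcases mul_eq_zero.mp e0 with h | h
  · exact h48 h
  · exact ha (pow_eq_zero_iff (by norm_num) |>.mp h)

lemma noroot_of_inert [Finite k] (a : k) {D : k[X]} (h : Inert a D) :
    ∀ π : k[X], Irreducible π → π ∣ D →
      ∀ r : AdjoinRoot π, r ^ 3 + AdjoinRoot.of π a * r ≠ AdjoinRoot.root π := by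
  classical
  intro π hπ hd r hr
  obtain ⟨R, rfl⟩ := AdjoinRoot.mk_surjective r
  have h1 : π ∣ R ^ 3 + C a * R - X := by
    rw [← AdjoinRoot.mk_eq_zero, map_sub, map_add, map_pow, map_mul, AdjoinRoot.mk_C,
      AdjoinRoot.mk_X, hr, sub_self]
  have hass : Associated (normalize π) π := normalize_associated π
  have hm : (normalize π).Monic := monic_normalize hπ.ne_zero
  have hi : Irreducible (normalize π) := hass.symm.irreducible hπ
  have h0 := nRoots_zero_of_irreducible a hi hm (h.2 _ hm hi (hass.dvd.trans hd))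
  have h2 : normalize π ∣ R ^ 3 + C a * R - X := hass.dvd.trans h1
  rw [← AdjoinRoot.mk_eq_zero, map_sub, map_add, map_pow, map_mul, AdjoinRoot.mk_C,
      AdjoinRoot.mk_X] at h2
  unfold nRoots at h0
  have : Fact (Irreducible (normalize π)) := ⟨hi⟩
  have hfin : Module.Finite k (AdjoinRoot (normalize π)) :=
    (AdjoinRoot.powerBasis hi.ne_zero).finite
  have : Finite (AdjoinRoot (normalize π)) := Module.finite_of_finite k
  rw [Nat.card_eq_zero] at h0
  rcases h0 with h0 | h0
  · exact h0.elim ⟨AdjoinRoot.mk (normalize π) R, by linear_combination h2⟩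
  · exact h0.not_finite inferInstance

end final

end Pool.Agent.BSDFF
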