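import Pool.Agent.Lib.MP_48b749_nt.Assembly

set_option autoImplicit false

open Polynomial

namespace Pool.Agent.BSDFF

section global

/-- truncation of power series modulo `T^(n+1)` -/
noncomputable abbrev phi (n : ℕ) : PowerSeries (ZMod 2) →+*
    PowerSeries (ZMod 2) ⧸ Ideal.span {(PowerSeries.X : PowerSeries (ZMod 2)) ^ (n + 1)} :=
  Ideal.Quotient.mk _

lemma phi_eq_iff (n : ℕ) (A B : PowerSeries (ZMod 2)) :
    phi n A = phi n B ↔ ∀ m, m ≤ n → PowerSeries.coeff m A = PowerSeries.coeff m B := by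
  rw [Ideal.Quotient.eq, Ideal.mem_span_singleton, PowerSeries.X_pow_dvd_iff]
  constructor
  · intro h m hm
    have := h m (by omega)
    rw [map_sub, sub_eq_zero] at this
    exact this
  · intro h m hm
    rw [map_sub, sub_eq_zero]
    exact h m (by omega)

/-- `1 + T^d` as a power series -/
noncomputable def oneAdd (d : ℕ) : PowerSeries (ZMod 2) := 1 + (PowerSeries.X : PowerSeries (ZMod 2)) ^ d

lemma coe_oneAdd (d : ℕ) : ((1 + (X : (ZMod 2)[X]) ^ d : (ZMod 2)[X]) : PowerSeries (ZMod 2)) =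
    oneAdd d := by
  unfold oneAdd
  rw [Polynomial.coe_add, Polynomial.coe_one, Polynomial.coe_pow, Polynomial.coe_X]

lemma coe_prod' {R ι : Type} [CommRing R] (s : Finset ι) (f : ι → R[X]) :
    ((∏ i ∈ s, f i : R[X]) : PowerSeries R) = ∏ i ∈ s, (f i : PowerSeries R) :=
  map_prod Polynomial.coeToPowerSeries.ringHom f s

variable {k : Type} [Field k] [Finite k]

lemma neg_eq_self_ps (A : PowerSeries (ZMod 2)) : -A = A := by
  ext m
  rw [map_neg]
  have : ∀ z : ZMod 2, -z = z := by decide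
  exact this _

lemma euler_mod2 (h2 : (2 : k) ≠ 0) (n : ℕ) :
    phi n (∏ π ∈ irrLE k n, oneAdd π.natDegree) = phi n (oneAdd 1) := by
  rw [phi_eq_iff]
  intro m hm
  have h := congrArg (Int.castRingHom (ZMod 2)) (euler_prod (k := k) n m hm)
  rw [← PowerSeries.coeff_map, ← PowerSeries.coeff_map, map_prod] at h
  have h1 : ∀ π ∈ irrLE k n, PowerSeries.map (Int.castRingHom (ZMod 2))
      (1 - (PowerSeries.X : PowerSeries ℤ) ^ π.natDegree) = oneAdd π.natDegree := by
    intro π _
    rw [map_sub, map_one, map_pow, PowerSeries.map_X, sub_eq_add_neg, neg_eq_self_ps]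
    rfl
  rw [Finset.prod_congr rfl h1] at h
  rw [h]
  congr 1
  have hq := card_odd k h2
  rw [map_sub, map_one, map_mul, PowerSeries.map_C, PowerSeries.map_X]
  have : (Int.castRingHom (ZMod 2)) (Nat.card k : ℤ) = 1 := by
    simp [hq]
  rw [this, map_one, one_mul, sub_eq_add_neg, neg_eq_self_ps]
  unfold oneAdd
  rw [pow_one]

lemma phi_oneAdd_of_lt (n d : ℕ) (h : n < d) : phi n (oneAdd d) = 1 := by
  rw [← map_one (phi n), phi_eq_iff]
  intro m hm
  unfold oneAdd
  rw [map_add, PowerSeries.coeff_X_pow, if_neg (by omega), add_zero]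

/-- the product over all primes of `k[x]`, grouped over the primes of `k[t]` -/
lemma grouped (h2 : (2 : k) ≠ 0) (a : k) (n : ℕ) :
    phi n (∏ π ∈ irrLE k n, ∏ q ∈ primesOver a π, oneAdd q.natDegree) = phi n (oneAdd 1) := by
  classical
  have hdisj : (↑(irrLE k n) : Set k[X]).PairwiseDisjoint (primesOver a) := by
    intro π hπ π' hπ' hne
    rw [Finset.mem_coe, mem_irrLE] at hπ hπ'
    rw [Function.onFun, Finset.disjoint_left]
    intro q hq hq'
    exact hne (below_unique a hπ.2.1 hπ.1 hπ'.2.1 hπ'.1 hq hq')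
  rw [← Finset.prod_biUnion hdisj]
  set U := (irrLE k n).biUnion (primesOver a) with hU
  have hsub : irrLE k n ⊆ U := by
    intro q hq
    rw [mem_irrLE] at hq
    obtain ⟨π, h1, h2, h3, h4⟩ := exists_below a hq.2.1 hq.1
    rw [hU, Finset.mem_biUnion]
    exact ⟨π, (mem_irrLE n π).mpr ⟨h1, h2, h4.trans hq.2.2⟩, h3⟩
  rw [← Finset.prod_sdiff hsub, map_mul, euler_mod2 h2]
  have h1 : phi n (∏ q ∈ U \ irrLE k n, oneAdd q.natDegree) = 1 := by
    rw [map_prod]
    apply Finset.prod_eq_one
    intro q hq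
    rw [Finset.mem_sdiff, hU, Finset.mem_biUnion] at hq
    obtain ⟨⟨π, hπ, hqπ⟩, hq2⟩ := hq
    rw [mem_irrLE] at hπ hq2
    obtain ⟨g1, g2, -⟩ := (mem_primesOver_iff a hπ.1 q).mp hqπ
    apply phi_oneAdd_of_lt
    by_contra hcon
    exact hq2 ⟨g1, g2, by omega⟩
  rw [h1, one_mul]

open Classical in
/-- the finite Euler product, modulo 2 -/
lemma finite_prod (h2 : (2 : k) ≠ 0) (h3 : (3 : k) ≠ 0) (a : k) (ha : a ≠ 0)
    (D : k[X]) (hsq : Squarefree D)
    (hin : ∀ π : k[X], π.Monic → Irreducible π → π ∣ D → Irreducible (π.comp (ff a))) (n : ℕ) :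
    phi n (∏ π ∈ irrLE k n, ((LB a D π : (ZMod 2)[X]) : PowerSeries (ZMod 2))) *
      phi n (∏ π ∈ irrLE k n, ((if π ∣ D then EE π else 1 : (ZMod 2)[X]) : PowerSeries (ZMod 2)))
      = 1 := by
  have h1 := grouped h2 a n
  have h4 : ∀ π ∈ irrLE k n, ∏ q ∈ primesOver a π, oneAdd q.natDegree =
      oneAdd π.natDegree * ((LB a D π : (ZMod 2)[X]) : PowerSeries (ZMod 2)) *
        ((if π ∣ D then EE π else 1 : (ZMod 2)[X]) : PowerSeries (ZMod 2)) := by
    intro π hπ
    rw [mem_irrLE] at hπ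
    have h5 := congrArg (fun p : (ZMod 2)[X] => (p : PowerSeries (ZMod 2)))
      (local_compare h2 h3 a ha D hsq hin hπ.2.1 hπ.1)
    simp only [Polynomial.coe_mul, coe_oneAdd] at h5
    rw [← h5, coe_prod']
    apply Finset.prod_congr rfl
    intro q _
    rw [coe_oneAdd]
  rw [Finset.prod_congr rfl h4, Finset.prod_mul_distrib, Finset.prod_mul_distrib, map_mul, map_mul,
    euler_mod2 h2, mul_assoc] at h1
  have hu : IsUnit (phi n (oneAdd 1)) := by
    apply IsUnit.map
    rw [PowerSeries.isUnit_iff_constantCoeff]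
    unfold oneAdd
    simp
  exact hu.mul_left_cancel (by rw [mul_one]; exact h1)

/-- the closed points of degree at most `n`: local factors -/
lemma prod_places (W : WeierstrassCurve (RatFunc k))
    (hinf : W.localPolynomial (placeInfty k).ring = 1) (n : ℕ) :
    ∏ᶠ (v : Place k (RatFunc k)) (_ : v.degree ≤ n),
      PowerSeries.invOfUnit (localFactor W v : PowerSeries ℤ) 1 =
    ∏ π : {π // π ∈ irrLE k n}, PowerSeries.invOfUnit
      (localFactor W (placeOf π.1 ((mem_irrLE n π.1).mp π.2).2.1) : PowerSeries ℤ) 1 := by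
  classical
  set F : Place k (RatFunc k) → PowerSeries ℤ := fun v =>
    PowerSeries.invOfUnit (localFactor W v : PowerSeries ℤ) 1 with hF
  set g : {π // π ∈ irrLE k n} → Place k (RatFunc k) := fun π =>
    placeOf π.1 ((mem_irrLE n π.1).mp π.2).2.1 with hg
  have hinj : Function.Injective g := by
    intro π π' h
    exact Subtype.ext (placeOf_injective _ _ ((mem_irrLE n π.1).mp π.2).1
      ((mem_irrLE n π'.1).mp π'.2).1 h)
  have h1 : ∏ᶠ (v : Place k (RatFunc k)) (_ : v ∈ {v : Place k (RatFunc k) | v.degree ≤ n}), F v =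
      ∏ᶠ (v : Place k (RatFunc k)) (_ : v ∈ Set.range g), F v := by
    apply finprod_mem_inter_mulSupport_eq
    ext v
    simp only [Set.mem_inter_iff, Function.mem_mulSupport, and_congr_left_iff]
    intro hv
    by_cases hX : RatFunc.X ∈ v.ring
    · obtain ⟨π, hm, hπ, hn⟩ := exists_irreducible_nonunit v hX
      have hveq := eq_placeOf v hX hπ hn
      have hdeg := degree_eq v hX hπ hn
      constructor
      · intro h
        change v.degree ≤ n at h
        refine ⟨⟨π, (mem_irrLE n π).mpr ⟨hm, hπ, by omega⟩⟩, hveq.symm⟩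
      · rintro ⟨⟨π', hπ'⟩, h⟩
        change v.degree ≤ n
        obtain ⟨i1, i2, i3⟩ := (mem_irrLE n π').mp hπ'
        have : placeOf π' i2 = placeOf π hπ := by rw [← hveq]; exact h
        have h5 := placeOf_injective _ _ i1 hm this
        rw [hdeg, ← h5]
        exact i3
    · exfalso
      apply hv
      have hveq := eq_placeInfty v hX
      rw [hF, hveq]
      simp only [localFactor, hinf]
      rw [one_comp, Polynomial.coe_one]
      have h5 := PowerSeries.mul_invOfUnit (1 : PowerSeries ℤ) 1 (by simp)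
      rwa [one_mul] at h5
  change ∏ᶠ (v : Place k (RatFunc k)) (_ : v ∈ {v : Place k (RatFunc k) | v.degree ≤ n}), F v = _
  rw [h1, finprod_mem_range hinj, finprod_eq_prod_of_fintype]

lemma coe_map {R S : Type} [CommRing R] [CommRing S] (f : R →+* S) (p : R[X]) :
    PowerSeries.map f (p : PowerSeries R) = ((p.map f : S[X]) : PowerSeries S) := by
  ext n
  simp

lemma localFactor_constantCoeff (W : WeierstrassCurve (RatFunc k)) (v : Place k (RatFunc k))
    (hv : v.degree ≠ 0) :
    PowerSeries.constantCoeff (localFactor W v : PowerSeries ℤ) = 1 := by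
  rw [← PowerSeries.coeff_zero_eq_constantCoeff_apply, Polynomial.coeff_coe, localFactor,
    coeff_zero_eq_eval_zero, eval_comp, eval_pow, eval_X, zero_pow hv]
  simp only [WeierstrassCurve.localPolynomial]
  split_ifs <;> simp

/-- the primes dividing `D` -/
noncomputable def primesOf (D : k[X]) : Finset k[X] := by
  classical
  exact (irrLE k D.natDegree).filter (fun π => π ∣ D)

open Classical in
lemma phi_primesOf (D : k[X]) (hD : D ≠ 0) (n : ℕ) :
    phi n (∏ π ∈ irrLE k n, ((if π ∣ D then EE π else 1 : (ZMod 2)[X]) : PowerSeries (ZMod 2))) =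
      phi n ((∏ π ∈ primesOf D, EE π : (ZMod 2)[X]) : PowerSeries (ZMod 2)) := by
  have hEE : ∀ π : k[X], n < π.natDegree → phi n ((EE π : (ZMod 2)[X]) : PowerSeries (ZMod 2)) = 1 := by
    intro π hπ
    rw [← map_one (phi n), phi_eq_iff]
    intro m hm
    unfold EE
    rw [Polynomial.coe_add, Polynomial.coe_add, Polynomial.coe_one, Polynomial.coe_pow,
      Polynomial.coe_pow, Polynomial.coe_X, map_add, map_add, PowerSeries.coeff_X_pow,
      PowerSeries.coeff_X_pow, if_neg (by omega), if_neg (by omega), add_zero, add_zero]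
  rw [coe_prod', map_prod, map_prod]
  have h1 : primesOf D = (irrLE k (max n D.natDegree)).filter (fun π => π ∣ D) := by
    ext π
    unfold primesOf
    rw [Finset.mem_filter, Finset.mem_filter, mem_irrLE, mem_irrLE]
    constructor
    · rintro ⟨⟨g1, g2, g3⟩, g4⟩
      exact ⟨⟨g1, g2, g3.trans (le_max_right _ _)⟩, g4⟩
    · rintro ⟨⟨g1, g2, g3⟩, g4⟩
      exact ⟨⟨g1, g2, natDegree_le_of_dvd g4 hD⟩, g4⟩
  have hsub : irrLE k n ⊆ irrLE k (max n D.natDegree) := by
    intro π hπ
    rw [mem_irrLE] at hπ ⊢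
    exact ⟨hπ.1, hπ.2.1, hπ.2.2.trans (le_max_left _ _)⟩
  rw [h1, Finset.prod_filter]
  rw [← Finset.prod_sdiff hsub]
  have h2 : ∏ π ∈ irrLE k (max n D.natDegree) \ irrLE k n,
      (if π ∣ D then phi n ((EE π : (ZMod 2)[X]) : PowerSeries (ZMod 2)) else 1) = 1 := by
    apply Finset.prod_eq_one
    intro π hπ
    rw [Finset.mem_sdiff, mem_irrLE, mem_irrLE] at hπ
    split_ifs
    · apply hEE
      by_contra hcon
      exact hπ.2 ⟨hπ.1.1, hπ.1.2.1, by omega⟩
    · rfl
  rw [h2, one_mul]
  apply Finset.prod_congr rfl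
  intro π _
  split_ifs
  · rfl
  · rw [Polynomial.coe_one, map_one]

/-- **the L-function of `E_D` modulo 2** -/
theorem LSeries_mod2 (h2 : (2 : k) ≠ 0) (h3 : (3 : k) ≠ 0) (a : k) (ha : a ≠ 0)
    (D : k[X]) (hsq : Squarefree D)
    (hin : ∀ π : k[X], π.Monic → Irreducible π → π ∣ D → Irreducible (π.comp (ff a))) :
    PowerSeries.map (Int.castRingHom (ZMod 2)) (LSeries k (twist a D)) =
      ((∏ π ∈ primesOf D, EE π : (ZMod 2)[X]) : PowerSeries (ZMod 2)) := by
  classical
  have hD : D ≠ 0 := hsq.ne_zero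
  ext n
  rw [PowerSeries.coeff_map, LSeries, PowerSeries.coeff_mk,
    prod_places (twist a D) (local_infty_twist h2 h3 a ha D hD), ← PowerSeries.coeff_map]
  set B : PowerSeries ℤ := ∏ π : {π // π ∈ irrLE k n}, PowerSeries.invOfUnit
      (localFactor (twist a D) (placeOf π.1 ((mem_irrLE n π.1).mp π.2).2.1) : PowerSeries ℤ) 1
    with hB
  have h4 : PowerSeries.map (Int.castRingHom (ZMod 2)) B *
      ∏ π ∈ irrLE k n, ((LB a D π : (ZMod 2)[X]) : PowerSeries (ZMod 2)) = 1 := by
    rw [hB, map_prod, ← Finset.prod_coe_sort (irrLE k n), ← Finset.prod_mul_distrib]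
    apply Finset.prod_eq_one
    intro π _
    obtain ⟨i1, i2, i3⟩ := (mem_irrLE n π.1).mp π.2
    have h5 : LB a D π.1 = (localFactor (twist a D) (placeOf π.1 i2)).map
        (Int.castRingHom (ZMod 2)) := by
      unfold LB
      rw [dif_pos i2]
    rw [h5, ← coe_map, ← map_mul]
    have hdeg : (placeOf π.1 i2).degree ≠ 0 := by
      rw [degree_eq (placeOf π.1 i2) (X_mem_placeOf π.1 i2) i2 (nonunit_placeOf π.1 i2)]
      exact i2.natDegree_pos.ne'
    have h6 := PowerSeries.mul_invOfUnit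
      (localFactor (twist a D) (placeOf π.1 i2) : PowerSeries ℤ) 1
      (by rw [localFactor_constantCoeff _ _ hdeg]; rfl)
    rw [mul_comm, h6, map_one]
  have h5 := finite_prod h2 h3 a ha D hsq hin n
  have h6 : phi n (PowerSeries.map (Int.castRingHom (ZMod 2)) B) *
      phi n (∏ π ∈ irrLE k n, ((LB a D π : (ZMod 2)[X]) : PowerSeries (ZMod 2))) = 1 := by
    rw [← map_mul, h4, map_one]
  have h7 : phi n (PowerSeries.map (Int.castRingHom (ZMod 2)) B) =
      phi n ((∏ π ∈ primesOf D, EE π : (ZMod 2)[X]) : PowerSeries (ZMod 2)) := by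
    rw [← phi_primesOf D hD n]
    calc phi n (PowerSeries.map (Int.castRingHom (ZMod 2)) B)
        = phi n (PowerSeries.map (Int.castRingHom (ZMod 2)) B) * 1 := (mul_one _).symm
      _ = _ := by rw [← h5, ← mul_assoc, h6, one_mul]
  exact (phi_eq_iff n _ _).mp h7 n le_rfl

/-- **the analytic rank of `E_D` is zero** -/
theorem analyticRank_eq_zero (h2 : (2 : k) ≠ 0) (h3 : (3 : k) ≠ 0) (a : k) (ha : a ≠ 0)
    (D : k[X]) (hsq : Squarefree D)
    (hin : ∀ π : k[X], π.Monic → Irreducible π → π ∣ D → Irreducible (π.comp (ff a))) :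
    analyticRank k (twist a D) = 0 := by
  unfold analyticRank
  have hsub : {n : ℕ | ∃ g : ℤ[X], (((1 - C (Nat.card k : ℤ) * X) ^ n * g : ℤ[X]) :
      PowerSeries ℤ) = LSeries k (twist a D)} ⊆ {0} := by
    rintro n ⟨g, hg⟩
    rw [Set.mem_singleton_iff]
    by_contra hn
    have h4 := congrArg (PowerSeries.map (Int.castRingHom (ZMod 2))) hg
    rw [LSeries_mod2 h2 h3 a ha D hsq hin, coe_map, Polynomial.coe_inj] at h4
    have h5 := congrArg (eval 1) h4
    have hq := card_odd k h2
    have h6 : eval 1 (Polynomial.map (Int.castRingHom (ZMod 2))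
        ((1 - C (Nat.card k : ℤ) * X) ^ n * g)) = 0 := by
      rw [Polynomial.map_mul, Polynomial.map_pow, Polynomial.map_sub, Polynomial.map_one,
        Polynomial.map_mul, Polynomial.map_C, Polynomial.map_X, eval_mul, eval_pow, eval_sub,
        eval_one, eval_mul, eval_C, eval_X]
      have : (Int.castRingHom (ZMod 2)) (Nat.card k : ℤ) = 1 := by
        simp [hq]
      rw [this, mul_one, sub_self, zero_pow hn, zero_mul]
    rw [h6, eval_prod] at h5
    have h7 : ∏ π ∈ primesOf D, eval 1 (EE π) = 1 := by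
      apply Finset.prod_eq_one
      intro π _
      unfold EE
      rw [eval_add, eval_add, eval_one, eval_pow, eval_pow, eval_X, one_pow, one_pow]
      decide
    rw [h7] at h5
    exact zero_ne_one h5
  rcases Set.subset_singleton_iff_eq.mp hsub with h | h
  · rw [h]; exact csSup_empty
  · rw [h]; exact csSup_singleton 0

end global

end Pool.Agent.BSDFF
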