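import Mathlib

/-!
The classical 2-descent homomorphism `P ↦ x(P) - e` modulo squares, `(e, 0)` a point of order `2`
of `y ^ 2 = x ^ 3 + a₂ x ^ 2 + a₄ x + a₆`.
-/

set_option autoImplicit false

open Polynomial

namespace Pool.Agent.BSDFF

section alpha

variable {F : Type} [Field F] [DecidableEq F] (W : WeierstrassCurve F) (e D : F)

/-- the descent map: `1` at the origin, `D` at `(e, 0)`, and `x - e` elsewhere -/
def alpha : W.toAffine.Point → F
  | .zero => 1
  | .some x _ _ => if x = e then D else x - e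

lemma alpha_zero : alpha W e D 0 = 1 := rfl

lemma alpha_some {x y : F} (h : W.toAffine.Nonsingular x y) :
    alpha W e D (.some x y h) = if x = e then D else x - e := rfl

variable {W} {e D}

lemma alpha_neg (P : W.toAffine.Point) : alpha W e D (-P) = alpha W e D P := by
  rcases P with _ | ⟨x, y, h⟩
  · rfl
  · rfl

lemma alpha_ne_zero (hD : D ≠ 0) (P : W.toAffine.Point) : alpha W e D P ≠ 0 := by
  rcases P with _ | ⟨x, y, h⟩
  · exact one_ne_zero
  · rw [alpha_some]
    split_ifs with hx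
    · exact hD
    · exact sub_ne_zero.mpr hx

omit [DecidableEq F] in
lemma eval_addPolynomial_e (h1 : W.a₁ = 0) (h3 : W.a₃ = 0)
    (he : e ^ 3 + W.a₂ * e ^ 2 + W.a₄ * e + W.a₆ = 0) (x y l : F) :
    (W.toAffine.addPolynomial x y l).eval e = (l * (e - x) + y) ^ 2 := by
  rw [WeierstrassCurve.Affine.addPolynomial_eq, h1, h3]
  simp only [Cubic.toPoly, eval_neg, eval_add, eval_mul, eval_C, eval_pow, eval_X]
  linear_combination -he

/-- the case `P = (e, 0)` -/
lemma alpha_add_T (h1 : W.a₁ = 0) (h3 : W.a₃ = 0)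
    (he : e ^ 3 + W.a₂ * e ^ 2 + W.a₄ * e + W.a₆ = 0) (hD : D = 3 * e ^ 2 + 2 * W.a₂ * e + W.a₄)
    (hD0 : D ≠ 0) {y : F} (h : W.toAffine.Nonsingular e y) (Q : W.toAffine.Point) :
    IsSquare (alpha W e D (.some e y h + Q) * alpha W e D (.some e y h) * alpha W e D Q) := by
  have hy : y = 0 := by
    have := h.1
    rw [WeierstrassCurve.Affine.equation_iff, h1, h3] at this
    have h5 : y ^ 2 = 0 := by linear_combination this + he
    exact pow_eq_zero_iff (by norm_num) |>.mp h5
  subst hy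
  rcases Q with _ | ⟨x, y, hQ⟩
  · refine ⟨alpha W e D (.some e 0 h), ?_⟩
    change alpha W e D (.some e 0 h + 0) * alpha W e D (.some e 0 h) * alpha W e D 0 = _
    rw [add_zero, alpha_zero, mul_one]
  · by_cases hx : x = e
    · subst hx
      have hy : y = 0 := by
        have := hQ.1
        rw [WeierstrassCurve.Affine.equation_iff, h1, h3] at this
        have h5 : y ^ 2 = 0 := by linear_combination this + he
        exact pow_eq_zero_iff (by norm_num) |>.mp h5
      subst hy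
      rw [WeierstrassCurve.Affine.Point.add_of_Y_eq rfl (by
        rw [WeierstrassCurve.Affine.negY, h1, h3]; ring), alpha_zero, one_mul]
      exact ⟨_, rfl⟩
    · have hxe : x - e ≠ 0 := sub_ne_zero.mpr hx
      have hex : e - x ≠ 0 := sub_ne_zero.mpr (Ne.symm hx)
      have hxy : ¬ (e = x ∧ (0 : F) = W.toAffine.negY x y) := fun hh => hx hh.1.symm
      rw [WeierstrassCurve.Affine.Point.add_some hxy, alpha_some, alpha_some, alpha_some,
        if_pos rfl, if_neg hx]
      have hE := hQ.1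
      rw [WeierstrassCurve.Affine.equation_iff, h1, h3] at hE
      have hX : W.toAffine.addX e x (W.toAffine.slope e x 0 y) - e = D / (x - e) := by
        rw [WeierstrassCurve.Affine.slope_of_X_ne (Ne.symm hx), WeierstrassCurve.Affine.addX, h1, hD]
        field_simp
        linear_combination (x - e) * hE + (x - e) * he
      have hne : W.toAffine.addX e x (W.toAffine.slope e x 0 y) ≠ e := by
        intro h5
        rw [h5, sub_self] at hX
        exact div_ne_zero hD0 hxe hX.symm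
      rw [if_neg hne, hX]
      refine ⟨D, ?_⟩
      field_simp

omit [DecidableEq F] in
lemma some_x_eq {X Y : F} (h : W.toAffine.Nonsingular X Y) (hX : X = e) :
    ∃ (y : F) (hT : W.toAffine.Nonsingular e y),
      WeierstrassCurve.Affine.Point.some X Y h = .some e y hT := by
  subst hX
  exact ⟨Y, h, rfl⟩

theorem alpha_add (h1 : W.a₁ = 0) (h3 : W.a₃ = 0)
    (he : e ^ 3 + W.a₂ * e ^ 2 + W.a₄ * e + W.a₆ = 0) (hD : D = 3 * e ^ 2 + 2 * W.a₂ * e + W.a₄)
    (hD0 : D ≠ 0) (P Q : W.toAffine.Point) :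
    IsSquare (alpha W e D (P + Q) * alpha W e D P * alpha W e D Q) := by
  rcases P with _ | ⟨x₁, y₁, hP⟩
  · refine ⟨alpha W e D Q, ?_⟩
    change alpha W e D (0 + Q) * alpha W e D 0 * alpha W e D Q = _
    rw [zero_add, alpha_zero, mul_one]
  rcases Q with _ | ⟨x₂, y₂, hQ⟩
  · refine ⟨alpha W e D (.some x₁ y₁ hP), ?_⟩
    change alpha W e D (.some x₁ y₁ hP + 0) * alpha W e D (.some x₁ y₁ hP) * alpha W e D 0 = _
    rw [add_zero, alpha_zero, mul_one]
  by_cases hx1 : x₁ = e
  · subst hx1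
    exact alpha_add_T h1 h3 he hD hD0 hP _
  by_cases hx2 : x₂ = e
  · subst hx2
    have h := alpha_add_T h1 h3 he hD hD0 hQ (.some x₁ y₁ hP)
    rw [add_comm, mul_right_comm] at h
    exact h
  by_cases hxy : x₁ = x₂ ∧ y₁ = W.toAffine.negY x₂ y₂
  · rw [WeierstrassCurve.Affine.Point.add_of_Y_eq hxy.1 hxy.2, alpha_zero, one_mul, alpha_some,
      alpha_some, if_neg hx1, if_neg hx2, hxy.1]
    exact ⟨_, rfl⟩
  by_cases hx3 : W.toAffine.addX x₁ x₂ (W.toAffine.slope x₁ x₂ y₁ y₂) = e
  · -- `P + Q = T`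
    have hsum := WeierstrassCurve.Affine.Point.add_some hxy (h₁ := hP) (h₂ := hQ)
    obtain ⟨y, hT, hsum'⟩ := some_x_eq (WeierstrassCurve.Affine.nonsingular_add hP hQ hxy) hx3
    rw [hsum'] at hsum
    have h := alpha_add_T h1 h3 he hD hD0 hT (-(.some x₂ y₂ hQ))
    have h5 : (WeierstrassCurve.Affine.Point.some e y hT + -(.some x₂ y₂ hQ)) = .some x₁ y₁ hP := by
      rw [← hsum, add_neg_cancel_right]
    rw [h5, alpha_neg, ← hsum] at h
    rw [mul_comm (alpha W e D (.some x₁ y₁ hP + .some x₂ y₂ hQ))]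
    exact h
  · rw [WeierstrassCurve.Affine.Point.add_some hxy, alpha_some, alpha_some, alpha_some,
      if_neg hx1, if_neg hx2, if_neg hx3]
    have h := eval_addPolynomial_e h1 h3 he x₁ y₁ (W.toAffine.slope x₁ x₂ y₁ y₂)
    rw [WeierstrassCurve.Affine.addPolynomial_slope hP.1 hQ.1 hxy] at h
    simp only [eval_neg, eval_mul, eval_sub, eval_X, eval_C] at h
    refine ⟨W.toAffine.slope x₁ x₂ y₁ y₂ * (e - x₁) + y₁, ?_⟩
    linear_combination h

end alpha

section sqClass

variable {F : Type} [Field F]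

/-- the units of `F` modulo squares -/
abbrev ModSq (F : Type) [Field F] : Type := Fˣ ⧸ (powMonoidHom 2 : Fˣ →* Fˣ).range

/-- the same group, written additively -/
def SqGrp (F : Type) [Field F] : Type := Additive (ModSq F)

noncomputable instance (F : Type) [Field F] : AddCommGroup (SqGrp F) :=
  inferInstanceAs (AddCommGroup (Additive (ModSq F)))

/-- the class of a unit -/
noncomputable def SqGrp.mk {F : Type} [Field F] (x : Fˣ) : SqGrp F :=
  Additive.ofMul (QuotientGroup.mk x : ModSq F)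

lemma SqGrp.mk_mul {F : Type} [Field F] (x y : Fˣ) :
    SqGrp.mk (x * y) = SqGrp.mk x + SqGrp.mk y := rfl

lemma SqGrp.mk_surjective {F : Type} [Field F] (v : SqGrp F) : ∃ x : Fˣ, SqGrp.mk x = v := by
  obtain ⟨x, hx⟩ := QuotientGroup.mk_surjective (Additive.toMul v : ModSq F)
  exact ⟨x, congrArg Additive.ofMul hx⟩

lemma SqGrp.mk_eq_zero_iff (x : F) (hx : x ≠ 0) :
    SqGrp.mk (Units.mk0 x hx) = 0 ↔ IsSquare x := by
  change (QuotientGroup.mk (Units.mk0 x hx) : ModSq F) = 1 ↔ IsSquare x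
  rw [QuotientGroup.eq_one_iff]
  constructor
  · rintro ⟨y, hy⟩
    have h := congrArg (fun z : Fˣ => (z : F)) hy
    simp only [powMonoidHom_apply, Units.val_pow_eq_pow_val, Units.val_mk0] at h
    exact ⟨(y : F), by rw [← h, pow_two]⟩
  · rintro ⟨y, hy⟩
    have hy0 : y ≠ 0 := by
      rintro rfl
      exact hx (by rw [hy, mul_zero])
    refine ⟨Units.mk0 y hy0, ?_⟩
    apply Units.ext
    simp only [powMonoidHom_apply, Units.val_pow_eq_pow_val, Units.val_mk0]
    rw [hy, pow_two]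

open Classical in
/-- the class modulo squares of a nonzero element (and `0` for `0`) -/
noncomputable def sqClass (x : F) : SqGrp F :=
  if h : x ≠ 0 then SqGrp.mk (Units.mk0 x h) else 0

lemma sqClass_mul {x y : F} (hx : x ≠ 0) (hy : y ≠ 0) :
    sqClass (x * y) = sqClass x + sqClass y := by
  unfold sqClass
  have h : Units.mk0 (x * y) (mul_ne_zero hx hy) = Units.mk0 x hx * Units.mk0 y hy := Units.ext rfl
  rw [dif_pos hx, dif_pos hy, dif_pos (mul_ne_zero hx hy), h, SqGrp.mk_mul]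

lemma sqClass_eq_zero_iff {x : F} (hx : x ≠ 0) : sqClass x = 0 ↔ IsSquare x := by
  unfold sqClass
  rw [dif_pos hx, SqGrp.mk_eq_zero_iff]

lemma sqClass_one : sqClass (1 : F) = 0 := (sqClass_eq_zero_iff one_ne_zero).mpr ⟨1, by simp⟩

lemma modSq_two (v : SqGrp F) : v + v = 0 := by
  obtain ⟨x, rfl⟩ := SqGrp.mk_surjective v
  have h : (QuotientGroup.mk x : ModSq F) * QuotientGroup.mk x = 1 := by
    rw [← QuotientGroup.mk_mul, QuotientGroup.eq_one_iff]
    exact ⟨x, by rw [powMonoidHom_apply, pow_two]⟩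
  exact congrArg Additive.ofMul h

lemma sqClass_prod {ι : Type} (S : Finset ι) (f : ι → F) (hf : ∀ i ∈ S, f i ≠ 0) :
    sqClass (∏ i ∈ S, f i) = ∑ i ∈ S, sqClass (f i) := by
  classical
  induction S using Finset.induction_on with
  | empty => simp [sqClass_one]
  | insert i S hi ih =>
    rw [Finset.prod_insert hi, Finset.sum_insert hi, sqClass_mul (hf i (Finset.mem_insert_self i S))
      (Finset.prod_ne_zero_iff.mpr fun j hj => hf j (Finset.mem_insert_of_mem hj)),
      ih fun j hj => hf j (Finset.mem_insert_of_mem hj)]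

variable [DecidableEq F]

/-- the 2-descent homomorphism -/
noncomputable def alphaHom (W : WeierstrassCurve F) (e D : F) (h1 : W.a₁ = 0) (h3 : W.a₃ = 0)
    (he : e ^ 3 + W.a₂ * e ^ 2 + W.a₄ * e + W.a₆ = 0) (hD : D = 3 * e ^ 2 + 2 * W.a₂ * e + W.a₄)
    (hD0 : D ≠ 0) : W.toAffine.Point →+ SqGrp F :=
  AddMonoidHom.mk' (fun P => sqClass (alpha W e D P)) (by
    intro P Q
    have h := alpha_add h1 h3 he hD hD0 P Q
    have h4 : ∀ R : W.toAffine.Point, alpha W e D R ≠ 0 := fun R => alpha_ne_zero hD0 R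
    rw [← sqClass_eq_zero_iff (mul_ne_zero (mul_ne_zero (h4 _) (h4 _)) (h4 _)),
      sqClass_mul (mul_ne_zero (h4 _) (h4 _)) (h4 _), sqClass_mul (h4 _) (h4 _)] at h
    have h8 := modSq_two (sqClass (alpha W e D P))
    have h9 := modSq_two (sqClass (alpha W e D Q))
    generalize sqClass (alpha W e D P) = a at *
    generalize sqClass (alpha W e D Q) = b at *
    generalize sqClass (alpha W e D (P + Q)) = c at *
    rw [← sub_eq_zero]
    have : c - (a + b) = (c + a + b) - (a + a) - (b + b) := by abel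
    rw [this, h, h8, h9]
    abel)

lemma alphaHom_apply (W : WeierstrassCurve F) (e D : F) (h1 : W.a₁ = 0) (h3 : W.a₃ = 0)
    (he : e ^ 3 + W.a₂ * e ^ 2 + W.a₄ * e + W.a₆ = 0) (hD : D = 3 * e ^ 2 + 2 * W.a₂ * e + W.a₄)
    (hD0 : D ≠ 0) (P : W.toAffine.Point) : alphaHom W e D h1 h3 he hD hD0 P =
      sqClass (alpha W e D P) := rfl

lemma sum_alphaHom_eq_zero (W : WeierstrassCurve F) (e D : F) (h1 : W.a₁ = 0) (h3 : W.a₃ = 0)
    (he : e ^ 3 + W.a₂ * e ^ 2 + W.a₄ * e + W.a₆ = 0) (hD : D = 3 * e ^ 2 + 2 * W.a₂ * e + W.a₄)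
    (hD0 : D ≠ 0) {ι : Type} (S : Finset ι) (P : ι → W.toAffine.Point)
    (h : ∑ i ∈ S, alphaHom W e D h1 h3 he hD hD0 (P i) = 0) :
    IsSquare (∏ i ∈ S, alpha W e D (P i)) := by
  have h4 : ∀ i ∈ S, alpha W e D (P i) ≠ 0 := fun i _ => alpha_ne_zero hD0 _
  rw [← sqClass_eq_zero_iff (Finset.prod_ne_zero_iff.mpr h4), sqClass_prod S _ h4]
  exact h

end sqClass

end Pool.Agent.BSDFF
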