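import Pool.Agent.Lib.MP_48b749_nt.LegImage
import Pool.Agent.Lib.MP_48b749_nt.Two.Bound
import Pool.Agent.Lib.MP_48b749_nt.Two.Curve2

/-!
The L-function modulo 2 of the Legendre curve `y ^ 2 = x (x + 1) (x + w)`, and the bound for the
analytic rank when `w = u ^ d`.
-/

set_option autoImplicit false

open Polynomial WithZero Multiplicative

namespace Pool.Agent.BSDFF

open Pool.Agent.Lib.MP_48b749_nt.Loc Two

section analytic

variable {k : Type} [Field k] [Finite k]

omit [Finite k] in
lemma legendre_eq_curve (w : k[X]) : legendre w = curve (1 + w) w := rfl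

/-- multiplicative reduction at infinity -/
theorem locTwo_infty_legendre (h2 : (2 : k) ≠ 0) {w : k[X]} {N : ℕ} (hN : N ≠ 0)
    (hw : w.natDegree = 2 * N) : locTwo (placeInfty k).ring (legendre w) = 1 + X := by
  have hfin := residue_finite_infty (k := k)
  have h16 : (16 : k) ≠ 0 := by
    have : (16 : k) = 2 ^ 4 := by norm_num
    rw [this]; exact pow_ne_zero _ h2
  have hw0 : w ≠ 0 := by
    rintro rfl
    rw [natDegree_zero] at hw
    omega
  have hw1 : w ≠ 1 := by
    rintro rfl
    rw [natDegree_one] at hw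
    omega
  have hd1 : (w - 1).natDegree = 2 * N := by
    rw [natDegree_sub_eq_left_of_natDegree_lt, hw]
    rw [natDegree_one, hw]; omega
  have hdc : (w ^ 2 - w + 1).natDegree = 4 * N := by
    rw [natDegree_add_eq_left_of_natDegree_lt, natDegree_sub_eq_left_of_natDegree_lt,
      natDegree_pow, hw]
    · ring
    · rw [natDegree_pow, hw]; omega
    · rw [natDegree_sub_eq_left_of_natDegree_lt, natDegree_pow, natDegree_one, hw]
      · omega
      · rw [natDegree_pow, hw]; omega
  have hda : (1 + w).natDegree = 2 * N := by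
    rw [natDegree_add_eq_right_of_natDegree_lt, hw]
    rw [natDegree_one, hw]; omega
  have hXN : (RatFunc.X : RatFunc k) ^ N ≠ 0 := pow_ne_zero _ RatFunc.X_ne_zero
  have hXinv : ∀ j : ℕ, ((RatFunc.X : RatFunc k) ^ N)⁻¹ ^ j ≠ 0 := fun j =>
    pow_ne_zero _ (inv_ne_zero hXN)
  have hdX : ∀ j : ℕ, (((RatFunc.X : RatFunc k) ^ N)⁻¹ ^ j).intDegree = -((j * N : ℕ) : ℤ) := by
    intro j
    rw [inv_pow, ← pow_mul, RatFunc.intDegree_inv, ← RatFunc.algebraMap_X, ← map_pow,
      RatFunc.intDegree_polynomial, natDegree_X_pow, mul_comm N j]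
  have hval : ∀ (j : ℕ) (f : k[X]), f ≠ 0 →
      vv (placeInfty k).ring ((RatFunc.X ^ N)⁻¹ ^ j * algebraMap k[X] (RatFunc k) f) =
        exp ((f.natDegree : ℤ) - (j * N : ℕ)) := by
    intro j f hf
    have hf' : algebraMap k[X] (RatFunc k) f ≠ 0 := fun h =>
      hf ((FaithfulSMul.algebraMap_eq_zero_iff _ _).mp h)
    rw [vv_infty _ (mul_ne_zero (hXinv j) hf'), RatFunc.intDegree_mul (hXinv j) hf', hdX,
      RatFunc.intDegree_polynomial]
    congr 1
    ring
  have hmem : ∀ (j : ℕ) (f : k[X]), f.natDegree ≤ j * N →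
      (RatFunc.X ^ N)⁻¹ ^ j * algebraMap k[X] (RatFunc k) f ∈ (placeInfty k).ring := by
    intro j f hf
    rw [mem_placeInfty_iff]
    by_cases hf0 : f = 0
    · left; rw [hf0, map_zero, mul_zero]
    · right
      have hf' : algebraMap k[X] (RatFunc k) f ≠ 0 := fun h =>
        hf0 ((FaithfulSMul.algebraMap_eq_zero_iff _ _).mp h)
      rw [RatFunc.intDegree_mul (hXinv j) hf', hdX, RatFunc.intDegree_polynomial]
      omega
  let D : WeierstrassCurve.VariableChange (RatFunc k) := ⟨Units.mk0 (RatFunc.X ^ N) hXN, 0, 0, 0⟩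
  have hu : ((D.u⁻¹ : (RatFunc k)ˣ) : RatFunc k) = (RatFunc.X ^ N)⁻¹ := by
    simp [D]
  have hma : (RatFunc.X ^ N)⁻¹ ^ 2 * algebraMap k[X] (RatFunc k) (1 + w) ∈ (placeInfty k).ring :=
    hmem 2 _ (by omega)
  have hmb : (RatFunc.X ^ N)⁻¹ ^ 4 * algebraMap k[X] (RatFunc k) w ∈ (placeInfty k).ring :=
    hmem 4 w (by omega)
  let I : WeierstrassCurve (placeInfty k).ring := ⟨0, ⟨_, hma⟩, 0, ⟨_, hmb⟩, 0⟩
  have hI : I.map (algebraMap (placeInfty k).ring (RatFunc k)) = D • legendre w := by
    ext
    · rw [WeierstrassCurve.variableChange_a₁]; simp [D, I, legendre]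
    · rw [WeierstrassCurve.variableChange_a₂, hu]
      change (RatFunc.X ^ N)⁻¹ ^ 2 * algebraMap k[X] (RatFunc k) (1 + w) = _
      simp [D, legendre]
    · rw [WeierstrassCurve.variableChange_a₃]; simp [D, I, legendre]
    · rw [WeierstrassCurve.variableChange_a₄, hu]
      change (RatFunc.X ^ N)⁻¹ ^ 4 * algebraMap k[X] (RatFunc k) w = _
      simp [D, legendre]
    · rw [WeierstrassCurve.variableChange_a₆]; simp [D, I, legendre]
  have hΔv : vv (placeInfty k).ring (algebraMap (placeInfty k).ring (RatFunc k) I.Δ) =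
      exp (-(4 * N : ℤ)) := by
    have h1 : algebraMap (placeInfty k).ring (RatFunc k) I.Δ = (D • legendre w).Δ := by
      rw [← hI, WeierstrassCurve.map_Δ]
    have hP1 : (16 * w ^ 2 : k[X]) ≠ 0 :=
      mul_ne_zero (isUnit_sixteen h2).ne_zero (pow_ne_zero 2 hw0)
    have hP2 : ((w - 1) ^ 2 : k[X]) ≠ 0 := pow_ne_zero 2 (sub_ne_zero.mpr hw1)
    have hP : (16 * w ^ 2 * (w - 1) ^ 2 : k[X]).natDegree = 8 * N := by
      rw [natDegree_mul hP1 hP2, natDegree_ofNat_mul h16, natDegree_pow, natDegree_pow, hw, hd1]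
      ring
    rw [h1, WeierstrassCurve.variableChange_Δ, hu, legendre_Δ, hval 12 _ (mul_ne_zero hP1 hP2), hP,
      exp_inj]
    push_cast
    ring
  have hcv : vv (placeInfty k).ring (algebraMap (placeInfty k).ring (RatFunc k) I.c₄) = 1 := by
    have h1 : algebraMap (placeInfty k).ring (RatFunc k) I.c₄ = (D • legendre w).c₄ := by
      rw [← hI, WeierstrassCurve.map_c₄]
    have hP : (16 * (w ^ 2 - w + 1) : k[X]).natDegree = 4 * N := by
      rw [natDegree_ofNat_mul h16, hdc]
    have hP0 : (16 * (w ^ 2 - w + 1) : k[X]) ≠ 0 := by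
      intro h
      rw [h, natDegree_zero] at hP
      omega
    rw [h1, WeierstrassCurve.variableChange_c₄, hu, legendre_c4, hval 4 _ hP0, hP, ← exp_zero,
      exp_inj]
    push_cast
    ring
  have hΔm : I.Δ ∈ IsLocalRing.maximalIdeal (placeInfty k).ring := by
    rw [← val_lt_one_iff (placeInfty k).ring (K := RatFunc k)]
    change vv (placeInfty k).ring _ < 1
    rw [hΔv, ← exp_zero, exp_lt_exp]
    omega
  have hcm : I.c₄ ∉ IsLocalRing.maximalIdeal (placeInfty k).ring := by
    rw [← val_lt_one_iff (placeInfty k).ring (K := RatFunc k)]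
    change ¬ (vv (placeInfty k).ring _ < 1)
    rw [hcv]
    exact lt_irrefl _
  exact (locTwo_of_model (placeInfty k).ring (isUnit_two_place h2 _) (hasTwoTorsion_curve _ _)
    (legendre_Δ_ne_zero h2 hw0 hw1) I D hI (Or.inr fun h => hcm (Ideal.pow_le_self (by norm_num) h))).2.1 hΔm hcm

/-- the bad primes of `y ^ 2 = x (x + 1) (x + u ^ d)` -/
noncomputable def badPrimes (u : k[X]) (d : ℕ) : Finset k[X] := by
  classical
  exact (insert 0 (nthRootsFinset d (1 : k))).image (fun c => normalize (u - C c))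

theorem legendre_mod_two (h2 : (2 : k) ≠ 0) {m : ℕ} (hm : m ≠ 0) {z : k}
    (hz : IsPrimitiveRoot z (2 * m)) {u : k[X]} (hu0 : Irreducible u)
    (hu : ∀ c : k, c ^ (2 * m) = 1 → Irreducible (u - C c)) :
    (∀ π ∈ badPrimes u (2 * m), π.Monic ∧ Irreducible π ∧ π.natDegree = u.natDegree) ∧
    (badPrimes u (2 * m)).card ≤ 2 * m + 1 ∧
    PowerSeries.map (Int.castRingHom (ZMod 2)) (LSeries k (legendre (u ^ (2 * m)))) *
        oneAdd 1 ^ 4 =
      oneAdd 1 ^ 1 * ∏ π ∈ badPrimes u (2 * m), oneAdd π.natDegree ^ 1 := by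
  classical
  have hd : 0 < 2 * m := by omega
  have hirr : ∀ c ∈ insert 0 (nthRootsFinset (2 * m) (1 : k)), Irreducible (u - C c) := by
    intro c hc
    rw [Finset.mem_insert] at hc
    rcases hc with rfl | hc
    · rw [C_0, sub_zero]; exact hu0
    · exact hu c ((mem_nthRootsFinset hd _).mp hc)
  have hmem : ∀ π, π ∈ badPrimes u (2 * m) ↔ ∃ c ∈ insert 0 (nthRootsFinset (2 * m) (1 : k)),
      normalize (u - C c) = π := by
    intro π
    unfold badPrimes
    rw [Finset.mem_image]
  have hprop : ∀ π ∈ badPrimes u (2 * m),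
      π.Monic ∧ Irreducible π ∧ π.natDegree = u.natDegree := by
    intro π hπ
    obtain ⟨c, hc, rfl⟩ := (hmem π).mp hπ
    refine ⟨monic_normalize (hirr c hc).ne_zero,
      (associated_normalize (u - C c)).irreducible (hirr c hc), ?_⟩
    rw [natDegree_eq_of_degree_eq degree_normalize, natDegree_sub_C]
  refine ⟨hprop, ?_, ?_⟩
  · unfold badPrimes
    refine Finset.card_image_le.trans ((Finset.card_insert_le _ _).trans ?_)
    rw [hz.card_nthRootsFinset]
  · obtain ⟨w, hw⟩ : ∃ w : k[X], w = u ^ (2 * m) := ⟨_, rfl⟩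
    rw [← hw]
    have hw0 : w ≠ 0 := by rw [hw]; exact pow_ne_zero _ hu0.ne_zero
    have hwd : w.natDegree = 2 * (m * u.natDegree) := by
      rw [hw, natDegree_pow]; ring
    have hmu : m * u.natDegree ≠ 0 := (Nat.mul_pos (by omega) hu0.natDegree_pos).ne'
    have hw1 : w ≠ 1 := by
      intro h
      rw [h, natDegree_one] at hwd
      omega
    have hb' : (1 + w) ^ 2 - 4 * w ≠ 0 := by
      have : (1 + w) ^ 2 - 4 * w = (w - 1) ^ 2 := by ring
      rw [this]
      exact pow_ne_zero 2 (sub_ne_zero.mpr hw1)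
    have hdvd : ∀ π : k[X], Irreducible π → π.Monic → π ∉ badPrimes u (2 * m) →
        ¬ π ∣ w ∧ ¬ π ∣ w - 1 := by
      intro π hπ hπm hnot
      have key : ∀ c ∈ insert 0 (nthRootsFinset (2 * m) (1 : k)), ¬ π ∣ u - C c := by
        intro c hc h5
        apply hnot
        rw [hmem]
        refine ⟨c, hc, ?_⟩
        have h6 := hπ.associated_of_dvd (hirr c hc) h5
        exact (eq_of_monic_of_associated hπm (monic_normalize (hirr c hc).ne_zero)
          (h6.trans (associated_normalize _))).symm
      constructor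
      · intro h5
        rw [hw] at h5
        have h6 := key 0 (Finset.mem_insert_self _ _)
        rw [C_0, sub_zero] at h6
        exact h6 (hπ.prime.dvd_of_dvd_pow h5)
      · intro h5
        rw [hw, pow_sub_one_eq_prod hd hz, hπ.prime.dvd_finsetProd_iff] at h5
        obtain ⟨c, hc, h6⟩ := h5
        exact key c (Finset.mem_insert_of_mem hc) h6
    have hL := LSeries_two h2 (legendre w) (badPrimes u (2 * m))
      (fun π hπ => ⟨(hprop π hπ).1, (hprop π hπ).2.1⟩)
      (fun π => if π ∈ badPrimes u (2 * m) then 1 else 0) 1 (by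
        intro π hπ hπm
        beta_reduce
        split_ifs with hin
        · have h1 : locTwo (placeOf π hπ).ring (legendre w) = 1 + X := by
            obtain ⟨c, hc, hcπ⟩ := (hmem π).mp hin
            have h5 : π ∣ u - C c := by
              rw [← hcπ]
              exact (associated_normalize _).symm.dvd
            have h6 : π ∣ w ∨ π ∣ w - 1 := by
              rw [Finset.mem_insert] at hc
              rcases hc with rfl | hc
              · left
                rw [C_0, sub_zero] at h5
                rw [hw]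
                exact dvd_pow h5 hd.ne'
              · right
                rw [hw, pow_sub_one_eq_prod hd hz]
                exact h5.trans (Finset.dvd_prod_of_mem (fun c => u - C c) hc)
            have h2' : ¬ π ∣ (2 : k[X]) := by
              intro h7
              apply hπ.not_isUnit
              refine isUnit_of_dvd_unit h7 ?_
              have : (2 : k[X]) = C 2 := (C_ofNat 2).symm
              rw [this]
              exact isUnit_C.mpr h2.isUnit
            rw [legendre_eq_curve]
            refine locTwo_mult_place h2 hw0 hb' hπ ?_ ?_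
            · intro h7
              rcases h6 with h6 | h6
              · have h8 : π ∣ (1 + w) - w := dvd_sub h7 h6
                rw [add_sub_cancel_right] at h8
                exact hπ.not_isUnit (isUnit_of_dvd_one h8)
              · have h8 : π ∣ (1 + w) - (w - 1) := dvd_sub h7 h6
                have h9 : (1 + w) - (w - 1) = 2 := by ring
                rw [h9] at h8
                exact h2' h8
            · rcases h6 with h6 | h6
              · exact Or.inl h6
              · right
                have h8 : (1 + w) ^ 2 - 4 * w = (w - 1) ^ 2 := by ring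
                rw [h8]
                exact dvd_pow h6 two_ne_zero
          rw [h1, pow_one, pow_two]
        · obtain ⟨h5, h6⟩ := hdvd π hπ hπm hin
          rw [legendre_eq_curve, locTwo_good_place h2 hw0 hb' hπ h5 (by
            have h8 : (1 + w) ^ 2 - 4 * w = (w - 1) ^ 2 := by ring
            rw [h8]
            intro h9
            exact h6 (hπ.prime.dvd_of_dvd_pow h9)), pow_zero, mul_one])
      (fun π _ _ hnot => if_neg hnot)
      (by rw [locTwo_infty_legendre h2 hmu hwd, pow_one, pow_two])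
    rw [hL]
    congr 1
    apply Finset.prod_congr rfl
    intro π hπ
    beta_reduce
    rw [if_pos hπ]

theorem legendre_exponent_le (h2 : (2 : k) ≠ 0) {m : ℕ} (hm : m ≠ 0) {z : k}
    (hz : IsPrimitiveRoot z (2 * m)) {u : k[X]} (hu0 : Irreducible u) (hodd : Odd u.natDegree)
    (hu : ∀ c : k, c ^ (2 * m) = 1 → Irreducible (u - C c)) {n : ℕ} {g : ℤ[X]}
    (hg : (((1 - C (Nat.card k : ℤ) * X) ^ n * g : ℤ[X]) : PowerSeries ℤ) =
      LSeries k (legendre (u ^ (2 * m)))) : n + 2 ≤ 2 * m := by
  obtain ⟨h1, h3, h4⟩ := legendre_mod_two h2 hm hz hu0 hu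
  have h5 := exponent_le h2 (legendre (u ^ (2 * m))) (badPrimes u (2 * m))
    (fun π hπ => ⟨(h1 π hπ).1, (h1 π hπ).2.1⟩) (fun _ => 1) 1 h4 hg
  have h6 : ∑ π ∈ badPrimes u (2 * m), 1 * 2 ^ (padicValNat 2 π.natDegree) =
      (badPrimes u (2 * m)).card := by
    rw [Finset.card_eq_sum_ones]
    apply Finset.sum_congr rfl
    intro π hπ
    rw [(h1 π hπ).2.2, padicValNat.eq_zero_of_not_dvd hodd.not_two_dvd_nat, pow_zero, mul_one]
  rw [h6] at h5
  omega

end analytic

end Pool.Agent.BSDFF
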