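import Pool.Agent.Lib.MP_48b749_nt.LegPoints

/-!
Complete 2-descent on `y ^ 2 = x (x + 1) (x + u ^ d)`: the kernel of `P ↦ x(P) + 1` modulo squares
is `2 E(K)`, and its image is generated by the classes of `1 + ζ u`.
-/

set_option autoImplicit false

open Polynomial

namespace Pool.Agent.BSDFF

section halving

variable {F : Type} [Field F] [DecidableEq F]

/-- halving a point with `x - e₁`, `x - e₂`, `x - e₃` squares -/
lemma exists_half (W : WeierstrassCurve F) (h2 : (2 : F) ≠ 0) (h1 : W.a₁ = 0) (h3 : W.a₃ = 0)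
    {e₁ e₂ e₃ : F} (ha2 : W.a₂ = -(e₁ + e₂ + e₃)) (ha4 : W.a₄ = e₁ * e₂ + e₁ * e₃ + e₂ * e₃)
    (ha6 : W.a₆ = -(e₁ * e₂ * e₃)) (h12 : e₁ ≠ e₂) (h13 : e₁ ≠ e₃) (h23 : e₂ ≠ e₃)
    {x y : F} (h : W.toAffine.Nonsingular x y) {r₁ r₂ r₃ : F} (hr1 : x - e₁ = r₁ ^ 2)
    (hr2 : x - e₂ = r₂ ^ 2) (hr3 : x - e₃ = r₃ ^ 2) :
    ∃ Q : W.toAffine.Point, WeierstrassCurve.Affine.Point.some x y h = Q + Q := by
  -- fix the signs
  obtain ⟨s, hs, hy⟩ : ∃ s : F, s ^ 2 = r₁ ^ 2 ∧ y = s * r₂ * r₃ := by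
    have hE := h.1
    rw [WeierstrassCurve.Affine.equation_iff, h1, h3, ha2, ha4, ha6] at hE
    have h5 : y ^ 2 = (r₁ * r₂ * r₃) ^ 2 := by
      rw [mul_pow, mul_pow, ← hr1, ← hr2, ← hr3]
      linear_combination hE
    rcases sq_eq_sq_iff_eq_or_eq_neg.mp h5 with h6 | h6
    · exact ⟨r₁, rfl, h6⟩
    · exact ⟨-r₁, by ring, by rw [h6]; ring⟩
  have hs1 : x - e₁ = s ^ 2 := by rw [hs, hr1]
  have n12 : s + r₂ ≠ 0 := by
    intro h0
    apply h12
    have : s = -r₂ := by linear_combination h0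
    rw [this] at hs1
    linear_combination -hs1 + hr2
  have n13 : s + r₃ ≠ 0 := by
    intro h0
    apply h13
    have : s = -r₃ := by linear_combination h0
    rw [this] at hs1
    linear_combination -hs1 + hr3
  have n23 : r₂ + r₃ ≠ 0 := by
    intro h0
    apply h23
    have : r₂ = -r₃ := by linear_combination h0
    rw [this] at hr2
    linear_combination -hr2 + hr3
  set X := x + s * r₂ + s * r₃ + r₂ * r₃ with hX
  set Y := (s + r₂) * (s + r₃) * (r₂ + r₃) with hY
  have hY0 : Y ≠ 0 := mul_ne_zero (mul_ne_zero n12 n13) n23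
  have hX1 : X - e₁ = (s + r₂) * (s + r₃) := by rw [hX]; linear_combination hs1
  have hX2 : X - e₂ = (s + r₂) * (r₂ + r₃) := by rw [hX]; linear_combination hr2
  have hX3 : X - e₃ = (s + r₃) * (r₂ + r₃) := by rw [hX]; linear_combination hr3
  have hEQ : W.toAffine.Equation X Y := by
    rw [WeierstrassCurve.Affine.equation_iff, h1, h3, ha2, ha4, ha6]
    have h5 : (X - e₁) * (X - e₂) * (X - e₃) = Y ^ 2 := by
      rw [hX1, hX2, hX3, hY]; ring
    linear_combination -h5
  have hYneg : Y ≠ W.toAffine.negY X Y := by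
    rw [WeierstrassCurve.Affine.negY, h1, h3]
    intro h5
    have h6 : 2 * Y = 0 := by linear_combination h5
    exact hY0 ((mul_eq_zero.mp h6).resolve_left h2)
  have hNS : W.toAffine.Nonsingular X Y := by
    rw [WeierstrassCurve.Affine.nonsingular_iff]
    exact ⟨hEQ, Or.inr hYneg⟩
  have hsl : W.toAffine.slope X X Y Y = s + r₂ + r₃ := by
    rw [WeierstrassCurve.Affine.slope_of_Y_ne rfl hYneg, WeierstrassCurve.Affine.negY, h1, h3, ha2,
      ha4]
    have h5 : (Y - (-Y - 0 * X - 0)) = 2 * Y := by ring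
    rw [h5, div_eq_iff (mul_ne_zero h2 hY0)]
    have h6 : (X - e₁) * (X - e₂) + (X - e₁) * (X - e₃) + (X - e₂) * (X - e₃) =
        2 * (s + r₂ + r₃) * Y := by
      rw [hX1, hX2, hX3, hY]; ring
    linear_combination h6
  have hx2 : W.toAffine.addX X X (s + r₂ + r₃) = x := by
    rw [WeierstrassCurve.Affine.addX, h1, ha2, hX]
    linear_combination -hs1 - hr2 - hr3
  have hy2 : W.toAffine.addY X X Y (s + r₂ + r₃) = y := by
    rw [WeierstrassCurve.Affine.addY, WeierstrassCurve.Affine.negAddY, hx2,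
      WeierstrassCurve.Affine.negY, h1, h3, hy, hX, hY]
    ring
  refine ⟨.some X Y hNS, ?_⟩
  rw [WeierstrassCurve.Affine.Point.add_self_of_Y_ne hYneg]
  rw [WeierstrassCurve.Affine.Point.some.injEq]
  rw [hsl]
  exact ⟨hx2.symm, hy2.symm⟩

end halving

section factor

variable {k : Type} [Field k]

/-- factorisation modulo squares -/
lemma factor_mod_squares {ι : Type} [DecidableEq ι] (t : ι → k[X]) (n : ℕ) :
    ∀ N K D : k[X], N.natDegree ≤ n → N ≠ 0 → N * K = D ^ 2 →
      (∀ π : k[X], Irreducible π → π ∣ N → π ∣ K → ∃ i, Associated (t i) π) →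
      ∃ (S : Finset ι) (c : k) (M : k[X]), c ≠ 0 ∧ M ≠ 0 ∧ N = C c * (∏ i ∈ S, t i) * M ^ 2 := by
  induction n using Nat.strong_induction_on with
  | _ n ih =>
  intro N K D hn hN hNK hcom
  by_cases hu : IsUnit N
  · obtain ⟨c, hc, hcN⟩ := Polynomial.isUnit_iff.mp hu
    exact ⟨∅, c, 1, hc.ne_zero, one_ne_zero, by simp [hcN]⟩
  obtain ⟨π, hπ, N1, hN1⟩ := WfDvdMonoid.exists_irreducible_factor hu hN
  have hN10 : N1 ≠ 0 := by
    rintro rfl
    exact hN (by rw [hN1, mul_zero])
  have hdeg : N1.natDegree < N.natDegree := by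
    rw [hN1, natDegree_mul hπ.ne_zero hN10]
    have := hπ.natDegree_pos
    omega
  by_cases hK : π ∣ K
  · obtain ⟨i, hi⟩ := hcom π hπ ⟨N1, hN1⟩ hK
    obtain ⟨S, c, M, hc, hM, h⟩ := ih N1.natDegree (by omega) N1 (π * K) D le_rfl hN10
      (by rw [← hNK, hN1]; ring) (by
        intro τ hτ h5 h6
        rcases hτ.prime.dvd_or_dvd h6 with h7 | h7
        · exact ⟨i, hi.trans (hτ.associated_of_dvd hπ h7).symm⟩
        · exact hcom τ hτ (by rw [hN1]; exact Dvd.dvd.mul_left h5 _) h7)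
    obtain ⟨v, hv⟩ := hi
    obtain ⟨c', hc', hcv⟩ := Polynomial.isUnit_iff.mp v.isUnit
    have hti : t i ≠ 0 := by
      intro h0
      rw [h0, zero_mul] at hv
      exact hπ.ne_zero hv.symm
    by_cases hiS : i ∈ S
    · refine ⟨S.erase i, c' * c, t i * M, mul_ne_zero hc'.ne_zero hc, mul_ne_zero hti hM, ?_⟩
      rw [hN1, h, ← hv, ← hcv, ← Finset.mul_prod_erase S t hiS, C_mul]
      ring
    · refine ⟨insert i S, c' * c, M, mul_ne_zero hc'.ne_zero hc, hM, ?_⟩
      rw [hN1, h, ← hv, ← hcv, Finset.prod_insert hiS, C_mul]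
      ring
  · have hD : π ∣ D := by
      apply hπ.prime.dvd_of_dvd_pow (n := 2)
      rw [← hNK, hN1]
      exact ⟨N1 * K, by ring⟩
    obtain ⟨D1, hD1⟩ := hD
    have h5 : N1 * K = π * D1 ^ 2 := by
      apply mul_left_cancel₀ hπ.ne_zero
      rw [← mul_assoc, ← hN1, hNK, hD1]
      ring
    have h6 : π ∣ N1 := by
      have : π ∣ N1 * K := ⟨D1 ^ 2, h5⟩
      exact (hπ.prime.dvd_or_dvd this).resolve_right hK
    obtain ⟨N2, hN2⟩ := h6
    have hN20 : N2 ≠ 0 := by
      rintro rfl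
      exact hN10 (by rw [hN2, mul_zero])
    have h7 : N2 * K = D1 ^ 2 := by
      apply mul_left_cancel₀ hπ.ne_zero
      rw [← mul_assoc, ← hN2, h5]
    have hdeg2 : N2.natDegree < N.natDegree := by
      refine lt_trans ?_ hdeg
      rw [hN2, natDegree_mul hπ.ne_zero hN20]
      have := hπ.natDegree_pos
      omega
    obtain ⟨S, c, M, hc, hM, h⟩ := ih N2.natDegree (by omega) N2 K D1 le_rfl hN20 h7 (by
        intro τ hτ h5 h6
        refine hcom τ hτ ?_ h6
        rw [hN1, hN2]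
        exact Dvd.dvd.mul_left (Dvd.dvd.mul_left h5 _) _)
    refine ⟨S, c, π * M, hc, mul_ne_zero hπ.ne_zero hM, ?_⟩
    rw [hN1, hN2, h]
    ring

/-- an element of `k` which is a square in an extension of odd degree is a square -/
lemma isSquare_of_odd {L : Type} [Field L] [Algebra k L] [FiniteDimensional k L]
    (hodd : Odd (Module.finrank k L)) {c : k} (h : IsSquare (algebraMap k L c)) : IsSquare c := by
  obtain ⟨s, hs⟩ := h
  rcases eq_or_ne c 0 with rfl | hc
  · exact ⟨0, by simp⟩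
  have h1 := congrArg (Algebra.norm k) hs
  rw [Algebra.norm_algebraMap, map_mul] at h1
  obtain ⟨m, hm⟩ := hodd
  rw [hm] at h1
  refine ⟨Algebra.norm k s / c ^ m, ?_⟩
  have hcm : c ^ m ≠ 0 := pow_ne_zero _ hc
  field_simp
  rw [pow_two (Algebra.norm k s), ← h1]
  ring

end factor

end Pool.Agent.BSDFF

namespace Pool.Agent.BSDFF

section legdescent

variable {k : Type} [Field k]

/-- if `G M² K` is a square and `K` is a nonzero square modulo `u`, then so is `G` -/
lemma isSquare_mod {u : k[X]} (hu : Irreducible u) (G K A : k[X]) (hA : ¬ u ∣ A)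
    (hK : u ∣ K - A ^ 2) (n : ℕ) :
    ∀ M D : k[X], M.natDegree ≤ n → M ≠ 0 → G * M ^ 2 * K = D ^ 2 →
      IsSquare (AdjoinRoot.mk u G) := by
  have hF : Fact (Irreducible u) := ⟨hu⟩
  have hA0 : AdjoinRoot.mk u A ≠ 0 := fun h => hA (AdjoinRoot.mk_eq_zero.mp h)
  have hK' : AdjoinRoot.mk u K = AdjoinRoot.mk u A ^ 2 := by
    rw [← map_pow, ← sub_eq_zero, ← map_sub, AdjoinRoot.mk_eq_zero]
    exact hK
  induction n using Nat.strong_induction_on with
  | _ n ih =>
  intro M D hn hM h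
  by_cases hd : u ∣ M
  · obtain ⟨M', rfl⟩ := hd
    have hM' : M' ≠ 0 := right_ne_zero_of_mul hM
    have hD : u ∣ D := by
      apply hu.prime.dvd_of_dvd_pow (n := 2)
      rw [← h]
      exact ⟨G * u * M' ^ 2 * K, by ring⟩
    obtain ⟨D', rfl⟩ := hD
    refine ih M'.natDegree ?_ M' D' le_rfl hM' ?_
    · rw [natDegree_mul hu.ne_zero hM'] at hn
      have := hu.natDegree_pos
      omega
    · apply mul_left_cancel₀ (pow_ne_zero 2 hu.ne_zero)
      linear_combination h
  · have hM0 : AdjoinRoot.mk u M ≠ 0 := fun h => hd (AdjoinRoot.mk_eq_zero.mp h)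
    have h1 := congrArg (AdjoinRoot.mk u) h
    rw [map_mul, map_mul, hK', map_pow, map_pow] at h1
    refine ⟨AdjoinRoot.mk u D / (AdjoinRoot.mk u M * AdjoinRoot.mk u A), ?_⟩
    field_simp
    linear_combination h1

/-- the `x`-coordinate of a point -/
lemma exists_coprime_form {w : k[X]} {x y : RatFunc k}
    (h : (legendre w).toAffine.Equation x y) :
    ∃ a B D : k[X], B ≠ 0 ∧ B.Monic ∧ IsCoprime a B ∧
      x = algebraMap k[X] (RatFunc k) a / algebraMap k[X] (RatFunc k) B ^ 2 ∧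
      (a + B ^ 2) * (a * (a + w * B ^ 2)) = D ^ 2 := by
  classical
  set b := x.denom with hb
  set a := x.num with ha
  have hbm : b.Monic := RatFunc.monic_denom x
  have hb0 : b ≠ 0 := hbm.ne_zero
  have hcop : IsCoprime a b := RatFunc.isCoprime_num_denom x
  have hb' : algebraMap k[X] (RatFunc k) b ≠ 0 := by
    intro h0
    exact hb0 (RatFunc.algebraMap_injective k (by rw [h0, map_zero]))
  have hx : x = algebraMap k[X] (RatFunc k) a / algebraMap k[X] (RatFunc k) b :=
    (RatFunc.num_div_denom x).symm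
  rw [WeierstrassCurve.Affine.equation_iff] at h
  simp only [legendre, map_add, map_one] at h
  have hsq : (y * algebraMap k[X] (RatFunc k) b ^ 2) ^ 2 =
      algebraMap k[X] (RatFunc k) (b * (a * (a + b) * (a + w * b))) := by
    rw [hx] at h
    simp only [map_mul, map_add]
    field_simp at h
    linear_combination (algebraMap k[X] (RatFunc k) b) * h
  obtain ⟨s, hs⟩ := isSquare_of_algebraMap hsq
  have hc2 : IsCoprime b (a * (a + b) * (a + w * b)) := by
    refine IsCoprime.mul_right (IsCoprime.mul_right hcop.symm ?_) ?_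
    · exact (IsCoprime.add_mul_left_left hcop.symm.symm 1 |>.symm |> fun h5 => by
        simpa using h5)
    · have := IsCoprime.add_mul_right_left hcop w
      exact this.symm
  obtain ⟨B0, hB0⟩ := exists_associated_pow_of_mul_eq_pow (a := b)
    (b := a * (a + b) * (a + w * b)) (c := s) (k := 2)
    ((gcd_isUnit_iff _ _).mpr hc2) (by rw [hs, pow_two])
  obtain ⟨v, hv⟩ := hB0
  obtain ⟨c, hc, hcv⟩ := Polynomial.isUnit_iff.mp v.isUnit
  have hB00 : B0 ≠ 0 := by
    rintro rfl
    rw [zero_pow two_ne_zero, zero_mul] at hv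
    exact hb0 hv.symm
  have hlc : B0.leadingCoeff ≠ 0 := leadingCoeff_ne_zero.mpr hB00
  have hlcb : B0.leadingCoeff ^ 2 * c = 1 := by
    have := congrArg leadingCoeff hv
    rwa [leadingCoeff_mul, leadingCoeff_pow, ← hcv, leadingCoeff_C, hbm.leadingCoeff] at this
  set B := C (B0.leadingCoeff)⁻¹ * B0 with hB
  have hBm : B.Monic := by
    rw [Monic, hB, leadingCoeff_mul, leadingCoeff_C, inv_mul_cancel₀ hlc]
  have hbB : b = B ^ 2 := by
    rw [hB, mul_pow, ← C_pow, ← hv, ← hcv, mul_comm]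
    congr 2
    rw [inv_pow]
    exact eq_inv_of_mul_eq_one_right hlcb
  have hB' : algebraMap k[X] (RatFunc k) B ≠ 0 := by
    intro h0
    exact hBm.ne_zero (RatFunc.algebraMap_injective k (by rw [h0, map_zero]))
  have hsq2 : (y * algebraMap k[X] (RatFunc k) B ^ 3) ^ 2 =
      algebraMap k[X] (RatFunc k) ((a + B ^ 2) * (a * (a + w * B ^ 2))) := by
    have h5 : algebraMap k[X] (RatFunc k) b = algebraMap k[X] (RatFunc k) B ^ 2 := by
      rw [hbB, map_pow]
    rw [hx, h5] at h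
    simp only [map_mul, map_add, map_pow]
    field_simp at h
    linear_combination h
  obtain ⟨D, hD⟩ := isSquare_of_algebraMap hsq2
  refine ⟨a, B, D, hBm.ne_zero, hBm, ?_, ?_, by rw [hD, pow_two]⟩
  · rw [hbB] at hcop
    exact hcop.of_isCoprime_of_dvd_right (dvd_pow_self B two_ne_zero)
  · rw [hx, hbB, map_pow]

end legdescent

end Pool.Agent.BSDFF
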