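import Pool.Agent.Lib.MP_48b749_nt.LegImage

/-!
The exact rank of `y ^ 2 = x (x + 1) (x + u ^ d)`, `d = p ^ f + 1`: it is `d - 2`.
-/

set_option autoImplicit false

open Polynomial

namespace Pool.Agent.BSDFF

section exact

variable {k : Type} [Field k]

lemma card_roots_of_primitive {d : ℕ} (hd : 0 < d) {z : k} (hz : IsPrimitiveRoot z d) :
    Nat.card {c : k // c ^ d = 1} = d := by
  classical
  have h1 : Nat.card {c : k // c ^ d = 1} = (nthRootsFinset d (1 : k)).card :=
    Nat.subtype_card _ (fun c => mem_nthRootsFinset hd _)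
  rw [h1, hz.card_nthRootsFinset]

lemma nonsingular_e {w : k[X]} (hΔ : (legendre w).Δ ≠ 0) {x : RatFunc k}
    (hx : x * (x + 1) * (x + algebraMap k[X] (RatFunc k) w) = 0) :
    (legendre w).toAffine.Nonsingular x 0 := by
  rw [← WeierstrassCurve.Affine.equation_iff_nonsingular_of_Δ_ne_zero hΔ,
    WeierstrassCurve.Affine.equation_iff]
  simp only [legendre, map_add, map_one]
  linear_combination -hx

variable [DecidableEq (RatFunc k)]

/-- there are exactly four points of order dividing `2` -/
lemma card_two_torsion (h2 : (2 : k) ≠ 0) {w : k[X]} (hw0 : w ≠ 0) (hw1 : w ≠ 1) :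
    Nat.card {P : (legendre w).toAffine.Point // P + P = 0} = 4 := by
  classical
  obtain ⟨t1, t2⟩ := two_torsion h2 w
  refine le_antisymm t2 ?_
  have hΔ := legendre_Δ_ne_zero h2 hw0 hw1
  set a := algebraMap k[X] (RatFunc k) w with ha
  have ha0 : a ≠ 0 := algebraMap_ne_zero' hw0
  have ha1 : a ≠ 1 := by
    intro h
    apply hw1
    apply RatFunc.algebraMap_injective k
    rw [map_one]
    exact h
  have key : ∀ (x : RatFunc k) (hx : x * (x + 1) * (x + a) = 0),
      WeierstrassCurve.Affine.Point.some x 0 (nonsingular_e hΔ hx) + .some x 0 (nonsingular_e hΔ hx)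
        = 0 := by
    intro x hx
    apply WeierstrassCurve.Affine.Point.add_self_of_Y_eq
    rw [WeierstrassCurve.Affine.negY]
    simp only [legendre]
    ring
  let g : Fin 4 → {P : (legendre w).toAffine.Point // P + P = 0} := fun i =>
    match i with
    | 0 => ⟨0, by simp⟩
    | 1 => ⟨.some 0 0 (nonsingular_e hΔ (by ring)), key 0 (by ring)⟩
    | 2 => ⟨.some (-1) 0 (nonsingular_e hΔ (by ring)), key (-1) (by ring)⟩
    | 3 => ⟨.some (-a) 0 (nonsingular_e hΔ (by ring)), key (-a) (by ring)⟩
  have h01 : (0 : RatFunc k) ≠ -1 := by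
    intro h5
    exact one_ne_zero (α := RatFunc k) (by linear_combination h5)
  have h0a : (0 : RatFunc k) ≠ -a := fun h5 => ha0 (by linear_combination h5)
  have h1a : (-1 : RatFunc k) ≠ -a := fun h5 => ha1 (by linear_combination h5)
  have hxs : ∀ {x x' y y' : RatFunc k} {h : (legendre w).toAffine.Nonsingular x y}
      {h' : (legendre w).toAffine.Nonsingular x' y'}, x ≠ x' →
      WeierstrassCurve.Affine.Point.some x y h ≠ .some x' y' h' := by
    intro x x' y y' h h' hne h5
    rw [WeierstrassCurve.Affine.Point.some.injEq] at h5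
    exact hne h5.1
  have hz : ∀ {x y : RatFunc k} {h : (legendre w).toAffine.Nonsingular x y},
      (0 : (legendre w).toAffine.Point) ≠ .some x y h := fun h5 =>
    WeierstrassCurve.Affine.Point.some_ne_zero _ h5.symm
  have hg : Function.Injective g := by
    intro i j h
    have h5 : (g i).1 = (g j).1 := by rw [h]
    fin_cases i <;> fin_cases j
    · rfl
    · exact absurd h5 hz
    · exact absurd h5 hz
    · exact absurd h5 hz
    · exact absurd h5.symm hz
    · rfl
    · exact absurd h5 (hxs h01)
    · exact absurd h5 (hxs h0a)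
    · exact absurd h5.symm hz
    · exact absurd h5 (hxs h01.symm)
    · rfl
    · exact absurd h5 (hxs h1a)
    · exact absurd h5.symm hz
    · exact absurd h5 (hxs h0a.symm)
    · exact absurd h5 (hxs h1a.symm)
    · rfl
  have h6 := Nat.card_le_card_of_injective g hg
  simpa using h6

/-- **the rank of `y ^ 2 = x (x + 1) (x + u ^ (p ^ f + 1))` is `p ^ f - 1`** -/
theorem legendre_rank [Finite k] (p : ℕ) [Fact p.Prime] [CharP k p] (hp2 : p ≠ 2) (f : ℕ)
    {z : k} (hz : IsPrimitiveRoot z (p ^ f + 1)) {u : k[X]} (hu0 : Irreducible u)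
    (hodd : Odd u.natDegree) (hu : ∀ c : k, c ^ (p ^ f + 1) = 1 → Irreducible (u - C c)) :
    AddGroup.FG (legendre (u ^ (p ^ f + 1))).toAffine.Point ∧
      algebraicRank (legendre (u ^ (p ^ f + 1))) = p ^ f - 1 := by
  classical
  have hpodd : Odd (p ^ f) := (Nat.Prime.odd_of_ne_two (Fact.out) hp2).pow
  obtain ⟨m, hm⟩ := hpodd.add_one
  have hm2 : p ^ f + 1 = 2 * m := by omega
  have hd : 0 < p ^ f + 1 := by omega
  have hm0 : m ≠ 0 := by omega
  have hpf : 0 < p ^ f := Nat.pos_of_ne_zero (pow_ne_zero _ (Fact.out : p.Prime).ne_zero)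
  have h2 : (2 : k) ≠ 0 := by
    intro h
    have h5 : ((2 : ℕ) : k) = 0 := by exact_mod_cast h
    rw [CharP.cast_eq_zero_iff k p] at h5
    exact hp2 ((Nat.prime_dvd_prime_iff_eq Fact.out Nat.prime_two).mp h5)
  obtain ⟨w, hw⟩ : ∃ w : k[X], w = u ^ (p ^ f + 1) := ⟨_, rfl⟩
  have hw0 : w ≠ 0 := by rw [hw]; exact pow_ne_zero _ hu0.ne_zero
  have hw1 : w ≠ 1 := by
    rw [hw]
    intro h
    apply hu0.not_isUnit
    exact IsUnit.of_pow_eq_one h hd.ne'
  rw [← hw]
  have hΔ := legendre_Δ_ne_zero h2 hw0 hw1
  have hell : (legendre w).IsElliptic := ⟨isUnit_iff_ne_zero.mpr hΔ⟩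
  have hF : Fintype {c : k // c ^ (p ^ f + 1) = 1} := Fintype.ofFinite _
  have hcard : Fintype.card {c : k // c ^ (p ^ f + 1) = 1} = p ^ f + 1 := by
    rw [← Nat.card_eq_fintype_card]
    exact card_roots_of_primitive hd hz
  have hnc : ∀ c : k, C c * u ≠ -1 := by
    intro c h
    apply hu0.not_isUnit
    apply isUnit_of_mul_isUnit_right (x := C c)
    rw [h]
    exact isUnit_one.neg
  -- the generators are independent
  have hind : ∀ S : Finset {c : k // c ^ (p ^ f + 1) = 1}, S.Nonempty →
      ∑ c ∈ S, gens u (p ^ f + 1) c ≠ 0 := by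
    intro S hS h0
    apply not_isSquare_prod hpodd.add_one hd.ne' hu S hS
    have hne : ∀ c ∈ S, algebraMap k[X] (RatFunc k) (1 + C c.1 * u) ≠ 0 := by
      intro c _
      apply algebraMap_ne_zero'
      intro h6
      exact hnc c.1 (by linear_combination h6)
    rw [← sqClass_eq_zero_iff (Finset.prod_ne_zero_iff.mpr hne), sqClass_prod S _ hne, ← h0]
    rfl
  -- the image
  have hx1 : ∀ (x y : RatFunc k) (h : (legendre w).toAffine.Nonsingular x y), x ≠ -1 →
      legAlpha w hw1 (.some x y h) ∈ AddSubgroup.closure (Set.range (gens u (p ^ f + 1))) := by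
    intro x y h hx
    rw [legAlpha_some w hw1 h hx]
    have hz' := hz
    have hu' := hu
    have hw' := hw
    rw [hm2] at hz' hu' hw' ⊢
    exact class_mem hm0 hz' hu0 hodd hu' hw' h.1 hx
  have hrange : (legAlpha w hw1).range = AddSubgroup.closure (Set.range (gens u (p ^ f + 1))) := by
    apply le_antisymm
    · rintro _ ⟨P, rfl⟩
      rcases P with _ | ⟨x, y, h⟩
      · change legAlpha w hw1 0 ∈ _
        rw [map_zero]
        exact AddSubgroup.zero_mem _
      · by_cases hx : x = -1
        · subst hx
          set P0 : (legendre w).toAffine.Point :=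
            .some 0 0 (nonsingular_e hΔ (by ring)) with hP0
          set T : (legendre w).toAffine.Point := .some (-1) y h with hT
          have h01 : (0 : RatFunc k) ≠ -1 := by
            intro h5
            exact one_ne_zero (α := RatFunc k) (by linear_combination h5)
          have e1 : legAlpha w hw1 P0 ∈ AddSubgroup.closure (Set.range (gens u (p ^ f + 1))) :=
            hx1 _ _ _ h01
          have e2 : legAlpha w hw1 (T + P0) ∈
              AddSubgroup.closure (Set.range (gens u (p ^ f + 1))) := by
            rcases hTP : T + P0 with _ | ⟨x', y', h'⟩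
            · change legAlpha w hw1 0 ∈ _
              rw [map_zero]
              exact AddSubgroup.zero_mem _
            · apply hx1
              intro hx'
              subst hx'
              have hyy : ∀ v : RatFunc k, (legendre w).toAffine.Nonsingular (-1) v → v = 0 := by
                intro v hv
                have := hv.1
                rw [WeierstrassCurve.Affine.equation_iff] at this
                simp only [legendre, map_add, map_one] at this
                have h5 : v ^ 2 = 0 := by linear_combination this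
                exact pow_eq_zero_iff (by norm_num) |>.mp h5
              have h5 : T + P0 = T := by
                rw [hTP, hT, WeierstrassCurve.Affine.Point.some.injEq]
                exact ⟨rfl, by rw [hyy y h, hyy y' h']⟩
              have h6 : P0 = 0 := by
                have := add_left_cancel (a := T) (b := P0) (c := 0) (by rw [h5, add_zero])
                exact this
              exact WeierstrassCurve.Affine.Point.some_ne_zero _ h6
          have e3 : legAlpha w hw1 T = legAlpha w hw1 (T + P0) - legAlpha w hw1 P0 := by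
            rw [map_add, add_sub_cancel_right]
          rw [e3]
          exact AddSubgroup.sub_mem _ e2 e1
        · exact hx1 x y h hx
    · rw [AddSubgroup.closure_le]
      rintro _ ⟨c, rfl⟩
      have hEq := zpoint_equation p hp2 f u c.1 c.2
      rw [← hw] at hEq
      refine ⟨.some _ _ ((WeierstrassCurve.Affine.equation_iff_nonsingular_of_Δ_ne_zero hΔ).mp hEq),
        ?_⟩
      rw [legAlpha_some]
      · unfold gens
        rw [map_add, map_one, add_comm]
      · intro h5
        apply hnc c.1
        apply RatFunc.algebraMap_injective k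
        rw [h5, map_neg, map_one]
  -- the kernel
  have hker : (legAlpha w hw1).ker = MW.nG (legendre w).toAffine.Point 2 := by
    ext P
    rw [AddMonoidHom.mem_ker, MW.mem_nG]
    constructor
    · intro hP
      rcases P with _ | ⟨x, y, h⟩
      · exact ⟨0, (nsmul_zero 2 : (2 : ℕ) • (0 : (legendre w).toAffine.Point) = 0)⟩
      · by_cases hx : x = -1
        · exfalso
          subst hx
          have hD0 : (1 : RatFunc k) - algebraMap k[X] (RatFunc k) w ≠ 0 := by
            rw [← map_one (algebraMap k[X] (RatFunc k)), ← map_sub]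
            exact algebraMap_ne_zero' (sub_ne_zero.mpr (Ne.symm hw1))
          unfold legAlpha at hP
          rw [alphaHom_apply, alpha_some, if_pos rfl, sqClass_eq_zero_iff hD0, hw] at hP
          exact not_isSquare_one_sub hd hz hu0.natDegree_pos hu hP
        · rw [legAlpha_some w hw1 h hx, sqClass_eq_zero_iff (fun h5 => hx (by
            linear_combination h5))] at hP
          have hw' := hw
          rw [hm2] at hw'
          obtain ⟨Q, hQ⟩ := legendre_half h2 hu0 hodd hm0 hw' h hx hP
          exact ⟨Q, by rw [hQ, two_nsmul]⟩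
    · rintro ⟨Q, rfl⟩
      rw [two_nsmul, map_add, modSq_two]
  have hindex : (MW.nG (legendre w).toAffine.Point 2).index = 2 ^ (p ^ f + 1) := by
    rw [← hker, AddSubgroup.index_ker, hrange, card_closure modSq_two _ hind, hcard]
  have hne : (MW.nG (legendre w).toAffine.Point 2).index ≠ 0 := by
    rw [hindex]
    exact pow_ne_zero _ two_ne_zero
  refine ⟨MW.fg_of_index (legendre w) le_rfl hne, ?_⟩
  have h := MW.index_eq (legendre w) le_rfl hne
  have h4 : Nat.card (MW.Gn (legendre w).toAffine.Point 2) = 4 := by
    rw [← card_two_torsion h2 hw0 hw1]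
    apply Nat.card_congr
    exact Equiv.subtypeEquivRight (fun P => by rw [MW.mem_Gn, two_nsmul])
  rw [hindex, h4] at h
  have h5 : 2 ^ (p ^ f + 1) = 2 ^ (algebraicRank (legendre w) + 2) := by
    rw [h, pow_add]
    norm_num
  have h6 := Nat.pow_right_injective le_rfl h5
  omega

end exact

end Pool.Agent.BSDFF
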