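import Mathlib

/-!
Existence of polynomials `u` over a finite field such that `u` and `u - ζ`, `ζ ^ (p ^ f + 1) = 1`,
are all irreducible of odd degree.
-/

set_option autoImplicit false

open Polynomial

namespace Pool.Agent.BSDFF

section exist

/-- in a finite field whose number of units is divisible by `l`, at most `l - 1` nonzero elements
do not meet all classes modulo `l`-th powers -/
lemma exists_avoid {k : Type} [Field k] [Finite k] {l : ℕ} (hl : l ∣ Nat.card k - 1)
    (S : Finset k) (hS : S.card < l) :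
    ∃ α : k, α ≠ 0 ∧ ∀ s ∈ S, s ≠ 0 → ∀ b : k, b ^ l ≠ s / α := by
  classical
  have hcard : Nat.card kˣ = Nat.card k - 1 := Nat.card_units k
  set H : Subgroup kˣ := (powMonoidHom l : kˣ →* kˣ).range with hH
  have hidx : H.index = l := by
    rw [hH, IsCyclic.index_powMonoidHom_range, hcard]
    exact Nat.gcd_eq_right hl
  have hcq : Nat.card (kˣ ⧸ H) = l := hidx
  have hfin : Finite (kˣ ⧸ H) := inferInstance
  have hfty : Fintype (kˣ ⧸ H) := Fintype.ofFinite _
  let cls : k → kˣ ⧸ H := fun s => if h : s ≠ 0 then QuotientGroup.mk (Units.mk0 s h) else 1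
  obtain ⟨y, hy⟩ : ∃ y : kˣ ⧸ H, y ∉ S.image cls := by
    by_contra hcon
    push Not at hcon
    have h1 : (Finset.univ : Finset (kˣ ⧸ H)) ⊆ S.image cls := fun y _ => hcon y
    have h2 := Finset.card_le_card h1
    rw [Finset.card_univ, ← Nat.card_eq_fintype_card, hcq] at h2
    have h3 := Finset.card_image_le (s := S) (f := cls)
    omega
  obtain ⟨α, rfl⟩ := QuotientGroup.mk_surjective y
  refine ⟨(α : k), α.ne_zero, ?_⟩
  intro s hs hs0 b hb
  apply hy
  rw [Finset.mem_image]
  refine ⟨s, hs, ?_⟩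
  change (if h : s ≠ 0 then (QuotientGroup.mk (Units.mk0 s h) : kˣ ⧸ H) else 1) = _
  rw [dif_pos hs0, eq_comm, QuotientGroup.eq]
  have hl0 : l ≠ 0 := by omega
  have hb0 : b ≠ 0 := by
    rintro rfl
    rw [zero_pow hl0] at hb
    exact div_ne_zero hs0 α.ne_zero hb.symm
  refine ⟨Units.mk0 b hb0, ?_⟩
  apply Units.ext
  simp only [powMonoidHom_apply, Units.val_pow_eq_pow_val, Units.val_mk0, Units.val_mul,
    Units.val_inv_eq_inv_val]
  rw [hb]
  field_simp

lemma modEq_one_dvd {n m : ℕ} (hm : 1 ≤ m) (h : m ≡ 1 [MOD n]) : n ∣ m - 1 :=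
  (Nat.modEq_iff_dvd' hm).mp h.symm

/-- Existence of admissible polynomials of unbounded degree, over some finite field of
characteristic `p` containing the `(p ^ f + 1)`-th roots of unity. -/
theorem exists_admissible (p f : ℕ) [Fact p.Prime] (hp : 3 ≤ p) (hf : 1 ≤ f) :
    ∃ (k : Type) (_ : Field k) (_ : Finite k) (_ : CharP k p), (p ^ f + 1) ∣ Nat.card k - 1 ∧
      ∀ N : ℕ, ∃ u : k[X], N ≤ u.natDegree ∧ Odd u.natDegree ∧ Irreducible u ∧
        (∀ c : k, c ^ (p ^ f + 1) = 1 → Irreducible (u - C c)) ∧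
        ∀ (b c : k) (n : ℕ), u ≠ C c * (X - C b) ^ n := by
  classical
  have hpp : p.Prime := Fact.out
  obtain ⟨l, hl1, hl⟩ := Nat.exists_infinite_primes (p ^ f + 3)
  have hl2 : l ≠ 2 := by
    have : 0 < p ^ f := Nat.pow_pos hpp.pos
    omega
  have hpf : p ≤ p ^ f := by
    calc p = p ^ 1 := (pow_one p).symm
      _ ≤ p ^ f := Nat.pow_le_pow_right hpp.pos hf
  have hlp : l ≠ p := by omega
  set e := 2 * f * (l - 1) with he
  have he0 : e ≠ 0 := by
    rw [he]
    have : 1 ≤ l - 1 := by omega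
    exact Nat.mul_ne_zero (by omega) (by omega)
  have hq : Nat.card (GaloisField p e) = p ^ e := GaloisField.card p e he0
  have hfin : Finite (GaloisField p e) := Nat.finite_of_card_ne_zero (by
    rw [hq]; exact pow_ne_zero _ hpp.ne_zero)
  have hpe : 1 ≤ p ^ e := Nat.one_le_pow _ _ hpp.pos
  have hd : (p ^ f + 1) ∣ Nat.card (GaloisField p e) - 1 := by
    rw [hq]
    apply modEq_one_dvd hpe
    have h1 : (p ^ f) ^ 2 ≡ 1 [MOD p ^ f + 1] := by
      have h2 : 1 ≤ (p ^ f) ^ 2 := Nat.one_le_pow _ _ (by omega)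
      refine ((Nat.modEq_iff_dvd' h2).mpr ⟨p ^ f - 1, ?_⟩).symm
      have : 1 ≤ p ^ f := by omega
      zify [h2, this]
      ring
    have h3 := h1.pow (l - 1)
    rw [one_pow, ← pow_mul, ← pow_mul] at h3
    have h4 : f * 2 * (l - 1) = e := by rw [he]; ring
    rwa [← mul_assoc, h4] at h3
  have hdl : l ∣ Nat.card (GaloisField p e) - 1 := by
    rw [hq]
    apply modEq_one_dvd hpe
    have hlf : Fact l.Prime := ⟨hl⟩
    have h1 : ((p : ZMod l)) ^ (l - 1) = 1 := by
      apply ZMod.pow_card_sub_one_eq_one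
      intro h
      rw [ZMod.natCast_eq_zero_iff] at h
      exact hlp ((Nat.prime_dvd_prime_iff_eq hl hpp).mp h)
    rw [← ZMod.natCast_eq_natCast_iff]
    push_cast
    rw [he, mul_comm (2 * f), pow_mul, h1, one_pow]
  refine ⟨GaloisField p e, inferInstance, hfin, inferInstance, hd, ?_⟩
  set k := GaloisField p e with hk
  -- choose `β`
  obtain ⟨β, hβ0, hβ⟩ : ∃ β : k, β ≠ 0 ∧ β ^ (p ^ f + 1) ≠ 1 := by
    obtain ⟨g, hg⟩ := IsCyclic.exists_ofOrder_eq_natCard (α := kˣ)
    refine ⟨(g : k), g.ne_zero, ?_⟩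
    intro h
    have h1 : g ^ (p ^ f + 1) = 1 := by
      apply Units.ext
      rw [Units.val_pow_eq_pow_val, h, Units.val_one]
    have h2 := orderOf_dvd_of_pow_eq_one h1
    rw [hg, Nat.card_units, hq] at h2
    have h3 := Nat.le_of_dvd (by omega) h2
    have h4 : (p ^ f) ^ 2 ≤ p ^ e := by
      rw [← pow_mul]
      apply Nat.pow_le_pow_right hpp.pos
      rw [he]
      have : 1 ≤ l - 1 := by omega
      nlinarith [Nat.zero_le f]
    have h5 : 3 ≤ p ^ f := hp.trans hpf
    have h6 : p ^ e ≤ p ^ f + 2 := by omega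
    nlinarith
  -- choose `α`
  set S : Finset k := (insert 0 (nthRootsFinset (p ^ f + 1) (1 : k))).image (fun c => c - β) with hS
  have hScard : S.card < l := by
    have h1 : (nthRootsFinset (p ^ f + 1) (1 : k)).card ≤ p ^ f + 1 := by
      rw [nthRootsFinset_def]
      exact (Multiset.toFinset_card_le _).trans (card_nthRoots _ _)
    have h2 := Finset.card_insert_le (0 : k) (nthRootsFinset (p ^ f + 1) (1 : k))
    have h3 := Finset.card_image_le (s := insert 0 (nthRootsFinset (p ^ f + 1) (1 : k)))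
      (f := fun c => c - β)
    rw [hS]
    omega
  obtain ⟨α, hα0, hα⟩ := exists_avoid hdl S hScard
  intro N
  have hirr : ∀ c : k, (c = 0 ∨ c ^ (p ^ f + 1) = 1) →
      Irreducible (C α * X ^ (l ^ (N + 1)) + C β - C c) := by
    intro c hc
    have h1 : C α * X ^ (l ^ (N + 1)) + C β - C c =
        C α * (X ^ (l ^ (N + 1)) - C ((c - β) / α)) := by
      rw [mul_sub, ← C_mul, mul_div_cancel₀ _ hα0, C_sub]
      ring
    have h2 : c - β ≠ 0 := by
      rw [sub_ne_zero]
      rintro rfl
      rcases hc with hc | hc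
      · exact hβ0 hc
      · exact hβ hc
    rw [h1, irreducible_isUnit_mul (isUnit_C.mpr hα0.isUnit)]
    apply X_pow_sub_C_irreducible_of_prime_pow hl hl2
    apply hα _ _ h2
    rw [hS, Finset.mem_image]
    refine ⟨c, ?_, rfl⟩
    rw [Finset.mem_insert]
    rcases hc with hc | hc
    · exact Or.inl hc
    · exact Or.inr ((mem_nthRootsFinset (by omega) _).mpr hc)
  have hdeg : (C α * X ^ (l ^ (N + 1)) + C β).natDegree = l ^ (N + 1) := by
    rw [natDegree_add_C, natDegree_C_mul_X_pow _ _ hα0]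
  have hlN : 2 ≤ l ^ (N + 1) := by
    calc 2 ≤ l := hl.two_le
      _ = l ^ 1 := (pow_one l).symm
      _ ≤ l ^ (N + 1) := Nat.pow_le_pow_right hl.pos (by omega)
  refine ⟨C α * X ^ (l ^ (N + 1)) + C β, ?_, ?_, ?_, fun c hc => hirr c (Or.inr hc), ?_⟩
  · rw [hdeg]
    calc N ≤ N + 1 := Nat.le_succ N
      _ ≤ l ^ (N + 1) := (Nat.lt_pow_self hl.one_lt).le
  · rw [hdeg]
    exact (hl.odd_of_ne_two hl2).pow
  · have := hirr 0 (Or.inl rfl)
    rwa [C_0, sub_zero] at this
  · intro b c n h
    have hc0 : c ≠ 0 := by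
      rintro rfl
      rw [C_0, zero_mul] at h
      rw [h, natDegree_zero] at hdeg
      omega
    have hn : n = l ^ (N + 1) := by
      rw [h, natDegree_C_mul hc0, natDegree_pow, natDegree_X_sub_C, mul_one] at hdeg
      exact hdeg
    have h1 := congrArg (fun g => eval b (derivative g)) h
    simp only [derivative_add, derivative_C_mul, derivative_X_pow, derivative_C, add_zero,
      derivative_X_sub_C_pow, eval_mul, eval_pow, eval_C, eval_X, eval_natCast, eval_sub,
      sub_self] at h1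
    rw [zero_pow (by omega), mul_zero, mul_zero] at h1
    have hl0 : ((l ^ (N + 1) : ℕ) : k) ≠ 0 := by
      rw [Ne, CharP.cast_eq_zero_iff k p]
      intro h5
      exact hlp ((Nat.prime_dvd_prime_iff_eq hpp hl).mp (hpp.dvd_of_dvd_pow h5)).symm
    have hb : b = 0 := by
      rcases mul_eq_zero.mp h1 with h5 | h5
      · exact absurd h5 hα0
      · rcases mul_eq_zero.mp h5 with h6 | h6
        · exact absurd h6 hl0
        · exact pow_eq_zero_iff (by omega) |>.mp h6
    have h2 := congrArg (fun g => eval 0 g) h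
    simp only [eval_add, eval_mul, eval_pow, eval_C, eval_X, eval_sub, hb, sub_zero] at h2
    rw [zero_pow (by omega), zero_pow (by omega), mul_zero, mul_zero, zero_add] at h2
    exact hβ0 h2

end exist

end Pool.Agent.BSDFF
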