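import Pool.Agent.Lib.MP_48b749_nt.LegExact
import Pool.Agent.Lib.MP_48b749_nt.LegAnalytic
import Pool.Agent.Lib.MP_48b749_nt.LegExist

/-!
Assembly: BSD for `y ^ 2 = x (x + 1) (x + u ^ (p ^ f + 1))`.
-/

set_option autoImplicit false

open Polynomial

namespace Pool.Agent.BSDFF

section final

variable {k : Type} [Field k]

/-- `u ∈ k[t]` has odd degree, and `u` and all `u - c` with `c ^ (p ^ f + 1) = 1` are
irreducible. -/
def Admissible (p f : ℕ) (u : k[X]) : Prop :=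
  Odd u.natDegree ∧ Irreducible u ∧ ∀ c : k, c ^ (p ^ f + 1) = 1 → Irreducible (u - C c)

lemma exists_primitive [Finite k] {d : ℕ} (hd : d ∣ Nat.card k - 1) :
    ∃ z : k, IsPrimitiveRoot z d := by
  classical
  obtain ⟨g, hg⟩ := IsCyclic.exists_ofOrder_eq_natCard (α := kˣ)
  rw [Nat.card_units] at hg
  have h1 : 1 < Nat.card k := Finite.one_lt_card
  obtain ⟨m, hm⟩ := hd
  have hm0 : m ≠ 0 := by
    rintro rfl
    rw [mul_zero] at hm
    omega
  have hord : orderOf (g ^ m) = d := by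
    rw [orderOf_pow_of_dvd hm0 (by rw [hg, hm]; exact dvd_mul_left _ _), hg, hm,
      Nat.mul_div_cancel _ (Nat.pos_of_ne_zero hm0)]
  refine ⟨((g ^ m : kˣ) : k), ?_⟩
  rw [IsPrimitiveRoot.coe_units_iff, ← hord]
  exact IsPrimitiveRoot.orderOf _

lemma legendre_j (h2 : (2 : k) ≠ 0) {u : k[X]} (hu : Irreducible u) {d : ℕ} (hd : d ≠ 0) (c : k) :
    (legendre (u ^ d)).c₄ ^ 3 ≠ algebraMap k (RatFunc k) c * (legendre (u ^ d)).Δ := by
  rw [legendre_Δ, legendre_c4]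
  have e : algebraMap k (RatFunc k) c = algebraMap k[X] (RatFunc k) (C c) := by
    rw [RatFunc.algebraMap_C, RatFunc.algebraMap_eq_C]
  rw [e, ← map_pow, ← map_mul]
  intro h
  have h1 := RatFunc.algebraMap_injective k h
  have h3 : u ∣ (16 * ((u ^ d) ^ 2 - u ^ d + 1)) ^ 3 := by
    rw [h1]
    have : u ∣ u ^ d := dvd_pow_self u hd
    obtain ⟨v, hv⟩ := this
    rw [hv]
    exact ⟨C c * (16 * u * v ^ 2 * (u * v - 1) ^ 2), by ring⟩
  have h4 := hu.prime.dvd_of_dvd_pow h3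
  have h16 : IsUnit (16 : k[X]) := Two.isUnit_sixteen h2
  have h5 : u ∣ (u ^ d) ^ 2 - u ^ d + 1 := by
    rcases hu.prime.dvd_or_dvd h4 with h6 | h6
    · exact absurd (isUnit_of_dvd_unit h6 h16) hu.not_isUnit
    · exact h6
  have h6 : u ∣ 1 := by
    have h7 : u ∣ (u ^ d) ^ 2 - u ^ d :=
      dvd_sub (dvd_pow (dvd_pow_self u hd) two_ne_zero) (dvd_pow_self u hd)
    have h8 := dvd_sub h5 h7
    rwa [add_sub_cancel_left] at h8
  exact hu.not_isUnit (isUnit_of_dvd_one h6)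

end final

end Pool.Agent.BSDFF
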