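import Pool.Agent.Lib.MP_48b749_nt.LegKernel
import Pool.Agent.Lib.MP_48b749_nt.MW

/-!
The image of the descent map and the exact rank of `y ^ 2 = x (x + 1) (x + u ^ d)`.
-/

set_option autoImplicit false

open Polynomial

namespace Pool.Agent.BSDFF

section span

variable {V : Type} [AddCommGroup V]

lemma sum_symmDiff (h2V : ∀ v : V, v + v = 0) {ι : Type} [DecidableEq ι] (v : ι → V)
    (S S' : Finset ι) : ∑ i ∈ S, v i + ∑ i ∈ S', v i = ∑ i ∈ symmDiff S S', v i := by
  have h7 : ∑ i ∈ symmDiff S S', v i = ∑ i ∈ S \ S', v i + ∑ i ∈ S' \ S, v i := by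
    rw [symmDiff_def]
    exact Finset.sum_union (disjoint_sdiff_sdiff)
  have h8 := Finset.sum_inter_add_sum_sdiff S S' v
  have h9 := Finset.sum_inter_add_sum_sdiff S' S v
  rw [Finset.inter_comm] at h9
  rw [h7, ← h8, ← h9]
  have h10 := h2V (∑ i ∈ S ∩ S', v i)
  generalize ∑ i ∈ S ∩ S', v i = a at *
  generalize ∑ i ∈ S \ S', v i = b at *
  generalize ∑ i ∈ S' \ S, v i = c at *
  have : a + b + (a + c) = (a + a) + (b + c) := by abel
  rw [this, h10, zero_add]

/-- the number of elements of the subgroup generated by an independent family of an elementary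
abelian 2-group -/
lemma card_closure (h2V : ∀ v : V, v + v = 0) {ι : Type} [Fintype ι] (v : ι → V)
    (hind : ∀ S : Finset ι, S.Nonempty → ∑ i ∈ S, v i ≠ 0) :
    Nat.card (AddSubgroup.closure (Set.range v)) = 2 ^ Fintype.card ι := by
  classical
  have hmem : ∀ S : Finset ι, ∑ i ∈ S, v i ∈ AddSubgroup.closure (Set.range v) := fun S =>
    AddSubgroup.sum_mem _ (fun i _ => AddSubgroup.subset_closure ⟨i, rfl⟩)
  let g : Finset ι → AddSubgroup.closure (Set.range v) := fun S => ⟨∑ i ∈ S, v i, hmem S⟩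
  have hinj : Function.Injective g := by
    intro S S' h
    have h5 : (g S).1 = (g S').1 := by rw [h]
    change ∑ i ∈ S, v i = ∑ i ∈ S', v i at h5
    by_contra hne
    have h6 : (symmDiff S S').Nonempty := by
      rw [Finset.nonempty_iff_ne_empty]
      intro h7
      exact hne (symmDiff_eq_bot.mp h7)
    apply hind _ h6
    rw [← sum_symmDiff h2V, h5, h2V]
  have hsurj : Function.Surjective g := by
    rintro ⟨x, hx⟩
    suffices h : ∃ S : Finset ι, ∑ i ∈ S, v i = x by
      obtain ⟨S, hS⟩ := h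
      exact ⟨S, Subtype.ext hS⟩
    induction hx using AddSubgroup.closure_induction with
    | mem x hx =>
      obtain ⟨i, rfl⟩ := hx
      exact ⟨{i}, by simp⟩
    | zero => exact ⟨∅, by simp⟩
    | add x y _ _ hx hy =>
      obtain ⟨S, rfl⟩ := hx
      obtain ⟨S', rfl⟩ := hy
      exact ⟨symmDiff S S', (sum_symmDiff h2V v S S').symm⟩
    | neg x _ hx =>
      obtain ⟨S, rfl⟩ := hx
      refine ⟨S, ?_⟩
      exact eq_neg_of_add_eq_zero_left (h2V _)
  rw [← Nat.card_congr (Equiv.ofBijective g ⟨hinj, hsurj⟩)]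
  simp

end span

section image

variable {k : Type} [Field k]

lemma pow_sub_one_eq_prod {d : ℕ} (hd : 0 < d) {z : k} (hz : IsPrimitiveRoot z d) (u : k[X]) :
    u ^ d - 1 = ∏ c ∈ nthRootsFinset d (1 : k), (u - C c) := by
  have h := congrArg (fun f : k[X] => f.comp u) (X_pow_sub_one_eq_prod hd hz)
  simp only [sub_comp, pow_comp, X_comp, one_comp, prod_comp, C_comp] at h
  exact h

lemma isCoprime_sub_C {u : k[X]} {c c' : k} (h : c ≠ c') : IsCoprime (u - C c) (u - C c') := by
  have h1 : c' - c ≠ 0 := sub_ne_zero.mpr (Ne.symm h)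
  refine ⟨C (c' - c)⁻¹, -C (c' - c)⁻¹, ?_⟩
  have h2 : C (c' - c)⁻¹ * (C c' - C c) = (1 : k[X]) := by
    rw [← C_sub, ← C_mul, inv_mul_cancel₀ h1, C_1]
  linear_combination h2

lemma not_isSquare_one_sub {d : ℕ} (hd : 0 < d) {z : k} (hz : IsPrimitiveRoot z d) {u : k[X]}
    (hu0 : 0 < u.natDegree) (hu : ∀ c : k, c ^ d = 1 → Irreducible (u - C c)) :
    ¬ IsSquare (1 - algebraMap k[X] (RatFunc k) (u ^ d)) := by
  classical
  rintro ⟨y, hy⟩
  obtain ⟨s, hs⟩ := isSquare_of_algebraMap (P := 1 - u ^ d) (z := y)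
    (by rw [pow_two, ← hy, map_sub, map_one])
  have hsq : Squarefree (u ^ d - 1) := by
    rw [pow_sub_one_eq_prod hd hz]
    apply Finset.squarefree_prod_of_pairwise_isCoprime
    · intro c _ c' _ hne
      exact (isCoprime_sub_C hne).isRelPrime
    · intro c hc
      exact (hu c ((mem_nthRootsFinset hd _).mp hc)).squarefree
  have h1 : IsUnit s := hsq s ⟨-1, by linear_combination -hs⟩
  have h2 : IsUnit (1 - u ^ d) := by rw [hs]; exact h1.mul h1
  have h3 := natDegree_eq_zero_of_isUnit h2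
  have h4 : (1 - u ^ d).natDegree = d * u.natDegree := by
    rw [natDegree_sub_eq_right_of_natDegree_lt, natDegree_pow]
    rw [natDegree_one, natDegree_pow]
    exact Nat.mul_pos hd hu0
  rw [h4] at h3
  exact absurd h3 (Nat.mul_pos hd hu0).ne'

/-- the generators of the image -/
noncomputable def gens (u : k[X]) (d : ℕ) : {c : k // c ^ d = 1} → SqGrp (RatFunc k) :=
  fun c => sqClass (algebraMap k[X] (RatFunc k) (1 + C c.1 * u))

/-- the class of `x + 1` is in the span of the classes of `1 + ζ u` -/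
theorem class_mem {m : ℕ} (hm : m ≠ 0) {z : k} (hz : IsPrimitiveRoot z (2 * m)) {u : k[X]}
    (hu0 : Irreducible u) (hodd : Odd u.natDegree)
    (hu : ∀ c : k, c ^ (2 * m) = 1 → Irreducible (u - C c)) {w : k[X]} (hw : w = u ^ (2 * m))
    {x y : RatFunc k} (h : (legendre w).toAffine.Equation x y) (hx : x ≠ -1) :
    sqClass (x + 1) ∈ AddSubgroup.closure (Set.range (gens u (2 * m))) := by
  classical
  have hd : 0 < 2 * m := by omega
  obtain ⟨a, B, D, hB0, hBm, hcop, hxa, hD⟩ := exists_coprime_form h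
  have hB' := algebraMap_ne_zero' hB0
  have hx1 : x + 1 ≠ 0 := fun h5 => hx (by linear_combination h5)
  set N := a + B ^ 2 with hN
  have hxN : x + 1 = algebraMap k[X] (RatFunc k) N / algebraMap k[X] (RatFunc k) B ^ 2 := by
    rw [hxa, hN, map_add, map_pow]
    field_simp
  have hN0 : N ≠ 0 := by
    intro h0
    apply hx1
    rw [hxN, h0, map_zero, zero_div]
  have hcopN : ∀ π : k[X], Irreducible π → π ∣ a → π ∣ B → False := fun π hπ h5 h6 =>
    hπ.not_isUnit (hcop.isUnit_of_dvd' h5 h6)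
  obtain ⟨S, c, M, hc, hM, hfac⟩ := factor_mod_squares
    (fun c : {c : k // c ^ (2 * m) = 1} => u - C c.1) N.natDegree N
    (a * (a + w * B ^ 2)) D le_rfl hN0 hD (by
      intro π hπ h5 h6
      have hπB : ¬ π ∣ B := by
        intro h7
        have h8 : π ∣ N - B ^ 2 := dvd_sub h5 (dvd_pow h7 two_ne_zero)
        rw [hN, add_sub_cancel_right] at h8
        exact hcopN π hπ h8 h7
      have hπa : ¬ π ∣ a := by
        intro h7
        have h8 : π ∣ N - a := dvd_sub h5 h7
        rw [hN, add_sub_cancel_left] at h8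
        exact hπB (hπ.prime.dvd_of_dvd_pow h8)
      have h7 := (hπ.prime.dvd_or_dvd h6).resolve_left hπa
      have h8 : π ∣ (w - 1) * B ^ 2 := by
        have h9 := dvd_sub h7 h5
        have h10 : a + w * B ^ 2 - N = (w - 1) * B ^ 2 := by rw [hN]; ring
        rwa [h10] at h9
      have h9 : π ∣ w - 1 := (hπ.prime.dvd_or_dvd h8).resolve_right
        (fun h10 => hπB (hπ.prime.dvd_of_dvd_pow h10))
      rw [hw, pow_sub_one_eq_prod hd hz, hπ.prime.dvd_finsetProd_iff] at h9
      obtain ⟨c, hc, h10⟩ := h9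
      have hc' : c ^ (2 * m) = 1 := (mem_nthRootsFinset hd _).mp hc
      exact ⟨⟨c, hc'⟩, (hπ.associated_of_dvd (hu c hc') h10).symm⟩)
  set G := C c * ∏ i ∈ S, (u - C i.1) with hG
  -- `G` is a square modulo `u`
  have hF : Fact (Irreducible u) := ⟨hu0⟩
  have hGsq : IsSquare (AdjoinRoot.mk u G) := by
    by_cases hua : u ∣ a
    · have huB : ¬ u ∣ B := fun h5 => hcopN u hu0 hua h5
      have hB1 : AdjoinRoot.mk u B ≠ 0 := fun h5 => huB (AdjoinRoot.mk_eq_zero.mp h5)
      have h5 : AdjoinRoot.mk u G * AdjoinRoot.mk u M ^ 2 = AdjoinRoot.mk u B ^ 2 := by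
        rw [← map_pow, ← map_mul, ← hfac, hN, map_add, AdjoinRoot.mk_eq_zero.mpr hua, zero_add,
          map_pow]
      have hM1 : AdjoinRoot.mk u M ≠ 0 := by
        intro h6
        rw [h6, zero_pow two_ne_zero, mul_zero] at h5
        exact pow_ne_zero 2 hB1 h5.symm
      refine ⟨AdjoinRoot.mk u B / AdjoinRoot.mk u M, ?_⟩
      field_simp
      linear_combination h5
    · apply isSquare_mod hu0 G (a * (a + w * B ^ 2)) a hua ?_ M.natDegree M D le_rfl hM
      · rw [← hfac]; exact hD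
      · refine ⟨a * u ^ (2 * m - 1) * B ^ 2, ?_⟩
        have h5 : w = u * u ^ (2 * m - 1) := by
          rw [hw, ← pow_succ']
          congr 1
          omega
        rw [h5]
        ring
  set κ : k := c * ∏ i ∈ S, (-i.1) with hκ
  have hGκ : AdjoinRoot.mk u G = algebraMap k (AdjoinRoot u) κ := by
    rw [hG, hκ, map_mul, map_mul, map_prod, map_prod]
    congr 1
    apply Finset.prod_congr rfl
    intro i _
    rw [map_sub, AdjoinRoot.mk_self, zero_sub, map_neg]
    rfl
  have hfd : FiniteDimensional k (AdjoinRoot u) := (AdjoinRoot.powerBasis hu0.ne_zero).finite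
  have hfr : Module.finrank k (AdjoinRoot u) = u.natDegree := by
    rw [(AdjoinRoot.powerBasis hu0.ne_zero).finrank, AdjoinRoot.powerBasis_dim]
  obtain ⟨s, hs⟩ := isSquare_of_odd (L := AdjoinRoot u) (by rw [hfr]; exact hodd)
    (by rw [← hGκ]; exact hGsq)
  have hi0 : ∀ i : {c : k // c ^ (2 * m) = 1}, i.1 ≠ 0 := by
    intro i h5
    have := i.2
    rw [h5, zero_pow hd.ne'] at this
    exact zero_ne_one this
  have hGs : G = C s ^ 2 * ∏ i ∈ S, (1 + C (-(i.1)⁻¹) * u) := by
    have h5 : ∏ i ∈ S, (u - C i.1) = C (∏ i ∈ S, (-i.1)) * ∏ i ∈ S, (1 + C (-(i.1)⁻¹) * u) := by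
      rw [map_prod, ← Finset.prod_mul_distrib]
      apply Finset.prod_congr rfl
      intro i _
      rw [mul_add, ← mul_assoc, ← C_mul, neg_mul_neg, mul_inv_cancel₀ (hi0 i), C_1, C_neg]
      ring
    rw [hG, h5, ← mul_assoc, ← C_mul, ← hκ, hs, C_mul, pow_two]
  have hs0 : s ≠ 0 := by
    rintro rfl
    rw [mul_zero] at hs
    rw [hκ] at hs
    rcases mul_eq_zero.mp hs with h5 | h5
    · exact hc h5
    · rw [Finset.prod_eq_zero_iff] at h5
      obtain ⟨i, -, h6⟩ := h5
      exact hi0 i (neg_eq_zero.mp h6)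
  -- assemble
  have hne : ∀ i ∈ S, algebraMap k[X] (RatFunc k) (1 + C (-(i.1)⁻¹) * u) ≠ 0 := by
    intro i _
    apply algebraMap_ne_zero'
    intro h5
    apply hu0.not_isUnit
    apply isUnit_of_mul_isUnit_right (x := C (-(i.1)⁻¹))
    have : C (-(i.1)⁻¹) * u = -1 := by linear_combination h5
    rw [this]
    exact isUnit_one.neg
  have hpr : ∏ i ∈ S, algebraMap k[X] (RatFunc k) (1 + C (-(i.1)⁻¹) * u) ≠ 0 :=
    Finset.prod_ne_zero_iff.mpr hne
  have hq : algebraMap k[X] (RatFunc k) (C s * M) / algebraMap k[X] (RatFunc k) B ≠ 0 :=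
    div_ne_zero (algebraMap_ne_zero' (mul_ne_zero (by simpa using hs0) hM)) hB'
  have hfinal : x + 1 = (∏ i ∈ S, algebraMap k[X] (RatFunc k) (1 + C (-(i.1)⁻¹) * u)) *
      (algebraMap k[X] (RatFunc k) (C s * M) / algebraMap k[X] (RatFunc k) B *
        (algebraMap k[X] (RatFunc k) (C s * M) / algebraMap k[X] (RatFunc k) B)) := by
    rw [hxN, hfac, hGs, ← map_prod]
    simp only [map_mul, map_pow]
    field_simp
  rw [hfinal, sqClass_mul hpr (mul_ne_zero hq hq), sqClass_mul hq hq, modSq_two, add_zero,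
    sqClass_prod S _ hne]
  apply AddSubgroup.sum_mem
  intro i _
  apply AddSubgroup.subset_closure
  refine ⟨⟨-(i.1)⁻¹, ?_⟩, rfl⟩
  rw [Even.neg_pow (even_two_mul m), inv_pow, i.2, inv_one]

end image

end Pool.Agent.BSDFF
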