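import Pool.Agent.Lib.MP_48b749_nt.LegDescent

/-!
The kernel and the image of the descent map on `y ^ 2 = x (x + 1) (x + u ^ d)`.
-/

set_option autoImplicit false

open Polynomial

namespace Pool.Agent.BSDFF

section kernel

variable {k : Type} [Field k]

lemma algebraMap_ne_zero' {f : k[X]} (hf : f ≠ 0) : algebraMap k[X] (RatFunc k) f ≠ 0 := by
  intro h
  exact hf (RatFunc.algebraMap_injective k (by rw [h, map_zero]))

lemma leadingCoeff_isSquare_of_sq (f : k[X]) : IsSquare (f ^ 2).leadingCoeff :=
  ⟨f.leadingCoeff, by rw [leadingCoeff_pow, pow_two]⟩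

/-- the key degree argument: if `a + B²` is a square and `a (a + w B²)` is a square, then `a` has
even degree and square leading coefficient -/
lemma even_degree_and_lc {w a B R D v : k[X]} (hB : B.Monic) (ha : a ≠ 0) (hw : w = v ^ 2)
    (hwd : 0 < w.natDegree) (hR : a + B ^ 2 = R ^ 2) (hD : a * (a + w * B ^ 2) = D ^ 2) :
    Even a.natDegree ∧ IsSquare a.leadingCoeff := by
  have hw0 : w ≠ 0 := by
    rintro rfl
    simp at hwd
  have hv0 : v ≠ 0 := by
    rintro rfl
    exact hw0 (by rw [hw]; simp)
  by_cases hdeg : (B ^ 2).natDegree < a.natDegree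
  · have h1 : (a + B ^ 2).natDegree = a.natDegree := natDegree_add_eq_left_of_natDegree_lt hdeg
    have h2 : (a + B ^ 2).leadingCoeff = a.leadingCoeff :=
      leadingCoeff_add_of_degree_lt' (degree_lt_degree hdeg)
    refine ⟨?_, ?_⟩
    · rw [← h1, hR, natDegree_pow]
      exact even_two_mul _
    · rw [← h2, hR]
      exact leadingCoeff_isSquare_of_sq R
  · push Not at hdeg
    have hwB : (w * B ^ 2).natDegree = w.natDegree + (B ^ 2).natDegree :=
      natDegree_mul hw0 (pow_ne_zero 2 hB.ne_zero)
    have hlt : a.natDegree < (w * B ^ 2).natDegree := by omega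
    have h1 : (a + w * B ^ 2).natDegree = (w * B ^ 2).natDegree :=
      natDegree_add_eq_right_of_natDegree_lt hlt
    have h2 : (a + w * B ^ 2).leadingCoeff = v.leadingCoeff ^ 2 := by
      rw [leadingCoeff_add_of_degree_lt (degree_lt_degree hlt), leadingCoeff_mul,
        (hB.pow 2).leadingCoeff, mul_one, hw, leadingCoeff_pow]
    have h30 : a + w * B ^ 2 ≠ 0 := by
      intro h
      rw [h, natDegree_zero] at h1
      omega
    have h4 := congrArg natDegree hD
    rw [natDegree_mul ha h30, h1, hwB, hw, natDegree_pow, natDegree_pow, natDegree_pow] at h4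
    have h5 := congrArg leadingCoeff hD
    rw [leadingCoeff_mul, h2, leadingCoeff_pow] at h5
    refine ⟨?_, ?_⟩
    · rw [Nat.even_iff]
      omega
    · have hv : v.leadingCoeff ≠ 0 := leadingCoeff_ne_zero.mpr hv0
      refine ⟨D.leadingCoeff / v.leadingCoeff, ?_⟩
      field_simp
      linear_combination h5

variable [DecidableEq (RatFunc k)]

/-- the kernel of the descent map is `2 E(K)` -/
theorem legendre_half (h2 : (2 : k) ≠ 0) {u : k[X]} (hu : Irreducible u) (hodd : Odd u.natDegree)
    {m : ℕ} (hm : m ≠ 0) {w : k[X]} (hw : w = u ^ (2 * m)) {x y : RatFunc k}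
    (h : (legendre w).toAffine.Nonsingular x y)
    (hx : x ≠ -1) (hs : IsSquare (x + 1)) :
    ∃ Q : (legendre w).toAffine.Point,
      WeierstrassCurve.Affine.Point.some x y h = Q + Q := by
  have hwv : w = (u ^ m) ^ 2 := by rw [hw, mul_comm, pow_mul]
  have hw0 : w ≠ 0 := by rw [hw]; exact pow_ne_zero _ hu.ne_zero
  have hwd : 0 < w.natDegree := by
    rw [hw, natDegree_pow]
    exact Nat.mul_pos (by omega) hu.natDegree_pos
  have hw1 : w ≠ 1 := by
    intro h5
    rw [h5, natDegree_one] at hwd
    exact lt_irrefl _ hwd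
  obtain ⟨a, B, D, hB0, hBm, hcop, hxa, hD⟩ := exists_coprime_form h.1
  have hB' := algebraMap_ne_zero' hB0
  have hx1 : x + 1 ≠ 0 := fun h5 => hx (by linear_combination h5)
  have hxw : algebraMap k[X] (RatFunc k) w = (algebraMap k[X] (RatFunc k) (u ^ m)) ^ 2 := by
    rw [hwv, map_pow]
  -- `x` is a square
  have hxsq : IsSquare x := by
    rcases eq_or_ne a 0 with ha | ha
    · exact ⟨0, by rw [hxa, ha, map_zero, zero_div, mul_zero]⟩
    obtain ⟨r, hr⟩ := hs
    have hR : IsSquare (a + B ^ 2) := by
      apply isSquare_of_algebraMap (z := r * algebraMap k[X] (RatFunc k) B)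
      rw [mul_pow, pow_two r, ← hr, hxa, map_add, map_pow]
      field_simp
    obtain ⟨R, hR⟩ := hR
    have hR0 : R ≠ 0 := by
      rintro rfl
      apply hx1
      rw [hxa]
      have h5 : algebraMap k[X] (RatFunc k) a = - algebraMap k[X] (RatFunc k) B ^ 2 := by
        have h6 : a = - B ^ 2 := by linear_combination hR
        rw [h6, map_neg, map_pow]
      rw [h5]
      field_simp
      ring
    have hR' := algebraMap_ne_zero' hR0
    obtain ⟨D', hD'⟩ : IsSquare (a * (a + w * B ^ 2)) := by
      apply isSquare_of_algebraMap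
        (z := algebraMap k[X] (RatFunc k) D / algebraMap k[X] (RatFunc k) R)
      have h5 := congrArg (algebraMap k[X] (RatFunc k)) hD
      rw [hR, map_mul, map_mul _ R R, map_pow] at h5
      rw [div_pow, ← h5]
      field_simp
    obtain ⟨he, hl⟩ := even_degree_and_lc hBm ha hwv hwd (by rw [hR, pow_two])
      (by rw [hD', pow_two])
    obtain ⟨S, c, M, hc, hM, hfac⟩ := factor_mod_squares (fun _ : Unit => u) a.natDegree a
      (a + w * B ^ 2) D' le_rfl ha (by rw [hD', pow_two]) (by
        intro π hπ h5 h6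
        refine ⟨(), ?_⟩
        have h7 : π ∣ w * B ^ 2 := by
          have := dvd_sub h6 h5
          rwa [add_sub_cancel_left] at this
        have h8 : π ∣ w := by
          rcases hπ.prime.dvd_or_dvd h7 with h8 | h8
          · exact h8
          · exfalso
            exact hπ.not_isUnit (hcop.isUnit_of_dvd' h5 (hπ.prime.dvd_of_dvd_pow h8))
        rw [hw] at h8
        have h9 : π ∣ u := hπ.prime.dvd_of_dvd_pow h8
        exact (hπ.associated_of_dvd hu h9).symm)
    have hS : S = ∅ := by
      by_contra hne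
      have hS1 : S = {()} := by
        rw [Finset.eq_singleton_iff_nonempty_unique_mem]
        exact ⟨Finset.nonempty_iff_ne_empty.mpr hne, fun _ _ => rfl⟩
      rw [hS1, Finset.prod_singleton] at hfac
      rw [hfac, natDegree_mul (mul_ne_zero (by simpa using hc) hu.ne_zero) (pow_ne_zero 2 hM),
        natDegree_C_mul hc, natDegree_pow] at he
      rw [Nat.even_iff] at he
      rw [Nat.odd_iff] at hodd
      omega
    rw [hS, Finset.prod_empty, mul_one] at hfac
    have hcsq : IsSquare c := by
      obtain ⟨s, hs'⟩ := hl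
      rw [hfac, leadingCoeff_mul, leadingCoeff_C, leadingCoeff_pow] at hs'
      have hMl : M.leadingCoeff ≠ 0 := leadingCoeff_ne_zero.mpr hM
      refine ⟨s / M.leadingCoeff, ?_⟩
      field_simp
      linear_combination hs'
    obtain ⟨s, hs'⟩ := hcsq
    refine ⟨algebraMap k[X] (RatFunc k) (C s * M) / algebraMap k[X] (RatFunc k) B, ?_⟩
    rw [hxa, hfac, hs', C_mul]
    simp only [map_mul, map_pow]
    field_simp
  obtain ⟨r₁, hr₁⟩ := hxsq
  obtain ⟨r₂, hr₂⟩ := hs
  -- `x + w` is a square
  obtain ⟨r₃, hr₃⟩ : IsSquare (x + algebraMap k[X] (RatFunc k) w) := by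
    rcases eq_or_ne x 0 with hx0 | hx0
    · exact ⟨algebraMap k[X] (RatFunc k) (u ^ m), by rw [hx0, zero_add, hxw, pow_two]⟩
    · have hr1 : r₁ ≠ 0 := by
        rintro rfl
        exact hx0 (by rw [hr₁, mul_zero])
      have hr2 : r₂ ≠ 0 := by
        rintro rfl
        exact hx1 (by rw [hr₂, mul_zero])
      refine ⟨y / (r₁ * r₂), ?_⟩
      have hE := h.1
      rw [WeierstrassCurve.Affine.equation_iff] at hE
      simp only [legendre, map_add, map_one] at hE
      have h5 : y ^ 2 = (r₁ * r₂) ^ 2 * (x + algebraMap k[X] (RatFunc k) w) := by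
        rw [mul_pow, pow_two r₁, pow_two r₂, ← hr₁, ← hr₂]
        linear_combination hE
      field_simp
      linear_combination -h5
  have e12 : (0 : RatFunc k) ≠ -1 := by
    intro h5
    exact one_ne_zero (α := RatFunc k) (by linear_combination h5)
  have e13 : (0 : RatFunc k) ≠ -algebraMap k[X] (RatFunc k) w := by
    intro h5
    apply hw0
    apply RatFunc.algebraMap_injective k
    rw [map_zero]
    linear_combination h5
  have e23 : (-1 : RatFunc k) ≠ -algebraMap k[X] (RatFunc k) w := by
    intro h5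
    apply hw1
    apply RatFunc.algebraMap_injective k
    rw [map_one]
    linear_combination h5
  exact exists_half (legendre w) (algebraMap_ratfunc_two h2) rfl rfl
    (e₁ := 0) (e₂ := -1) (e₃ := -algebraMap k[X] (RatFunc k) w)
    (by simp only [legendre, map_add, map_one]; ring) (by simp only [legendre]; ring)
    (by simp only [legendre]; ring) e12 e13 e23 h
    (r₁ := r₁) (r₂ := r₂) (r₃ := r₃) (by rw [sub_zero, hr₁, pow_two])
    (by rw [sub_neg_eq_add, hr₂, pow_two]) (by rw [sub_neg_eq_add, hr₃, pow_two])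

end kernel

end Pool.Agent.BSDFF
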