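import Mathlib

/-!
A lower bound for the rank of an abelian group from a homomorphism to an elementary abelian
2-group.
-/

set_option autoImplicit false

namespace Pool.Agent.BSDFF

section rank

variable {V : Type} [AddCommGroup V]

lemma zsmul_parity (h2V : ∀ v : V, v + v = 0) (n : ℤ) (v : V) :
    n • v = if Odd n then v else 0 := by
  split_ifs with h
  · obtain ⟨m, rfl⟩ := h
    rw [add_smul, one_smul, mul_comm, mul_smul, two_smul ℤ v, h2V, smul_zero, zero_add]
  · rw [Int.not_odd_iff_even] at h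
    obtain ⟨m, rfl⟩ := h
    rw [add_smul, ← smul_add, h2V, smul_zero]

/-- for a finite group `T` and a homomorphism to an elementary 2-group, the image has at most
`#T[2]` elements -/
lemma card_range_le (h2V : ∀ v : V, v + v = 0) {T : Type} [AddCommGroup T] [Finite T]
    (χ : T →+ V) : Nat.card χ.range ≤ Nat.card {t : T // t + t = 0} := by
  have h1 : Nat.card χ.range * Nat.card χ.ker = Nat.card T := by
    rw [← AddSubgroup.card_eq_card_quotient_mul_card_addSubgroup χ.ker |>.symm]
    congr 1
    exact (Nat.card_congr (QuotientAddGroup.quotientKerEquivRange χ).toEquiv).symm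
  let dbl : T →+ T := AddMonoidHom.mk' (fun t => t + t) (fun a b => by abel)
  have h2 : Nat.card dbl.range * Nat.card dbl.ker = Nat.card T := by
    rw [← AddSubgroup.card_eq_card_quotient_mul_card_addSubgroup dbl.ker |>.symm]
    congr 1
    exact (Nat.card_congr (QuotientAddGroup.quotientKerEquivRange dbl).toEquiv).symm
  have h3 : Nat.card dbl.ker = Nat.card {t : T // t + t = 0} := by
    apply Nat.card_congr
    exact Equiv.refl _
  have h4 : dbl.range ≤ χ.ker := by
    rintro _ ⟨t, rfl⟩
    rw [AddMonoidHom.mem_ker]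
    change χ (t + t) = 0
    rw [map_add, h2V]
  have h5 : Nat.card dbl.range ≤ Nat.card χ.ker :=
    Nat.card_le_card_of_injective _ (AddSubgroup.inclusion_injective h4)
  have h6 : 0 < Nat.card χ.ker := Nat.card_pos
  rw [← h3]
  by_contra hcon
  push Not at hcon
  have h7 : Nat.card dbl.range * Nat.card dbl.ker < Nat.card χ.ker * Nat.card χ.range := by
    calc Nat.card dbl.range * Nat.card dbl.ker ≤ Nat.card χ.ker * Nat.card dbl.ker :=
          Nat.mul_le_mul_right _ h5
      _ < Nat.card χ.ker * Nat.card χ.range := Nat.mul_lt_mul_of_pos_left hcon h6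
  rw [h2, mul_comm, h1] at h7
  exact lt_irrefl _ h7

theorem rank_ge (h2V : ∀ v : V, v + v = 0) {A : Type} [AddCommGroup A] (φ : A →+ V)
    {ι : Type} [Fintype ι] (P : ι → A)
    (hind : ∀ S : Finset ι, S.Nonempty → ∑ i ∈ S, φ (P i) ≠ 0)
    (c : ℕ) (hfin : Finite {a : A // a + a = 0}) (hc : Nat.card {a : A // a + a = 0} ≤ 2 ^ c) :
    ((Fintype.card ι - c : ℕ) : Cardinal) ≤ Module.rank ℤ A := by
  classical
  set B : AddSubgroup A := AddSubgroup.closure (Set.range P) with hB
  have hPB : ∀ i, P i ∈ B := fun i => AddSubgroup.subset_closure ⟨i, rfl⟩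
  have hFG : AddGroup.FG B := by
    rw [AddGroup.fg_iff_addSubgroup_fg]
    exact ⟨Finset.univ.image P, by rw [Finset.coe_image, Finset.coe_univ, Set.image_univ]⟩
  obtain ⟨n, κ, hκ, p, hp, e, ⟨E⟩⟩ := AddCommGroup.equiv_free_prod_directSum_zmod B
  set T := DirectSum κ (fun i => ZMod (p i ^ e i)) with hT
  have hNe : ∀ i, NeZero (p i ^ e i) := fun i => ⟨pow_ne_zero _ (hp i).ne_zero⟩
  have hTfin : Finite T := by
    have : Finite (∀ i, ZMod (p i ^ e i)) := Pi.finite
    exact Finite.of_injective (fun t : T => (fun i => t i)) DFunLike.coe_injective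
  set ψ : (Fin n →₀ ℤ) × T →+ V := (φ.comp B.subtype).comp E.symm.toAddMonoidHom with hψ
  have hψE : ∀ b : B, ψ (E b) = φ b := by
    intro b
    rw [hψ]
    change φ (B.subtype (E.symm (E b))) = φ b
    rw [E.symm_apply_apply]
    rfl
  set χ : T →+ V := ψ.comp (AddMonoidHom.inr (Fin n →₀ ℤ) T) with hχ
  have hχfin : Finite χ.range := Finite.of_surjective χ.rangeRestrict
    χ.rangeRestrict_surjective
  -- upper bound for the image
  have hup : ∀ z : (Fin n →₀ ℤ) × T, ∃ S : Finset (Fin n), ∃ w : χ.range,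
      ψ z = (∑ i ∈ S, ψ (Finsupp.single i 1, 0)) + w := by
    rintro ⟨x, t⟩
    refine ⟨Finset.univ.filter (fun i => Odd (x i)), ⟨χ t, t, rfl⟩, ?_⟩
    have h1 : ((x, t) : (Fin n →₀ ℤ) × T) = (x, 0) + (0, t) := by simp
    have h2 : ((x, 0) : (Fin n →₀ ℤ) × T) = ∑ i, x i • (Finsupp.single i (1 : ℤ), (0 : T)) := by
      apply Prod.ext
      · rw [Prod.fst_sum]
        simp only [Prod.smul_fst]
        ext j
        simp
      · rw [Prod.snd_sum]
        simp
    rw [h1, map_add]
    congr 1
    rw [h2, map_sum, Finset.sum_filter]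
    apply Finset.sum_congr rfl
    intro i _
    rw [map_zsmul, zsmul_parity h2V]
  have hsurj : Function.Surjective (fun y : Finset (Fin n) × χ.range =>
      (⟨(∑ i ∈ y.1, ψ (Finsupp.single i 1, 0)) + y.2, by
        obtain ⟨_, t, rfl⟩ := y.2
        refine ⟨∑ i ∈ y.1, (Finsupp.single i 1, 0) + (0, t), ?_⟩
        rw [map_add, map_sum]
        rfl⟩ : ψ.range)) := by
    rintro ⟨_, z, rfl⟩
    obtain ⟨S, w, h⟩ := hup z
    exact ⟨(S, w), Subtype.ext h.symm⟩
  have hψfin : Finite ψ.range := Finite.of_surjective _ hsurj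
  have h1 : Nat.card ψ.range ≤ 2 ^ n * Nat.card χ.range := by
    have h := Nat.card_le_card_of_surjective _ hsurj
    rw [Nat.card_prod] at h
    simpa using h
  have h2 : Nat.card χ.range ≤ 2 ^ c := by
    refine (card_range_le h2V χ).trans (le_trans ?_ hc)
    let g : {t : T // t + t = 0} → {a : A // a + a = 0} := fun t =>
      ⟨(E.symm (0, t.1) : B), by
        rw [← AddSubgroup.coe_add, ← map_add, Prod.mk_add_mk, t.2, add_zero]
        change ((E.symm 0 : B) : A) = 0
        rw [map_zero]; rfl⟩
    refine Nat.card_le_card_of_injective g ?_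
    intro t t' h
    have h4 : (g t).1 = (g t').1 := by rw [h]
    have h5 : (E.symm (0, t.1) : B) = E.symm (0, t'.1) := Subtype.ext h4
    have h6 := E.symm.injective h5
    exact Subtype.ext (congrArg Prod.snd h6)
  -- lower bound for the image
  have h3 : 2 ^ Fintype.card ι ≤ Nat.card ψ.range := by
    let g : Finset ι → ψ.range := fun S => ⟨∑ i ∈ S, φ (P i), by
      refine ⟨∑ i ∈ S, E ⟨P i, hPB i⟩, ?_⟩
      rw [map_sum]
      exact Finset.sum_congr rfl (fun i _ => hψE ⟨P i, hPB i⟩)⟩
    have hg : Function.Injective g := by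
      intro S S' h
      have h5 : ∑ i ∈ S, φ (P i) = ∑ i ∈ S', φ (P i) := congrArg Subtype.val h
      by_contra hne
      have h6 : (symmDiff S S').Nonempty := by
        rw [Finset.nonempty_iff_ne_empty]
        intro h7
        exact hne (symmDiff_eq_bot.mp h7)
      apply hind _ h6
      have h7 : ∑ i ∈ symmDiff S S', φ (P i) =
          ∑ i ∈ S \ S', φ (P i) + ∑ i ∈ S' \ S, φ (P i) := by
        rw [symmDiff_def]
        exact Finset.sum_union (disjoint_sdiff_sdiff)
      have h8 := Finset.sum_inter_add_sum_sdiff S S' (fun i => φ (P i))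
      have h9 := Finset.sum_inter_add_sum_sdiff S' S (fun i => φ (P i))
      rw [Finset.inter_comm] at h9
      rw [h7]
      have h10 : ∑ i ∈ S \ S', φ (P i) = ∑ i ∈ S' \ S, φ (P i) := by
        apply add_left_cancel (a := ∑ i ∈ S ∩ S', φ (P i))
        rw [h8, h9, h5]
      rw [h10, h2V]
    have h5 := Nat.card_le_card_of_injective g hg
    simpa using h5
  have h4 : Fintype.card ι - c ≤ n := by
    have h5 : 2 ^ Fintype.card ι ≤ 2 ^ (n + c) := by
      rw [pow_add]
      exact h3.trans (h1.trans (Nat.mul_le_mul_left _ h2))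
    have h6 := (Nat.pow_le_pow_iff_right (by norm_num : 1 < 2)).mp h5
    omega
  -- the rank
  let f : (Fin n →₀ ℤ) →ₗ[ℤ] A :=
    ((B.subtype.comp E.symm.toAddMonoidHom).comp (AddMonoidHom.inl (Fin n →₀ ℤ) T)).toIntLinearMap
  have hf : Function.Injective f := by
    intro x y h
    have h5 : E.symm (x, 0) = E.symm (y, 0) := Subtype.ext h
    have h6 := E.symm.injective h5
    exact congrArg Prod.fst h6
  have h5 := LinearMap.rank_le_of_injective f hf
  rw [rank_finsupp_self', Cardinal.mk_fin] at h5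
  exact le_trans (by exact_mod_cast h4) h5

end rank

end Pool.Agent.BSDFF
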