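import Pool.Agent.Lib.MP_48b749_nt.Points
import Pool.Agent.Lib.MP_48b749_nt.LegAlpha
import Pool.Agent.Lib.MP_48b749_nt.LegRank


/-!
The Legendre curve `y ^ 2 = x (x + 1) (x + w)` over `k(t)`, and for `w = u ^ (p ^ f + 1)` its
explicit points `(ζ u, ζ u (1 + ζ u) ^ ((p ^ f + 1) / 2))`, `ζ ^ (p ^ f + 1) = 1`.
-/

set_option autoImplicit false

open Polynomial

namespace Pool.Agent.BSDFF

section legendre

variable {k : Type} [Field k]

/-- The Legendre curve `y ^ 2 = x (x + 1) (x + w)` over `k(t)`. -/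
noncomputable def legendre (w : k[X]) : WeierstrassCurve (RatFunc k) :=
  ⟨0, algebraMap k[X] (RatFunc k) (1 + w), 0, algebraMap k[X] (RatFunc k) w, 0⟩

lemma legendre_Δ (w : k[X]) :
    (legendre w).Δ = algebraMap k[X] (RatFunc k) (16 * w ^ 2 * (w - 1) ^ 2) := by
  simp only [legendre, WeierstrassCurve.Δ, WeierstrassCurve.b₂, WeierstrassCurve.b₄,
    WeierstrassCurve.b₆, WeierstrassCurve.b₈, map_mul, map_pow, map_sub, map_add, map_one,
    map_ofNat]
  ring

lemma legendre_c4 (w : k[X]) :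
    (legendre w).c₄ = algebraMap k[X] (RatFunc k) (16 * (w ^ 2 - w + 1)) := by
  simp only [legendre, WeierstrassCurve.c₄, WeierstrassCurve.b₂, WeierstrassCurve.b₄,
    map_mul, map_pow, map_sub, map_add, map_one, map_ofNat]
  ring

lemma legendre_Δ_ne_zero (h2 : (2 : k) ≠ 0) {w : k[X]} (hw0 : w ≠ 0) (hw1 : w ≠ 1) :
    (legendre w).Δ ≠ 0 := by
  rw [legendre_Δ]
  intro h
  have h1 := RatFunc.algebraMap_injective k (h.trans (map_zero _).symm)
  have h16 : (16 : k[X]) ≠ 0 := by
    have : (16 : k[X]) = C (2 ^ 4) := by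
      simp only [C_pow, C_ofNat]; norm_num
    rw [this, Ne, C_eq_zero]
    exact pow_ne_zero _ h2
  exact mul_ne_zero (mul_ne_zero h16 (pow_ne_zero _ hw0)) (pow_ne_zero _ (sub_ne_zero.mpr hw1)) h1

lemma zpoint_identity (p : ℕ) [Fact p.Prime] [CharP k p] (hp2 : p ≠ 2) (f : ℕ) (u : k[X]) (c : k)
    (hc : c ^ (p ^ f + 1) = 1) :
    (C c * u * (1 + C c * u) ^ ((p ^ f + 1) / 2)) ^ 2 =
      (C c * u) ^ 3 + (1 + u ^ (p ^ f + 1)) * (C c * u) ^ 2 + u ^ (p ^ f + 1) * (C c * u) := by
  have hodd : Odd (p ^ f) := (Nat.Prime.odd_of_ne_two (Fact.out) hp2).pow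
  have h2 : (p ^ f + 1) / 2 * 2 = p ^ f + 1 := by
    obtain ⟨m, hm⟩ := hodd
    omega
  have hexp : CharP k[X] p := inferInstance
  have h3 : ((1 + C c * u) ^ ((p ^ f + 1) / 2)) ^ 2 =
      (1 + C c * u) * (1 + C c ^ (p ^ f) * u ^ (p ^ f)) := by
    rw [← pow_mul, h2, pow_succ, add_pow_char_pow, one_pow, mul_pow, mul_comm]
  have h4 : C c * C c ^ (p ^ f) = 1 := by
    rw [← pow_succ', ← C_pow, hc, C_1]
  rw [mul_pow, h3, pow_succ u (p ^ f)]
  linear_combination (C c * u ^ 2 * (1 + C c * u) * u ^ (p ^ f)) * h4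

/-- the point `(ζ u, ζ u (1 + ζ u) ^ ((p ^ f + 1) / 2))` -/
lemma zpoint_equation (p : ℕ) [Fact p.Prime] [CharP k p] (hp2 : p ≠ 2) (f : ℕ) (u : k[X]) (c : k)
    (hc : c ^ (p ^ f + 1) = 1) :
    (legendre (u ^ (p ^ f + 1))).toAffine.Equation (algebraMap k[X] (RatFunc k) (C c * u))
      (algebraMap k[X] (RatFunc k) (C c * u * (1 + C c * u) ^ ((p ^ f + 1) / 2))) := by
  rw [WeierstrassCurve.Affine.equation_iff]
  have h := congrArg (algebraMap k[X] (RatFunc k)) (zpoint_identity p hp2 f u c hc)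
  simp only [legendre]
  rw [map_pow, map_add, map_add, map_mul (algebraMap k[X] (RatFunc k)) (1 + _),
    map_mul (algebraMap k[X] (RatFunc k)) (u ^ _) (C c * u), map_pow _ (C c * u) 3,
    map_pow _ (C c * u) 2] at h
  linear_combination h

lemma one_add_eq {d : ℕ} (hd : Even d) {u : k[X]} {c : k} (hc : c ^ d = 1) (hd0 : d ≠ 0) :
    (-c⁻¹) ^ d = 1 ∧ c ≠ 0 ∧ 1 + C c * u = C c * (u - C (-c⁻¹)) := by
  have hc0 : c ≠ 0 := by
    rintro rfl
    rw [zero_pow hd0] at hc
    exact zero_ne_one hc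
  refine ⟨?_, hc0, ?_⟩
  · rw [hd.neg_pow, inv_pow, hc, inv_one]
  · rw [mul_sub, ← C_mul, mul_neg, mul_inv_cancel₀ hc0, C_neg, C_1]
    ring

lemma irreducible_one_add {d : ℕ} (hd : Even d) (hd0 : d ≠ 0) {u : k[X]}
    (hu : ∀ z : k, z ^ d = 1 → Irreducible (u - C z)) {c : k} (hc : c ^ d = 1) :
    Irreducible (1 + C c * u) := by
  obtain ⟨h1, h2, h3⟩ := one_add_eq hd (u := u) hc hd0
  rw [h3]
  exact (irreducible_isUnit_mul (isUnit_C.mpr (isUnit_iff_ne_zero.mpr h2))).mpr (hu _ h1)

lemma isCoprime_one_add {u : k[X]} {c c' : k} (h : c ≠ c') :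
    IsCoprime (1 + C c * u) (1 + C c' * u) := by
  have h1 : c' - c ≠ 0 := sub_ne_zero.mpr (Ne.symm h)
  refine ⟨C (c' / (c' - c)), -C (c / (c' - c)), ?_⟩
  have h2 : C (c' / (c' - c)) - C (c / (c' - c)) = (1 : k[X]) := by
    rw [← C_sub, ← sub_div, div_self h1, C_1]
  have h3 : C (c' / (c' - c)) * C c - C (c / (c' - c)) * C c' = (0 : k[X]) := by
    rw [← C_mul, ← C_mul, ← C_sub]
    have : c' / (c' - c) * c - c / (c' - c) * c' = 0 := by
      field_simp
      ring
    rw [this, C_0]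
  linear_combination h2 + u * h3

lemma not_isSquare_prod {d : ℕ} (hd : Even d) (hd0 : d ≠ 0) {u : k[X]}
    (hu : ∀ z : k, z ^ d = 1 → Irreducible (u - C z)) (S : Finset {c : k // c ^ d = 1})
    (hS : S.Nonempty) :
    ¬ IsSquare (∏ c ∈ S, algebraMap k[X] (RatFunc k) (1 + C c.1 * u)) := by
  rintro ⟨y, hy⟩
  rw [← map_prod] at hy
  have h1 := isSquare_of_algebraMap (P := ∏ c ∈ S, (1 + C c.1 * u)) (z := y)
    (by rw [pow_two, ← hy])
  have hsq : Squarefree (∏ c ∈ S, (1 + C c.1 * u)) := by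
    apply Finset.squarefree_prod_of_pairwise_isCoprime
    · intro c _ c' _ hne
      exact (isCoprime_one_add (fun h => hne (Subtype.ext h))).isRelPrime
    · intro c _
      exact (irreducible_one_add hd hd0 hu c.2).squarefree
  obtain ⟨s, hs⟩ := h1
  obtain ⟨c, hc⟩ := hS
  have h3 : IsUnit s := hsq s (by rw [hs])
  have h4 : IsUnit (∏ c ∈ S, (1 + C c.1 * u)) := by rw [hs]; exact h3.mul h3
  exact (irreducible_one_add hd hd0 hu c.2).not_isUnit
    (isUnit_of_dvd_unit (Finset.dvd_prod_of_mem (fun c : {c : k // c ^ d = 1} => 1 + C c.1 * u) hc) h4)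

lemma algebraMap_ratfunc_two (h2 : (2 : k) ≠ 0) : (2 : RatFunc k) ≠ 0 := by
  have : (2 : RatFunc k) = algebraMap k (RatFunc k) 2 := by rw [map_ofNat]
  rw [this]
  intro h
  exact h2 ((FaithfulSMul.algebraMap_eq_zero_iff k (RatFunc k)).mp h)

variable [DecidableEq (RatFunc k)]

/-- the points of order dividing `2` -/
lemma two_torsion (h2 : (2 : k) ≠ 0) (w : k[X]) :
    Finite {P : (legendre w).toAffine.Point // P + P = 0} ∧
      Nat.card {P : (legendre w).toAffine.Point // P + P = 0} ≤ 2 ^ 2 := by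
  set R : Finset (RatFunc k) := {0, -1, -algebraMap k[X] (RatFunc k) w} with hR
  have h2' := algebraMap_ratfunc_two h2
  have key : ∀ (x y : RatFunc k) (h : (legendre w).toAffine.Nonsingular x y),
      WeierstrassCurve.Affine.Point.some x y h + .some x y h = 0 → y = 0 ∧ x ∈ R := by
    intro x y h h5
    have hy : y = 0 := by
      by_contra hy
      have hne : y ≠ (legendre w).toAffine.negY x y := by
        rw [WeierstrassCurve.Affine.negY]
        simp only [legendre]
        intro h6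
        apply hy
        have h7 : 2 * y = 0 := by linear_combination h6
        exact (mul_eq_zero.mp h7).resolve_left h2'
      rw [WeierstrassCurve.Affine.Point.add_self_of_Y_ne hne] at h5
      exact WeierstrassCurve.Affine.Point.some_ne_zero _ h5
    refine ⟨hy, ?_⟩
    have hE := h.1
    rw [WeierstrassCurve.Affine.equation_iff, hy] at hE
    simp only [legendre, map_add, map_one] at hE
    have h6 : x * (x + 1) * (x + algebraMap k[X] (RatFunc k) w) = 0 := by
      linear_combination -hE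
    rw [hR, Finset.mem_insert, Finset.mem_insert, Finset.mem_singleton]
    rcases mul_eq_zero.mp h6 with h7 | h7
    · rcases mul_eq_zero.mp h7 with h8 | h8
      · left; exact h8
      · right; left; linear_combination h8
    · right; right; linear_combination h7
  let g : {P : (legendre w).toAffine.Point // P + P = 0} → Option R := fun P =>
    match P with
    | ⟨.zero, _⟩ => none
    | ⟨.some x y h, hP⟩ => some ⟨x, (key x y h hP).2⟩
  have hg : Function.Injective g := by
    rintro ⟨P, hP⟩ ⟨Q, hQ⟩ h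
    rcases P with _ | ⟨x, y, hx⟩ <;> rcases Q with _ | ⟨x', y', hx'⟩
    · rfl
    · exact absurd h (by simp [g])
    · exact absurd h (by simp [g])
    · have h5 : x = x' := by
        have := Option.some.inj h
        exact congrArg Subtype.val this
      have h6 := (key x y hx hP).1
      have h7 := (key x' y' hx' hQ).1
      subst h5 h6 h7
      rfl
  refine ⟨Finite.of_injective g hg, ?_⟩
  refine (Nat.card_le_card_of_injective g hg).trans ?_
  rw [Finite.card_option, Nat.card_eq_fintype_card, Fintype.card_coe]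
  have : R.card ≤ 3 := Finset.card_le_three
  omega

/-- the descent map `P ↦ x(P) + 1` -/
noncomputable def legAlpha (w : k[X]) (hw1 : w ≠ 1) :
    (legendre w).toAffine.Point →+ SqGrp (RatFunc k) :=
  alphaHom (legendre w) (-1) (1 - algebraMap k[X] (RatFunc k) w) rfl rfl
    (by simp only [legendre, map_add, map_one]; ring)
    (by simp only [legendre, map_add, map_one]; ring)
    (by
      rw [← map_one (algebraMap k[X] (RatFunc k)), ← map_sub]
      intro h
      have h1 := RatFunc.algebraMap_injective k (h.trans (map_zero _).symm)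
      exact hw1 (sub_eq_zero.mp h1).symm)

lemma legAlpha_some (w : k[X]) (hw1 : w ≠ 1) {x y : RatFunc k}
    (h : (legendre w).toAffine.Nonsingular x y) (hx : x ≠ -1) :
    legAlpha w hw1 (.some x y h) = sqClass (x + 1) := by
  unfold legAlpha
  rw [alphaHom_apply, alpha_some, if_neg hx, sub_neg_eq_add]

/-- **the rank is at least `p ^ f - 1`** -/
theorem legendre_rank_ge (p : ℕ) [Fact p.Prime] [CharP k p] (hp2 : p ≠ 2) (f : ℕ) (u : k[X])
    [Finite k] (hμ : Nat.card {c : k // c ^ (p ^ f + 1) = 1} = p ^ f + 1)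
    (hu : ∀ z : k, z ^ (p ^ f + 1) = 1 → Irreducible (u - C z)) (hu0 : Irreducible u) :
    ((p ^ f - 1 : ℕ) : Cardinal) ≤
      Module.rank ℤ (legendre (u ^ (p ^ f + 1))).toAffine.Point := by
  classical
  have hodd : Odd (p ^ f) := (Nat.Prime.odd_of_ne_two (Fact.out) hp2).pow
  have hd : Even (p ^ f + 1) := hodd.add_one
  have hd0 : p ^ f + 1 ≠ 0 := by omega
  have h2 : (2 : k) ≠ 0 := by
    intro h
    have h5 : ((2 : ℕ) : k) = 0 := by exact_mod_cast h
    rw [CharP.cast_eq_zero_iff k p] at h5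
    exact hp2 ((Nat.prime_dvd_prime_iff_eq Fact.out Nat.prime_two).mp h5)
  set w := u ^ (p ^ f + 1) with hw
  have hw0 : w ≠ 0 := pow_ne_zero _ hu0.ne_zero
  have hw1 : w ≠ 1 := by
    intro h
    apply hu0.not_isUnit
    exact IsUnit.of_pow_eq_one h hd0
  have hΔ := legendre_Δ_ne_zero h2 hw0 hw1
  have hF : Fintype {c : k // c ^ (p ^ f + 1) = 1} := Fintype.ofFinite _
  have hnc : ∀ c : k, C c * u ≠ -1 := by
    intro c h
    apply hu0.not_isUnit
    apply isUnit_of_mul_isUnit_right (x := C c)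
    rw [h]
    exact isUnit_one.neg
  obtain ⟨t1, t2⟩ := two_torsion h2 w
  let Z : {c : k // c ^ (p ^ f + 1) = 1} → (legendre w).toAffine.Point := fun c =>
    WeierstrassCurve.Affine.Point.some _ _
      ((WeierstrassCurve.Affine.equation_iff_nonsingular_of_Δ_ne_zero hΔ).mp
        (zpoint_equation p hp2 f u c.1 c.2))
  have hind : ∀ S : Finset {c : k // c ^ (p ^ f + 1) = 1}, S.Nonempty →
      ∑ c ∈ S, legAlpha w hw1 (Z c) ≠ 0 := by
    intro S hS h0
    apply not_isSquare_prod hd hd0 hu S hS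
    have hne : ∀ c ∈ S, algebraMap k[X] (RatFunc k) (1 + C c.1 * u) ≠ 0 := by
      intro c _ h5
      have h6 := RatFunc.algebraMap_injective k (h5.trans (map_zero _).symm)
      exact hnc c.1 (by linear_combination h6)
    rw [← sqClass_eq_zero_iff (Finset.prod_ne_zero_iff.mpr hne), sqClass_prod S _ hne, ← h0]
    apply Finset.sum_congr rfl
    intro c _
    rw [legAlpha_some]
    · rw [map_add, map_one, add_comm]
    · intro h5
      apply hnc c.1
      apply RatFunc.algebraMap_injective k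
      rw [h5, map_neg, map_one]
  have h := rank_ge modSq_two (legAlpha w hw1) Z hind 2 t1 t2
  rw [← Nat.card_eq_fintype_card, hμ] at h
  have h5 : p ^ f + 1 - 2 = p ^ f - 1 := by omega
  rwa [h5] at h

end legendre

end Pool.Agent.BSDFF
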