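import Pool.Agent.Lib.MP_48b749_nt.Defs

set_option autoImplicit false

open Polynomial WithZero Multiplicative IsDiscreteValuationRing IsDedekindDomain.HeightOneSpectrum

namespace Pool.Agent.BSDFF

section DVR

variable (R : Type) {K : Type} [CommRing R] [IsDomain R] [IsDiscreteValuationRing R]
  [Field K] [Algebra R K] [IsFractionRing R K]

/-- the valuation of the DVR -/
noncomputable abbrev vv : Valuation K ℤᵐ⁰ := IsDedekindDomain.HeightOneSpectrum.valuation K
  (IsDiscreteValuationRing.maximalIdeal R)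

lemma exists_variableChange (W : WeierstrassCurve K) (C0 : WeierstrassCurve.VariableChange K) :
    ∃ C : WeierstrassCurve.VariableChange K, W.minimal R = C • (C0 • W) := by
  refine ⟨(W.exists_isMinimal R).choose * C0⁻¹, ?_⟩
  rw [mul_smul, inv_smul_smul]
  rfl

lemma val_le_minimal (W : WeierstrassCurve K) (C : WeierstrassCurve.VariableChange K)
    (W0 : WeierstrassCurve K) (h : W.minimal R = C • W0)
    (h0 : WeierstrassCurve.IsIntegral R W0) : vv R W0.Δ ≤ vv R (W.minimal R).Δ := by
  have hm : WeierstrassCurve.IsMinimal R (W.minimal R) := inferInstance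
  have h1 := hm.val_Δ_maximal
  have h2 : C⁻¹ • (W.minimal R) = W0 := by rw [h, inv_smul_smul]
  have h3 : WeierstrassCurve.IsIntegral R (C⁻¹ • (W.minimal R)) := by rw [h2]; exact h0
  have h4 : WeierstrassCurve.valuation_Δ_aux R W0 ≤ WeierstrassCurve.valuation_Δ_aux R (W.minimal R) := by
    rcases le_total (WeierstrassCurve.valuation_Δ_aux R (W.minimal R))
      (WeierstrassCurve.valuation_Δ_aux R W0) with h5 | h5
    · have := h1.2 h3 (by simpa [h2] using h5)
      simpa [h2] using this
    · exact h5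
  have h6 := WeierstrassCurve.valuation_Δ_aux_eq_of_isIntegral R W0
  have h7 := WeierstrassCurve.valuation_Δ_aux_eq_of_isIntegral R (W.minimal R)
  rw [vv, ← h6, ← h7]
  exact h4

lemma val_Δ_le_one (W : WeierstrassCurve K) [WeierstrassCurve.IsIntegral R W] :
    vv R W.Δ ≤ 1 := by
  rw [← WeierstrassCurve.integralModel_Δ_eq R W]
  exact IsDedekindDomain.HeightOneSpectrum.valuation_le_one _ _

lemma val_c4_le_one (W : WeierstrassCurve K) [WeierstrassCurve.IsIntegral R W] :
    vv R W.c₄ ≤ 1 := by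
  rw [← WeierstrassCurve.integralModel_c₄_eq R W]
  exact IsDedekindDomain.HeightOneSpectrum.valuation_le_one _ _

lemma unit_of_disc (W : WeierstrassCurve K) (C : WeierstrassCurve.VariableChange K)
    (W0 : WeierstrassCurve K) (h : W.minimal R = C • W0)
    (h0 : WeierstrassCurve.IsIntegral R W0) (hD : exp (-12 : ℤ) < vv R W0.Δ) :
    vv R (C.u : K) = 1 := by
  have h1 := val_le_minimal R W C W0 h h0
  have h2 := val_Δ_le_one R (W.minimal R)
  have h3 : vv R (C.u : K) ^ 12 * vv R (W.minimal R).Δ = vv R W0.Δ := by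
    rw [h, WeierstrassCurve.variableChange_Δ, map_mul, ← mul_assoc, ← map_pow, ← map_mul]
    rw [← mul_pow, Units.mul_inv, one_pow, map_one, one_mul]
  have hu : vv R (C.u : K) ≠ 0 := by simp
  have hx : vv R (W.minimal R).Δ ≠ 0 := by
    intro h4
    rw [h4, mul_zero] at h3
    rw [← h3] at hD
    exact absurd hD (by simp)
  obtain ⟨m, hm⟩ : ∃ m : ℤ, vv R (C.u : K) = exp m := ⟨log (vv R (C.u : K)), (exp_log hu).symm⟩
  obtain ⟨x, hx'⟩ : ∃ m : ℤ, vv R (W.minimal R).Δ = exp m :=
    ⟨log (vv R (W.minimal R).Δ), (exp_log hx).symm⟩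
  rw [hm, hx', ← exp_nsmul, ← exp_add] at h3
  rw [← h3] at h1 hD
  rw [hx', exp_le_exp] at h1
  rw [hx', ← exp_zero, exp_le_exp] at h2
  rw [exp_lt_exp] at hD
  simp only [nsmul_eq_mul, Nat.cast_ofNat] at h1 hD
  have : m = 0 := by omega
  rw [hm, this, exp_zero]

lemma unit_of_c4 (W : WeierstrassCurve K) (C : WeierstrassCurve.VariableChange K)
    (W0 : WeierstrassCurve K) (h : W.minimal R = C • W0)
    (h0 : WeierstrassCurve.IsIntegral R W0) (hΔ : W0.Δ ≠ 0) (hc : vv R W0.c₄ = 1) :
    vv R (C.u : K) = 1 := by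
  have h1 := val_le_minimal R W C W0 h h0
  have h2 := val_c4_le_one R (W.minimal R)
  have h3 : vv R (C.u : K) ^ 12 * vv R (W.minimal R).Δ = vv R W0.Δ := by
    rw [h, WeierstrassCurve.variableChange_Δ, map_mul, ← mul_assoc, ← map_pow, ← map_mul]
    rw [← mul_pow, Units.mul_inv, one_pow, map_one, one_mul]
  have h4 : vv R (C.u : K) ^ 4 * vv R (W.minimal R).c₄ = 1 := by
    rw [h, WeierstrassCurve.variableChange_c₄, map_mul, ← mul_assoc, ← map_pow, ← map_mul]
    rw [← mul_pow, Units.mul_inv, one_pow, map_one, one_mul, hc]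
  have hu : vv R (C.u : K) ≠ 0 := by simp
  have hx : vv R (W.minimal R).Δ ≠ 0 := by
    intro h4
    rw [h4, mul_zero] at h3
    exact hΔ ((Valuation.zero_iff _).mp h3.symm)
  have hy : vv R (W.minimal R).c₄ ≠ 0 := by
    intro h5
    rw [h5, mul_zero] at h4
    exact one_ne_zero h4.symm
  obtain ⟨m, hm⟩ : ∃ m : ℤ, vv R (C.u : K) = exp m := ⟨log (vv R (C.u : K)), (exp_log hu).symm⟩
  obtain ⟨x, hx'⟩ : ∃ m : ℤ, vv R (W.minimal R).Δ = exp m :=
    ⟨log (vv R (W.minimal R).Δ), (exp_log hx).symm⟩
  obtain ⟨y, hy'⟩ : ∃ m : ℤ, vv R (W.minimal R).c₄ = exp m :=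
    ⟨log (vv R (W.minimal R).c₄), (exp_log hy).symm⟩
  rw [hm, hx', ← exp_nsmul, ← exp_add] at h3
  rw [hm, hy', ← exp_nsmul, ← exp_add, ← exp_zero, exp_inj] at h4
  rw [← h3, hx', exp_le_exp] at h1
  rw [hy', ← exp_zero, exp_le_exp] at h2
  simp only [nsmul_eq_mul, Nat.cast_ofNat] at h1 h4
  have : m = 0 := by omega
  rw [hm, this, exp_zero]

lemma val_Δ_eq (W : WeierstrassCurve K) (C : WeierstrassCurve.VariableChange K)
    (W0 : WeierstrassCurve K) (h : W.minimal R = C • W0) (hu : vv R (C.u : K) = 1) :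
    vv R (W.minimal R).Δ = vv R W0.Δ := by
  have h3 : vv R (C.u : K) ^ 12 * vv R (W.minimal R).Δ = vv R W0.Δ := by
    rw [h, WeierstrassCurve.variableChange_Δ, map_mul, ← mul_assoc, ← map_pow, ← map_mul]
    rw [← mul_pow, Units.mul_inv, one_pow, map_one, one_mul]
  rw [← h3, hu, one_pow, one_mul]

lemma val_c4_eq (W : WeierstrassCurve K) (C : WeierstrassCurve.VariableChange K)
    (W0 : WeierstrassCurve K) (h : W.minimal R = C • W0) (hu : vv R (C.u : K) = 1) :
    vv R (W.minimal R).c₄ = vv R W0.c₄ := by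
  have h4 : vv R (C.u : K) ^ 4 * vv R (W.minimal R).c₄ = vv R W0.c₄ := by
    rw [h, WeierstrassCurve.variableChange_c₄, map_mul, ← mul_assoc, ← map_pow, ← map_mul]
    rw [← mul_pow, Units.mul_inv, one_pow, map_one, one_mul]
  rw [← h4, hu, one_pow, one_mul]

/-- additive reduction: the local polynomial is `1` -/
theorem local_additive (W : WeierstrassCurve K) (C0 : WeierstrassCurve.VariableChange K)
    (h0 : WeierstrassCurve.IsIntegral R (C0 • W)) (hD : exp (-12 : ℤ) < vv R (C0 • W).Δ)
    (hD1 : vv R (C0 • W).Δ < 1) (hc : vv R (C0 • W).c₄ < 1) :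
    W.localPolynomial R = 1 := by
  obtain ⟨C, hC⟩ := exists_variableChange R W C0
  have hu := unit_of_disc R W C _ hC h0 hD
  have h1 := val_Δ_eq R W C _ hC hu
  have h2 := val_c4_eq R W C _ hC hu
  have hng : ¬ (W.minimal R).HasGoodReduction R := by
    intro h
    have := h.goodReduction
    change vv R (W.minimal R).Δ = 1 at this
    rw [h1] at this
    exact absurd this (ne_of_lt hD1)
  have hnm : ¬ (W.minimal R).HasMultiplicativeReduction R := by
    intro h
    have := h.multiplicativeReduction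
    change vv R (W.minimal R).c₄ = 1 at this
    rw [h2] at this
    exact absurd this (ne_of_lt hc)
  have hns : ¬ (W.minimal R).HasSplitMultiplicativeReduction R := by
    intro h
    exact hnm h.toHasMultiplicativeReduction
  simp only [WeierstrassCurve.localPolynomial]
  rw [if_neg hng, if_neg hns, if_neg hnm]

/-- multiplicative reduction: the local polynomial is `1 - T` or `1 + T` -/
theorem local_multiplicative (W : WeierstrassCurve K) (C0 : WeierstrassCurve.VariableChange K)
    (h0 : WeierstrassCurve.IsIntegral R (C0 • W)) (hD : (C0 • W).Δ ≠ 0)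
    (hD1 : vv R (C0 • W).Δ < 1) (hc : vv R (C0 • W).c₄ = 1) :
    W.localPolynomial R = 1 - X ∨ W.localPolynomial R = 1 + X := by
  obtain ⟨C, hC⟩ := exists_variableChange R W C0
  have hu := unit_of_c4 R W C _ hC h0 hD hc
  have h1 := val_Δ_eq R W C _ hC hu
  have h2 := val_c4_eq R W C _ hC hu
  have hng : ¬ (W.minimal R).HasGoodReduction R := by
    intro h
    have := h.goodReduction
    change vv R (W.minimal R).Δ = 1 at this
    rw [h1] at this
    exact absurd this (ne_of_lt hD1)
  have hm : (W.minimal R).HasMultiplicativeReduction R := by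
    refine { badReduction := ?_, multiplicativeReduction := ?_ }
    · change vv R (W.minimal R).Δ < 1
      rw [h1]; exact hD1
    · change vv R (W.minimal R).c₄ = 1
      rw [h2]; exact hc
  simp only [WeierstrassCurve.localPolynomial]
  rw [if_neg hng]
  by_cases hs : (W.minimal R).HasSplitMultiplicativeReduction R
  · left; rw [if_pos hs]
  · right; rw [if_neg hs, if_pos hm]

end DVR

end Pool.Agent.BSDFF
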