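import Mathlib

set_option autoImplicit false

namespace Pool.Agent.BSDFF

open WeierstrassCurve

lemma nat_card_modEq_fixed {α : Type} [Finite α] (f : α → α) (hf : ∀ x, f (f x) = x) :
    Nat.card α ≡ Nat.card {x : α // f x = x} [MOD 2] := by
  classical
  have : Fintype α := Fintype.ofFinite α
  let g : Function.End α := f
  have h : g ^ 2 ^ 1 = 1 := by
    rw [pow_one, pow_two]
    funext x
    exact hf x
  have h1 := Equiv.Perm.card_fixedPoints_modEq (p := 2) (n := 1) (f := g) h
  have h2 : Fintype.card g.fixedPoints = Nat.card {x : α // f x = x} := by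
    rw [← Nat.card_eq_fintype_card]
    exact Nat.card_congr (Equiv.refl _)
  rw [← h2, Nat.card_eq_fintype_card]
  exact h1

/-- The number of points of an elliptic curve over a finite field of odd characteristic has the
parity of one plus the number of roots of the 2-division polynomial. -/
theorem card_point_parity (F : Type) [Field F] [Finite F] (h2 : (2 : F) ≠ 0)
    (W : WeierstrassCurve F) (hΔ : W.Δ ≠ 0) :
    Nat.card W.toAffine.Point ≡
      1 + Nat.card {x : F // 4 * x ^ 3 + W.b₂ * x ^ 2 + 2 * W.b₄ * x + W.b₆ = 0} [MOD 2] := by
  classical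
  let S := {p : F × F // W.toAffine.Equation p.1 p.2}
  have e1 : W.toAffine.Point ≃ Option S :=
    { toFun := fun P => match P with
        | .zero => none
        | .some x y h => some ⟨(x, y), h.1⟩
      invFun := fun o => match o with
        | none => .zero
        | some p => .some p.1.1 p.1.2
            ((WeierstrassCurve.Affine.equation_iff_nonsingular_of_Δ_ne_zero hΔ).mp p.2)
      left_inv := fun P => by
        cases P with
        | zero => rfl
        | some x y h => rfl
      right_inv := fun o => by
        cases o with
        | none => rfl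
        | some p => rfl }
  have e2 : Nat.card W.toAffine.Point = 1 + Nat.card S := by
    rw [Nat.card_congr e1, Finite.card_option, add_comm]
  rw [e2]
  refine Nat.ModEq.add_left 1 ?_
  let f : S → S := fun p => ⟨(p.1.1, W.toAffine.negY p.1.1 p.1.2),
    (WeierstrassCurve.Affine.equation_neg _ _).mpr p.2⟩
  have hf : ∀ p, f (f p) = p := by
    intro p
    apply Subtype.ext
    apply Prod.ext
    · rfl
    · exact WeierstrassCurve.Affine.negY_negY _ _
  refine (nat_card_modEq_fixed f hf).trans ?_
  have key : ∀ x y : F, W.toAffine.Equation x y → W.toAffine.negY x y = y →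
      4 * x ^ 3 + W.b₂ * x ^ 2 + 2 * W.b₄ * x + W.b₆ = 0 := by
    intro x y he hn
    rw [WeierstrassCurve.Affine.equation_iff] at he
    rw [WeierstrassCurve.Affine.negY] at hn
    simp only [WeierstrassCurve.b₂, WeierstrassCurve.b₄, WeierstrassCurve.b₆]
    linear_combination (-4) * he + (-(2 * y + W.a₁ * x + W.a₃)) * hn
  have e3 : {p : S // f p = p} ≃
      {x : F // 4 * x ^ 3 + W.b₂ * x ^ 2 + 2 * W.b₄ * x + W.b₆ = 0} :=
    { toFun := fun p => ⟨p.1.1.1, key _ p.1.1.2 p.1.2
        (congrArg (fun s : S => s.1.2) p.2)⟩
      invFun := fun x => ⟨⟨(x.1, -(W.a₁ * x.1 + W.a₃) / 2), by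
          rw [WeierstrassCurve.Affine.equation_iff]
          have hx := x.2
          simp only [WeierstrassCurve.b₂, WeierstrassCurve.b₄, WeierstrassCurve.b₆] at hx
          field_simp
          linear_combination (-1) * hx⟩, by
          apply Subtype.ext
          apply Prod.ext
          · rfl
          · change W.toAffine.negY x.1 (-(W.a₁ * x.1 + W.a₃) / 2) = -(W.a₁ * x.1 + W.a₃) / 2
            rw [WeierstrassCurve.Affine.negY]
            field_simp
            ring⟩
      left_inv := fun p => by
        apply Subtype.ext
        apply Subtype.ext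
        apply Prod.ext
        · rfl
        · change -(W.a₁ * p.1.1.1 + W.a₃) / 2 = p.1.1.2
          have h := congrArg (fun s : S => s.1.2) p.2
          change W.toAffine.negY p.1.1.1 p.1.1.2 = p.1.1.2 at h
          rw [WeierstrassCurve.Affine.negY] at h
          rw [div_eq_iff h2]
          linear_combination h
      right_inv := fun x => rfl }
  rw [Nat.card_congr e3]

end Pool.Agent.BSDFF
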