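import Pool.Agent.Lib.MP_48b749_nt.Local
import Pool.Agent.Lib.MP_48b749_nt.Parity

set_option autoImplicit false

open Polynomial WithZero Multiplicative IsDiscreteValuationRing IsDedekindDomain.HeightOneSpectrum

namespace Pool.Agent.BSDFF

section DVR

variable (R : Type) {K : Type} [CommRing R] [IsDomain R] [IsDiscreteValuationRing R]
  [Field K] [Algebra R K] [IsFractionRing R K]

lemma val_unit {x : R} (hx : IsUnit x) : vv R (algebraMap R K x) = 1 := by
  apply le_antisymm (IsDedekindDomain.HeightOneSpectrum.valuation_le_one _ _)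
  obtain ⟨y, hy⟩ := hx.exists_right_inv
  have h1 : vv R (algebraMap R K x) * vv R (algebraMap R K y) = 1 := by
    rw [← map_mul, ← map_mul, hy, map_one, map_one]
  have h2 : vv R (algebraMap R K y) ≤ 1 := IsDedekindDomain.HeightOneSpectrum.valuation_le_one _ _
  calc (1 : ℤᵐ⁰) = vv R (algebraMap R K x) * vv R (algebraMap R K y) := h1.symm
    _ ≤ vv R (algebraMap R K x) * 1 := by gcongr
    _ = _ := mul_one _

lemma isUnit_of_val {x : R} (hx : vv R (algebraMap R K x) = 1) : IsUnit x := by
  by_contra h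
  have h1 : x ∈ (IsDiscreteValuationRing.maximalIdeal R).asIdeal := by
    rw [← mem_nonunits_iff] at h
    exact (IsLocalRing.mem_maximalIdeal _).mpr h
  have h2 := (IsDedekindDomain.HeightOneSpectrum.valuation_lt_one_iff_mem (K := K)
    (IsDiscreteValuationRing.maximalIdeal R) x).mpr h1
  exact absurd hx (ne_of_lt h2)

/-- good reduction and parity of the number of points of the reduction -/
theorem good_data [Finite (IsLocalRing.ResidueField R)]
    (W : WeierstrassCurve K) (C0 : WeierstrassCurve.VariableChange K) (A B : R)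
    (hW0 : C0 • W = (⟨0, 0, 0, A, B⟩ : WeierstrassCurve R).map (algebraMap R K))
    (hΔ : IsUnit (4 * A ^ 3 + 27 * B ^ 2)) (h2 : IsUnit (2 : R)) (h3 : IsUnit (3 : R)) :
    (W.minimal R).HasGoodReduction R ∧ (2 : IsLocalRing.ResidueField R) ≠ 0 ∧
    Nat.card ((W.minimal R).reduction R).toAffine.Point ≡
      1 + Nat.card {x : IsLocalRing.ResidueField R //
        x ^ 3 + IsLocalRing.residue R A * x + IsLocalRing.residue R B = 0} [MOD 2] := by
  classical
  have hinj : Function.Injective (algebraMap R K) := IsFractionRing.injective R K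
  have hint : WeierstrassCurve.IsIntegral R (C0 • W) := ⟨⟨_, hW0⟩⟩
  have hΔ0 : (C0 • W).Δ = algebraMap R K (-16 * (4 * A ^ 3 + 27 * B ^ 2)) := by
    rw [hW0, WeierstrassCurve.map_Δ]
    congr 1
    simp only [WeierstrassCurve.Δ, WeierstrassCurve.b₂, WeierstrassCurve.b₄, WeierstrassCurve.b₆,
      WeierstrassCurve.b₈]
    ring
  have hu16 : IsUnit (-16 * (4 * A ^ 3 + 27 * B ^ 2) : R) := by
    refine IsUnit.mul ?_ hΔ
    have : (-16 : R) = -(2 ^ 4) := by norm_num
    rw [this]
    exact (h2.pow 4).neg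
  have hval : vv R (C0 • W).Δ = 1 := by rw [hΔ0]; exact val_unit R hu16
  obtain ⟨C, hC⟩ := exists_variableChange R W C0
  have hu : vv R (C.u : K) = 1 := unit_of_disc R W C _ hC hint (by
    rw [hval, ← exp_zero, exp_lt_exp]; norm_num)
  have h1 := val_Δ_eq R W C _ hC hu
  have hgood : (W.minimal R).HasGoodReduction R := by
    refine { goodReduction := ?_ }
    change vv R (W.minimal R).Δ = 1
    rw [h1, hval]
  -- integral data
  set Wm := W.minimal R with hWm
  set I := WeierstrassCurve.integralModel R Wm with hI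
  obtain ⟨uR, huR⟩ : ∃ a : R, algebraMap R K a = (C.u : K) := by
    apply IsDiscreteValuationRing.exists_lift_of_le_one
    exact le_of_eq hu
  have huRu : IsUnit uR := isUnit_of_val (K := K) R (by rw [huR]; exact hu)
  obtain ⟨i2, hi2⟩ := h2.exists_right_inv
  obtain ⟨i3, hi3⟩ := h3.exists_right_inv
  have hi2' : (2 : K) * algebraMap R K i2 = 1 := by
    have := congrArg (algebraMap R K) hi2
    rwa [map_mul, map_one, map_ofNat] at this
  have hi3' : (3 : K) * algebraMap R K i3 = 1 := by
    have := congrArg (algebraMap R K) hi3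
    rwa [map_mul, map_one, map_ofNat] at this
  have hune : (C.u : K) ≠ 0 := C.u.ne_zero
  have huinv : ((C.u⁻¹ : Kˣ) : K) = (C.u : K)⁻¹ := by simp
  have hs : C.s = algebraMap R K (uR * I.a₁ * i2) := by
    have h := WeierstrassCurve.variableChange_a₁ (C0 • W) C
    rw [← hC, ← WeierstrassCurve.integralModel_a₁_eq R Wm, huinv, hW0] at h
    simp only [WeierstrassCurve.map_a₁, map_zero, zero_add] at h
    rw [map_mul, map_mul, huR, h]
    field_simp
    linear_combination (-C.s) * hi2'
  have hr : C.r = algebraMap R K ((uR ^ 2 * I.a₂ + (uR * I.a₁ * i2) ^ 2) * i3) := by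
    have h := WeierstrassCurve.variableChange_a₂ (C0 • W) C
    rw [← hC, ← WeierstrassCurve.integralModel_a₂_eq R Wm, huinv, hW0] at h
    simp only [WeierstrassCurve.map_a₁, WeierstrassCurve.map_a₂, map_zero] at h
    rw [map_mul, map_add, map_mul, map_pow, map_pow, ← hs, huR, h]
    field_simp
    linear_combination (-C.r) * hi3'
  set rR := (uR ^ 2 * I.a₂ + (uR * I.a₁ * i2) ^ 2) * i3 with hrR
  have hb2 : uR ^ 2 * I.b₂ = 12 * rR := by
    apply hinj
    have h := WeierstrassCurve.variableChange_b₂ (C0 • W) C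
    rw [← hC, ← WeierstrassCurve.integralModel_b₂_eq R Wm, huinv, hW0, WeierstrassCurve.map_b₂] at h
    have h0 : (⟨0, 0, 0, A, B⟩ : WeierstrassCurve R).b₂ = 0 := by
      simp [WeierstrassCurve.b₂]
    rw [h0, hr] at h
    rw [map_mul, map_pow, huR, map_mul, h, map_zero, map_ofNat]
    field_simp
    ring
  have hb4 : uR ^ 4 * I.b₄ = 2 * A + 6 * rR ^ 2 := by
    apply hinj
    have h := WeierstrassCurve.variableChange_b₄ (C0 • W) C
    rw [← hC, ← WeierstrassCurve.integralModel_b₄_eq R Wm, huinv, hW0, WeierstrassCurve.map_b₂,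
      WeierstrassCurve.map_b₄] at h
    have h0 : (⟨0, 0, 0, A, B⟩ : WeierstrassCurve R).b₂ = 0 := by
      simp [WeierstrassCurve.b₂]
    have h1 : (⟨0, 0, 0, A, B⟩ : WeierstrassCurve R).b₄ = 2 * A := by
      simp [WeierstrassCurve.b₄]
    rw [h0, h1, hr] at h
    rw [map_mul, map_pow, huR, h]
    simp only [map_zero, map_add, map_mul, map_pow, map_ofNat]
    field_simp
    ring
  have hb6 : uR ^ 6 * I.b₆ = 4 * B + 4 * A * rR + 4 * rR ^ 3 := by
    apply hinj
    have h := WeierstrassCurve.variableChange_b₆ (C0 • W) C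
    rw [← hC, ← WeierstrassCurve.integralModel_b₆_eq R Wm, huinv, hW0, WeierstrassCurve.map_b₂,
      WeierstrassCurve.map_b₄, WeierstrassCurve.map_b₆] at h
    have h0 : (⟨0, 0, 0, A, B⟩ : WeierstrassCurve R).b₂ = 0 := by
      simp [WeierstrassCurve.b₂]
    have h1 : (⟨0, 0, 0, A, B⟩ : WeierstrassCurve R).b₄ = 2 * A := by
      simp [WeierstrassCurve.b₄]
    have h2 : (⟨0, 0, 0, A, B⟩ : WeierstrassCurve R).b₆ = 4 * B := by
      simp [WeierstrassCurve.b₆]
    rw [h0, h1, h2, hr] at h
    rw [map_mul, map_pow, huR, h]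
    simp only [map_zero, map_add, map_mul, map_pow, map_ofNat]
    field_simp
    ring
  -- the residue field
  set ρ := IsLocalRing.residue R with hρ
  have huκ : ρ uR ≠ 0 := by
    intro h
    exact (IsLocalRing.mem_maximalIdeal _).mp ((IsLocalRing.residue_eq_zero_iff uR).mp h) huRu
  have h2κ : (2 : IsLocalRing.ResidueField R) ≠ 0 := by
    have : (2 : IsLocalRing.ResidueField R) = ρ 2 := by rw [map_ofNat]
    rw [this]
    intro h
    exact (IsLocalRing.mem_maximalIdeal _).mp ((IsLocalRing.residue_eq_zero_iff (2 : R)).mp h) h2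
  set Wr := Wm.reduction R with hWr
  have hWrI : Wr = I.map ρ := rfl
  have hrΔ : Wr.Δ ≠ 0 := by
    have := (WeierstrassCurve.hasGoodReduction_iff_isElliptic_reduction R).mp hgood
    exact this.isUnit.ne_zero
  have hcount := card_point_parity (IsLocalRing.ResidueField R) h2κ Wr hrΔ
  have hroots : Nat.card {x : IsLocalRing.ResidueField R //
      4 * x ^ 3 + Wr.b₂ * x ^ 2 + 2 * Wr.b₄ * x + Wr.b₆ = 0} =
      Nat.card {x : IsLocalRing.ResidueField R // x ^ 3 + ρ A * x + ρ B = 0} := by
    have k2 : (ρ uR) ^ 2 * Wr.b₂ = 12 * ρ rR := by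
      rw [hWrI, WeierstrassCurve.map_b₂, ← map_pow, ← map_mul, hb2, map_mul, map_ofNat]
    have k4 : (ρ uR) ^ 4 * Wr.b₄ = 2 * ρ A + 6 * (ρ rR) ^ 2 := by
      rw [hWrI, WeierstrassCurve.map_b₄, ← map_pow, ← map_mul, hb4]
      simp only [map_add, map_mul, map_pow, map_ofNat]
    have k6 : (ρ uR) ^ 6 * Wr.b₆ = 4 * ρ B + 4 * ρ A * ρ rR + 4 * (ρ rR) ^ 3 := by
      rw [hWrI, WeierstrassCurve.map_b₆, ← map_pow, ← map_mul, hb6]
      simp only [map_add, map_mul, map_pow, map_ofNat]
    have key : ∀ x : IsLocalRing.ResidueField R,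
        (ρ uR) ^ 6 * (4 * x ^ 3 + Wr.b₂ * x ^ 2 + 2 * Wr.b₄ * x + Wr.b₆) =
        4 * (((ρ uR) ^ 2 * x + ρ rR) ^ 3 + ρ A * ((ρ uR) ^ 2 * x + ρ rR) + ρ B) := by
      intro x
      linear_combination ((ρ uR) ^ 4 * x ^ 2) * k2 + (2 * (ρ uR) ^ 2 * x) * k4 + k6
    have h4κ : (4 : IsLocalRing.ResidueField R) ≠ 0 := by
      have : (4 : IsLocalRing.ResidueField R) = 2 * 2 := by norm_num
      rw [this]; exact mul_ne_zero h2κ h2κ
    apply Nat.card_congr
    exact
      { toFun := fun x => ⟨(ρ uR) ^ 2 * x.1 + ρ rR, by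
          have h := key x.1
          rw [x.2, mul_zero] at h
          exact (mul_eq_zero.mp h.symm).resolve_left h4κ⟩
        invFun := fun z => ⟨(z.1 - ρ rR) / (ρ uR) ^ 2, by
          have h := key ((z.1 - ρ rR) / (ρ uR) ^ 2)
          have e : (ρ uR) ^ 2 * ((z.1 - ρ rR) / (ρ uR) ^ 2) + ρ rR = z.1 := by
            field_simp
            ring
          rw [e, z.2, mul_zero] at h
          exact (mul_eq_zero.mp h).resolve_left (pow_ne_zero _ huκ)⟩
        left_inv := fun x => by
          apply Subtype.ext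
          change ((ρ uR) ^ 2 * x.1 + ρ rR - ρ rR) / (ρ uR) ^ 2 = x.1
          field_simp
          ring
        right_inv := fun z => by
          apply Subtype.ext
          change (ρ uR) ^ 2 * ((z.1 - ρ rR) / (ρ uR) ^ 2) + ρ rR = z.1
          field_simp
          ring }
  rw [hroots] at hcount
  exact ⟨hgood, h2κ, hcount⟩

lemma card_odd (F : Type) [Field F] [Finite F] (h2 : (2 : F) ≠ 0) :
    ((Nat.card F : ℕ) : ZMod 2) = 1 := by
  have : Fintype F := Fintype.ofFinite _
  rw [Nat.card_eq_fintype_card]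
  have h := FiniteField.odd_card_of_char_ne_two (F := F) (by
    intro h
    apply h2
    have := CharP.cast_eq_zero F (ringChar F)
    rw [h] at this
    exact_mod_cast this)
  rw [← Nat.cast_one, ZMod.natCast_eq_natCast_iff]
  exact h

/-- parity of the trace of Frobenius at a place of good reduction -/
theorem local_good [Finite (IsLocalRing.ResidueField R)]
    (W : WeierstrassCurve K) (C0 : WeierstrassCurve.VariableChange K) (A B : R)
    (hW0 : C0 • W = (⟨0, 0, 0, A, B⟩ : WeierstrassCurve R).map (algebraMap R K))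
    (hΔ : IsUnit (4 * A ^ 3 + 27 * B ^ 2)) (h2 : IsUnit (2 : R)) (h3 : IsUnit (3 : R)) :
    (W.localPolynomial R).map (Int.castRingHom (ZMod 2)) =
      1 + C (1 + (Nat.card {x : IsLocalRing.ResidueField R //
        x ^ 3 + IsLocalRing.residue R A * x + IsLocalRing.residue R B = 0} : ZMod 2)) * X
        + X ^ 2 := by
  classical
  obtain ⟨hgood, h2κ, hcount⟩ := good_data R W C0 A B hW0 hΔ h2 h3
  have hq := card_odd _ h2κ
  have hc : ((Nat.card ((W.minimal R).reduction R).toAffine.Point : ℕ) : ZMod 2) =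
      1 + (Nat.card {x : IsLocalRing.ResidueField R //
        x ^ 3 + IsLocalRing.residue R A * x + IsLocalRing.residue R B = 0} : ZMod 2) := by
    have := (ZMod.natCast_eq_natCast_iff _ _ _).mpr hcount
    rw [this]
    push_cast
    rfl
  simp only [WeierstrassCurve.localPolynomial]
  rw [if_pos hgood]
  simp only [Polynomial.map_add, Polynomial.map_sub, Polynomial.map_mul, Polynomial.map_one,
    Polynomial.map_X, Polynomial.map_pow, eq_intCast, Int.cast_sub, Int.cast_add,
    Int.cast_natCast, Int.cast_one, Polynomial.map_natCast]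
  rw [← map_natCast (C : ZMod 2 →+* (ZMod 2)[X]) (Nat.card (IsLocalRing.ResidueField R)),
    ← map_natCast (C : ZMod 2 →+* (ZMod 2)[X])
      (Nat.card ((W.minimal R).reduction R).toAffine.Point), hq, hc]
  generalize (Nat.card {x : IsLocalRing.ResidueField R //
      x ^ 3 + IsLocalRing.residue R A * x + IsLocalRing.residue R B = 0} : ZMod 2) = n
  have e3 : (C (1 : ZMod 2) + 1 - C (1 + n)) = - C (1 + n) := by
    have : (1 : ZMod 2) + 1 = 0 := by decide
    rw [← C_1 (R := ZMod 2), ← C_add, this, C_0, zero_sub]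
  rw [e3, C_1, one_mul]
  ring

end DVR

end Pool.Agent.BSDFF
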