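import Pool.Agent.Lib.MP_48b749_nt.Descent3

set_option autoImplicit false

open Polynomial

namespace Pool.Agent.BSDFF

section points

variable {k : Type} [Field k]

lemma isSquare_of_algebraMap {P : k[X]} {z : RatFunc k}
    (h : z ^ 2 = algebraMap k[X] (RatFunc k) P) : IsSquare P := by
  obtain ⟨s, hs⟩ := IsIntegrallyClosed.exists_algebraMap_eq_of_isIntegral_pow
    (R := k[X]) (K := RatFunc k) (x := z) (n := 2) (by norm_num) (by
      rw [h]; exact isIntegral_algebraMap)
  refine ⟨s, ?_⟩
  apply RatFunc.algebraMap_injective (K := k)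
  rw [map_mul, ← pow_two, hs, h]

theorem no_point (a : k) {D : k[X]} (hD : D ≠ 0)
    (hin : ∀ π : k[X], Irreducible π → π ∣ D →
      ∀ r : AdjoinRoot π, r ^ 3 + AdjoinRoot.of π a * r ≠ AdjoinRoot.root π)
    (x y : RatFunc k) : ¬ (twist a D).toAffine.Equation x y := by
  intro h
  rw [WeierstrassCurve.Affine.equation_iff] at h
  have hD' : algebraMap k[X] (RatFunc k) D ≠ 0 := by
    intro h0
    exact hD (RatFunc.algebraMap_injective k (by rw [h0, map_zero]))
  have hV : (x / algebraMap k[X] (RatFunc k) D).denom ≠ 0 := RatFunc.denom_ne_zero _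
  have hcop := RatFunc.isCoprime_num_denom (x / algebraMap k[X] (RatFunc k) D)
  have hw := RatFunc.num_div_denom (x / algebraMap k[X] (RatFunc k) D)
  set U := (x / algebraMap k[X] (RatFunc k) D).num
  set V := (x / algebraMap k[X] (RatFunc k) D).denom
  have hV' : algebraMap k[X] (RatFunc k) V ≠ 0 := by
    intro h0
    exact hV (RatFunc.algebraMap_injective k (by rw [h0, map_zero]))
  refine no_solution a hD hin _ U V rfl hcop hV ?_
  apply isSquare_of_algebraMap (z := y * algebraMap k[X] (RatFunc k) V ^ 2 /
    algebraMap k[X] (RatFunc k) D)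
  have hx : x = algebraMap k[X] (RatFunc k) D * (algebraMap k[X] (RatFunc k) U /
      algebraMap k[X] (RatFunc k) V) := by
    rw [hw]; field_simp
  unfold FF
  simp only [map_mul, map_sub, map_add, map_pow]
  simp only [twist, map_neg, map_mul, map_pow, zero_mul, mul_zero, add_zero] at h
  rw [hx] at h
  generalize algebraMap k[X] (RatFunc k) U = u at *
  generalize algebraMap k[X] (RatFunc k) V = v at *
  generalize algebraMap k[X] (RatFunc k) D = d at *
  generalize algebraMap k[X] (RatFunc k) X = t at *
  generalize algebraMap k[X] (RatFunc k) (C a) = a' at *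
  field_simp at h ⊢
  linear_combination h

open Classical in
theorem point_eq_zero (a : k) {D : k[X]} (hD : D ≠ 0)
    (hin : ∀ π : k[X], Irreducible π → π ∣ D →
      ∀ r : AdjoinRoot π, r ^ 3 + AdjoinRoot.of π a * r ≠ AdjoinRoot.root π)
    (P : (twist a D).toAffine.Point) : P = 0 := by
  rcases P with _ | ⟨x, y, h⟩
  · rfl
  · exact absurd h.1 (no_point a hD hin x y)

theorem algebraicRank_eq_zero' (a : k) {D : k[X]} (hD : D ≠ 0)
    (hin : ∀ π : k[X], Irreducible π → π ∣ D →
      ∀ r : AdjoinRoot π, r ^ 3 + AdjoinRoot.of π a * r ≠ AdjoinRoot.root π) :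
    algebraicRank (twist a D) = 0 := by
  classical
  unfold algebraicRank
  have : Subsingleton (twist a D).toAffine.Point :=
    ⟨fun P Q => by rw [point_eq_zero a hD hin P, point_eq_zero a hD hin Q]⟩
  exact Module.finrank_zero_of_subsingleton

end points

end Pool.Agent.BSDFF
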