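import Pool.Agent.Lib.MP_48b749_nt.Split2

set_option autoImplicit false

open Polynomial

namespace Pool.Agent.BSDFF

section sieve

variable {k : Type} [Field k] [Finite k]

/-- monic polynomials of degree `m` with no divisor in `P` -/
def sifted (P : Finset k[X]) (m : ℕ) : Set k[X] :=
  {f | f.Monic ∧ f.natDegree = m ∧ ∀ π ∈ P, ¬ π ∣ f}

lemma card_monic (m : ℕ) : Nat.card {f : k[X] // f.Monic ∧ f.natDegree = m} = Nat.card k ^ m := by
  rw [Nat.card_congr (monicEquivDegreeLT m), Nat.card_congr (degreeLTEquiv k m).toEquiv,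
    Nat.card_fun, Nat.card_fin]

lemma finite_monic (m : ℕ) : {f : k[X] | f.Monic ∧ f.natDegree = m}.Finite := by
  have h1 : Finite {f : k[X] // f.Monic ∧ f.natDegree = m} :=
    Finite.of_equiv _ ((monicEquivDegreeLT m).trans (degreeLTEquiv k m).toEquiv).symm
  exact Set.finite_coe_iff.mp h1

lemma finite_sifted (P : Finset k[X]) (m : ℕ) : (sifted P m).Finite :=
  (finite_monic m).subset (fun f hf => ⟨hf.1, hf.2.1⟩)

lemma ncard_sifted_empty (m : ℕ) : (sifted (∅ : Finset k[X]) m).ncard = Nat.card k ^ m := by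
  rw [← card_monic m]
  have : sifted (∅ : Finset k[X]) m = {f : k[X] | f.Monic ∧ f.natDegree = m} := by
    ext f; simp [sifted]
  rw [this]
  rfl

open Classical in
lemma ncard_sifted_insert (P : Finset k[X]) (hP : ∀ π ∈ P, π.Monic ∧ Irreducible π) (π : k[X])
    (hπ : Irreducible π) (hm : π.Monic) (hn : π ∉ P) (m : ℕ) :
    (sifted P m).ncard = (sifted (insert π P) m).ncard +
      (if π.natDegree ≤ m then (sifted P (m - π.natDegree)).ncard else 0) := by
  split_ifs with h
  · have h1 : sifted P m = sifted (insert π P) m ∪ (fun g => π * g) '' sifted P (m - π.natDegree) := by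
      ext f
      constructor
      · rintro ⟨h1, h2, h3⟩
        by_cases hd : π ∣ f
        · right
          obtain ⟨g, rfl⟩ := hd
          have hg : g.Monic := hm.of_mul_monic_left h1
          refine ⟨g, ⟨hg, ?_, ?_⟩, rfl⟩
          · rw [hm.natDegree_mul hg] at h2
            omega
          · intro π' hπ' hdvd
            exact h3 π' hπ' (Dvd.dvd.mul_left hdvd π)
        · left
          refine ⟨h1, h2, ?_⟩
          intro π' hπ'
          rcases Finset.mem_insert.mp hπ' with rfl | h5
          · exact hd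
          · exact h3 π' h5
      · rintro (⟨h1, h2, h3⟩ | ⟨g, ⟨h1, h2, h3⟩, rfl⟩)
        · exact ⟨h1, h2, fun π' hπ' => h3 π' (Finset.mem_insert_of_mem hπ')⟩
        · refine ⟨hm.mul h1, ?_, ?_⟩
          · change (π * g).natDegree = m
            rw [hm.natDegree_mul h1, h2]
            omega
          · intro π' hπ' hdvd
            rcases (hP π' hπ').2.prime.dvd_or_dvd hdvd with h5 | h5
            · have h6 := (hP π' hπ').2.associated_of_dvd hπ h5
              have h7 := Polynomial.eq_of_monic_of_associated (hP π' hπ').1 hm h6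
              exact hn (h7 ▸ hπ')
            · exact h3 π' hπ' h5
    have h2 : Disjoint (sifted (insert π P) m) ((fun g => π * g) '' sifted P (m - π.natDegree)) := by
      rw [Set.disjoint_left]
      rintro f ⟨-, -, h3⟩ ⟨g, -, rfl⟩
      exact h3 π (Finset.mem_insert_self _ _) (Dvd.intro _ rfl)
    rw [h1, Set.ncard_union_eq h2 (finite_sifted _ _) ((finite_sifted _ _).image _),
      Set.ncard_image_of_injective _ (mul_right_injective₀ hπ.ne_zero)]
  · have h1 : sifted P m = sifted (insert π P) m := by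
      ext f
      constructor
      · rintro ⟨h1, h2, h3⟩
        refine ⟨h1, h2, ?_⟩
        intro π' hπ' hdvd
        rcases Finset.mem_insert.mp hπ' with rfl | h5
        · have := natDegree_le_of_dvd hdvd h1.ne_zero
          omega
        · exact h3 π' h5 hdvd
      · rintro ⟨h1, h2, h3⟩
        exact ⟨h1, h2, fun π' hπ' => h3 π' (Finset.mem_insert_of_mem hπ')⟩
    rw [h1, add_zero]

/-- generating function of the sifted sets -/
noncomputable def ZP (P : Finset k[X]) : PowerSeries ℤ := PowerSeries.mk fun m => ((sifted P m).ncard : ℤ)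

lemma ZP_eq (P : Finset k[X]) (hP : ∀ π ∈ P, π.Monic ∧ Irreducible π) :
    ZP P = (∏ π ∈ P, (1 - (PowerSeries.X : PowerSeries ℤ) ^ π.natDegree)) *
      ZP (∅ : Finset k[X]) := by
  classical
  induction P using Finset.induction_on with
  | empty => simp
  | insert π P hn ih =>
    have hP' : ∀ π ∈ P, π.Monic ∧ Irreducible π := fun π' h => hP π' (Finset.mem_insert_of_mem h)
    obtain ⟨hm, hπ⟩ := hP π (Finset.mem_insert_self _ _)
    rw [Finset.prod_insert hn, mul_assoc, ← ih hP', sub_mul, one_mul]
    ext m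
    rw [map_sub, PowerSeries.coeff_X_pow_mul']
    unfold ZP
    rw [PowerSeries.coeff_mk, PowerSeries.coeff_mk]
    have h := ncard_sifted_insert P hP' π hπ hm hn m
    split_ifs with h1
    · rw [if_pos h1] at h
      rw [PowerSeries.coeff_mk]
      push_cast [h]
      ring
    · rw [if_neg h1] at h
      push_cast [h]
      ring

lemma ZP_empty : ZP (∅ : Finset k[X]) * (1 - PowerSeries.C (Nat.card k : ℤ) * PowerSeries.X) = 1 := by
  ext m
  rw [mul_sub, mul_one, map_sub, ← mul_assoc, mul_comm (ZP ∅), mul_assoc, PowerSeries.coeff_C_mul]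
  cases m with
  | zero =>
    rw [PowerSeries.coeff_zero_mul_X, mul_zero, sub_zero, ZP, PowerSeries.coeff_mk, ncard_sifted_empty]
    simp
  | succ m =>
    rw [PowerSeries.coeff_succ_mul_X, ZP, PowerSeries.coeff_mk, PowerSeries.coeff_mk,
      ncard_sifted_empty, ncard_sifted_empty, PowerSeries.coeff_one, if_neg (Nat.succ_ne_zero m)]
    push_cast
    ring

variable (k) in
lemma finite_irr (n : ℕ) : {π : k[X] | π.Monic ∧ Irreducible π ∧ π.natDegree ≤ n}.Finite := by
  have h : {π : k[X] | π.Monic ∧ Irreducible π ∧ π.natDegree ≤ n} ⊆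
      ⋃ m ∈ Finset.range (n + 1), {f : k[X] | f.Monic ∧ f.natDegree = m} := by
    rintro π ⟨h1, -, h2⟩
    simp only [Set.mem_iUnion]
    exact ⟨π.natDegree, Finset.mem_range.mpr (by omega), h1, rfl⟩
  refine Set.Finite.subset ?_ h
  exact Set.Finite.biUnion (Finset.finite_toSet _) (fun m _ => finite_monic m)

variable (k) in
/-- the monic irreducible polynomials of degree at most `n` -/
noncomputable def irrLE (n : ℕ) : Finset k[X] := (finite_irr k n).toFinset

lemma mem_irrLE (n : ℕ) (π : k[X]) : π ∈ irrLE k n ↔ π.Monic ∧ Irreducible π ∧ π.natDegree ≤ n := by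
  unfold irrLE
  rw [Set.Finite.mem_toFinset]
  rfl

lemma sifted_irrLE (n m : ℕ) (hm : m ≤ n) :
    ((sifted (irrLE k n) m).ncard : ℤ) = PowerSeries.coeff m (1 : PowerSeries ℤ) := by
  rw [PowerSeries.coeff_one]
  rcases Nat.eq_zero_or_pos m with rfl | hpos
  · rw [if_pos rfl]
    have : sifted (irrLE k n) 0 = {1} := by
      ext f
      constructor
      · rintro ⟨h1, h2, -⟩
        exact h1.natDegree_eq_zero.mp h2
      · rintro rfl
        refine ⟨monic_one, natDegree_one, ?_⟩
        intro π hπ hdvd
        exact ((mem_irrLE n π).mp hπ).2.1.not_isUnit (isUnit_of_dvd_one hdvd)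
    rw [this, Set.ncard_singleton]
    rfl
  · rw [if_neg (by omega)]
    have : sifted (irrLE k n) m = ∅ := by
      rw [Set.eq_empty_iff_forall_notMem]
      rintro f ⟨h1, h2, h3⟩
      have hnu : ¬ IsUnit f := by
        intro h
        have := natDegree_eq_zero_of_isUnit h
        omega
      obtain ⟨g, hg, hgf⟩ := WfDvdMonoid.exists_irreducible_factor hnu h1.ne_zero
      classical
      have hgm : (normalize g).Monic := monic_normalize hg.ne_zero
      have hgi : Irreducible (normalize g) := (associated_normalize g).irreducible_iff.mp hg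
      have hgd : normalize g ∣ f := (associated_normalize g).dvd_iff_dvd_left.mp hgf
      exact h3 _ ((mem_irrLE n _).mpr ⟨hgm, hgi, (natDegree_le_of_dvd hgd h1.ne_zero).trans
        (by omega)⟩) hgd
    rw [this, Set.ncard_empty]
    rfl

/-- the Euler product of `k[t]` -/
theorem euler_prod (n m : ℕ) (hm : m ≤ n) :
    PowerSeries.coeff m (∏ π ∈ irrLE k n, (1 - (PowerSeries.X : PowerSeries ℤ) ^ π.natDegree)) =
      PowerSeries.coeff m (1 - PowerSeries.C (Nat.card k : ℤ) * PowerSeries.X) := by
  have h1 := ZP_eq (irrLE k n) (fun π hπ => ⟨((mem_irrLE n π).mp hπ).1, ((mem_irrLE n π).mp hπ).2.1⟩)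
  have h2 := ZP_empty (k := k)
  have h3 : ∏ π ∈ irrLE k n, (1 - (PowerSeries.X : PowerSeries ℤ) ^ π.natDegree) =
      ZP (irrLE k n) * (1 - PowerSeries.C (Nat.card k : ℤ) * PowerSeries.X) := by
    rw [h1, mul_assoc, h2, mul_one]
  rw [h3]
  conv_rhs => rw [← one_mul (1 - PowerSeries.C (Nat.card k : ℤ) * PowerSeries.X)]
  rw [PowerSeries.coeff_mul, PowerSeries.coeff_mul]
  apply Finset.sum_congr rfl
  intro p hp
  have hp' : p.1 ≤ m := by
    have := Finset.HasAntidiagonal.mem_antidiagonal.mp hp
    omega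
  congr 1
  rw [ZP, PowerSeries.coeff_mk, sifted_irrLE n p.1 (hp'.trans hm)]

end sieve

end Pool.Agent.BSDFF
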