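import Pool.Agent.Lib.MP_48b749_nt.CurveInf

set_option autoImplicit false

open Polynomial

namespace Pool.Agent.BSDFF

section split

variable {k : Type} [Field k]

/-- `x^3 + a x` -/
noncomputable def ff (a : k) : k[X] := X ^ 3 + C a * X

lemma ff_monic (a : k) : (ff a).Monic := by
  unfold ff
  monicity!

lemma ff_natDegree (a : k) : (ff a).natDegree = 3 := by
  unfold ff
  compute_degree!

lemma aeval_ff {L : Type} [Field L] [Algebra k L] (a : k) (x : L) :
    aeval x (ff a) = x ^ 3 + algebraMap k L a * x := by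
  simp [ff]

lemma comp_natDegree (a : k) (π : k[X]) : (π.comp (ff a)).natDegree = 3 * π.natDegree := by
  rw [natDegree_comp, ff_natDegree, mul_comm]

lemma comp_monic (a : k) (π : k[X]) (h : π.Monic) : (π.comp (ff a)).Monic :=
  h.comp (ff_monic a) (by rw [ff_natDegree]; norm_num)

/-- for a prime `q` of `k[x]` over `π`, the degree of `π` divides that of `q` -/
lemma natDegree_dvd (a : k) {π q : k[X]} (hπ : Irreducible π) (hm : π.Monic) (hq : Irreducible q)
    (h : q ∣ π.comp (ff a)) : π.natDegree ∣ q.natDegree := by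
  have : Fact (Irreducible q) := ⟨hq⟩
  have hfin : Module.Finite k (AdjoinRoot q) := (AdjoinRoot.powerBasis hq.ne_zero).finite
  have h1 : aeval (aeval (AdjoinRoot.root q) (ff a)) π = 0 := by
    rw [← aeval_comp]
    obtain ⟨g, hg⟩ := h
    rw [hg, map_mul]
    have : aeval (AdjoinRoot.root q) q = 0 := by
      rw [AdjoinRoot.aeval_eq, AdjoinRoot.mk_self]
    rw [this, zero_mul]
  have h2 := minpoly.eq_of_irreducible_of_monic hπ h1 hm
  have h3 : (minpoly k (aeval (AdjoinRoot.root q) (ff a))).natDegree ∣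
      Module.finrank k (AdjoinRoot q) := minpoly.degree_dvd (IsIntegral.of_finite k _)
  rwa [← h2, (AdjoinRoot.powerBasis hq.ne_zero).finrank, AdjoinRoot.powerBasis_dim] at h3

/-- the roots of `r^3 + a r = t` in `k[t]/(π)` correspond to the primes of `k[x]` over `π` of the
same degree -/
lemma nRoots_eq [Finite k] (a : k) {π : k[X]} (hπ : Irreducible π) (hm : π.Monic) :
    nRoots a π = Nat.card {q : k[X] // q.Monic ∧ Irreducible q ∧ q ∣ π.comp (ff a) ∧
      q.natDegree = π.natDegree} := by
  have : Fact (Irreducible π) := ⟨hπ⟩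
  have hfin : Module.Finite k (AdjoinRoot π) := (AdjoinRoot.powerBasis hπ.ne_zero).finite
  have hfr : Module.finrank k (AdjoinRoot π) = π.natDegree := by
    rw [(AdjoinRoot.powerBasis hπ.ne_zero).finrank, AdjoinRoot.powerBasis_dim]
  have hroot : aeval (AdjoinRoot.root π) π = 0 := by
    rw [AdjoinRoot.aeval_eq, AdjoinRoot.mk_self]
  have hr : ∀ r : {r : AdjoinRoot π // r ^ 3 + AdjoinRoot.of π a * r = AdjoinRoot.root π},
      aeval r.1 (ff a) = AdjoinRoot.root π := by
    intro r
    rw [aeval_ff]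
    exact r.2
  have hmin_dvd : ∀ r : {r : AdjoinRoot π // r ^ 3 + AdjoinRoot.of π a * r = AdjoinRoot.root π},
      minpoly k r.1 ∣ π.comp (ff a) := by
    intro r
    apply minpoly.dvd
    rw [aeval_comp, hr r, hroot]
  have hmin_irr : ∀ r : AdjoinRoot π, Irreducible (minpoly k r) := fun r =>
    minpoly.irreducible (IsIntegral.of_finite k r)
  have hmin_deg : ∀ r : {r : AdjoinRoot π // r ^ 3 + AdjoinRoot.of π a * r = AdjoinRoot.root π},
      (minpoly k r.1).natDegree = π.natDegree := by
    intro r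
    apply Nat.dvd_antisymm
    · rw [← hfr]
      exact minpoly.degree_dvd (IsIntegral.of_finite k r.1)
    · exact natDegree_dvd a hπ hm (hmin_irr r.1) (hmin_dvd r)
  unfold nRoots
  apply Nat.card_congr
  refine Equiv.ofBijective (fun r => ⟨minpoly k r.1, minpoly.monic (IsIntegral.of_finite k r.1),
    hmin_irr r.1, hmin_dvd r, hmin_deg r⟩) ⟨?_, ?_⟩
  · intro r r' h
    have h1 : minpoly k r.1 = minpoly k r'.1 := congrArg Subtype.val h
    obtain ⟨p, hp⟩ := AdjoinRoot.mk_surjective (g := π) r.1
    have hp' : aeval (AdjoinRoot.root π) p = r.1 := by rw [AdjoinRoot.aeval_eq, hp]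
    have h2 : aeval r.1 (X - p.comp (ff a)) = 0 := by
      rw [map_sub, aeval_X, aeval_comp, hr r, hp', sub_self]
    have h3 : minpoly k r'.1 ∣ X - p.comp (ff a) := by
      rw [← h1]; exact minpoly.dvd _ _ h2
    have h4 : aeval r'.1 (X - p.comp (ff a)) = 0 := by
      obtain ⟨g, hg⟩ := h3
      rw [hg, map_mul, minpoly.aeval, zero_mul]
    rw [map_sub, aeval_X, aeval_comp, hr r', hp', sub_eq_zero] at h4
    exact Subtype.ext h4.symm
  · rintro ⟨q, hqm, hqi, hqd, hqdeg⟩
    have : Fact (Irreducible q) := ⟨hqi⟩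
    have hfinq : Module.Finite k (AdjoinRoot q) := (AdjoinRoot.powerBasis hqi.ne_zero).finite
    have hfrq : Module.finrank k (AdjoinRoot q) = q.natDegree := by
      rw [(AdjoinRoot.powerBasis hqi.ne_zero).finrank, AdjoinRoot.powerBasis_dim]
    have h1 : aeval (aeval (AdjoinRoot.root q) (ff a)) π = 0 := by
      rw [← aeval_comp]
      obtain ⟨g, hg⟩ := hqd
      rw [hg, map_mul]
      have : aeval (AdjoinRoot.root q) q = 0 := by
        rw [AdjoinRoot.aeval_eq, AdjoinRoot.mk_self]
      rw [this, zero_mul]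
    let ψ : AdjoinRoot π →ₐ[k] AdjoinRoot q :=
      AdjoinRoot.liftAlgHom π (Algebra.ofId k _) (aeval (AdjoinRoot.root q) (ff a)) (by
        rw [← h1]; rfl)
    have hψ : ψ (AdjoinRoot.root π) = aeval (AdjoinRoot.root q) (ff a) := by
      simp [ψ]
    have hinj : Function.Injective ψ := RingHom.injective ψ.toRingHom
    have hsurj : Function.Surjective ψ := by
      have h2 : Function.Injective ψ.toLinearMap := hinj
      have h3 := (LinearMap.injective_iff_surjective_of_finrank_eq_finrank (f := ψ.toLinearMap)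
        (by rw [hfr, hfrq, hqdeg])).mp h2
      exact h3
    obtain ⟨r, hrx⟩ := hsurj (AdjoinRoot.root q)
    have hfr2 : r ^ 3 + AdjoinRoot.of π a * r = AdjoinRoot.root π := by
      apply hinj
      rw [hψ, aeval_ff, map_add, map_mul, map_pow, hrx]
      congr 2
      exact ψ.commutes a
    refine ⟨⟨r, hfr2⟩, ?_⟩
    apply Subtype.ext
    change minpoly k r = q
    rw [← minpoly.algHom_eq ψ hinj r, hrx]
    rw [eq_comm]
    apply minpoly.eq_of_irreducible_of_monic hqi _ hqm
    rw [AdjoinRoot.aeval_eq, AdjoinRoot.mk_self]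

end split

end Pool.Agent.BSDFF
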