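import Pool.Agent.Lib.MP_48b749_nt.Split

set_option autoImplicit false

open Polynomial UniqueFactorizationMonoid

namespace Pool.Agent.BSDFF

section split

variable {k : Type} [Field k]

open Classical in
/-- the primes of `k[x]` over `π` -/
noncomputable def primesOver (a : k) (π : k[X]) : Finset k[X] :=
  (normalizedFactors (π.comp (ff a))).toFinset

lemma comp_ne_zero (a : k) {π : k[X]} (hm : π.Monic) : π.comp (ff a) ≠ 0 :=
  (comp_monic a π hm).ne_zero

open Classical in
lemma mem_factors_iff (a : k) {π : k[X]} (hm : π.Monic) (q : k[X]) :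
    q ∈ normalizedFactors (π.comp (ff a)) ↔ q.Monic ∧ Irreducible q ∧ q ∣ π.comp (ff a) := by
  rw [mem_normalizedFactors_iff' (comp_ne_zero a hm)]
  constructor
  · rintro ⟨h1, h2, h3⟩
    refine ⟨?_, h1, h3⟩
    rw [← h2]
    exact Polynomial.monic_normalize h1.ne_zero
  · rintro ⟨h1, h2, h3⟩
    exact ⟨h2, h1.normalize_eq_self, h3⟩

lemma mem_primesOver_iff (a : k) {π : k[X]} (hm : π.Monic) (q : k[X]) :
    q ∈ primesOver a π ↔ q.Monic ∧ Irreducible q ∧ q ∣ π.comp (ff a) := by
  classical
  unfold primesOver
  rw [Multiset.mem_toFinset, mem_factors_iff a hm]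

open Classical in
lemma prod_factors (a : k) {π : k[X]} (hm : π.Monic) :
    (normalizedFactors (π.comp (ff a))).prod = π.comp (ff a) := by
  rw [prod_normalizedFactors_eq (comp_ne_zero a hm), (comp_monic a π hm).normalize_eq_self]

open Classical in
lemma sum_natDegree (a : k) {π : k[X]} (hm : π.Monic) :
    ((normalizedFactors (π.comp (ff a))).map natDegree).sum = 3 * π.natDegree := by
  rw [← comp_natDegree a π]
  conv_rhs => rw [← prod_factors a hm]
  rw [natDegree_multiset_prod_of_monic]
  intro f hf
  exact ((mem_factors_iff a hm f).mp hf).1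

lemma nRoots_eq_card [Finite k] (a : k) {π : k[X]} (hπ : Irreducible π) (hm : π.Monic) :
    nRoots a π = ((primesOver a π).filter (fun q => q.natDegree = π.natDegree)).card := by
  classical
  rw [nRoots_eq a hπ hm]
  apply Nat.subtype_card
  intro q
  rw [Finset.mem_filter, mem_primesOver_iff a hm]
  tauto

/-- no prime of `k[x]` over `π` has its cube equal to `π(x^3+ax)` -/
lemma no_cube [Finite k] (h2 : (2 : k) ≠ 0) (h3 : (3 : k) ≠ 0) (a : k) (ha : a ≠ 0) {π q : k[X]}
    (hπ : Irreducible π) (hq : Irreducible q) (h : π.comp (ff a) = q ^ 3) : False := by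
  have : Fact (Irreducible q) := ⟨hq⟩
  set x := AdjoinRoot.root q with hx
  have hx0 : aeval x q = 0 := by rw [AdjoinRoot.aeval_eq, AdjoinRoot.mk_self]
  set y := aeval x (ff a) with hy
  have hg0 : aeval y π = 0 := by rw [hy, ← aeval_comp, h, map_pow, hx0]; ring
  have hsep : π.Separable := PerfectField.separable_of_irreducible hπ
  have hy' : aeval y (derivative π) ≠ 0 := by
    obtain ⟨u, v, huv⟩ := hsep
    intro h5
    have := congrArg (aeval y) huv
    rw [map_add, map_mul, map_mul, hg0, h5, mul_zero, mul_zero, add_zero, map_one] at this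
    exact zero_ne_one this
  have d1 : derivative (ff a) * (derivative π).comp (ff a) = derivative (q ^ 3) := by
    rw [← h, derivative_comp]
  have e1 : aeval x (derivative (ff a)) * aeval y (derivative π) = 0 := by
    have := congrArg (aeval x) d1
    rw [map_mul, aeval_comp, ← hy] at this
    rw [this, derivative_pow]
    simp [hx0]
  have f1 : aeval x (derivative (ff a)) = 0 := (mul_eq_zero.mp e1).resolve_right hy'
  have d2 := congrArg derivative d1
  rw [derivative_mul, derivative_comp] at d2
  have e2 : aeval x (derivative (derivative (ff a))) * aeval y (derivative π) = 0 := by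
    have := congrArg (aeval x) d2
    rw [map_add, map_mul, map_mul, f1, zero_mul, add_zero, aeval_comp, ← hy] at this
    rw [this, derivative_pow, derivative_mul, derivative_mul, derivative_pow]
    simp [hx0]
  have f2 : aeval x (derivative (derivative (ff a))) = 0 := (mul_eq_zero.mp e2).resolve_right hy'
  have g1 : derivative (ff a) = 3 * X ^ 2 + C a := by
    have h23 : (C 2 + 1 : k[X]) = 3 := by rw [C_ofNat]; norm_num
    simp [ff, h23]
  have g2 : derivative (derivative (ff a)) = C 6 * X := by
    rw [g1]
    have : (3 : k[X]) = C 3 := by rw [C_ofNat]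
    rw [this, derivative_add, derivative_C, derivative_C_mul, derivative_X_sq, add_zero, ← mul_assoc,
      ← C_mul]
    norm_num
  rw [g2] at f2
  rw [g1] at f1
  have h6 : (6 : AdjoinRoot q) ≠ 0 := by
    have : (6 : AdjoinRoot q) = algebraMap k (AdjoinRoot q) (2 * 3) := by
      rw [map_mul, map_ofNat, map_ofNat]; norm_num
    rw [this, ne_eq, FaithfulSMul.algebraMap_eq_zero_iff]
    exact mul_ne_zero h2 h3
  have hxz : x = 0 := by
    rw [map_mul, aeval_C, aeval_X, map_ofNat] at f2
    exact (mul_eq_zero.mp f2).resolve_left h6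
  rw [hxz] at f1
  simp at f1
  exact ha f1

/-- the product of the Euler factors of the primes over `π`, modulo 2 -/
theorem prod_primesOver [Finite k] (h2 : (2 : k) ≠ 0) (h3 : (3 : k) ≠ 0) (a : k) (ha : a ≠ 0)
    {π : k[X]} (hπ : Irreducible π) (hm : π.Monic) :
    (nRoots a π = 0 ∧ ∏ q ∈ primesOver a π, (1 + (X : (ZMod 2)[X]) ^ q.natDegree) =
        1 + X ^ (3 * π.natDegree) ∧ Irreducible (π.comp (ff a))) ∨
    (nRoots a π = 1 ∧ ∏ q ∈ primesOver a π, (1 + (X : (ZMod 2)[X]) ^ q.natDegree) =
        (1 + X ^ π.natDegree) ^ 3) ∨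
    (nRoots a π = 2 ∧ ∏ q ∈ primesOver a π, (1 + (X : (ZMod 2)[X]) ^ q.natDegree) =
        (1 + X ^ π.natDegree) ^ 2) ∨
    (nRoots a π = 3 ∧ ∏ q ∈ primesOver a π, (1 + (X : (ZMod 2)[X]) ^ q.natDegree) =
        (1 + X ^ π.natDegree) ^ 3) := by
  classical
  set d := π.natDegree with hd
  have hdpos : 0 < d := hπ.natDegree_pos
  set M := normalizedFactors (π.comp (ff a)) with hM
  have hprod : M.prod = π.comp (ff a) := prod_factors a hm
  have hsum : (M.map natDegree).sum = 3 * d := sum_natDegree a hm
  have hover : primesOver a π = M.toFinset := rfl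
  have hdeg : ∀ q ∈ M, ∃ e, 1 ≤ e ∧ q.natDegree = d * e := by
    intro q hq
    obtain ⟨h4, h5, h6⟩ := (mem_factors_iff a hm q).mp hq
    obtain ⟨e, he⟩ := natDegree_dvd a hπ hm h5 h6
    refine ⟨e, ?_, he⟩
    rcases Nat.eq_zero_or_pos e with h | h
    · rw [h, mul_zero] at he
      exact absurd he (Nat.pos_iff_ne_zero.mp h5.natDegree_pos)
    · exact h
  have hn := nRoots_eq_card a hπ hm
  rw [hover] at hn ⊢
  -- the cardinality of M
  have hcard : Multiset.card M ≤ 3 := by
    have h4 : Multiset.card (M.map natDegree) • d ≤ (M.map natDegree).sum := by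
      apply Multiset.card_nsmul_le_sum
      intro x hx
      obtain ⟨q, hq, rfl⟩ := Multiset.mem_map.mp hx
      obtain ⟨e, he1, he2⟩ := hdeg q hq
      rw [he2]
      exact Nat.le_mul_of_pos_right d he1
    rw [Multiset.card_map, hsum, smul_eq_mul] at h4
    exact Nat.le_of_mul_le_mul_right h4 hdpos
  have hcardpos : Multiset.card M ≠ 0 := by
    intro h
    rw [Multiset.card_eq_zero] at h
    rw [h] at hsum
    simp at hsum
    omega
  have e2 : (1 + (X : (ZMod 2)[X]) ^ d) * (1 + X ^ (2 * d)) = (1 + X ^ d) ^ 3 := by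
    have h4 : (2 : (ZMod 2)[X]) = 0 := by
      have : (2 : (ZMod 2)[X]) = C 2 := by rw [C_ofNat]
      rw [this]
      have : (2 : ZMod 2) = 0 := by decide
      rw [this, C_0]
    rw [mul_comm 2 d, pow_mul]
    linear_combination (-(X ^ d + X ^ (d * 2) : (ZMod 2)[X])) * h4
  interval_cases hc : Multiset.card M
  · exact absurd rfl hcardpos
  · -- one prime, inert
    left
    obtain ⟨q, hq⟩ := Multiset.card_eq_one.mp hc
    rw [hq] at hsum hprod hn ⊢
    simp only [Multiset.map_singleton, Multiset.sum_singleton] at hsum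
    simp only [Multiset.prod_singleton] at hprod
    refine ⟨?_, ?_, ?_⟩
    · rw [hn, Multiset.toFinset_singleton, Finset.filter_singleton, if_neg (by omega)]
      rfl
    · rw [Multiset.toFinset_singleton, Finset.prod_singleton, hsum]
    · rw [← hprod]
      exact ((mem_factors_iff a hm q).mp (by rw [← hM, hq]; exact Multiset.mem_singleton_self q)).2.1
  · -- two primes
    right; left
    obtain ⟨q1, q2, hq⟩ := Multiset.card_eq_two.mp hc
    obtain ⟨e1, h1a, h1b⟩ := hdeg q1 (by rw [hq]; simp)
    obtain ⟨e2', h2a, h2b⟩ := hdeg q2 (by rw [hq]; simp)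
    rw [hq] at hsum hn ⊢
    have hs : e1 + e2' = 3 := by
      have : d * (e1 + e2') = d * 3 := by
        simp only [Multiset.insert_eq_cons, Multiset.map_cons, Multiset.map_singleton,
          Multiset.sum_cons, Multiset.sum_singleton] at hsum
        rw [mul_add, ← h1b, ← h2b, hsum]; ring
      exact Nat.eq_of_mul_eq_mul_left hdpos this
    have hto : ({q1, q2} : Multiset k[X]).toFinset = {q1, q2} := by
      ext; simp
    rw [hto] at hn ⊢
    have hcases : (e1 = 1 ∧ e2' = 2) ∨ (e1 = 2 ∧ e2' = 1) := by omega
    rcases hcases with ⟨ha1, ha2⟩ | ⟨ha1, ha2⟩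
    · rw [ha1, mul_one] at h1b
      rw [ha2] at h2b
      have hne : q1 ≠ q2 := by
        intro h
        rw [h] at h1b
        omega
      refine ⟨?_, ?_⟩
      · rw [hn, Finset.filter_insert, if_pos h1b, Finset.filter_singleton, if_neg (by omega)]
        rfl
      · rw [Finset.prod_pair hne, h1b, h2b, mul_comm d 2, e2]
    · rw [ha2, mul_one] at h2b
      rw [ha1] at h1b
      have hne : q1 ≠ q2 := by
        intro h
        rw [h] at h1b
        omega
      refine ⟨?_, ?_⟩
      · rw [hn, Finset.filter_insert, if_neg (by omega), Finset.filter_singleton, if_pos h2b]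
        rfl
      · rw [Finset.prod_pair hne, h1b, h2b, mul_comm d 2, mul_comm, e2]
  · -- three primes of the same degree
    right
    obtain ⟨q1, q2, q3, hq⟩ := Multiset.card_eq_three.mp hc
    obtain ⟨e1, h1a, h1b⟩ := hdeg q1 (by rw [hq]; simp)
    obtain ⟨e2', h2a, h2b⟩ := hdeg q2 (by rw [hq]; simp)
    obtain ⟨e3, h3a, h3b⟩ := hdeg q3 (by rw [hq]; simp)
    have hs : e1 + e2' + e3 = 3 := by
      have : d * (e1 + e2' + e3) = d * 3 := by
        rw [hq] at hsum
        simp only [Multiset.insert_eq_cons, Multiset.map_cons, Multiset.map_singleton,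
          Multiset.sum_cons, Multiset.sum_singleton] at hsum
        rw [mul_add, mul_add, ← h1b, ← h2b, ← h3b]
        omega
      exact Nat.eq_of_mul_eq_mul_left hdpos this
    have he1 : e1 = 1 := by omega
    have he2 : e2' = 1 := by omega
    have he3 : e3 = 1 := by omega
    rw [he1, mul_one] at h1b
    rw [he2, mul_one] at h2b
    rw [he3, mul_one] at h3b
    have hall : ∀ q ∈ M.toFinset, q.natDegree = d := by
      intro q hq'
      rw [Multiset.mem_toFinset, hq] at hq'
      simp only [Multiset.insert_eq_cons, Multiset.mem_cons, Multiset.mem_singleton] at hq'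
      rcases hq' with rfl | rfl | rfl
      · exact h1b
      · exact h2b
      · exact h3b
    have hP : ∏ q ∈ M.toFinset, (1 + (X : (ZMod 2)[X]) ^ q.natDegree) =
        (1 + X ^ d) ^ M.toFinset.card := by
      rw [Finset.prod_congr rfl (fun q hq' => by rw [hall q hq']), Finset.prod_const]
    have hn' : nRoots a π = M.toFinset.card := by
      rw [hn, Finset.filter_true_of_mem hall]
    rw [hP, hn']
    have hle : M.toFinset.card ≤ 3 := by
      rw [← hc]; exact Multiset.toFinset_card_le M
    have hne0 : M.toFinset.card ≠ 0 := by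
      intro h
      rw [Finset.card_eq_zero] at h
      have : q1 ∈ M.toFinset := by rw [Multiset.mem_toFinset, hq]; simp
      rw [h] at this
      simp at this
    have hne1 : M.toFinset.card ≠ 1 := by
      intro h
      obtain ⟨q, hq'⟩ := Finset.card_eq_one.mp h
      have hmem : ∀ q' ∈ M, q' = q := by
        intro q' hq''
        have : q' ∈ M.toFinset := Multiset.mem_toFinset.mpr hq''
        rw [hq'] at this
        exact Finset.mem_singleton.mp this
      have hr : M = Multiset.replicate 3 q := Multiset.eq_replicate.mpr ⟨hc, hmem⟩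
      have hq3 : π.comp (ff a) = q ^ 3 := by
        rw [← hprod, hr, Multiset.prod_replicate]
      have hqM : q ∈ M := by rw [hr]; simp
      exact no_cube h2 h3 a ha hπ ((mem_factors_iff a hm q).mp hqM).2.1 hq3
    have h4 : M.toFinset.card = 2 ∨ M.toFinset.card = 3 := by omega
    rcases h4 with h4 | h4
    · right; left
      rw [h4]; exact ⟨rfl, rfl⟩
    · right; right
      rw [h4]; exact ⟨rfl, rfl⟩

end split

end Pool.Agent.BSDFF
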