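import Pool.Agent.Lib.MP_48b749_nt.Three.FamEx

set_option autoImplicit false

open Polynomial Pool.Agent.BSDFF Pool.Agent.BSDFF.Three

namespace Pool.Agent.Results.MP_48b749_nt.ThreeTorsion

/-- `q` is odd and `q ≡ 2 mod 3`. -/
def GoodField (k : Type) [Field k] [Finite k] : Prop :=
  (2 : k) ≠ 0 ∧ (3 : k) ≠ 0 ∧ Nat.card k % 3 = 2

/-- `D = a³ - 27 b`. -/
noncomputable def disc {k : Type} [Field k] {n : ℕ} (a : k[X]) (κ : k) (r : Fin n → k) : k[X] :=
  a ^ 3 - 27 * bOf κ r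

/-- The pull-back by `u` of the curve `y² + a x y + b y = x³`, `b = κ ∏ (t - r i)`. -/
noncomputable def pull {k : Type} [Field k] {n : ℕ} (a : k[X]) (κ : k) (r : Fin n → k) (u : k[X]) :
    WeierstrassCurve (RatFunc k) :=
  E3 (a.comp u) ((bOf κ r).comp u)

/-- The rank of the curve `y² + a x y + b y = x³`, `b = κ ∏ (t - r i)`, is at least
`ρ = maxRank n a`. -/
def Maximal {k : Type} [Field k] {n : ℕ} (a : k[X]) (κ : k) (r : Fin n → k) : Prop :=
  κ ≠ 0 ∧ Function.Injective r ∧ (∃ i, a.eval (r i) ≠ 0) ∧ disc a κ r ≠ 0 ∧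
    maxRank n a ≤ algebraicRank (E3 a (bOf κ r))

/-- Part 1. -/
def PullBacks (k : Type) [Field k] [Finite k] : Prop :=
  ∀ (n : ℕ) (r : Fin n → k) (κ : k) (a : k[X]), Maximal a κ r →
    ∀ u : k[X], Admissible3 r (disc a κ r) u → RankIs k (pull a κ r u) (maxRank n a)

/-- Part 2. -/
def Towers (k : Type) [Field k] [Finite k] : Prop :=
  ∀ (n : ℕ) (r : Fin n → k) (D : k[X]), D ≠ 0 →
    (∀ π : k[X], Irreducible π → π ∣ D → Odd π.natDegree) → (∀ i, r i ≠ 0) →
    ∀ l : ℕ, l.Prime → 5 ≤ l → n < l → l ∣ Nat.card k - 1 →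
      ∃ γ : k, γ ≠ 0 ∧ ∀ N : ℕ, Admissible3 r D (C γ * X ^ l ^ N)

/-- Part 3. -/
def FamilyThree (k : Type) [Field k] [Finite k] : Prop :=
  ∀ r s t : k, r * s * t = 1 → k3 r s t ≠ 0 → Function.Injective (root3 r s t) →
    ∀ u : k[X], Admissible3 (root3 r s t) (disc (a3 r s t) (k3 r s t) (root3 r s t)) u →
      RankIs k (pull (a3 r s t) (k3 r s t) (root3 r s t) u) 3

/-- `u = γ t ^ (5 ^ N)` for some `γ ≠ 0` and all `N`. -/
def InTower (k : Type) [Field k] (P : k[X] → Prop) : Prop :=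
  ∃ γ : k, γ ≠ 0 ∧ ∀ N : ℕ, ∀ u : k[X], u = C γ * X ^ 5 ^ N → P u

/-- Part 4. -/
def Char101 (k : Type) [Field k] [Finite k] : Prop :=
  (101 : k) = 0 → InTower k fun u => RankIs k (E3 (2 * u ^ 2 + 88 * u + 5 : k[X])
    (-2 * ((u - 10) * (u - 15) * (u - 33) * (u - 58)) : k[X])) 3

/-- Part 5. -/
def Char11 (k : Type) [Field k] [Finite k] : Prop :=
  (11 : k) = 0 → InTower k fun u => RankIs k (E3 (u ^ 2 + 6 : k[X])
    (u ^ 8 + u ^ 6 + u ^ 4 + u ^ 2 + 1 : k[X])) 7

/-- Elliptic curves `E(a, b) : y² + a x y + b y = x³` over `k(t)`, `k` a finite field with `q`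
elements, `q ≡ 2 mod 3`, `q` odd. For `b = κ ∏ (t - r i)` with `n` distinct roots let `ρ = maxRank`,
that is, `n - 2` if `3 ∣ n` and `3 deg a ≤ n`, and `n - 1` otherwise.

1. If the rank of `E(a, b)` is at least `ρ`, then for every admissible `u` the curve
   `E(a(u), b(u))` has rank `ρ` and its `L`-function vanishes to order at most `ρ` at `1/q`.
2. If the prime factors of `a³ - 27 b` have odd degree, `b(0) ≠ 0`, and `l > n`, `l ≥ 5` is a prime
   divisor of `q - 1`, then `u = γ t ^ (l ^ N)` is admissible for a suitable `γ ≠ 0` and all `N`.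
3. The hypothesis of 1 holds with `ρ = 3` for the two-parameter family `a3`, `k3`, `root3`,
   `r s t = 1`.
4. A member of this family in characteristic `101` to which 2 applies.
5. A curve with `ρ = 7` in characteristic `11` to which 1 and 2 apply. -/
theorem result (k : Type) [Field k] [Finite k] (hk : GoodField k) :
    PullBacks k ∧ Towers k ∧ FamilyThree k ∧ Char101 k ∧ Char11 k := by
  obtain ⟨h2, h3, hq⟩ := hk
  refine ⟨?_, ?_, ?_, ?_, ?_⟩
  · intro n r κ a hm u hu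
    obtain ⟨hκ, hr, ha, hc, hrank⟩ := hm
    exact pullback_final h2 h3 hq hκ hr a ha hc hrank hu
  · intro n r D hD hodd hr0 l hl hl5 hln hlq
    exact tower_final hD hodd hr0 hl hl5 hln hlq
  · intro r s t h hk hr u hu
    exact family3 h2 h3 hq h hk hr hu
  · intro h
    exact family3_ex h hq
  · intro h
    exact family7 h hq

end Pool.Agent.Results.MP_48b749_nt.ThreeTorsion
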