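import Pool.Agent.Lib.MP_48b749_nt.LegFinal

set_option autoImplicit false

open Polynomial Pool.Agent.BSDFF

namespace Pool.Agent.BSDFF.UnboundedRank

open Classical in
/-- Let `p ≥ 5` be a prime, `f ≥ 1`, and let `k` be a finite field of characteristic `p` containing
the `(p ^ f + 1)`-th roots of unity. Let `u ∈ k[t]` be of odd degree such that `u` and all `u - c`,
`c ^ (p ^ f + 1) = 1`, are irreducible. Then the curve `E : y ^ 2 = x (x + 1) (x + u ^ (p ^ f + 1))`
over `K = k(t)` is a non-isotrivial elliptic curve, `E(K)` is finitely generated of rank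
`p ^ f - 1`, and the order of vanishing of `L(T, E)` at `1/q` is at most `p ^ f - 1`. Such `u` of
unbounded degree (not of the form `c (t - b) ^ n`) exist for all `p` and `f`. -/
theorem result :
    (∀ (p f : ℕ) (k : Type) [Field k] [Finite k] [CharP k p], p.Prime → 5 ≤ p → 1 ≤ f →
      (p ^ f + 1) ∣ Nat.card k - 1 → ∀ u : k[X], Admissible p f u →
        (legendre (u ^ (p ^ f + 1))).Δ ≠ 0 ∧
        (∀ c : k, (legendre (u ^ (p ^ f + 1))).c₄ ^ 3 ≠
          algebraMap k (RatFunc k) c * (legendre (u ^ (p ^ f + 1))).Δ) ∧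
        AddGroup.FG (legendre (u ^ (p ^ f + 1))).toAffine.Point ∧
        algebraicRank (legendre (u ^ (p ^ f + 1))) = p ^ f - 1 ∧
        analyticRank k (legendre (u ^ (p ^ f + 1))) ≤ p ^ f - 1 ∧
        ∀ (n : ℕ) (g : ℤ[X]),
          (((1 - C (Nat.card k : ℤ) * X) ^ n * g : ℤ[X]) : PowerSeries ℤ) =
            LSeries k (legendre (u ^ (p ^ f + 1))) → n ≤ p ^ f - 1) ∧
    (∀ (p f : ℕ), p.Prime → 5 ≤ p → 1 ≤ f →
      ∃ (k : Type) (_ : Field k) (_ : Finite k) (_ : CharP k p),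
        (p ^ f + 1) ∣ Nat.card k - 1 ∧
        ∀ N : ℕ, ∃ u : k[X], N ≤ u.natDegree ∧ Admissible p f u ∧
          ∀ (b c : k) (n : ℕ), u ≠ C c * (X - C b) ^ n) := by
  refine ⟨?_, ?_⟩
  · intro p f k _ _ _ hp hp5 hf hd u hu
    obtain ⟨hodd, hu0, hu1⟩ := hu
    have hpF : Fact p.Prime := ⟨hp⟩
    obtain ⟨z, hz⟩ := exists_primitive hd
    have hp2 : p ≠ 2 := by omega
    have h2 : (2 : k) ≠ 0 := by
      intro h
      have h5 : ((2 : ℕ) : k) = 0 := by exact_mod_cast h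
      rw [CharP.cast_eq_zero_iff k p] at h5
      exact hp2 ((Nat.prime_dvd_prime_iff_eq hp Nat.prime_two).mp h5)
    obtain ⟨m, hm⟩ := (hp.odd_of_ne_two hp2).pow (n := f) |>.add_one
    have hm2 : p ^ f + 1 = 2 * m := by omega
    have hm0 : m ≠ 0 := by omega
    have hd0 : p ^ f + 1 ≠ 0 := by omega
    have hw0 : u ^ (p ^ f + 1) ≠ 0 := pow_ne_zero _ hu0.ne_zero
    have hw1 : u ^ (p ^ f + 1) ≠ 1 := by
      intro h
      exact hu0.not_isUnit (IsUnit.of_pow_eq_one h hd0)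
    obtain ⟨hfg, hrk⟩ := legendre_rank p hp2 f hz hu0 hodd hu1
    have hexp : ∀ (n : ℕ) (g : ℤ[X]),
        (((1 - C (Nat.card k : ℤ) * X) ^ n * g : ℤ[X]) : PowerSeries ℤ) =
          LSeries k (legendre (u ^ (p ^ f + 1))) → n ≤ p ^ f - 1 := by
      intro n g hg
      have hz' := hz
      have hu1' := hu1
      rw [hm2] at hg hz' hu1'
      have := legendre_exponent_le h2 hm0 hz' hu0 hodd hu1' hg
      omega
    refine ⟨legendre_Δ_ne_zero h2 hw0 hw1, legendre_j h2 hu0 hd0, hfg, hrk, ?_, hexp⟩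
    unfold analyticRank
    rcases Set.eq_empty_or_nonempty {n : ℕ | ∃ g : ℤ[X],
        (((1 - C (Nat.card k : ℤ) * X) ^ n * g : ℤ[X]) : PowerSeries ℤ) =
          LSeries k (legendre (u ^ (p ^ f + 1)))} with h | h
    · rw [h, csSup_empty]
      exact bot_le
    · apply csSup_le h
      rintro n ⟨g, hg⟩
      exact hexp n g hg
  · intro p f hp hp5 hf
    have hpF : Fact p.Prime := ⟨hp⟩
    obtain ⟨k, i1, i2, i3, hd, h⟩ := exists_admissible p f (by omega) hf
    refine ⟨k, i1, i2, i3, hd, ?_⟩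
    intro N
    obtain ⟨u, h1, h2, h3, h4, h5⟩ := h N
    exact ⟨u, h1, ⟨h2, h3, h4⟩, h5⟩

end Pool.Agent.BSDFF.UnboundedRank
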